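import Pool.Agent.Lib_helper80.SL.Base
import Pool.Agent.Lib_helper80.SL.Defs2
import Pool.Agent.Lib_helper80.SL.Notions2
import Pool.Agent.Lib_helper64.SS.B.IN2

/-! # SL, block Z1: JetNull curves are annihilated by symmetric differentials (MP_45e720_ag) -/

set_option autoImplicit false
set_option linter.unusedVariables false
set_option linter.unusedSectionVars false

open Filter Topology Metric Set
open scoped Manifold ContDiff

namespace Pool.Agent.SL

open Pool.Agent.BR Pool.Agent.MBS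

section man

variable {E X : Type} [NormedAddCommGroup E] [NormedSpace ℂ E] [FiniteDimensional ℂ E]
  [TopologicalSpace X] [ChartedSpace E X] [IsManifold 𝓘(ℂ, E) ω X]

/-- change of charts along a curve -/
theorem z1_chain {f : ℂ → X} {y y' : X} {z : ℂ} (hc : ContinuousAt f z)
    (hy : f z ∈ (chartAt E y).source) (hy' : f z ∈ (chartAt E y').source)
    (hd : DifferentiableAt ℂ (fun z => chartAt E y (f z)) z) :
    HasDerivAt (fun z => chartAt E y' (f z))
      (fderiv ℂ (fun ξ => chartAt E y' ((chartAt E y).symm ξ)) (chartAt E y (f z))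
        (deriv (fun z => chartAt E y (f z)) z)) z := by
  have h1 : HasFDerivAt (fun ξ => chartAt E y' ((chartAt E y).symm ξ))
      (fderiv ℂ (fun ξ => chartAt E y' ((chartAt E y).symm ξ)) (chartAt E y (f z)))
      (chartAt E y (f z)) := (SS.in2_trans hy hy').differentiableAt.hasFDerivAt
  have h2 := h1.comp_hasDerivAt z hd.hasDerivAt
  refine h2.congr_of_eventuallyEq ?_
  have h3 : ∀ᶠ z' in 𝓝 z, f z' ∈ (chartAt E y).source :=
    hc.eventually ((chartAt E y).open_source.mem_nhds hy)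
  filter_upwards [h3] with z' hz'
  show chartAt E y' (f z') = chartAt E y' ((chartAt E y).symm (chartAt E y (f z')))
  rw [(chartAt E y).left_inv hz']

theorem z1_mf {f : ℂ → X} {z : ℂ} (hc : ContinuousAt f z)
    (hd : DifferentiableAt ℂ (fun z' => chartAt E (f z) (f z')) z) :
    (mfderiv 𝓘(ℂ, ℂ) 𝓘(ℂ, E) f z (1 : ℂ) : E) = deriv (fun z' => chartAt E (f z) (f z')) z := by
  have h3 : writtenInExtChartAt 𝓘(ℂ, ℂ) 𝓘(ℂ, E) z f = fun z' => chartAt E (f z) (f z') := by
    funext r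
    simp [writtenInExtChartAt, extChartAt, chartAt_self_eq]
  have hm : MDifferentiableAt 𝓘(ℂ, ℂ) 𝓘(ℂ, E) f z := by
    rw [mdifferentiableAt_iff]
    refine ⟨hc, ?_⟩
    rw [h3]
    simpa [chartAt_self_eq] using hd.differentiableWithinAt (s := univ)
  have h4 : mfderiv 𝓘(ℂ, ℂ) 𝓘(ℂ, E) f z = fderiv ℂ (fun z' => chartAt E (f z) (f z')) z := by
    rw [hm.mfderiv, h3]
    simp [fderivWithin_univ, chartAt_self_eq] <;> rfl
  rw [h4]
  rfl

theorem z1_md {f : ℂ → X} {z : ℂ} (h : MDifferentiableAt 𝓘(ℂ, ℂ) 𝓘(ℂ, E) f z) :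
    ContinuousAt f z ∧ DifferentiableAt ℂ (fun z' => chartAt E (f z) (f z')) z := by
  have h1 := (mdifferentiableAt_iff _ _).1 h
  refine ⟨h1.1, ?_⟩
  have h3 : writtenInExtChartAt 𝓘(ℂ, ℂ) 𝓘(ℂ, E) z f = fun z' => chartAt E (f z) (f z') := by
    funext r
    simp [writtenInExtChartAt, extChartAt, chartAt_self_eq]
  have h2 := h1.2
  rw [h3] at h2
  simp only [mfld_simps, chartAt_self_eq, differentiableWithinAt_univ] at h2
  exact h2

/-- a symmetric differential on the velocity, in a chart -/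
theorem z1_vel {f : ℂ → X} {y : X} {z : ℂ} (hf : MDifferentiableAt 𝓘(ℂ, ℂ) 𝓘(ℂ, E) f z)
    (hy : f z ∈ (chartAt E y).source)
    {σ : TangentBundle 𝓘(ℂ, E) X → ℂ} {S : X → E → E → ℂ}
    (hS : ∀ y y' x, x ∈ (chartAt E y).source → x ∈ (chartAt E y').source → ∀ w,
        S y (chartAt E y x) w = S y' (chartAt E y' x)
          (fderiv ℂ (fun ξ => chartAt E y' ((chartAt E y).symm ξ)) (chartAt E y x) w))
    (hs : ∀ x w, S x (chartAt E x x) w = σ ⟨x, w⟩) :
    DifferentiableAt ℂ (fun z => chartAt E y (f z)) z ∧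
    σ (BrodyRigid.velocity (E := E) f z) =
      S y (chartAt E y (f z)) (deriv (fun z => chartAt E y (f z)) z) := by
  obtain ⟨hc, h2⟩ := z1_md hf
  have hx := mem_chart_source E (f z)
  have h3 := z1_chain hc hx hy h2
  refine ⟨h3.differentiableAt, ?_⟩
  have h4 := hS (f z) y (f z) hx hy (deriv (fun z' => chartAt E (f z) (f z')) z)
  rw [← h3.deriv] at h4
  rw [← h4, hs]
  have h5 := z1_mf hc h2
  rw [BrodyRigid.velocity, ← h5]
  rfl

theorem z1_jet {m : ℕ} (hm : 0 < m) {σ : TangentBundle 𝓘(ℂ, E) X → ℂ}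
    (hσ : SS.IsSymDiff E X m σ) : MinBrody.IsInvariantJetDifferential E 1 m
      (fun c : ℂ → X => σ (BrodyRigid.velocity (E := E) c 0)) := by
  obtain ⟨S, S1, S2, S3, S4⟩ := SS.symDiff_chart hσ
  refine ⟨fun y => ⟨fun J => S y (J 0) (J 1), fun J hJ => ?_, fun c hc hy => ?_⟩, ?_, ?_⟩
  · have h1 : AnalyticAt ℂ (fun J : Fin (1 + 1) → E => (J 0, J 1)) J := by
      have h2 : ∀ i : Fin (1 + 1), AnalyticAt ℂ (fun J : Fin (1 + 1) → E => J i) J := fun i =>
        (ContinuousLinearMap.proj (R := ℂ) (φ := fun _ : Fin (1 + 1) => E) i).analyticAt J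
      exact (h2 0).prod (h2 1)
    exact AnalyticAt.comp (g := fun p : E × E => S y p.1 p.2)
      (f := fun J : Fin (1 + 1) → E => (J 0, J 1)) (S1 y (J 0) hJ (J 1)) h1
  · have h1 := (z1_vel hc.self_of_nhds hy S3 S4).2
    rw [h1]
    have e0 : MinBrody.chartJet E 1 y c 0 = chartAt E y (c 0) := by
      show iteratedDeriv 0 _ _ = _
      rw [iteratedDeriv_zero]
    have e1 : MinBrody.chartJet E 1 y c 1 = deriv (fun z => chartAt E y (c z)) 0 := by
      show iteratedDeriv 1 _ _ = _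
      rw [iteratedDeriv_one]
    show _ = S y (MinBrody.chartJet E 1 y c 0) (MinBrody.chartJet E 1 y c 1)
    rw [e0, e1]
  · intro c hc ψ hψ h0
    have hs := mem_chart_source E (c 0)
    have hc0 := hc.self_of_nhds
    obtain ⟨h1, h2⟩ := z1_vel hc0 hs S3 S4
    have hψ' : MDifferentiableAt 𝓘(ℂ, ℂ) 𝓘(ℂ, ℂ) ψ 0 := hψ.differentiableAt.mdifferentiableAt
    have hcψ : MDifferentiableAt 𝓘(ℂ, ℂ) 𝓘(ℂ, E) (c ∘ ψ) 0 := by
      refine MDifferentiableAt.comp (0 : ℂ) (I' := 𝓘(ℂ, ℂ)) ?_ hψ'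
      rw [h0]
      exact hc0
    have hs' : (c ∘ ψ) 0 ∈ (chartAt E (c 0)).source := by
      show c (ψ 0) ∈ _
      rw [h0]
      exact hs
    obtain ⟨h3, h4⟩ := z1_vel hcψ hs' S3 S4
    rw [h4, h2]
    have h5 : deriv (fun z => chartAt E (c 0) ((c ∘ ψ) z)) 0 =
        deriv ψ 0 • deriv (fun z => chartAt E (c 0) (c z)) 0 := by
      have h6 : HasDerivAt (fun z => chartAt E (c 0) (c z))
          (deriv (fun z => chartAt E (c 0) (c z)) 0) (ψ 0) := by
        rw [h0]
        exact h1.hasDerivAt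
      exact (h6.scomp (0 : ℂ) hψ.differentiableAt.hasDerivAt).deriv
    have h7 : chartAt E (c 0) ((c ∘ ψ) 0) = chartAt E (c 0) (c 0) := by
      show chartAt E (c 0) (c (ψ 0)) = _
      rw [h0]
    rw [h5, h7]
    exact S2 (c 0) _ ((chartAt E (c 0)).map_source hs) _ _
  · intro c hc y hy hd
    rw [(z1_vel hc.self_of_nhds hy S3 S4).2, hd]
    have h4 := S2 y _ ((chartAt E y).map_source hy) 0 0
    rwa [smul_zero, zero_pow hm.ne', zero_mul] at h4

theorem jetnull_annihilated_pr {h : ℂ → X} (hh : MDifferentiable 𝓘(ℂ, ℂ) 𝓘(ℂ, E) h)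
    (hJ : StrongLang.JetNull E h) : BrodyRigid.Annihilated (E := E) h := by
  intro m hm σ hσ z
  have h1 := hJ 1 m _ hm (z1_jet hm hσ) z
  obtain ⟨S, S1, S2, S3, S4⟩ := SS.symDiff_chart hσ
  have hs := mem_chart_source E (h z)
  have hs' : (fun w => h (w + z)) 0 ∈ (chartAt E (h z)).source := by
    show h (0 + z) ∈ _
    rw [zero_add]
    exact hs
  have hm' : MDifferentiableAt 𝓘(ℂ, ℂ) 𝓘(ℂ, E) (fun w => h (w + z)) 0 := by
    have h2 : MDifferentiableAt 𝓘(ℂ, ℂ) 𝓘(ℂ, ℂ) (fun w : ℂ => w + z) 0 :=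
      (differentiableAt_id.add_const z).mdifferentiableAt
    exact MDifferentiableAt.comp (0 : ℂ) (I' := 𝓘(ℂ, ℂ)) (hh (0 + z)) h2
  rw [(z1_vel hm' hs' S3 S4).2] at h1
  rw [(z1_vel (hh z) hs S3 S4).2]
  have e1 : deriv (fun w => chartAt E (h z) (h (w + z))) 0 =
      deriv (fun w => chartAt E (h z) (h w)) z := by
    have := deriv_comp_add_const (fun w => chartAt E (h z) (h w)) z 0
    rwa [zero_add] at this
  rw [e1] at h1
  have e2 : chartAt E (h z) (h (0 + z)) = chartAt E (h z) (h z) := by rw [zero_add]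
  rw [e2] at h1
  exact h1

end man



end Pool.Agent.SL

namespace Pool.Agent.SL

alias jetnull_annihilated := jetnull_annihilated_pr

end Pool.Agent.SL
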