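import Pool.Agent.Lib_helper80.SL.Base
import Pool.Agent.Lib_helper80.SL.Defs2
import Pool.Agent.Lib_helper80.SL.Notions2
import Pool.Agent.Lib_helper64.SS.B.HOL

/-! # SL, block Z2: holomorphic maps to tori along curves annihilated by all jet differentials -/

set_option autoImplicit false
set_option linter.unusedVariables false
set_option linter.unusedSectionVars false

open Filter Topology Metric Set
open scoped Manifold ContDiff

namespace Pool.Agent.SL

open Pool.Agent.BR Pool.Agent.MBS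

/-- two lifts differ by a locally constant function -/
theorem z2_const {X : Type} [TopologicalSpace X] {W : Type} [NormedAddCommGroup W]
    [NormedSpace ℂ W] {Γ : Submodule ℤ W} [DiscreteTopology Γ] {φ : X → W ⧸ Γ} {F G : X → W}
    {x : X} (hF : ContinuousAt F x) (hG : ContinuousAt G x)
    (hF' : ∀ᶠ y in 𝓝 x, φ y = Submodule.Quotient.mk (F y))
    (hG' : ∀ᶠ y in 𝓝 x, φ y = Submodule.Quotient.mk (G y)) :
    ∀ᶠ y in 𝓝 x, F y = G y + (F x - G x) := by
  have hmem : ∀ᶠ y in 𝓝 x, F y - G y ∈ Γ := by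
    filter_upwards [hF', hG'] with y h1 h2
    exact (Submodule.Quotient.eq Γ).1 (h1.symm.trans h2)
  have hx : F x - G x ∈ Γ := hmem.self_of_nhds
  have h0 : ∃ U : Set W, IsOpen U ∧ (0 : W) ∈ U ∧ ∀ γ ∈ Γ, γ ∈ U → γ = 0 := by
    have h1 : IsOpen ({0} : Set Γ) := isOpen_discrete _
    obtain ⟨U, hU, hU'⟩ := isOpen_induced_iff.1 h1
    refine ⟨U, hU, ?_, fun γ hγ hγU => ?_⟩
    · have h2 : (0 : Γ) ∈ (Subtype.val ⁻¹' U : Set Γ) := by
        rw [hU']
        rfl
      exact h2
    · have h2 : (⟨γ, hγ⟩ : Γ) ∈ (Subtype.val ⁻¹' U : Set Γ) := hγU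
      rw [hU'] at h2
      exact congrArg Subtype.val h2
  obtain ⟨U, hU, h0U, hU'⟩ := h0
  have hc : ContinuousAt (fun y => (F y - G y) - (F x - G x)) x :=
    (hF.sub hG).sub continuousAt_const
  have h1 : ∀ᶠ y in 𝓝 x, (F y - G y) - (F x - G x) ∈ U := by
    refine hc.eventually_mem ?_
    rw [sub_self]
    exact hU.mem_nhds h0U
  filter_upwards [hmem, h1] with y hy hy'
  have h2 := hU' _ (Γ.sub_mem hy hx) hy'
  rw [← sub_eq_zero.1 h2]
  abel

section man

variable {E X : Type} [NormedAddCommGroup E] [NormedSpace ℂ E] [FiniteDimensional ℂ E]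
  [TopologicalSpace X] [ChartedSpace E X] [IsManifold 𝓘(ℂ, E) ω X]

omit [FiniteDimensional ℂ E] in
/-- a holomorphic map in a chart -/
theorem z2_chart {W : Type} [NormedAddCommGroup W] [NormedSpace ℂ W] {G : X → W} {y : X} {ξ : E}
    (hξ : ξ ∈ (chartAt E y).target)
    (hG : MDifferentiableAt 𝓘(ℂ, E) 𝓘(ℂ, W) G ((chartAt E y).symm ξ)) :
    DifferentiableAt ℂ (fun ξ => G ((chartAt E y).symm ξ)) ξ := by
  have h1 : MDifferentiableAt 𝓘(ℂ, E) 𝓘(ℂ, E) (chartAt E y).symm ξ :=
    mdifferentiableAt_atlas_symm (I := 𝓘(ℂ, E)) (chart_mem_atlas E y) hξ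
  have h2 : MDifferentiableAt 𝓘(ℂ, E) 𝓘(ℂ, W) (G ∘ (chartAt E y).symm) ξ := hG.comp ξ h1
  exact mdifferentiableAt_iff_differentiableAt.1 h2

/-- a holomorphic map in a chart is analytic -/
theorem z2_an {W : Type} [NormedAddCommGroup W] [NormedSpace ℂ W] [FiniteDimensional ℂ W]
    {G : X → W} {y : X} {ξ : E} (hξ : ξ ∈ (chartAt E y).target)
    (hG : ∀ᶠ x in 𝓝 ((chartAt E y).symm ξ), MDifferentiableAt 𝓘(ℂ, E) 𝓘(ℂ, W) G x) :
    AnalyticAt ℂ (fun ξ => G ((chartAt E y).symm ξ)) ξ := by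
  have : CompleteSpace W := FiniteDimensional.complete ℂ W
  have hc : ContinuousAt (chartAt E y).symm ξ := (chartAt E y).continuousAt_symm hξ
  have h1 : ∀ᶠ ξ' in 𝓝 ξ, DifferentiableAt ℂ (fun ξ => G ((chartAt E y).symm ξ)) ξ' := by
    filter_upwards [hc.eventually hG, (chartAt E y).open_target.mem_nhds hξ] with ξ' h1 h2
    exact z2_chart h2 h1
  obtain ⟨U, hU, hUo, hξU⟩ := _root_.eventually_nhds_iff.1 h1
  exact SS.hol_analytic hUo hU hξU

omit [FiniteDimensional ℂ E] in
/-- a holomorphic map along a germ, in a chart -/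
theorem z2_curve {W : Type} [NormedAddCommGroup W] [NormedSpace ℂ W] {G : X → W} {c : ℂ → X}
    {z : ℂ} (hc : MDifferentiableAt 𝓘(ℂ, ℂ) 𝓘(ℂ, E) c z)
    (hG : MDifferentiableAt 𝓘(ℂ, E) 𝓘(ℂ, W) G (c z)) {y : X} (hy : c z ∈ (chartAt E y).source) :
    HasDerivAt (fun w => G (c w))
      (fderiv ℂ (fun ξ => G ((chartAt E y).symm ξ)) (chartAt E y (c z))
        (deriv (fun w => chartAt E y (c w)) z)) z := by
  have h1 : MDifferentiableAt 𝓘(ℂ, E) 𝓘(ℂ, E) (chartAt E y) (c z) :=
    mdifferentiableAt_atlas (I := 𝓘(ℂ, E)) (chart_mem_atlas E y) hy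
  have h2 : MDifferentiableAt 𝓘(ℂ, ℂ) 𝓘(ℂ, E) (chartAt E y ∘ c) z := h1.comp z hc
  have h3 : DifferentiableAt ℂ (fun w => chartAt E y (c w)) z :=
    mdifferentiableAt_iff_differentiableAt.1 h2
  have h4 : DifferentiableAt ℂ (fun ξ => G ((chartAt E y).symm ξ)) (chartAt E y (c z)) :=
    z2_chart ((chartAt E y).map_source hy) (by rw [(chartAt E y).left_inv hy]; exact hG)
  have h5 := h4.hasFDerivAt.comp_hasDerivAt z h3.hasDerivAt
  refine h5.congr_of_eventuallyEq ?_
  filter_upwards [hc.continuousAt.eventually_mem ((chartAt E y).open_source.mem_nhds hy)] with w hw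
  show G (c w) = G ((chartAt E y).symm (chartAt E y (c w)))
  rw [(chartAt E y).left_inv hw]

/-- the differential of a map to a torus is a jet differential -/
theorem z2_jet {W : Type} [NormedAddCommGroup W] [NormedSpace ℂ W]
    [FiniteDimensional ℂ W] {Γ : Submodule ℤ W} [DiscreteTopology Γ] {φ : X → W ⧸ Γ}
    {F : X → X → W} (hF : ∀ x, ∀ᶠ y in 𝓝 x, MDifferentiableAt 𝓘(ℂ, E) 𝓘(ℂ, W) (F x) y ∧
      φ y = Submodule.Quotient.mk (F x y)) (l : W →L[ℂ] ℂ) :
    MinBrody.IsInvariantJetDifferential E 1 1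
      (fun c : ℂ → X => l (deriv (fun z => F (c 0) (c z)) 0)) := by
  have hdiff : ∀ c : ℂ → X, MinBrody.IsGerm E c → ∀ y : X, c 0 ∈ (chartAt E y).source →
      HasDerivAt (fun z => F (c 0) (c z))
        (fderiv ℂ (fun ξ => F (c 0) ((chartAt E y).symm ξ)) (chartAt E y (c 0))
          (deriv (fun z => chartAt E y (c z)) 0)) 0 := fun c hc y hy =>
    z2_curve (G := F (c 0)) hc.self_of_nhds (hF (c 0)).self_of_nhds.1 hy
  refine ⟨fun y => ⟨fun J => l (fderiv ℂ
    (fun ξ => F ((chartAt E y).symm (J 0)) ((chartAt E y).symm ξ)) (J 0) (J 1)), ?_, ?_⟩, ?_, ?_⟩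
  · intro J hJ
    set G : X → W := F ((chartAt E y).symm (J 0)) with hG
    have h1 := hF ((chartAt E y).symm (J 0))
    have h2 : AnalyticAt ℂ (fun ξ => G ((chartAt E y).symm ξ)) (J 0) :=
      z2_an hJ (h1.mono fun _ h => h.1)
    have h0 : AnalyticAt ℂ (fun J : Fin (1 + 1) → E => J 0) J :=
      (ContinuousLinearMap.proj (R := ℂ) (φ := fun _ : Fin (1 + 1) => E) 0).analyticAt J
    have h0' : AnalyticAt ℂ (fun J : Fin (1 + 1) → E => J 1) J :=
      (ContinuousLinearMap.proj (R := ℂ) (φ := fun _ : Fin (1 + 1) => E) 1).analyticAt J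
    have h3 : AnalyticAt ℂ (fun J : Fin (1 + 1) → E =>
        fderiv ℂ (fun ξ => G ((chartAt E y).symm ξ)) (J 0)) J :=
      h2.fderiv.comp (f := fun J : Fin (1 + 1) → E => J 0) h0
    have h30 : AnalyticAt ℂ (fun J : Fin (1 + 1) → E =>
        fderiv ℂ (fun ξ => G ((chartAt E y).symm ξ)) (J 0) (J 1)) J :=
      AnalyticAt.comp (g := fun p : (E →L[ℂ] W) × E => p.1 p.2)
        (f := fun J : Fin (1 + 1) → E =>
          (fderiv ℂ (fun ξ => G ((chartAt E y).symm ξ)) (J 0), J 1))
        ((ContinuousLinearMap.id ℂ (E →L[ℂ] W)).analyticAt_bilinear _) (h3.prod h0')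
    have h4 : AnalyticAt ℂ (fun J : Fin (1 + 1) → E =>
        l (fderiv ℂ (fun ξ => G ((chartAt E y).symm ξ)) (J 0) (J 1))) J :=
      (l.analyticAt _).comp (f := fun J : Fin (1 + 1) → E =>
        fderiv ℂ (fun ξ => G ((chartAt E y).symm ξ)) (J 0) (J 1)) h30
    refine h4.congr ?_
    have hc : ContinuousAt (fun J : Fin (1 + 1) → E => (chartAt E y).symm (J 0)) J :=
      ContinuousAt.comp (g := (chartAt E y).symm) (f := fun J : Fin (1 + 1) → E => J 0)
        ((chartAt E y).continuousAt_symm hJ) (continuous_apply 0).continuousAt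
    have h5 : ∀ᶠ J' : Fin (1 + 1) → E in 𝓝 J, J' 0 ∈ (chartAt E y).target :=
      (continuous_apply 0).continuousAt.eventually_mem
        ((chartAt E y).open_target.mem_nhds hJ)
    filter_upwards [hc.eventually (eventually_eventually_nhds.2 h1), h5] with J' h6 h7
    have h8 := hF ((chartAt E y).symm (J' 0))
    have h9 := z2_const (φ := φ) (F := F ((chartAt E y).symm (J' 0))) (G := G)
      h8.self_of_nhds.1.continuousAt h6.self_of_nhds.1.continuousAt
      (h8.mono fun _ h => h.2) (h6.mono fun _ h => h.2)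
    have h10 : (fun ξ => F ((chartAt E y).symm (J' 0)) ((chartAt E y).symm ξ)) =ᶠ[𝓝 (J' 0)]
        fun ξ => G ((chartAt E y).symm ξ) + (F ((chartAt E y).symm (J' 0))
          ((chartAt E y).symm (J' 0)) - G ((chartAt E y).symm (J' 0))) :=
      ((chartAt E y).continuousAt_symm h7).eventually h9
    show l (fderiv ℂ (fun ξ => G ((chartAt E y).symm ξ)) (J' 0) (J' 1)) =
      l (fderiv ℂ (fun ξ => F ((chartAt E y).symm (J' 0)) ((chartAt E y).symm ξ)) (J' 0) (J' 1))
    rw [h10.fderiv_eq, fderiv_add_const]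
  · intro c hc hy
    have h1 : MinBrody.chartJet E 1 y c 0 = chartAt E y (c 0) := by
      simp [MinBrody.chartJet]
    have h2 : MinBrody.chartJet E 1 y c 1 = deriv (fun z => chartAt E y (c z)) 0 := by
      simp [MinBrody.chartJet, iteratedDeriv_one]
    show l (deriv (fun z => F (c 0) (c z)) 0) = l (fderiv ℂ
      (fun ξ => F ((chartAt E y).symm (MinBrody.chartJet E 1 y c 0)) ((chartAt E y).symm ξ))
      (MinBrody.chartJet E 1 y c 0) (MinBrody.chartJet E 1 y c 1))
    rw [h1, h2, (chartAt E y).left_inv hy, (hdiff c hc y hy).deriv]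
  · intro c hc ψ hψ hψ0
    have h1 := hdiff c hc (c 0) (mem_chart_source E (c 0))
    have h2 : HasDerivAt (fun z => F (c 0) (c (ψ z))) (deriv ψ 0 • deriv (fun z => F (c 0) (c z)) 0)
        0 := by
      refine HasDerivAt.scomp (0 : ℂ) (h := ψ) (g₁ := fun z => F (c 0) (c z)) ?_
        hψ.differentiableAt.hasDerivAt
      rw [hψ0]
      exact h1.differentiableAt.hasDerivAt
    show l (deriv (fun z => F (c (ψ 0)) (c (ψ z))) 0) =
      (deriv ψ 0) ^ 1 * l (deriv (fun z => F (c 0) (c z)) 0)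
    rw [hψ0, h2.deriv, map_smul, smul_eq_mul, pow_one]
  · intro c hc y hy h0
    show l (deriv (fun z => F (c 0) (c z)) 0) = 0
    rw [(hdiff c hc y hy).deriv, h0, map_zero, map_zero]

/-- BLOCK Z2 -/
theorem jetnull_torus_pr {h : ℂ → X} (hh : MDifferentiable 𝓘(ℂ, ℂ) 𝓘(ℂ, E) h)
    (hJ : StrongLang.JetNull E h) {W : Type} [NormedAddCommGroup W] [NormedSpace ℂ W]
    [FiniteDimensional ℂ W] {Γ : Submodule ℤ W} [DiscreteTopology Γ] {φ : X → W ⧸ Γ}
    (hφ : StrongLang.IsTorusValued E Γ φ) : ∀ z z', φ (h z) = φ (h z') := by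
  choose F hF using hφ
  -- the derivative of a lift vanishes
  have hder : ∀ z, deriv (fun w => F (h z) (h w)) z = 0 := by
    intro z
    have h1 : ∀ l : W →L[ℂ] ℂ, l (deriv (fun w => F (h z) (h w)) z) = 0 := by
      intro l
      have h2 := hJ 1 1 _ one_pos (z2_jet hF l) z
      have h3 : deriv (fun w => F (h (0 + z)) (h (w + z))) 0 =
          deriv (fun w => F (h z) (h w)) z := by
        rw [zero_add, deriv_comp_add_const (fun w => F (h z) (h w)) z 0, zero_add]
      rw [← h3]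
      exact h2
    by_contra hne
    obtain ⟨l, hl⟩ := SeparatingDual.exists_ne_zero (R := ℂ) hne
    exact hl (h1 l)
  have hlc : IsLocallyConstant fun z => φ (h z) := by
    rw [IsLocallyConstant.iff_eventually_eq]
    intro z₀
    have hc : ContinuousAt h z₀ := (hh z₀).continuousAt
    have h1 := hc.eventually (eventually_eventually_nhds.2 (hF (h z₀)))
    obtain ⟨r, hr, hball⟩ := Metric.eventually_nhds_iff_ball.1 h1
    have h2 : ∀ z ∈ ball z₀ r, HasDerivAt (fun w => F (h z₀) (h w)) 0 z := by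
      intro z hz
      have h3 := hball z hz
      have h4 := hF (h z)
      have h5 := z2_const (φ := φ) (F := F (h z₀)) (G := F (h z))
        h3.self_of_nhds.1.continuousAt h4.self_of_nhds.1.continuousAt
        (h3.mono fun _ h => h.2) (h4.mono fun _ h => h.2)
      have h6 : (fun w => F (h z₀) (h w)) =ᶠ[𝓝 z]
          fun w => F (h z) (h w) + (F (h z₀) (h z) - F (h z) (h z)) :=
        (hh z).continuousAt.eventually h5
      have h7 := (z2_curve (G := F (h z)) (hh z) h4.self_of_nhds.1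
        (mem_chart_source E (h z))).differentiableAt.hasDerivAt
      rw [hder z] at h7
      exact (h7.add_const _).congr_of_eventuallyEq h6
    have h3 : ∀ z ∈ ball z₀ r, F (h z₀) (h z) = F (h z₀) (h z₀) := by
      intro z hz
      refine isOpen_ball.is_const_of_deriv_eq_zero (f := fun w => F (h z₀) (h w))
        (convex_ball z₀ r).isPreconnected
        (fun w hw => (h2 w hw).differentiableAt.differentiableWithinAt)
        (fun w hw => (h2 w hw).deriv) hz (mem_ball_self hr)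
    filter_upwards [ball_mem_nhds z₀ hr] with z hz
    rw [(hball z hz).self_of_nhds.2, h3 z hz,
      (hball z₀ (mem_ball_self hr)).self_of_nhds.2]
  intro z z'
  exact hlc.apply_eq_of_preconnectedSpace z z'

end man



end Pool.Agent.SL

namespace Pool.Agent.SL

alias jetnull_torus := jetnull_torus_pr

end Pool.Agent.SL
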