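import Pool.Agent.Lib_helper80.SL.Base
import Pool.Agent.Lib_helper82.BR.B.LIM

/-! # Hyperbolicity modulo tori (MP_45e720_ag), block B1: curves, identity theorem, chain rule -/

set_option autoImplicit false
set_option linter.unusedVariables false
set_option linter.unusedSectionVars false

open Filter Topology Metric Set
open scoped Manifold ContDiff

namespace Pool.Agent.SL

open Pool.Agent.BR Pool.Agent.MBS

section

variable {E X : Type} [NormedAddCommGroup E] [NormedSpace ℂ E] [FiniteDimensional ℂ E]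
  [MetricSpace X] [CompactSpace X] {A : Cha E X}

theorem holAt_near_pr {f : ℂ → X} {z : ℂ} (hf : A.HolAt f z) : ∀ᶠ w in 𝓝 z, A.HolAt f w := by
  obtain ⟨i, hi⟩ := A.cover (f z)
  have hs : f z ∈ (A.ch i).source := A.W_sub i (subset_closure hi)
  have h1 : ∀ᶠ w in 𝓝 z, f w ∈ (A.ch i).source :=
    hf.1.eventually ((A.ch i).open_source.mem_nhds hs)
  filter_upwards [eventually_eventually_nhds.2 h1, (hf.2 i hs).eventually_analyticAt]
    with w hw ha
  have hws : f w ∈ (A.ch i).source := hw.self_of_nhds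
  have hc : ContinuousAt f w := by
    have h2 : f =ᶠ[𝓝 w] fun v => (A.ch i).symm (A.loc i f v) := by
      filter_upwards [hw] with v hv
      exact ((A.ch i).left_inv hv).symm
    refine ContinuousAt.congr ?_ h2.symm
    have h3 : ContinuousAt (A.ch i).symm (A.loc i f w) :=
      (A.ch i).continuousAt_symm ((A.ch i).map_source hws)
    exact ContinuousAt.comp (f := A.loc i f) (g := (A.ch i).symm) h3 ha.continuousAt
  exact lim_holAt_of_chart A hc hws ha

theorem hol_ident_pr {f g : ℂ → X} {U : Set ℂ} (hU : IsPreconnected U) (hUo : IsOpen U)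
    (hf : ∀ z ∈ U, A.HolAt f z) (hg : ∀ z ∈ U, A.HolAt g z) {z₀ : ℂ} (hz₀ : z₀ ∈ U)
    (h : f =ᶠ[𝓝 z₀] g) : EqOn f g U := by
  have hSo : IsOpen {z : ℂ | f =ᶠ[𝓝 z] g} := by
    rw [isOpen_iff_mem_nhds]
    intro z hz
    exact eventually_eventually_nhds.2 hz
  have key : U ⊆ {z : ℂ | f =ᶠ[𝓝 z] g} := by
    refine hU.subset_of_closure_inter_subset hSo ⟨z₀, hz₀, h⟩ ?_
    rintro z ⟨hzc, hzU⟩
    have hfr : ∃ᶠ w in 𝓝[≠] z, f =ᶠ[𝓝 w] g := by
      rw [frequently_iff]
      intro V hV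
      obtain ⟨W, hWo, hzW, hW⟩ := mem_nhdsWithin.1 hV
      obtain ⟨w, hwW, hwS⟩ := mem_closure_iff.1 hzc W hWo hzW
      have hO : IsOpen (W ∩ {z : ℂ | f =ᶠ[𝓝 z] g}) := hWo.inter hSo
      obtain ⟨v, hv, hvz⟩ : ∃ v ∈ W ∩ {z : ℂ | f =ᶠ[𝓝 z] g}, v ≠ z := by
        by_contra hcon
        push Not at hcon
        have h1 : W ∩ {z : ℂ | f =ᶠ[𝓝 z] g} = {z} := by
          apply Subset.antisymm
          · intro v hv
            exact hcon v hv
          · rintro v rfl
            have h2 := hcon w ⟨hwW, hwS⟩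
            rw [← h2]
            exact ⟨hwW, hwS⟩
        rw [h1] at hO
        exact not_isOpen_singleton z hO
      exact ⟨v, hW ⟨hv.1, hvz⟩, hv.2⟩
    have hfr' : ∃ᶠ w in 𝓝[≠] z, f w = g w := hfr.mono fun w hw => hw.self_of_nhds
    have hfg : f z = g z := by
      have h1 : Tendsto (fun w => (f w, g w)) (𝓝 z) (𝓝 (f z, g z)) :=
        ((hf z hzU).1.tendsto).prodMk_nhds (hg z hzU).1.tendsto
      have h2 : ∃ᶠ w in 𝓝 z, (f w, g w) ∈ diagonal X :=
        (hfr'.filter_mono nhdsWithin_le_nhds)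
      exact isClosed_diagonal.mem_of_frequently_of_tendsto h2 h1
    obtain ⟨i, hi⟩ := A.cover (f z)
    have hs : f z ∈ (A.ch i).source := A.W_sub i (subset_closure hi)
    have hs' : g z ∈ (A.ch i).source := by rw [← hfg]; exact hs
    have h3 : ∃ᶠ w in 𝓝[≠] z, A.loc i f w = A.loc i g w := by
      refine hfr'.mono fun w hw => ?_
      rw [Cha.loc, Cha.loc, hw]
    have h4 := (AnalyticAt.frequently_eq_iff_eventually_eq ((hf z hzU).2 i hs)
      ((hg z hzU).2 i hs')).1 h3
    have h5 : ∀ᶠ w in 𝓝 z, f w ∈ (A.ch i).source :=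
      (hf z hzU).1.eventually ((A.ch i).open_source.mem_nhds hs)
    have h6 : ∀ᶠ w in 𝓝 z, g w ∈ (A.ch i).source :=
      (hg z hzU).1.eventually ((A.ch i).open_source.mem_nhds hs')
    change f =ᶠ[𝓝 z] g
    filter_upwards [h4, h5, h6] with w h4 h5 h6
    exact (A.ch i).injOn h5 h6 h4
  intro z hz
  exact (key hz).self_of_nhds

theorem hol_comp_pr {f : ℂ → X} {φ : ℂ → ℂ} {w : ℂ} (hφ : AnalyticAt ℂ φ w)
    (hf : A.HolAt f (φ w)) :
    A.HolAt (fun u => f (φ u)) w ∧ ∀ i, f (φ w) ∈ (A.ch i).source →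
      deriv (A.loc i fun u => f (φ u)) w = deriv φ w • deriv (A.loc i f) (φ w) := by
  refine ⟨⟨?_, fun i hi => ?_⟩, fun i hi => ?_⟩
  · exact ContinuousAt.comp (f := φ) (g := f) hf.1 hφ.continuousAt
  · exact (hf.2 i hi).comp hφ
  · exact deriv.scomp w (hf.2 i hi).differentiableAt hφ.differentiableAt

end





end Pool.Agent.SL

namespace Pool.Agent.SL

alias holAt_near := holAt_near_pr
alias hol_ident := hol_ident_pr
alias hol_comp := hol_comp_pr

end Pool.Agent.SL
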