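import Pool.Agent.Lib_helper80.SL.Base

set_option autoImplicit false
set_option linter.unusedVariables false
set_option linter.unusedSectionVars false

open Filter Topology Metric Set
open scoped Manifold ContDiff

namespace Pool.Agent.SL

open Pool.Agent.BR Pool.Agent.MBS

theorem a2_max {s : ℕ} {F : ℂ → Fin s → ℂ} {b : ℝ}
    (hF : ∀ z ∈ ball (0 : ℂ) (Real.exp b), AnalyticAt ℂ F z) (t : ℝ) (ht : t < b) :
    ∃ z : ℂ, ‖z‖ = Real.exp t ∧ ∀ w : ℂ, ‖w‖ ≤ Real.exp t → ‖F w‖ ≤ ‖F z‖ := by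
  have hpos : 0 < Real.exp t := Real.exp_pos t
  have hlt : Real.exp t < Real.exp b := Real.exp_lt_exp.2 ht
  have hd : DiffContOnCl ℂ F (ball (0 : ℂ) (Real.exp t)) := by
    apply DifferentiableOn.diffContOnCl
    intro z hz
    rw [closure_ball _ hpos.ne'] at hz
    have : z ∈ ball (0 : ℂ) (Real.exp b) := by
      rw [mem_closedBall_zero_iff] at hz
      rw [mem_ball_zero_iff]
      linarith
    exact (hF z this).differentiableAt.differentiableWithinAt
  obtain ⟨z, hz, hmax⟩ := Complex.exists_mem_frontier_isMaxOn_norm isBounded_ball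
    (nonempty_ball.2 hpos) hd
  rw [frontier_ball _ hpos.ne', mem_sphere_zero_iff_norm] at hz
  refine ⟨z, hz, fun w hw => ?_⟩
  have hw' : w ∈ closure (ball (0 : ℂ) (Real.exp t)) := by
    rw [closure_ball _ hpos.ne', mem_closedBall_zero_iff]
    exact hw
  exact hmax hw'

theorem a2_pos {s : ℕ} {F : ℂ → Fin s → ℂ} {b : ℝ}
    (hF : ∀ z ∈ ball (0 : ℂ) (Real.exp b), AnalyticAt ℂ F z)
    (hne : ∃ z ∈ ball (0 : ℂ) (Real.exp b), F z ≠ 0) (t : ℝ) :
    ∃ w : ℂ, ‖w‖ ≤ Real.exp t ∧ F w ≠ 0 := by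
  by_contra hcon
  push Not at hcon
  obtain ⟨z, hz, hFz⟩ := hne
  apply hFz
  have h0 : (0 : ℂ) ∈ ball (0 : ℂ) (Real.exp b) := mem_ball_self (Real.exp_pos b)
  have hev : F =ᶠ[𝓝 (0 : ℂ)] 0 := by
    filter_upwards [closedBall_mem_nhds (0 : ℂ) (Real.exp_pos t)] with w hw
    exact hcon w (mem_closedBall_zero_iff.1 hw)
  exact AnalyticOnNhd.eqOn_zero_of_preconnected_of_eventuallyEq_zero (𝕜 := ℂ) (f := F)
    (U := ball (0 : ℂ) (Real.exp b)) hF (convex_ball _ _).isPreconnected h0 hev hz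

theorem a2_three {s : ℕ} {F : ℂ → Fin s → ℂ} {b : ℝ}
    (hF : ∀ z ∈ ball (0 : ℂ) (Real.exp b), AnalyticAt ℂ F z) (M : ℝ → ℝ)
    (hM : ∀ t < b, ∀ z : ℂ, ‖z‖ ≤ Real.exp t → ‖F z‖ ≤ M t)
    (hM' : ∀ t < b, ∃ z : ℂ, ‖z‖ = Real.exp t ∧ ‖F z‖ = M t) {l x u : ℝ} (hlx : l ≤ x)
    (hxu : x ≤ u) (hlu : l < u) (hub : u < b) :
    M x ≤ M l ^ (1 - (x - l) / (u - l)) * M u ^ ((x - l) / (u - l)) := by
  obtain ⟨z, hz, hFz⟩ := hM' x (lt_of_le_of_lt hxu hub)
  have hz0 : z ≠ 0 := by
    intro h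
    rw [h, norm_zero] at hz
    exact (Real.exp_pos x).ne hz
  set w := Complex.log z with hw
  have hexp : Complex.exp w = z := Complex.exp_log hz0
  have hre : w.re = x := by
    rw [hw, Complex.log_re, hz, Real.log_exp]
  have hnorm : ∀ v : ℂ, ‖Complex.exp v‖ = Real.exp v.re := fun v => Complex.norm_exp v
  have h := Complex.HadamardThreeLines.norm_le_interp_of_mem_verticalClosedStrip'
    (f := fun v : ℂ => F (Complex.exp v)) (z := w) (a := M l) (b := M u) hlu
    (show w.re ∈ Icc l u by rw [hre]; exact ⟨hlx, hxu⟩) ?_ ?_ ?_ ?_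
  · rw [hre] at h
    simp only [hexp, hFz] at h
    exact h
  · apply DifferentiableOn.diffContOnCl
    intro v hv
    have hvu : v.re ≤ u := by
      have hcl : closure (Complex.HadamardThreeLines.verticalStrip l u) ⊆
          Complex.re ⁻¹' (Iic u) := by
        apply closure_minimal
        · intro y hy
          exact (le_of_lt hy.2)
        · exact isClosed_Iic.preimage Complex.continuous_re
      exact hcl hv
    have hin : Complex.exp v ∈ ball (0 : ℂ) (Real.exp b) := by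
      rw [mem_ball_zero_iff, hnorm]
      exact Real.exp_lt_exp.2 (lt_of_le_of_lt hvu hub)
    exact ((hF _ hin).differentiableAt.comp v Complex.differentiable_exp.differentiableAt
      ).differentiableWithinAt
  · refine ⟨M u, ?_⟩
    rintro y ⟨v, hv, rfl⟩
    have hv2 : v.re ≤ u := hv.2
    show ‖F (Complex.exp v)‖ ≤ M u
    apply hM u hub
    rw [hnorm]
    exact Real.exp_le_exp.2 hv2
  · intro v hv
    have hv2 : v.re = l := hv
    apply hM l (hlu.trans hub)
    rw [hnorm, hv2]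
  · intro v hv
    have hv2 : v.re = u := hv
    apply hM u hub
    rw [hnorm, hv2]

/-- A2 -/
theorem logmax_pr {s m : ℕ} (hm : 0 < m) {F : ℂ → Fin s → ℂ} {b : ℝ}
    (hF : ∀ z ∈ ball (0 : ℂ) (Real.exp b), AnalyticAt ℂ F z)
    (hne : ∃ z ∈ ball (0 : ℂ) (Real.exp b), F z ≠ 0) :
    ∃ a n : ℝ → ℝ,
      (∀ t < b, (∀ z, ‖z‖ ≤ Real.exp t → ‖F z‖ ≤ Real.exp (m * (a t - t))) ∧
        ∃ z, ‖z‖ = Real.exp t ∧ ‖F z‖ = Real.exp (m * (a t - t))) ∧
      (∀ t y, t ≤ y → y < b → n t * (y - t) ≤ a y - a t ∧ a y - a t ≤ n y * (y - t)) ∧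
      ∀ t < b, 1 ≤ n t := by
  classical
  have hm0 : (0 : ℝ) < m := Nat.cast_pos.2 hm
  -- the maximum
  have hex : ∀ t : ℝ, ∃ r : ℝ, t < b → (0 < r ∧ (∀ z : ℂ, ‖z‖ ≤ Real.exp t → ‖F z‖ ≤ r) ∧
      ∃ z : ℂ, ‖z‖ = Real.exp t ∧ ‖F z‖ = r) := by
    intro t
    by_cases ht : t < b
    · obtain ⟨z, hz, hmax⟩ := a2_max hF t ht
      obtain ⟨w, hw, hFw⟩ := a2_pos hF hne t
      exact ⟨‖F z‖, fun _ => ⟨lt_of_lt_of_le (norm_pos_iff.2 hFw) (hmax w hw), hmax, z, hz, rfl⟩⟩
    · exact ⟨0, fun h => absurd h ht⟩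
  choose M hMx using hex
  have hMpos : ∀ t < b, 0 < M t := fun t ht => (hMx t ht).1
  have hMle : ∀ t < b, ∀ z : ℂ, ‖z‖ ≤ Real.exp t → ‖F z‖ ≤ M t := fun t ht => (hMx t ht).2.1
  have hMeq : ∀ t < b, ∃ z : ℂ, ‖z‖ = Real.exp t ∧ ‖F z‖ = M t := fun t ht => (hMx t ht).2.2
  have hmono : ∀ t y, t ≤ y → y < b → M t ≤ M y := by
    intro t y hty hy
    obtain ⟨z, hz, hFz⟩ := hMeq t (lt_of_le_of_lt hty hy)
    rw [← hFz]
    apply hMle y hy
    rw [hz]
    exact Real.exp_le_exp.2 hty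
  set a : ℝ → ℝ := fun t => t + Real.log (M t) / m with ha
  have hamono : ∀ t y, t ≤ y → y < b → y - t ≤ a y - a t := by
    intro t y hty hy
    have h1 : Real.log (M t) ≤ Real.log (M y) :=
      Real.log_le_log (hMpos t (lt_of_le_of_lt hty hy)) (hmono t y hty hy)
    have h2 : Real.log (M t) / m ≤ Real.log (M y) / m := div_le_div_of_nonneg_right h1 hm0.le
    simp only [ha]
    linarith
  -- three point inequality
  have hconv : ∀ l x u, l < x → x < u → u < b →
      (a x - a l) / (x - l) ≤ (a u - a x) / (u - x) := by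
    intro l x u hlx hxu hub
    have hlb : l < b := by linarith
    have hxb : x < b := by linarith
    have h := a2_three hF M hMle hMeq hlx.le hxu.le (hlx.trans hxu) hub
    have hlog : Real.log (M x) ≤ (1 - (x - l) / (u - l)) * Real.log (M l) +
        (x - l) / (u - l) * Real.log (M u) := by
      have h1 := Real.log_le_log (hMpos x hxb) h
      rw [Real.log_mul (Real.rpow_pos_of_pos (hMpos l hlb) _).ne'
        (Real.rpow_pos_of_pos (hMpos u hub) _).ne', Real.log_rpow (hMpos l hlb),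
        Real.log_rpow (hMpos u hub)] at h1
      exact h1
    have hul : 0 < u - l := by linarith
    have hxl : 0 < x - l := by linarith
    have hux : 0 < u - x := by linarith
    have hlog2 : (u - l) * Real.log (M x) ≤ (u - x) * Real.log (M l) +
        (x - l) * Real.log (M u) := by
      have h2 := mul_le_mul_of_nonneg_left hlog hul.le
      have e : (u - l) * ((1 - (x - l) / (u - l)) * Real.log (M l) +
        (x - l) / (u - l) * Real.log (M u)) = (u - x) * Real.log (M l) +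
        (x - l) * Real.log (M u) := by
        field_simp
        ring
      rw [e] at h2
      exact h2
    rw [div_le_div_iff₀ hxl hux]
    have hdiv : (u - l) * (Real.log (M x) / m) ≤ (u - x) * (Real.log (M l) / m) +
        (x - l) * (Real.log (M u) / m) := by
      have h3 := div_le_div_of_nonneg_right hlog2 hm0.le
      calc (u - l) * (Real.log (M x) / m) = (u - l) * Real.log (M x) / m := by ring
        _ ≤ _ := h3
        _ = _ := by ring
    simp only [ha]
    nlinarith [hdiv]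
  set n : ℝ → ℝ := fun t => sInf ((fun y => (a y - a t) / (y - t)) '' Ioo t b) with hn
  have hbdd : ∀ t, BddBelow ((fun y => (a y - a t) / (y - t)) '' Ioo t b) := by
    intro t
    refine ⟨1, ?_⟩
    rintro _ ⟨y, ⟨hy1, hy2⟩, rfl⟩
    have h1 := hamono t y hy1.le hy2
    have h2 : 0 < y - t := by linarith
    show 1 ≤ (a y - a t) / (y - t)
    rw [le_div_iff₀ h2]
    linarith
  have hnone : ∀ t < b, ((fun y => (a y - a t) / (y - t)) '' Ioo t b).Nonempty := fun t ht =>
    (nonempty_Ioo.2 ht).image _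
  refine ⟨a, n, ?_, ?_, ?_⟩
  · intro t ht
    have e : Real.exp (m * (a t - t)) = M t := by
      have : (m : ℝ) * (a t - t) = Real.log (M t) := by
        simp only [ha]
        field_simp
        ring
      rw [this, Real.exp_log (hMpos t ht)]
    rw [e]
    exact ⟨hMle t ht, hMeq t ht⟩
  · intro t y hty hy
    rcases eq_or_lt_of_le hty with rfl | hlt
    · simp
    have h0 : 0 < y - t := by linarith
    constructor
    · have h1 : n t ≤ (a y - a t) / (y - t) := csInf_le (hbdd t) ⟨y, ⟨hlt, hy⟩, rfl⟩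
      rwa [le_div_iff₀ h0] at h1
    · have h1 : (a y - a t) / (y - t) ≤ n y := by
        apply le_csInf (hnone y hy)
        rintro _ ⟨u, ⟨hu1, hu2⟩, rfl⟩
        exact hconv t y u hlt hu1 hu2
      rwa [div_le_iff₀ h0] at h1
  · intro t ht
    apply le_csInf (hnone t ht)
    rintro _ ⟨y, ⟨hy1, hy2⟩, rfl⟩
    have h1 := hamono t y hy1.le hy2
    have h2 : 0 < y - t := by linarith
    show 1 ≤ (a y - a t) / (y - t)
    rw [le_div_iff₀ h2]
    linarith



end Pool.Agent.SL

namespace Pool.Agent.SL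

alias logmax := logmax_pr

end Pool.Agent.SL
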