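import Pool.Agent.Lib_helper80.SL.Base

set_option autoImplicit false
set_option linter.unusedVariables false
set_option linter.unusedSectionVars false

open Filter Topology Metric Set
open scoped Manifold ContDiff

namespace Pool.Agent.SL

open Pool.Agent.BR Pool.Agent.MBS

theorem near_one_pr {K M : ℝ} (hK : 0 < K) (hM : 1 ≤ M) {H : ℂ → ℂ}
    (hH : ∀ s ∈ ball (0 : ℂ) (2 * K), AnalyticAt ℂ H s) (hb : ∀ s ∈ ball (0 : ℂ) (2 * K), ‖H s‖ ≤ M)
    (h0 : H 0 = 1) : ∀ s : ℂ, ‖s‖ ≤ 3 / 2 * K → ‖H s - 1‖ ≤ 8 * (M - 1) := by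
  intro s hs
  have key : ∀ ε : ℝ, 0 < ε → ‖H s - 1‖ ≤ 6 * (M - 1) + ε := by
    intro ε hε
    have hsK : s ∈ ball (0 : ℂ) (2 * K) := by
      rw [mem_ball_zero_iff]; linarith
    have h1 := Complex.borelCaratheodory_zero (M := M - 1 + ε / 6) (f := fun z => H z - 1)
      (R := 2 * K) (z := s) (by linarith)
      (fun z hz => ((hH z hz).differentiableAt.sub_const 1).differentiableWithinAt)
      (by
        intro z hz
        have h2 := hb z hz
        have h3 := Complex.re_le_norm (H z)
        show (H z - 1).re ≤ M - 1 + ε / 6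
        rw [Complex.sub_re, Complex.one_re]
        linarith) (by linarith) hsK (by simp [h0])
    refine h1.trans ?_
    rw [div_le_iff₀ (by linarith)]
    nlinarith [norm_nonneg s]
  have h2 : ‖H s - 1‖ ≤ 6 * (M - 1) := le_of_forall_pos_le_add key
  linarith

end Pool.Agent.SL

open Pool.Agent.SL

namespace Pool.Agent.SL

alias near_one := near_one_pr

end Pool.Agent.SL
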