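import Pool.Agent.Lib_helper80.SL.Base
import Pool.Agent.Lib_helper80.SL.L.A3

set_option autoImplicit false
set_option linter.unusedVariables false
set_option linter.unusedSectionVars false

open Filter Topology Metric Set
open scoped Manifold ContDiff

namespace Pool.Agent.SL

open Pool.Agent.BR Pool.Agent.MBS

theorem A4_norm {N : ℝ} (zr ζ : ℂ) {t : ℝ} (hz : ‖zr‖ = Real.exp t) :
    ‖zr * Complex.exp (ζ / N)‖ = Real.exp (t + ζ.re / N) := by
  rw [norm_mul, hz, Complex.norm_exp, ← Real.exp_add]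
  congr 2
  rw [Complex.div_ofReal_re]

theorem window_pr {s m : ℕ} (hm : 0 < m) {F : ℂ → Fin s → ℂ} {a : ℝ → ℝ} {t N K δ : ℝ} (hN : 1 ≤ N)
    (hK : 4 ≤ K) (hδ : 0 ≤ δ)
    (hF : ∀ z ∈ ball (0 : ℂ) (Real.exp (t + 2 * K / N)), AnalyticAt ℂ F z)
    (hup : ∀ y < t + 2 * K / N, ∀ z, ‖z‖ = Real.exp y → ‖F z‖ ≤ Real.exp (m * (a y - y)))
    (ha : ∀ x, |x| ≤ 2 * K / N → |a (t + x) - a t - N * x| ≤ δ)
    {zr : ℂ} (hz : ‖zr‖ = Real.exp t) (hzF : ‖F zr‖ = Real.exp (m * (a t - t))) (w : ℂ)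
    (hw : 0 < w.re) (hw1 : Real.exp (-K) ≤ ‖w‖) (hw2 : ‖w‖ ≤ Real.exp K) :
    (Real.exp (a t) / N) ^ m * (1 - 8 * (Real.exp (m * δ) - 1)) ≤
      ‖(zr * Complex.exp (Complex.log w / N) / (N * w)) ^ m •
        F (zr * Complex.exp (Complex.log w / N))‖ ∧
    ‖(zr * Complex.exp (Complex.log w / N) / (N * w)) ^ m •
        F (zr * Complex.exp (Complex.log w / N))‖ ≤ (Real.exp (a t) / N) ^ m * Real.exp (m * δ) := by
  have hN0 : 0 < N := by linarith
  have hw0 : w ≠ 0 := by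
    intro h
    rw [h] at hw
    simp at hw
  have hwn : 0 < ‖w‖ := norm_pos_iff.2 hw0
  -- the index
  have hpos : 0 < ‖F zr‖ := by rw [hzF]; exact Real.exp_pos _
  obtain ⟨j, hj⟩ : ∃ j, ‖F zr j‖ = ‖F zr‖ := by
    by_contra hc
    push Not at hc
    have h1 : ‖F zr‖ < ‖F zr‖ := by
      rw [pi_norm_lt_iff hpos]
      intro i
      exact lt_of_le_of_ne (norm_le_pi_norm _ i) (hc i)
    exact lt_irrefl _ h1
  have hFj : F zr j ≠ 0 := by
    rw [← norm_pos_iff, hj]; exact hpos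
  -- the bound for a on the window
  have hax : ∀ x : ℝ, |x| ≤ 2 * K → a (t + x / N) ≤ a t + x + δ := by
    intro x hx
    have h1 : |x / N| ≤ 2 * K / N := by
      rw [abs_div, abs_of_pos hN0]
      gcongr
    have h2 := (abs_le.1 (ha (x / N) h1)).2
    have h3 : N * (x / N) = x := by field_simp
    linarith
  have hmem : ∀ ζ : ℂ, ‖ζ‖ < 2 * K → zr * Complex.exp (ζ / N) ∈
      ball (0 : ℂ) (Real.exp (t + 2 * K / N)) := by
    intro ζ hζ
    rw [mem_ball_zero_iff, A4_norm zr ζ hz]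
    apply Real.exp_lt_exp.2
    have h1 : ζ.re < 2 * K := (Complex.re_le_norm ζ).trans_lt hζ
    have : ζ.re / N < 2 * K / N := by gcongr
    linarith
  have hFb : ∀ ζ : ℂ, ‖ζ‖ < 2 * K → ‖F (zr * Complex.exp (ζ / N))‖ ≤
      Real.exp (m * (a (t + ζ.re / N) - (t + ζ.re / N))) := by
    intro ζ hζ
    refine hup _ ?_ _ (A4_norm zr ζ hz)
    have h1 : ζ.re < 2 * K := (Complex.re_le_norm ζ).trans_lt hζ
    have : ζ.re / N < 2 * K / N := by gcongr
    linarith
  set H : ℂ → ℂ := fun ζ => F (zr * Complex.exp (ζ / N)) j * Complex.exp (ζ / N) ^ m *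
    Complex.exp (-(m * ζ)) / F zr j with hH
  -- log w
  set ζ₀ := Complex.log w with hζ₀
  have hre : ζ₀.re = Real.log ‖w‖ := Complex.log_re w
  have hre1 : |ζ₀.re| ≤ K := by
    rw [hre, abs_le]
    constructor
    · rw [Real.le_log_iff_exp_le hwn]; exact hw1
    · rw [Real.log_le_iff_le_exp hwn]; exact hw2
  have him : |ζ₀.im| ≤ Real.pi / 2 := by
    rw [hζ₀, Complex.log_im]
    exact Complex.abs_arg_le_pi_div_two_iff.2 hw.le
  have hpi : Real.pi / 2 ≤ 2 := by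
    have := Real.pi_le_four
    linarith
  have hζn : ‖ζ₀‖ ≤ 3 / 2 * K := by
    have h1 : ‖ζ₀‖ ≤ |ζ₀.re| + |ζ₀.im| := Complex.norm_le_abs_re_add_abs_im ζ₀
    linarith
  have hζn2 : ‖ζ₀‖ < 2 * K := by linarith
  have hM : 1 ≤ Real.exp (m * δ) := by
    apply Real.one_le_exp
    positivity
  have hnorm : ∀ ζ : ℂ, ‖H ζ‖ = ‖F (zr * Complex.exp (ζ / N)) j‖ *
      Real.exp (m * (ζ.re / N - ζ.re - (a t - t))) := by
    intro ζ
    rw [hH]
    simp only
    rw [norm_div, norm_mul, norm_mul, norm_pow, hj, hzF, Complex.norm_exp, Complex.norm_exp,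
      Complex.div_ofReal_re, mul_assoc, mul_div_assoc, ← Real.exp_nat_mul, ← Real.exp_add,
      ← Real.exp_sub]
    congr 2
    have : (-(↑m * ζ)).re = -(m * ζ.re) := by simp
    rw [this]
    ring
  have hHb : ∀ ζ ∈ ball (0 : ℂ) (2 * K), ‖H ζ‖ ≤ Real.exp (m * δ) := by
    intro ζ hζ
    rw [mem_ball_zero_iff] at hζ
    rw [hnorm]
    have h1 : ‖F (zr * Complex.exp (ζ / N)) j‖ ≤
        Real.exp (m * (a (t + ζ.re / N) - (t + ζ.re / N))) :=
      (norm_le_pi_norm _ j).trans (hFb ζ hζ)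
    calc ‖F (zr * Complex.exp (ζ / N)) j‖ * Real.exp (m * (ζ.re / N - ζ.re - (a t - t)))
        ≤ Real.exp (m * (a (t + ζ.re / N) - (t + ζ.re / N))) *
          Real.exp (m * (ζ.re / N - ζ.re - (a t - t))) := by gcongr
      _ = Real.exp (m * (a (t + ζ.re / N) - a t - ζ.re)) := by
          rw [← Real.exp_add]; congr 1; ring
      _ ≤ Real.exp (m * δ) := by
          apply Real.exp_le_exp.2
          have h2 : |ζ.re| ≤ 2 * K := (Complex.abs_re_le_norm ζ).trans hζ.le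
          have := hax _ h2
          apply mul_le_mul_of_nonneg_left _ (by positivity)
          linarith
  have hHan : ∀ ζ ∈ ball (0 : ℂ) (2 * K), AnalyticAt ℂ H ζ := by
    intro ζ hζ
    rw [mem_ball_zero_iff] at hζ
    have h1 : AnalyticAt ℂ (fun ζ : ℂ => zr * Complex.exp (ζ / N)) ζ :=
      analyticAt_const.mul ((analyticAt_id.div_const).cexp)
    have h2 : AnalyticAt ℂ (fun ζ : ℂ => F (zr * Complex.exp (ζ / N))) ζ :=
      AnalyticAt.fun_comp (hF _ (hmem ζ hζ)) h1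
    have h3 : AnalyticAt ℂ (fun ζ : ℂ => F (zr * Complex.exp (ζ / N)) j) ζ :=
      (analyticAt_pi_iff.1 h2) j
    have h4 : AnalyticAt ℂ (fun ζ : ℂ => Complex.exp (ζ / N) ^ m) ζ :=
      ((analyticAt_id.div_const).cexp).pow m
    have h5 : AnalyticAt ℂ (fun ζ : ℂ => Complex.exp (-(m * ζ))) ζ :=
      ((analyticAt_const.mul analyticAt_id).neg).cexp
    exact ((h3.mul h4).mul h5).div_const
  have hH0 : H 0 = 1 := by
    rw [hH]
    simp [hFj]
  have hnear := near_one (by linarith : 0 < K) hM hHan hHb hH0 ζ₀ hζn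
  have hlow : 1 - 8 * (Real.exp (m * δ) - 1) ≤ ‖H ζ₀‖ := by
    have h1 : ‖(1 : ℂ)‖ ≤ ‖H ζ₀‖ + ‖H ζ₀ - 1‖ := by
      have := norm_sub_le (H ζ₀) (H ζ₀ - 1)
      rwa [sub_sub_cancel] at this
    rw [norm_one] at h1
    linarith
  -- the factor
  have hfac : ‖(zr * Complex.exp (ζ₀ / N) / (N * w)) ^ m‖ =
      (1 / N) ^ m * Real.exp (m * (t + ζ₀.re / N - ζ₀.re)) := by
    rw [norm_pow, norm_div, A4_norm zr ζ₀ hz, norm_mul, Complex.norm_real, Real.norm_eq_abs,
      abs_of_pos hN0]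
    have h1 : ‖w‖ = Real.exp ζ₀.re := by rw [hre, Real.exp_log hwn]
    rw [h1, Real.exp_nat_mul, ← mul_pow, Real.exp_sub]
    congr 1
    field_simp
  have hexp : Real.exp (a t) ^ m = Real.exp (m * a t) := (Real.exp_nat_mul _ _).symm
  rw [norm_smul, hfac, div_pow, hexp]
  constructor
  · have h1 : ‖H ζ₀‖ * Real.exp (m * a t) ≤
        Real.exp (m * (t + ζ₀.re / N - ζ₀.re)) * ‖F (zr * Complex.exp (ζ₀ / N))‖ := by
      rw [hnorm, mul_assoc, ← Real.exp_add, mul_comm]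
      have h2 : (m:ℝ) * (ζ₀.re / N - ζ₀.re - (a t - t)) + m * a t =
          m * (t + ζ₀.re / N - ζ₀.re) := by ring
      rw [h2]
      exact mul_le_mul_of_nonneg_left (norm_le_pi_norm _ j) (Real.exp_pos _).le
    calc Real.exp (m * a t) / N ^ m * (1 - 8 * (Real.exp (m * δ) - 1))
        ≤ Real.exp (m * a t) / N ^ m * ‖H ζ₀‖ := by gcongr
      _ = (1 / N) ^ m * (‖H ζ₀‖ * Real.exp (m * a t)) := by
          rw [one_div, inv_pow]; ring
      _ ≤ (1 / N) ^ m * (Real.exp (m * (t + ζ₀.re / N - ζ₀.re)) *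
            ‖F (zr * Complex.exp (ζ₀ / N))‖) := by gcongr
      _ = _ := by ring
  · have h1 : Real.exp (m * (t + ζ₀.re / N - ζ₀.re)) * ‖F (zr * Complex.exp (ζ₀ / N))‖ ≤
        Real.exp (m * a t) * Real.exp (m * δ) := by
      calc Real.exp (m * (t + ζ₀.re / N - ζ₀.re)) * ‖F (zr * Complex.exp (ζ₀ / N))‖
          ≤ Real.exp (m * (t + ζ₀.re / N - ζ₀.re)) *
            Real.exp (m * (a (t + ζ₀.re / N) - (t + ζ₀.re / N))) := by
            gcongr; exact hFb ζ₀ hζn2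
        _ = Real.exp (m * (a (t + ζ₀.re / N) - ζ₀.re)) := by
            rw [← Real.exp_add]; congr 1; ring
        _ ≤ Real.exp (m * (a t + δ)) := by
            apply Real.exp_le_exp.2
            have h2 : |ζ₀.re| ≤ 2 * K := by linarith
            have := hax _ h2
            apply mul_le_mul_of_nonneg_left _ (by positivity)
            linarith
        _ = Real.exp (m * a t) * Real.exp (m * δ) := by
            rw [← Real.exp_add]; congr 1; ring
    calc (1 / N) ^ m * Real.exp (m * (t + ζ₀.re / N - ζ₀.re)) *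
          ‖F (zr * Complex.exp (ζ₀ / N))‖
        = (1 / N) ^ m * (Real.exp (m * (t + ζ₀.re / N - ζ₀.re)) *
          ‖F (zr * Complex.exp (ζ₀ / N))‖) := by ring
      _ ≤ (1 / N) ^ m * (Real.exp (m * a t) * Real.exp (m * δ)) := by gcongr
      _ = Real.exp (m * a t) / N ^ m * Real.exp (m * δ) := by
          rw [one_div, inv_pow]; ring

end Pool.Agent.SL

open Pool.Agent.SL

namespace Pool.Agent.SL

alias window := window_pr

end Pool.Agent.SL
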