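import Pool.Agent.Lib_helper80.SL.Base

/-! # SL, block A5: barrier -/

set_option autoImplicit false
set_option linter.unusedVariables false
set_option linter.unusedSectionVars false

open Filter Topology Metric Set
open scoped Manifold ContDiff

namespace Pool.Agent.SL

open Pool.Agent.BR Pool.Agent.MBS

theorem a5_norm (z z₀ c : ℂ) (r : ℝ) (h : ‖z - z₀‖ = r) : ‖z - c‖ ^ 2 =
    ‖z₀ - c‖ ^ 2 + r ^ 2 + 2 * ((starRingEnd ℂ) (z₀ - c) * (z - z₀)).re := by
  rw [← h, Complex.sq_norm, Complex.sq_norm, Complex.sq_norm]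
  simp only [Complex.normSq_apply, Complex.sub_re, Complex.sub_im, Complex.mul_re,
    Complex.conj_re, Complex.conj_im]
  ring

theorem barrier_pr {κ r : ℝ} (hκ : 0 < κ) (hr : 0 < r) :
    ∃ c₀ > 0, ∀ (val : ℂ → ℝ) (c : ℂ) (R : ℝ), (∀ z ∈ ball c (R + r), val z ≤ 1) →
      (∀ z₀ ∈ ball c R, ∀ (B : ℝ) (β : ℂ),
        (∀ z, ‖z - z₀‖ = r → val z ≤ Real.exp (B - (β * z).re)) →
          val z₀ ≤ Real.exp (B - κ - (β * z₀).re)) →
      ∀ z ∈ ball c R, val z ≤ Real.exp (-(c₀ * (R ^ 2 - ‖z - c‖ ^ 2))) := by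
  have hr2 : (0 : ℝ) < 2 * r ^ 2 := by positivity
  refine ⟨κ / (2 * r ^ 2), div_pos hκ hr2, ?_⟩
  have hc₀r : κ / (2 * r ^ 2) * r ^ 2 = κ / 2 := by
    field_simp
  have hc₀ : 0 < κ / (2 * r ^ 2) := div_pos hκ hr2
  generalize κ / (2 * r ^ 2) = c₀ at hc₀r hc₀
  intro val c R h1 h2 z₁ hz₁
  have hR : 0 < R := by
    have := mem_ball.1 hz₁
    exact lt_of_le_of_lt dist_nonneg this
  -- the induction
  have key : ∀ n : ℕ, ∀ z ∈ ball c (R + r),
      val z ≤ Real.exp (max (c₀ * R ^ 2 - n * (κ / 2)) 0 - c₀ * (R ^ 2 - ‖z - c‖ ^ 2)) := by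
    intro n
    induction n with
    | zero =>
      intro z hz
      refine (h1 z hz).trans ?_
      rw [← Real.exp_zero]
      apply Real.exp_le_exp.2
      have h3 : c₀ * R ^ 2 ≤ max (c₀ * R ^ 2 - ((0 : ℕ) : ℝ) * (κ / 2)) 0 := by
        rw [Nat.cast_zero, zero_mul, sub_zero]
        exact le_max_left _ _
      have h4 : 0 ≤ c₀ * ‖z - c‖ ^ 2 := by positivity
      linarith [mul_sub c₀ (R ^ 2) (‖z - c‖ ^ 2)]
    | succ n ih =>
      intro z₀ hz₀
      set μ := max (c₀ * R ^ 2 - n * (κ / 2)) 0 with hμ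
      set μ' := max (c₀ * R ^ 2 - ((n + 1 : ℕ) : ℝ) * (κ / 2)) 0 with hμ'
      have hμ'0 : 0 ≤ μ' := le_max_right _ _
      by_cases hin : z₀ ∈ ball c R
      · have h3 := h2 z₀ hin (μ - c₀ * R ^ 2 + c₀ * ‖z₀ - c‖ ^ 2 + c₀ * r ^ 2 -
            2 * c₀ * ((starRingEnd ℂ) (z₀ - c) * z₀).re)
          (-(2 * (c₀ : ℂ)) * (starRingEnd ℂ) (z₀ - c)) ?_
        · refine h3.trans (Real.exp_le_exp.2 ?_)
          have e1 : (-(2 * (c₀ : ℂ)) * (starRingEnd ℂ) (z₀ - c) * z₀).re =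
              -(2 * c₀ * ((starRingEnd ℂ) (z₀ - c) * z₀).re) := by
            rw [mul_assoc]
            have : (-(2 * (c₀ : ℂ))) = ((-(2 * c₀) : ℝ) : ℂ) := by push_cast; ring
            rw [this, Complex.re_ofReal_mul]
            ring
          rw [e1]
          have h4 : μ - κ / 2 ≤ μ' := by
            rw [hμ, hμ']
            rcases le_total (c₀ * R ^ 2 - n * (κ / 2)) 0 with h5 | h5
            · rw [max_eq_right h5]
              exact le_trans (by linarith) (le_max_right _ _)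
            · rw [max_eq_left h5]
              refine le_trans ?_ (le_max_left _ _)
              push_cast
              linarith
          rw [hc₀r]
          linarith [mul_sub c₀ (R ^ 2) (‖z₀ - c‖ ^ 2)]
        · intro z hz
          have hzb : z ∈ ball c (R + r) := by
            rw [mem_ball, dist_eq_norm] at hin ⊢
            calc ‖z - c‖ = ‖(z₀ - c) + (z - z₀)‖ := by congr 1; ring
              _ ≤ ‖z₀ - c‖ + ‖z - z₀‖ := norm_add_le _ _
              _ < R + r := by rw [hz]; linarith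
          refine (ih z hzb).trans (Real.exp_le_exp.2 (le_of_eq ?_))
          have e1 : (-(2 * (c₀ : ℂ)) * (starRingEnd ℂ) (z₀ - c) * z).re =
              -(2 * c₀ * ((starRingEnd ℂ) (z₀ - c) * z).re) := by
            rw [mul_assoc]
            have : (-(2 * (c₀ : ℂ))) = ((-(2 * c₀) : ℝ) : ℂ) := by push_cast; ring
            rw [this, Complex.re_ofReal_mul]
            ring
          rw [e1, a5_norm z z₀ c r hz, mul_sub (starRingEnd ℂ (z₀ - c)) z z₀, Complex.sub_re]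
          ring
      · have h3 : R ^ 2 ≤ ‖z₀ - c‖ ^ 2 := by
          rw [mem_ball, dist_eq_norm, not_lt] at hin
          exact pow_le_pow_left₀ hR.le hin 2
        refine (h1 z₀ hz₀).trans ?_
        rw [← Real.exp_zero]
        apply Real.exp_le_exp.2
        have h4 : 0 ≤ c₀ * (‖z₀ - c‖ ^ 2 - R ^ 2) := mul_nonneg hc₀.le (by linarith)
        linarith [mul_sub c₀ (R ^ 2) (‖z₀ - c‖ ^ 2), mul_sub c₀ (‖z₀ - c‖ ^ 2) (R ^ 2)]
  obtain ⟨n, hn⟩ := exists_nat_gt (c₀ * R ^ 2 / (κ / 2))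
  have h3 : c₀ * R ^ 2 - n * (κ / 2) ≤ 0 := by
    rw [div_lt_iff₀ (by positivity)] at hn
    linarith
  have h4 := key n z₁ (ball_subset_ball (by linarith) hz₁)
  rw [max_eq_right h3, zero_sub] at h4
  exact h4



end Pool.Agent.SL

namespace Pool.Agent.SL

alias barrier := barrier_pr

end Pool.Agent.SL
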