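import Pool.Agent.Lib_helper80.SL.Base

/-! # Block A6 of SL: the Poisson kernel -/

set_option autoImplicit false
set_option linter.unusedVariables false
set_option linter.unusedSectionVars false

open Filter Topology Metric Set
open scoped Manifold ContDiff

namespace Pool.Agent.SL

open Pool.Agent.BR Pool.Agent.MBS

theorem a6_re (u : ℂ) : ((1 + u) / (1 - u)).re =
    (1 - (u.re ^ 2 + u.im ^ 2)) / (1 - 2 * u.re + (u.re ^ 2 + u.im ^ 2)) := by
  rw [Complex.div_re, Complex.normSq_apply]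
  simp only [Complex.add_re, Complex.sub_re, Complex.one_re, Complex.add_im, Complex.sub_im,
    Complex.one_im]
  rw [← add_div]
  congr 1 <;> ring

theorem poisson_pr (θ₀ : ℝ) (h0 : 0 < θ₀) (h1 : θ₀ ≤ 1) (zr : ℂ) (hz : zr ≠ 0) :
    ∃ q : ℂ → ℂ, (∀ z ∈ closedBall (0 : ℂ) ‖zr‖, AnalyticAt ℂ q z) ∧
      (∀ z, ‖z‖ = ‖zr‖ → (q z).re ≤ 1) ∧
      (∀ z, ‖z‖ = ‖zr‖ → (¬ ∃ θ : ℝ, |θ| ≤ θ₀ ∧ z = zr * Complex.exp (θ * Complex.I)) →
        (q z).re ≤ 0) ∧
      θ₀ ^ 2 / 50 ≤ (q 0).re := by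
  set η : ℝ := θ₀ ^ 2 / 8 with hη
  have hη0 : 0 < η := by positivity
  have hθ2 : θ₀ ^ 2 ≤ 1 := by nlinarith
  have hη1 : η ≤ 1 / 8 := by rw [hη]; linarith
  set s : ℝ := 1 - η with hs
  have hs0 : 7 / 8 ≤ s := by rw [hs]; linarith
  have hs1 : s < 1 := by rw [hs]; linarith
  have hzr : 0 < ‖zr‖ := norm_pos_iff.2 hz
  -- values on the circle
  have hcirc : ∀ z : ℂ, ‖z‖ = ‖zr‖ → ((1 + (s : ℂ) * (z / zr)) / (1 - (s : ℂ) * (z / zr))).re =
      (1 - s ^ 2) / (1 - 2 * s * (z / zr).re + s ^ 2) := by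
    intro z hzz
    have hw : (z / zr).re ^ 2 + (z / zr).im ^ 2 = 1 := by
      have h2 : ‖z / zr‖ = 1 := by rw [norm_div, hzz, div_self hzr.ne']
      have h3 : Complex.normSq (z / zr) = 1 := by
        rw [Complex.normSq_eq_norm_sq, h2]
        norm_num
      rw [Complex.normSq_apply] at h3
      linarith
    rw [a6_re, Complex.re_ofReal_mul, Complex.im_ofReal_mul]
    have h3 : (s * (z / zr).re) ^ 2 + (s * (z / zr).im) ^ 2 = s ^ 2 := by
      calc (s * (z / zr).re) ^ 2 + (s * (z / zr).im) ^ 2 =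
          s ^ 2 * ((z / zr).re ^ 2 + (z / zr).im ^ 2) := by ring
        _ = s ^ 2 := by rw [hw, mul_one]
    rw [h3, mul_assoc]
  have hq : ∀ z : ℂ, (((η / 2 : ℝ) : ℂ) * ((1 + (s : ℂ) * (z / zr)) / (1 - (s : ℂ) * (z / zr)) -
      1 / 3)).re = η / 2 * (((1 + (s : ℂ) * (z / zr)) / (1 - (s : ℂ) * (z / zr))).re - 1 / 3) := by
    intro z
    rw [Complex.re_ofReal_mul, Complex.sub_re]
    norm_num
  refine ⟨fun z => ((η / 2 : ℝ) : ℂ) * ((1 + (s : ℂ) * (z / zr)) / (1 - (s : ℂ) * (z / zr)) -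
    1 / 3), ?_, ?_, ?_, ?_⟩
  · intro z hzm
    rw [mem_closedBall, dist_zero_right] at hzm
    have hne : 1 - (s : ℂ) * (z / zr) ≠ 0 := by
      intro h
      have h2 : ‖(s : ℂ) * (z / zr)‖ = 1 := by
        rw [← sub_eq_zero.1 h, norm_one]
      rw [norm_mul, norm_div, Complex.norm_real, Real.norm_of_nonneg (by linarith)] at h2
      have h3 : ‖z‖ / ‖zr‖ ≤ 1 := (div_le_one hzr).2 hzm
      have h4 : 0 ≤ ‖z‖ / ‖zr‖ := by positivity
      nlinarith
    have e1 : AnalyticAt ℂ (fun z : ℂ => (s : ℂ) * (z / zr)) z := by fun_prop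
    have e2 : AnalyticAt ℂ (fun z : ℂ => 1 + (s : ℂ) * (z / zr)) z := analyticAt_const.add e1
    have e3 : AnalyticAt ℂ (fun z : ℂ => 1 - (s : ℂ) * (z / zr)) z := analyticAt_const.sub e1
    exact analyticAt_const.mul ((e2.div e3 hne).sub analyticAt_const)
  · intro z hzz
    have hre : (z / zr).re ≤ 1 := by
      refine (Complex.re_le_norm _).trans ?_
      rw [norm_div, hzz, div_self hzr.ne']
    show (((η / 2 : ℝ) : ℂ) * ((1 + (s : ℂ) * (z / zr)) / (1 - (s : ℂ) * (z / zr)) -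
      1 / 3)).re ≤ 1
    rw [hq z, hcirc z hzz]
    have hd : η ^ 2 ≤ 1 - 2 * s * (z / zr).re + s ^ 2 := by
      have h2 : 1 - 2 * s * (z / zr).re + s ^ 2 = (1 - s) ^ 2 + 2 * s * (1 - (z / zr).re) := by ring
      have h3 : 1 - s = η := by rw [hs]; ring
      rw [h2, h3]
      have h4 : 0 ≤ 2 * s * (1 - (z / zr).re) :=
        mul_nonneg (by linarith) (by linarith)
      linarith
    have hle : (1 - s ^ 2) / (1 - 2 * s * (z / zr).re + s ^ 2) ≤ 2 / η := by
      have h2 : 1 - s ^ 2 ≤ 2 * η := by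
        rw [hs]
        nlinarith
      have h3 : 0 ≤ 2 * η := by positivity
      calc (1 - s ^ 2) / (1 - 2 * s * (z / zr).re + s ^ 2)
          ≤ 2 * η / (1 - 2 * s * (z / zr).re + s ^ 2) :=
            div_le_div_of_nonneg_right h2 ((sq_nonneg η).trans hd)
        _ ≤ 2 * η / η ^ 2 := div_le_div_of_nonneg_left h3 (by positivity) hd
        _ = 2 / η := by field_simp
    have h5 : η / 2 * ((1 - s ^ 2) / (1 - 2 * s * (z / zr).re + s ^ 2) - 1 / 3) ≤
        η / 2 * (2 / η - 1 / 3) :=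
      mul_le_mul_of_nonneg_left (by linarith) (by positivity)
    have h6 : η / 2 * (2 / η - 1 / 3) = 1 - η / 6 := by
      field_simp
      ring
    rw [h6] at h5
    linarith
  · intro z hzz hno
    have hwn : ‖z / zr‖ = 1 := by rw [norm_div, hzz, div_self hzr.ne']
    have hexp : z / zr = Complex.exp ((z / zr).arg * Complex.I) := by
      have h2 := Complex.norm_mul_exp_arg_mul_I (z / zr)
      rw [hwn, Complex.ofReal_one, one_mul] at h2
      exact h2.symm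
    have hzeq : z = zr * Complex.exp ((z / zr).arg * Complex.I) := by
      rw [← hexp]
      field_simp
    have harg : θ₀ < |(z / zr).arg| := by
      by_contra hcon
      exact hno ⟨_, not_lt.1 hcon, hzeq⟩
    have hre : (z / zr).re = Real.cos |(z / zr).arg| := by
      rw [Real.cos_abs]
      have h2 := congrArg Complex.re hexp
      rw [Complex.exp_ofReal_mul_I_re] at h2
      exact h2
    have hpi : |(z / zr).arg| ≤ Real.pi := Complex.abs_arg_le_pi _
    have hcos : (z / zr).re ≤ Real.cos θ₀ := by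
      rw [hre]
      exact Real.cos_le_cos_of_nonneg_of_le_pi h0.le hpi harg.le
    have hcb : Real.cos θ₀ ≤ 1 - θ₀ ^ 2 / 2 + θ₀ ^ 4 * (5 / 96) := by
      have h2 := Real.cos_bound (x := θ₀) (by rw [abs_of_pos h0]; exact h1)
      rw [abs_of_pos h0] at h2
      have h3 := (abs_le.1 h2).2
      linarith
    show (((η / 2 : ℝ) : ℂ) * ((1 + (s : ℂ) * (z / zr)) / (1 - (s : ℂ) * (z / zr)) -
      1 / 3)).re ≤ 0
    rw [hq z, hcirc z hzz]
    have h4 : θ₀ ^ 4 ≤ θ₀ ^ 2 := by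
      have : θ₀ ^ 4 = θ₀ ^ 2 * θ₀ ^ 2 := by ring
      rw [this]
      nlinarith [sq_nonneg θ₀]
    have h5 : 43 / 96 * θ₀ ^ 2 ≤ 1 - (z / zr).re := by
      nlinarith
    have hden : 3 * (1 - s ^ 2) ≤ 1 - 2 * s * (z / zr).re + s ^ 2 := by
      have h2 : 1 - 2 * s * (z / zr).re + s ^ 2 = (1 - s) ^ 2 + 2 * s * (1 - (z / zr).re) := by ring
      have h3 : 1 - s ^ 2 ≤ 2 * η := by
        rw [hs]
        nlinarith
      have h6 : 2 * (7 / 8) * (43 / 96 * θ₀ ^ 2) ≤ 2 * s * (1 - (z / zr).re) := by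
        refine mul_le_mul (by linarith) h5 (by positivity) (by linarith)
      rw [h2]
      have h7 : 0 ≤ (1 - s) ^ 2 := sq_nonneg _
      have h8 : 6 * η ≤ 2 * (7 / 8) * (43 / 96 * θ₀ ^ 2) := by
        rw [hη]
        nlinarith [sq_nonneg θ₀]
      linarith
    have hnum : 0 < 1 - s ^ 2 := by nlinarith
    have hdpos : 0 < 1 - 2 * s * (z / zr).re + s ^ 2 := by linarith
    have hfin : (1 - s ^ 2) / (1 - 2 * s * (z / zr).re + s ^ 2) ≤ 1 / 3 := by
      rw [div_le_div_iff₀ hdpos (by norm_num)]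
      linarith
    exact mul_nonpos_of_nonneg_of_nonpos (by positivity) (by linarith)
  · show θ₀ ^ 2 / 50 ≤ (((η / 2 : ℝ) : ℂ) * ((1 + (s : ℂ) * (0 / zr)) /
      (1 - (s : ℂ) * (0 / zr)) - 1 / 3)).re
    rw [hq 0]
    have h2 : ((1 + (s : ℂ) * (0 / zr)) / (1 - (s : ℂ) * (0 / zr))).re = 1 := by
      simp
    rw [h2, hη]
    nlinarith [sq_nonneg θ₀]



end Pool.Agent.SL

namespace Pool.Agent.SL

alias poisson := poisson_pr

end Pool.Agent.SL
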