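import Pool.Agent.Lib_helper80.SL.Base

/-! # Hyperbolicity modulo tori (MP_45e720_ag), block A7: the maximum principle for QSM functions -/

set_option autoImplicit false
set_option linter.unusedVariables false
set_option linter.unusedSectionVars false

open Filter Topology Metric Set
open scoped Manifold ContDiff

namespace Pool.Agent.SL

open Pool.Agent.BR Pool.Agent.MBS

section

variable {E X : Type} [NormedAddCommGroup E] [NormedSpace ℂ E] [FiniteDimensional ℂ E]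
  [MetricSpace X] [CompactSpace X] {A : Cha E X}

private theorem A7_norm (z c : ℂ) :
    ‖z‖ ^ 2 = ‖c‖ ^ 2 + ‖z - c‖ ^ 2 + 2 * ((starRingEnd ℂ) c * (z - c)).re := by
  rw [Complex.sq_norm, Complex.sq_norm, Complex.sq_norm, Complex.normSq_apply,
    Complex.normSq_apply, Complex.normSq_apply]
  simp only [Complex.sub_re, Complex.sub_im, Complex.mul_re, Complex.conj_re, Complex.conj_im]
  ring

private theorem A7_pos {ρ : X → ℝ} {C ε₀ : ℝ} (hc : Continuous ρ) (h0 : ∀ x, 0 ≤ ρ x) (hC : 0 < C)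
    (hε₀ : 0 < ε₀) (hρ : QSM A ρ C ε₀) (f : ℂ → X) (r v : ℝ) (Ω : Set ℂ) (u : ℂ → ℝ)
    (hv : 0 < v) (hΩ : IsOpen Ω) (hΩr : Ω ⊆ ball 0 r) (hf : HB A f (closure Ω) v)
    (hu : ContinuousOn u (closure Ω))
    (hH : ∀ z ∈ Ω, ∃ H : ℂ → ℂ, AnalyticAt ℂ H z ∧ ∀ᶠ w in 𝓝 z, u w = (H w).re)
    (hb : ∀ z ∈ frontier Ω, ρ (f z) ≤ Real.exp (u z)) :
    ∀ z ∈ Ω, ρ (f z) ≤ Real.exp (u z + 2 * C * v ^ 2 * (r ^ 2 - ‖z‖ ^ 2)) := by
  intro z₀ hz₀
  by_contra hcon
  push Not at hcon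
  set g : ℂ → ℝ := fun z => u z + 2 * C * v ^ 2 * (r ^ 2 - ‖z‖ ^ 2) with hg
  set φ : ℂ → ℝ := fun z => ρ (f z) * Real.exp (-(g z)) with hφ
  have hcl : closure Ω ⊆ closedBall 0 r :=
    (closure_mono hΩr).trans closure_ball_subset_closedBall
  have hcomp : IsCompact (closure Ω) :=
    (isCompact_closedBall (0 : ℂ) r).of_isClosed_subset isClosed_closure hcl
  have hfc : ContinuousOn f (closure Ω) := fun z hz => (hf z hz).1.1.continuousWithinAt
  have hgc : ContinuousOn g (closure Ω) := by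
    refine hu.add (Continuous.continuousOn ?_)
    fun_prop
  have hφc : ContinuousOn φ (closure Ω) :=
    (hc.comp_continuousOn hfc).mul (Real.continuous_exp.comp_continuousOn hgc.neg)
  obtain ⟨zs, hzs, hmax⟩ := hcomp.exists_isMaxOn ⟨z₀, subset_closure hz₀⟩ hφc
  have hφρ : ∀ z, ρ (f z) = φ z * Real.exp (g z) := by
    intro z
    rw [hφ]
    simp only
    rw [mul_assoc, ← Real.exp_add, neg_add_cancel, Real.exp_zero, mul_one]
  have hmu : 1 < φ zs := by
    have h1 : φ z₀ ≤ φ zs := hmax (subset_closure hz₀)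
    have h2 : 1 < φ z₀ := by
      rw [hφ]
      simp only
      rw [Real.exp_neg, ← div_eq_mul_inv, one_lt_div (Real.exp_pos _)]
      exact hcon
    linarith
  have hzsΩ : zs ∈ Ω := by
    by_contra hn
    have hfr : zs ∈ frontier Ω := by
      rw [frontier, hΩ.interior_eq]
      exact ⟨hzs, hn⟩
    have h1 := hb zs hfr
    have h2 : ‖zs‖ ≤ r := by
      have := hcl hzs
      rwa [mem_closedBall_zero_iff] at this
    have h3 : 0 ≤ 2 * C * v ^ 2 * (r ^ 2 - ‖zs‖ ^ 2) := by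
      apply mul_nonneg (by positivity)
      have := norm_nonneg zs
      nlinarith
    have h4 : φ zs ≤ 1 := by
      rw [hφ]
      simp only
      rw [Real.exp_neg, ← div_eq_mul_inv, div_le_one (Real.exp_pos _)]
      refine h1.trans (Real.exp_le_exp.2 ?_)
      rw [hg]
      simp only
      linarith
    linarith
  obtain ⟨H, hHa, hHu⟩ := hH zs hzsΩ
  have hev : ∀ᶠ w in 𝓝 zs, w ∈ Ω ∧ AnalyticAt ℂ H w ∧ u w = (H w).re :=
    (hΩ.eventually_mem hzsΩ).and (hHa.eventually_analyticAt.and hHu)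
  obtain ⟨r₁, hr₁, hr₁'⟩ := Metric.nhds_basis_closedBall.mem_iff.1 hev
  obtain ⟨r', hr'⟩ : ∃ r' : ℝ, r' = min r₁ (ε₀ / v) := ⟨_, rfl⟩
  have hr'0 : 0 < r' := by rw [hr']; exact lt_min hr₁ (by positivity)
  have hr'1 : r' ≤ r₁ := by rw [hr']; exact min_le_left _ _
  have hr'2 : v * r' ≤ ε₀ := by
    have : r' ≤ ε₀ / v := by rw [hr']; exact min_le_right _ _
    calc v * r' ≤ v * (ε₀ / v) := mul_le_mul_of_nonneg_left this hv.le
      _ = ε₀ := by field_simp
  have hball : ∀ w ∈ closedBall zs r', w ∈ Ω ∧ AnalyticAt ℂ H w ∧ u w = (H w).re := fun w hw =>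
    hr₁' (closedBall_subset_closedBall hr'1 hw)
  have hmu0 : 0 < φ zs := by linarith
  set K : ℂ → ℂ := fun z => (Real.log (φ zs) : ℂ) + H z +
    (2 * C * v ^ 2 : ℝ) * (((r ^ 2 - ‖zs‖ ^ 2 - r' ^ 2 : ℝ) : ℂ) -
      2 * ((starRingEnd ℂ) zs * (z - zs))) with hK
  have hKa : ∀ z ∈ closedBall zs r', AnalyticAt ℂ K z := by
    intro z hz
    have h1 := (hball z hz).2.1
    rw [hK]
    refine (analyticAt_const.add h1).add (analyticAt_const.mul (analyticAt_const.sub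
      (analyticAt_const.mul (analyticAt_const.mul (analyticAt_id.sub analyticAt_const)))))
  have hKre : ∀ z, (K z).re = Real.log (φ zs) + (H z).re + 2 * C * v ^ 2 *
      (r ^ 2 - ‖zs‖ ^ 2 - r' ^ 2 - 2 * ((starRingEnd ℂ) zs * (z - zs)).re) := by
    intro z
    rw [hK]
    simp only [Complex.add_re, Complex.ofReal_re]
    rw [Complex.re_ofReal_mul, Complex.sub_re, Complex.ofReal_re]
    congr 3
    rw [show (2 : ℂ) = ((2 : ℝ) : ℂ) by norm_num, Complex.re_ofReal_mul]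
  have hcirc : ∀ z, ‖z - zs‖ = r' → ρ (f z) ≤ Real.exp (K z).re := by
    intro z hz
    have hzb : z ∈ closedBall zs r' := by rw [mem_closedBall_iff_norm]; exact hz.le
    have h1 := hball z hzb
    have h2 : φ z ≤ φ zs := hmax (subset_closure h1.1)
    have h3 := A7_norm z zs
    rw [hz] at h3
    have h4 : (K z).re = Real.log (φ zs) + g z := by
      rw [hKre, hg]
      simp only
      rw [h1.2.2, h3]
      ring
    rw [h4, Real.exp_add, Real.exp_log hmu0, hφρ z]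
    exact mul_le_mul_of_nonneg_right h2 (Real.exp_pos _).le
  have hq := hρ f zs r' v K hr'0 hv.le hr'2
    (fun z hz => hf z (subset_closure (hball z hz).1)) hKa hcirc
  have h5 : (K zs).re + C * (v * r') ^ 2 =
      Real.log (φ zs) + g zs + (-(C * (v * r') ^ 2)) := by
    rw [hKre, hg]
    simp only [sub_self, mul_zero, Complex.zero_re]
    rw [(hball zs (mem_closedBall_self hr'0.le)).2.2]
    ring
  rw [h5, Real.exp_add, Real.exp_add, Real.exp_log hmu0, hφρ zs] at hq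
  have h6 : Real.exp (-(C * (v * r') ^ 2)) < 1 := by
    rw [Real.exp_lt_one_iff]
    have : 0 < C * (v * r') ^ 2 := by positivity
    linarith
  have h7 : 0 < φ zs * Real.exp (g zs) := by positivity
  nlinarith

theorem qsm_gl_pr {ρ : X → ℝ} {C ε₀ : ℝ} (hc : Continuous ρ) (h0 : ∀ x, 0 ≤ ρ x) (hC : 0 < C)
    (hε₀ : 0 < ε₀) (hρ : QSM A ρ C ε₀) (f : ℂ → X) (r v : ℝ) (Ω : Set ℂ) (u : ℂ → ℝ)
    (hv : 0 ≤ v) (hΩ : IsOpen Ω) (hΩr : Ω ⊆ ball 0 r) (hf : HB A f (closure Ω) v)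
    (hu : ContinuousOn u (closure Ω))
    (hH : ∀ z ∈ Ω, ∃ H : ℂ → ℂ, AnalyticAt ℂ H z ∧ ∀ᶠ w in 𝓝 z, u w = (H w).re)
    (hb : ∀ z ∈ frontier Ω, ρ (f z) ≤ Real.exp (u z)) :
    ∀ z ∈ Ω, ρ (f z) ≤ Real.exp (u z + 2 * C * v ^ 2 * (r ^ 2 - ‖z‖ ^ 2)) := by
  rcases hv.lt_or_eq with hv | hv
  · exact A7_pos hc h0 hC hε₀ hρ f r v Ω u hv hΩ hΩr hf hu hH hb
  · intro z hz
    have h1 : ∀ v' : ℝ, 0 < v' →
        ρ (f z) ≤ Real.exp (u z + 2 * C * v' ^ 2 * (r ^ 2 - ‖z‖ ^ 2)) := by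
      intro v' hv'
      refine A7_pos hc h0 hC hε₀ hρ f r v' Ω u hv' hΩ hΩr (fun w hw => ⟨(hf w hw).1, fun i hi =>
        ((hf w hw).2 i hi).trans ?_⟩) hu hH hb z hz
      rw [← hv]
      exact hv'.le
    have h2 : Tendsto (fun v' : ℝ => Real.exp (u z + 2 * C * v' ^ 2 * (r ^ 2 - ‖z‖ ^ 2)))
        (𝓝[>] 0) (𝓝 (Real.exp (u z + 2 * C * 0 ^ 2 * (r ^ 2 - ‖z‖ ^ 2)))) := by
      refine Tendsto.mono_left (Continuous.tendsto ?_ 0) nhdsWithin_le_nhds
      fun_prop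
    rw [← hv]
    exact ge_of_tendsto h2 (by
      filter_upwards [self_mem_nhdsWithin] with v' hv'
      exact h1 v' hv')

end



end Pool.Agent.SL

namespace Pool.Agent.SL

alias qsm_gl := qsm_gl_pr

end Pool.Agent.SL
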