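import Pool.Agent.Lib_helper80.SL.Base
import Pool.Agent.Lib_helper80.SL.L.A6
import Pool.Agent.Lib_helper80.SL.L.A7

/-! # SL, block A8: the arc estimate (helper56) -/

set_option autoImplicit false
set_option linter.unusedVariables false
set_option linter.unusedSectionVars false

open Filter Topology Metric Set
open scoped Manifold ContDiff

namespace Pool.Agent.SL

open Pool.Agent.BR Pool.Agent.MBS

section

variable {E X : Type} [NormedAddCommGroup E] [NormedSpace ℂ E] [FiniteDimensional ℂ E]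
  [MetricSpace X] [CompactSpace X] {A : Cha E X}

theorem qsm_arc_pr {ρ : X → ℝ} {C ε₀ : ℝ} (hc : Continuous ρ) (h0 : ∀ x, 0 ≤ ρ x)
    (h1 : ∀ x, ρ x ≤ 1) (hC : 0 < C) (hε₀ : 0 < ε₀) (hρ : QSM A ρ C ε₀) (f : ℂ → X) (zr : ℂ)
    (v B θ₀ : ℝ) (hz : zr ≠ 0) (hv : 0 ≤ v) (hf : HB A f (closedBall 0 ‖zr‖) v) (hθ : 0 < θ₀)
    (hθ1 : θ₀ ≤ 1) (hB : 0 ≤ B)
    (ha : ∀ θ : ℝ, |θ| ≤ θ₀ → ρ (f (zr * Complex.exp (θ * Complex.I))) ≤ Real.exp (-B)) :
    ρ (f 0) ≤ Real.exp (-(B * θ₀ ^ 2 / 50) + 2 * C * (v * ‖zr‖) ^ 2) := by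
  obtain ⟨q, hqa, hq1, hq0, hq⟩ := poisson θ₀ hθ hθ1 zr hz
  have hr : 0 < ‖zr‖ := norm_pos_iff.2 hz
  have hcl : closure (ball (0 : ℂ) ‖zr‖) = closedBall 0 ‖zr‖ := closure_ball 0 hr.ne'
  have hfr : frontier (ball (0 : ℂ) ‖zr‖) = sphere 0 ‖zr‖ := frontier_ball 0 hr.ne'
  have h := qsm_gl hc h0 hC hε₀ hρ f ‖zr‖ v (ball 0 ‖zr‖) (fun z => -(B * (q z).re)) hv
    isOpen_ball subset_rfl (by rw [hcl]; exact hf) ?_ ?_ ?_ 0 (mem_ball_self hr)
  · refine le_trans h (Real.exp_le_exp.2 ?_)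
    have e : 2 * C * v ^ 2 * (‖zr‖ ^ 2 - ‖(0 : ℂ)‖ ^ 2) = 2 * C * (v * ‖zr‖) ^ 2 := by
      rw [norm_zero]; ring
    rw [e]
    have h2 := mul_le_mul_of_nonneg_left hq hB
    have h3 : B * (θ₀ ^ 2 / 50) = B * θ₀ ^ 2 / 50 := by ring
    show -(B * (q 0).re) + _ ≤ _
    linarith
  · rw [hcl]
    intro z hzm
    have := (hqa z hzm).continuousAt
    exact (((Complex.continuous_re.continuousAt.comp this).const_mul B).neg).continuousWithinAt
  · intro z hzm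
    refine ⟨fun w => -(B : ℂ) * q w, ?_, Eventually.of_forall fun w => ?_⟩
    · exact analyticAt_const.mul (hqa z (ball_subset_closedBall hzm))
    · rw [← Complex.ofReal_neg, Complex.re_ofReal_mul]; ring
  · intro z hzm
    rw [hfr, mem_sphere_zero_iff_norm] at hzm
    by_cases hex : ∃ θ : ℝ, |θ| ≤ θ₀ ∧ z = zr * Complex.exp (θ * Complex.I)
    · obtain ⟨θ, hθθ, rfl⟩ := hex
      refine le_trans (ha θ hθθ) (Real.exp_le_exp.2 ?_)
      have := mul_le_mul_of_nonneg_left (hq1 _ hzm) hB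
      linarith
    · refine le_trans (h1 _) ?_
      have h4 := mul_nonneg hB (neg_nonneg.2 (hq0 z hzm hex))
      have : (0 : ℝ) ≤ -(B * (q z).re) := by linarith
      exact Real.one_le_exp this



end

end Pool.Agent.SL

namespace Pool.Agent.SL

alias qsm_arc := qsm_arc_pr

end Pool.Agent.SL
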