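import Pool.Agent.Lib_helper80.SL.Base
import Pool.Agent.Lib_helper58.MBS.L.CPLI
import Pool.Agent.Lib_helper80.SL.L.B1

/-! # Hyperbolicity modulo tori: block B2 (jet differentials along curves) -/

set_option autoImplicit false
set_option linter.unusedVariables false
set_option linter.unusedSectionVars false

open Filter Topology Metric Set
open scoped Manifold ContDiff

namespace Pool.Agent.SL

open Pool.Agent.BR Pool.Agent.MBS

section

variable {E X : Type} [NormedAddCommGroup E] [NormedSpace ℂ E] [FiniteDimensional ℂ E]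
  [MetricSpace X] [CompactSpace X] {A : Cha E X}

theorem b2_tr {f : ℂ → X} {z w : ℂ} (hf : A.HolAt f (w + z)) : A.HolAt (tr z f) w := by
  have hφ : AnalyticAt ℂ (fun u : ℂ => u + z) w := analyticAt_id.add analyticAt_const
  exact (hol_comp (φ := fun u : ℂ => u + z) hφ hf).1

theorem b2_ger {f : ℂ → X} {z : ℂ} (hf : A.HolAt f z) : Ger A (tr z f) := by
  have h1 : ∀ᶠ w in 𝓝 z, A.HolAt f w := holAt_near hf
  have h2 : Tendsto (fun w : ℂ => w + z) (𝓝 0) (𝓝 z) := by
    have h3 : ContinuousAt (fun w : ℂ => w + z) 0 := by fun_prop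
    have h4 : Tendsto (fun w : ℂ => w + z) (𝓝 0) (𝓝 (0 + z)) := h3
    rwa [zero_add] at h4
  exact (h2.eventually h1).mono fun w hw => b2_tr hw

theorem b2_src {f : ℂ → X} {z : ℂ} {i : A.ι} (hi : f z ∈ (A.ch i).source) :
    tr z f 0 ∈ (A.ch i).source := by
  have h : tr z f 0 = f z := by simp [tr]
  rwa [h]

theorem b2_jt {k : ℕ} (f : ℂ → X) (z : ℂ) (i : A.ι) :
    jt A k i (tr z f) = fun q : Fin (k + 1) => iteratedDeriv q (A.loc i f) z := by
  funext q
  exact cpli_jet_tr i f z q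

variable {k m s : ℕ} (D : IJ A k m s)

theorem pp_eq_pr {f : ℂ → X} {z : ℂ} (hf : A.HolAt f z) {i : A.ι} (hi : f z ∈ (A.ch i).source) :
    D.PP f z = D.Q i (fun q => iteratedDeriv q (A.loc i f) z) := by
  unfold IJ.PP
  rw [D.eq i (tr z f) (b2_ger hf) (b2_src hi), b2_jt]

theorem pp_an_pr {f : ℂ → X} {z : ℂ} (hf : A.HolAt f z) : AnalyticAt ℂ (D.PP f) z := by
  obtain ⟨i, hi⟩ := cpli_chart (A := A) (f z)
  have hev : ∀ᶠ w in 𝓝 z, f w ∈ (A.ch i).source :=
    hf.1.eventually ((A.ch i).open_source.mem_nhds hi)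
  have hloc : AnalyticAt ℂ (A.loc i f) z := hf.2 i hi
  have hjet : AnalyticAt ℂ (fun w : ℂ => (fun q : Fin (k + 1) =>
      iteratedDeriv q (A.loc i f) w)) z := by
    rw [analyticAt_pi_iff]
    intro q
    rw [iteratedDeriv_eq_iterate]
    exact hloc.iterated_deriv q
  have hj0 : (fun q : Fin (k + 1) => iteratedDeriv q (A.loc i f) z) 0 ∈ (A.ch i).target := by
    have h : (fun q : Fin (k + 1) => iteratedDeriv q (A.loc i f) z) 0 = A.ch i (f z) := by
      simp [Cha.loc]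
    rw [h]
    exact (A.ch i).map_source hi
  have hQ : AnalyticAt ℂ (fun w : ℂ => D.Q i (fun q : Fin (k + 1) =>
      iteratedDeriv q (A.loc i f) w)) z :=
    (D.an i _ hj0).comp hjet
  refine hQ.congr ?_
  filter_upwards [hev, holAt_near hf] with w hw hw'
  exact (pp_eq_pr D hw' hw).symm

theorem pp_comp_pr {f : ℂ → X} {φ : ℂ → ℂ} {w : ℂ} (hφ : AnalyticAt ℂ φ w)
    (hf : A.HolAt f (φ w)) : D.PP (fun u => f (φ u)) w = deriv φ w ^ m • D.PP f (φ w) := by
  unfold IJ.PP
  have hψ : AnalyticAt ℂ (fun u : ℂ => φ (u + w) - φ w) 0 := by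
    refine AnalyticAt.sub ?_ analyticAt_const
    have h1 : AnalyticAt ℂ (fun u : ℂ => u + w) 0 := analyticAt_id.add analyticAt_const
    have h2 : AnalyticAt ℂ φ ((fun u : ℂ => u + w) 0) := by
      have h3 : (fun u : ℂ => u + w) 0 = w := by simp
      rw [h3]
      exact hφ
    exact AnalyticAt.comp (g := φ) (f := fun u : ℂ => u + w) h2 h1
  have hψ0 : (fun u : ℂ => φ (u + w) - φ w) 0 = 0 := by simp
  have h := D.inv (tr (φ w) f) (b2_ger hf) (fun u : ℂ => φ (u + w) - φ w) hψ hψ0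
  have e1 : (fun z : ℂ => tr (φ w) f ((fun u : ℂ => φ (u + w) - φ w) z)) =
      tr w (fun u => f (φ u)) := by
    funext z
    simp [tr]
  have e2 : deriv (fun u : ℂ => φ (u + w) - φ w) 0 = deriv φ w := by
    rw [deriv_sub_const]
    rw [deriv_comp_add_const]
    simp
  rw [e1, e2] at h
  exact h

theorem pp_zero_pr {f : ℂ → X} {z : ℂ} (hf : A.HolAt f z) {i : A.ι}
    (hi : f z ∈ (A.ch i).source) (h : deriv (A.loc i f) z = 0) : D.PP f z = 0 := by
  unfold IJ.PP
  refine D.sing i (tr z f) (b2_ger hf) (b2_src hi) ?_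
  have h1 := cpli_jet_tr (A := A) i f z 1
  rw [iteratedDeriv_one, iteratedDeriv_one] at h1
  rw [h1, h]

theorem b2_hol_congr {f g : ℂ → X} {z : ℂ} (hf : A.HolAt f z) (h : f =ᶠ[𝓝 z] g) :
    A.HolAt g z := by
  have h0 : f z = g z := h.eq_of_nhds
  refine ⟨hf.1.congr h, fun i hi => ?_⟩
  have h1 : AnalyticAt ℂ (A.loc i f) z := hf.2 i (by rw [h0]; exact hi)
  refine h1.congr ?_
  filter_upwards [h] with w hw
  simp only [Cha.loc, hw]

theorem pp_congr_pr {f g : ℂ → X} {z : ℂ} (hf : A.HolAt f z) (h : f =ᶠ[𝓝 z] g) :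
    D.PP f z = D.PP g z := by
  obtain ⟨i, hi⟩ := cpli_chart (A := A) (f z)
  have h0 : f z = g z := h.eq_of_nhds
  rw [pp_eq_pr D hf hi, pp_eq_pr D (b2_hol_congr hf h) (i := i) (by rw [← h0]; exact hi)]
  congr 1
  funext q
  refine Filter.EventuallyEq.iteratedDeriv_eq q ?_
  filter_upwards [h] with w hw
  simp only [Cha.loc, hw]

end







end Pool.Agent.SL

namespace Pool.Agent.SL

alias pp_eq := pp_eq_pr
alias pp_an := pp_an_pr
alias pp_comp := pp_comp_pr
alias pp_zero := pp_zero_pr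
alias pp_congr := pp_congr_pr

end Pool.Agent.SL
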