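import Pool.Agent.Lib_helper80.SL.Base
import Pool.Agent.Lib_helper58.MBS.L.BJET
import Pool.Agent.Lib_helper58.MBS.L.CPLI
import Pool.Agent.Lib_helper80.SL.L.B2

/-! # SL, block B3: convergence of the jets, Liouville -/

set_option autoImplicit false
set_option linter.unusedVariables false
set_option linter.unusedSectionVars false

open Filter Topology Metric Set
open scoped Manifold ContDiff

namespace Pool.Agent.SL

open Pool.Agent.BR Pool.Agent.MBS

section

variable {E X : Type} [NormedAddCommGroup E] [NormedSpace ℂ E] [FiniteDimensional ℂ E]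
  [MetricSpace X] [CompactSpace X] {A : Cha E X}

variable {k m s : ℕ} (D : IJ A k m s)

/-- convergence in a chart -/
theorem b3_chart {κ : Type} {U : Filter κ} {F : κ → ℂ → X} {g : ℂ → X} {t : ℂ} {ρ : ℝ}
    (hρ : 0 < ρ) (hg : ∀ z ∈ ball t ρ, A.HolAt g z) (hF : ∀ᶠ n in U, ∀ z ∈ ball t ρ, A.HolAt (F n) z)
    (hl : TendstoUniformlyOn F g U (ball t ρ)) (i : A.ι) (hi : g t ∈ (A.ch i).source) :
    ∃ r > 0, (∀ z ∈ ball t r, g z ∈ (A.ch i).source ∧ AnalyticAt ℂ (A.loc i g) z) ∧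
      (∀ᶠ n in U, ∀ z ∈ ball t r, F n z ∈ (A.ch i).source ∧ AnalyticAt ℂ (A.loc i (F n)) z) ∧
      TendstoUniformlyOn (fun n => A.loc i (F n)) (A.loc i g) U (ball t r) := by
  obtain ⟨η, hη, hηs⟩ := Metric.nhds_basis_closedBall.mem_iff.1
    ((A.ch i).open_source.mem_nhds hi)
  have hKc : IsCompact (closedBall (g t) η) := isClosed_closedBall.isCompact
  have hcont : ContinuousOn (A.ch i) (closedBall (g t) η) :=
    (A.ch i).continuousOn.mono hηs
  have huc : UniformContinuousOn (A.ch i) (closedBall (g t) η) :=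
    hKc.uniformContinuousOn_of_continuous hcont
  obtain ⟨r', hr', hfr⟩ := Metric.continuousAt_iff.1 (hg t (mem_ball_self hρ)).1 (η / 2)
    (by linarith)
  obtain ⟨r, hr⟩ : ∃ r, r = min r' ρ := ⟨_, rfl⟩
  have hr0 : 0 < r := by rw [hr]; exact lt_min hr' hρ
  have hrr : r ≤ r' := by rw [hr]; exact min_le_left _ _
  have hrρ : ball t r ⊆ ball t ρ := ball_subset_ball (by rw [hr]; exact min_le_right _ _)
  rw [Metric.tendstoUniformlyOn_iff] at hl
  have hfK : ∀ z ∈ ball t r, g z ∈ closedBall (g t) η := fun z hz => by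
    have h1 := hfr (lt_of_lt_of_le (mem_ball.1 hz) hrr)
    rw [mem_closedBall]
    linarith
  have hgK : ∀ᶠ n in U, ∀ z ∈ ball t r, F n z ∈ closedBall (g t) η := by
    filter_upwards [hl (η / 2) (by linarith)] with n hn z hz
    have h1 := hfr (lt_of_lt_of_le (mem_ball.1 hz) hrr)
    have h4 := hn z (hrρ hz)
    rw [dist_comm] at h4
    rw [mem_closedBall]
    have h5 := dist_triangle (F n z) (g z) (g t)
    linarith
  refine ⟨r, hr0, fun z hz => ⟨hηs (hfK z hz), (hg z (hrρ hz)).2 i (hηs (hfK z hz))⟩, ?_, ?_⟩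
  · filter_upwards [hF, hgK] with n hn hn' z hz
    exact ⟨hηs (hn' z hz), (hn z (hrρ hz)).2 i (hηs (hn' z hz))⟩
  · rw [Metric.tendstoUniformlyOn_iff]
    intro ε hε
    obtain ⟨δ, hδ, hδ'⟩ := Metric.uniformContinuousOn_iff.1 huc ε hε
    filter_upwards [hgK, hl δ hδ] with n hn hn' z hz
    exact hδ' (g z) (hfK z hz) (F n z) (hn z hz) (hn' z (hrρ hz))

theorem jet_lim_pr {κ : Type} {U : Filter κ} {F : κ → ℂ → X} {u : κ → ℂ} {g : ℂ → X} {t : ℂ} {ρ : ℝ}
    (hρ : 0 < ρ) (hg : ∀ z ∈ ball t ρ, A.HolAt g z) (hF : ∀ᶠ n in U, ∀ z ∈ ball t ρ, A.HolAt (F n) z)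
    (hl : TendstoUniformlyOn F g U (ball t ρ)) (hu : Tendsto u U (𝓝 t)) (i : A.ι)
    (hi : g t ∈ (A.ch i).source) (q : ℕ) :
    Tendsto (fun n => iteratedDeriv q (A.loc i (F n)) (u n)) U
      (𝓝 (iteratedDeriv q (A.loc i g) t)) := by
  obtain ⟨r, hr, h1, h2, h3⟩ := b3_chart hρ hg hF hl i hi
  have h4 := bjet_lim isOpen_ball (h2.mono fun n hn z hz => (hn z hz).2) h3 q
  have h5 : t ∈ ball t r := mem_ball_self hr
  have h6 : ContinuousWithinAt (iteratedDeriv q (A.loc i g)) (ball t r) t :=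
    (bjet_diff isOpen_ball (fun z hz => (h1 z hz).2) q).continuousOn t h5
  refine h4.tendsto_comp h6 h5 ?_
  exact tendsto_nhdsWithin_iff.mpr ⟨hu, hu.eventually (ball_mem_nhds t hr)⟩

theorem pp_lim_pr {κ : Type} {U : Filter κ} {F : κ → ℂ → X} {u : κ → ℂ} {g : ℂ → X} {t : ℂ} {ρ : ℝ}
    (hρ : 0 < ρ) (hg : ∀ z ∈ ball t ρ, A.HolAt g z) (hF : ∀ᶠ n in U, ∀ z ∈ ball t ρ, A.HolAt (F n) z)
    (hl : TendstoUniformlyOn F g U (ball t ρ)) (hu : Tendsto u U (𝓝 t)) :
    Tendsto (fun n => D.PP (F n) (u n)) U (𝓝 (D.PP g t)) := by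
  obtain ⟨i, hi⟩ := cpli_chart (A := A) (g t)
  have hgt := hg t (mem_ball_self hρ)
  have hjet : Tendsto (fun n => fun q : Fin (k + 1) => iteratedDeriv q (A.loc i (F n)) (u n)) U
      (𝓝 fun q : Fin (k + 1) => iteratedDeriv q (A.loc i g) t) := by
    rw [tendsto_pi_nhds]
    intro q
    exact jet_lim_pr hρ hg hF hl hu i hi q
  have hj0 : (fun q : Fin (k + 1) => iteratedDeriv q (A.loc i g) t) 0 ∈ (A.ch i).target := by
    have : (fun q : Fin (k + 1) => iteratedDeriv q (A.loc i g) t) 0 = A.ch i (g t) := by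
      simp [Cha.loc]
    rw [this]
    exact (A.ch i).map_source hi
  have hQ := ((D.an i _ hj0).continuousAt.tendsto).comp hjet
  rw [pp_eq D hgt hi]
  obtain ⟨r, hr, h1, h2, h3⟩ := b3_chart hρ hg hF hl i hi
  refine hQ.congr' ?_
  filter_upwards [h2, hF, hu.eventually (ball_mem_nhds t hr), hu.eventually (ball_mem_nhds t hρ)]
    with n h4 h5 h6 h7
  exact (pp_eq D (h5 _ h7) (h4 _ h6).1).symm

theorem pp_cont_pr (C : ℝ) (z : ℂ) : ContinuousOn (fun g => D.PP g z) (BF A C) := by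
  intro f hf
  have hlim : Tendsto (fun g : ℂ → X => g) (𝓝[BF A C] f) (𝓝 f) := tendsto_id.mono_left
    nhdsWithin_le_nhds
  have hmem : ∀ᶠ g in 𝓝[BF A C] f, (fun g : ℂ → X => g) g ∈ BF A C := self_mem_nhdsWithin
  refine pp_lim_pr D (F := fun g : ℂ → X => g) (u := fun _ => z) (t := z) one_pos
    (fun w _ => hf.1 w) (hmem.mono fun g hg w _ => hg.1 w) ?_ tendsto_const_nhds
  rw [Metric.tendstoUniformlyOn_iff]
  intro ε hε
  filter_upwards [bf_unif hmem hf hlim (‖z‖ + 1) ε hε] with g hg w hw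
  rw [dist_comm]
  refine hg w ?_
  have h2 : ‖w - z‖ < 1 := by rw [← dist_eq_norm]; exact mem_ball.1 hw
  have h3 : ‖w‖ ≤ ‖w - z‖ + ‖z‖ := by
    simpa using norm_add_le (w - z) z
  linarith

theorem pp_const_pr {C : ℝ} {g : ℂ → X} (hg : g ∈ BF A C) (z z' : ℂ) : D.PP g z = D.PP g z' := by
  have hd : Differentiable ℂ (D.PP g) := fun w => (pp_an D (hg.1 w)).differentiableAt
  have hb : Bornology.IsBounded (range (D.PP g)) := by
    have hK : IsCompact (BF A C) := (bf_closed A C).isCompact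
    have h1 : IsCompact ((fun h => D.PP h 0) '' BF A C) :=
      hK.image_of_continuousOn (pp_cont_pr D C 0)
    refine h1.isBounded.subset ?_
    rintro _ ⟨w, rfl⟩
    refine ⟨_, bf_tr hg w, ?_⟩
    show D.P (tr 0 (tr w g)) = D.P (tr w g)
    congr 1
    funext v
    simp [tr]
  exact hd.apply_eq_apply_of_bounded hb z z'

end






end Pool.Agent.SL

namespace Pool.Agent.SL

alias jet_lim := jet_lim_pr
alias pp_lim := pp_lim_pr
alias pp_cont := pp_cont_pr
alias pp_const := pp_const_pr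

end Pool.Agent.SL
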