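import Pool.Agent.Lib_helper80.SL.Base
import Pool.Agent.Lib_helper82.BR.B.BRO
import Pool.Agent.Lib_helper80.SL.L.B0
import Pool.Agent.Lib_helper80.SL.L.B2
import Pool.Agent.Lib_helper80.SL.L.B3

/-! Project SL (MP_45e720_ag), block B4 (P1, ZAL), by helper65 (the point lemma and the rescaling
are adapted from BR/B/BRO, by helper14 and helper69). -/

set_option autoImplicit false
set_option linter.unusedVariables false
set_option linter.unusedSectionVars false

open Filter Topology Metric Set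
open scoped Manifold ContDiff

namespace Pool.Agent.SL

open Pool.Agent.BR Pool.Agent.MBS

/-- the point lemma of Brody, with the value at the centre -/
theorem b4_point (g : ℂ → ℝ) (c : ℂ) (ρ R : ℝ) (hR : 0 < R) (hρ : 0 < ρ)
    (hg : ContinuousOn g (closedBall c ρ)) (h0 : ∀ z ∈ closedBall c ρ, 0 ≤ g z)
    (hc : 2 * R ≤ ρ * g c) :
    ∃ a ∈ ball c ρ, 0 < g a ∧ g c ≤ g a ∧
      ∀ z, ‖z - a‖ < R / g a → z ∈ ball c ρ ∧ g z ≤ 2 * g a := by
  have hcont : ContinuousOn (fun z => (ρ - ‖z - c‖) * g z) (closedBall c ρ) := by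
    refine ContinuousOn.mul ?_ hg
    fun_prop
  obtain ⟨a, ha, hmax⟩ := (isCompact_closedBall c ρ).exists_isMaxOn
    ⟨c, mem_closedBall_self hρ.le⟩ hcont
  have h1 : ρ * g c ≤ (ρ - ‖a - c‖) * g a := by
    have := hmax (mem_closedBall_self hρ.le : c ∈ closedBall c ρ)
    simpa using this
  have hac : ‖a - c‖ ≤ ρ := by
    rw [mem_closedBall, dist_eq_norm] at ha
    exact ha
  have hga := h0 a ha
  have hpos : 0 < (ρ - ‖a - c‖) * g a := by linarith
  have hga' : 0 < g a := by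
    rcases hga.eq_or_lt with h | h
    · rw [← h, mul_zero] at hpos
      exact absurd hpos (lt_irrefl _)
    · exact h
  have hd : 0 < ρ - ‖a - c‖ := (pos_iff_pos_of_mul_pos hpos).2 hga'
  have hca : g c ≤ g a := by
    have h2 : (ρ - ‖a - c‖) * g a ≤ ρ * g a :=
      mul_le_mul_of_nonneg_right (by linarith [norm_nonneg (a - c)]) hga
    exact le_of_mul_le_mul_left (h1.trans h2) hρ
  refine ⟨a, ?_, hga', hca, fun z hz => ?_⟩
  · rw [mem_ball, dist_eq_norm]
    linarith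
  · have h2 : R / g a ≤ (ρ - ‖a - c‖) / 2 := by
      rw [div_le_div_iff₀ hga' two_pos]
      linarith
    have h3 : ‖z - c‖ ≤ ‖z - a‖ + ‖a - c‖ := by
      have := norm_add_le (z - a) (a - c)
      simpa using this
    have h4 : (ρ - ‖a - c‖) / 2 ≤ ρ - ‖z - c‖ := by linarith
    have hz1 : z ∈ ball c ρ := by
      rw [mem_ball, dist_eq_norm]
      linarith
    refine ⟨hz1, ?_⟩
    have h5 := hmax (ball_subset_closedBall hz1)
    simp only at h5
    have h6 := h0 z (ball_subset_closedBall hz1)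
    have h7 : (ρ - ‖a - c‖) / 2 * g z ≤ (ρ - ‖a - c‖) * g a :=
      (mul_le_mul_of_nonneg_right h4 h6).trans h5
    have h8 : (ρ - ‖a - c‖) * (g z) ≤ (ρ - ‖a - c‖) * (2 * g a) := by linarith
    exact le_of_mul_le_mul_left h8 hd

section

variable {E X : Type} [NormedAddCommGroup E] [NormedSpace ℂ E] [FiniteDimensional ℂ E]
  [MetricSpace X] [CompactSpace X] {A : Cha E X}

variable {k m s : ℕ} (D : IJ A k m s)

theorem b4_gauge_cont [Fintype A.ι] {φ : A.ι → X → ℝ} (hφ : BroCut A φ) {f : ℂ → X} {t : ℂ}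
    (hf : A.HolAt f t) : ContinuousAt (broN A φ f) t := by
  refine broN_tendsto hφ (𝓝 t) (fun _ => f) (fun z => z) f t hf.1 fun i hi => ?_
  exact (hf.2 i hi).deriv.continuousAt

/-- one rescaled curve -/
theorem b4_step [Fintype A.ι] {φ : A.ι → X → ℝ} (hφ : BroCut A φ) {f : ℂ → X} {U : Set ℂ}
    (hf : ∀ z ∈ U, A.HolAt f z) {M : ℝ} (hM : 0 < M) (hz : ¬ D.Zal M f U) :
    ∃ (a : ℂ) (r : ℝ), 0 < r ∧ broN A φ (fun u => f (a + (r : ℂ) * u)) 0 = 1 ∧
      ∀ u : ℂ, ‖u‖ < M / 4 → a + (r : ℂ) * u ∈ U ∧ A.HolAt (fun u => f (a + (r : ℂ) * u)) u ∧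
        broN A φ (fun u => f (a + (r : ℂ) * u)) u ≤ 2 ∧
        ‖D.PP (fun u => f (a + (r : ℂ) * u)) u‖ ≤ (1 / M) ^ m := by
  unfold IJ.Zal at hz
  push Not at hz
  obtain ⟨c, ρ, B, hρ, hB, hsub, hP, i, hi, hv⟩ := hz
  have hsub2 : closedBall c (ρ / 2) ⊆ U :=
    (closedBall_subset_ball (by linarith)).trans hsub
  have hgc : M * (B + 1 / ρ) < broN A φ f c := hv.trans_le (broN_le hφ f c i hi)
  have hMρ : M * (B + 1 / ρ) = M * B + M / ρ := by ring
  have hMB : 0 ≤ M * B := by positivity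
  have hMr : 0 < M / ρ := by positivity
  have h1 : M / ρ ≤ broN A φ f c := by linarith
  obtain ⟨a, ha, hga, hca, hball⟩ := b4_point (broN A φ f) c (ρ / 2) (M / 4) (by positivity)
    (by positivity) (fun z hz => (b4_gauge_cont hφ (hf z (hsub2 hz))).continuousWithinAt)
    (fun z _ => broN_nonneg hφ f z) (by
      have h2 := mul_le_mul_of_nonneg_left h1 (by positivity : 0 ≤ ρ / 2)
      have h3 : ρ / 2 * (M / ρ) = 2 * (M / 4) := by
        field_simp
        ring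
      linarith)
  have haU : a ∈ U := hsub2 (ball_subset_closedBall ha)
  obtain ⟨r, hr⟩ : ∃ r, r = (broN A φ f a)⁻¹ := ⟨_, rfl⟩
  have hr0 : 0 < r := by rw [hr]; exact inv_pos.2 hga
  have hrg : r * broN A φ f a = 1 := by rw [hr]; exact inv_mul_cancel₀ hga.ne'
  have hrB : r * B ≤ 1 / M := by
    rw [le_div_iff₀ hM]
    have h2 : M * B ≤ broN A φ f a := by linarith
    calc r * B * M = r * (M * B) := by ring
      _ ≤ r * broN A φ f a := mul_le_mul_of_nonneg_left h2 hr0.le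
      _ = 1 := hrg
  refine ⟨a, r, hr0, ?_, fun u hu => ?_⟩
  · have h2 : A.HolAt f (a + (r : ℂ) * 0) := by
      rw [mul_zero, add_zero]
      exact hf a haU
    rw [broN_affine hφ hr0.le h2, mul_zero, add_zero]
    exact hrg
  · have h2 : ‖a + (r : ℂ) * u - a‖ < M / 4 / broN A φ f a := by
      rw [add_sub_cancel_left, norm_mul, Complex.norm_real, Real.norm_of_nonneg hr0.le, hr,
        div_eq_inv_mul]
      exact mul_lt_mul_of_pos_left hu (inv_pos.2 hga)
    obtain ⟨h3, h4⟩ := hball _ h2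
    have h5 : a + (r : ℂ) * u ∈ U := hsub2 (ball_subset_closedBall h3)
    have h6 := hf _ h5
    refine ⟨h5, bro_hol h6, ?_, ?_⟩
    · rw [broN_affine hφ hr0.le h6]
      calc r * broN A φ f (a + (r : ℂ) * u) ≤ r * (2 * broN A φ f a) :=
            mul_le_mul_of_nonneg_left h4 hr0.le
        _ = 2 * (r * broN A φ f a) := by ring
        _ = 2 := by rw [hrg, mul_one]
    · have hφ2 : AnalyticAt ℂ (fun u : ℂ => a + (r : ℂ) * u) u := bro_affine_an a r u
      have hd : deriv (fun u : ℂ => a + (r : ℂ) * u) u = r := by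
        have h7 : HasDerivAt (fun z : ℂ => a + (r : ℂ) * z) (r : ℂ) u := by
          simpa using ((hasDerivAt_id u).const_mul (r : ℂ)).const_add a
        exact h7.deriv
      have h7 := pp_comp D (φ := fun u : ℂ => a + (r : ℂ) * u) hφ2 h6
      rw [h7, hd, norm_smul, norm_pow, Complex.norm_real, Real.norm_of_nonneg hr0.le]
      have h8 : ‖D.PP f (a + (r : ℂ) * u)‖ ≤ B ^ m :=
        hP _ (ball_subset_ball (by linarith) h3)
      calc r ^ m * ‖D.PP f (a + (r : ℂ) * u)‖ ≤ r ^ m * B ^ m :=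
            mul_le_mul_of_nonneg_left h8 (by positivity)
        _ = (r * B) ^ m := by rw [mul_pow]
        _ ≤ (1 / M) ^ m := pow_le_pow_left₀ (by positivity) hrB m

theorem b4_main (f : ℕ → ℂ → X) (U : ℕ → Set ℂ) (hf : ∀ n, ∀ z ∈ U n, A.HolAt (f n) z)
    (hz : ∀ n : ℕ, ¬ D.Zal ((n : ℝ) + 1) (f n) (U n)) :
    ∃ h : ℂ → X, (∃ C, h ∈ BF A C) ∧ RLim f U h ∧ (∀ z, D.PP h z = 0) ∧ ∃ z z', h z ≠ h z' := by
  have := A.fin
  let _ : Fintype A.ι := Fintype.ofFinite A.ι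
  obtain ⟨φ, hφ⟩ := bro_cut A
  have key := fun n : ℕ => b4_step D hφ (hf n) (by positivity : 0 < (n : ℝ) + 1) (hz n)
  choose a r hr hF0 hF using key
  obtain ⟨F, hFd⟩ : ∃ F : ℕ → ℂ → X, F = fun n u => f n (a n + (r n : ℂ) * u) := ⟨_, rfl⟩
  have hF0' : ∀ n, broN A φ (F n) 0 = 1 := by
    rw [hFd]
    exact hF0
  have hF' : ∀ (n : ℕ) (u : ℂ), ‖u‖ < ((n : ℝ) + 1) / 4 → a n + (r n : ℂ) * u ∈ U n ∧
      A.HolAt (F n) u ∧ broN A φ (F n) u ≤ 2 ∧ ‖D.PP (F n) u‖ ≤ (1 / ((n : ℝ) + 1)) ^ m := by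
    rw [hFd]
    exact hF
  let V : Ultrafilter ℕ := Ultrafilter.of atTop
  have hV : (V : Filter ℕ) ≤ atTop := Ultrafilter.of_le _
  have hlarge : ∀ R : ℝ, ∀ᶠ n : ℕ in (V : Filter ℕ), R < ((n : ℝ) + 1) / 4 := by
    intro R
    refine hV ?_
    obtain ⟨N, hN⟩ := exists_nat_ge (4 * R)
    filter_upwards [eventually_ge_atTop N] with n hn
    have h1 : (N : ℝ) ≤ n := by exact_mod_cast hn
    linarith
  have hHB : ∀ R : ℝ, ∀ᶠ n : ℕ in (V : Filter ℕ), HB A (F n) (ball 0 R) 2 := by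
    intro R
    filter_upwards [hlarge R] with n hn t ht
    rw [mem_ball_zero_iff] at ht
    obtain ⟨h1, h2, h3, h4⟩ := hF' n t (ht.trans hn)
    exact ⟨h2, fun i hi => (broN_le hφ (F n) t i hi).trans h3⟩
  obtain ⟨h, hh, hh2⟩ := loc_lim A V F
  have hlim : ∀ R : ℝ, HB A h (ball 0 R) 2 ∧ TendstoUniformlyOn F h V (ball 0 R) := fun R =>
    hh2 R (R + 1) 2 (by linarith) (hHB (R + 1))
  have hmem : ∀ z : ℂ, z ∈ ball (0 : ℂ) (‖z‖ + 1) := fun z => by
    rw [mem_ball_zero_iff]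
    linarith
  have hbf : h ∈ BF A 2 :=
    ⟨fun z => ((hlim (‖z‖ + 1)).1 z (hmem z)).1, fun z => ((hlim (‖z‖ + 1)).1 z (hmem z)).2⟩
  have hsub : ∀ z : ℂ, ball z 1 ⊆ ball (0 : ℂ) (‖z‖ + 1) := fun z => by
    refine ball_subset_ball' ?_
    rw [dist_zero_right]
    linarith
  have hFh : ∀ z : ℂ, ∀ᶠ n in (V : Filter ℕ), ∀ w ∈ ball z 1, A.HolAt (F n) w := by
    intro z
    filter_upwards [hHB (‖z‖ + 1)] with n hn w hw
    exact (hn w (hsub z hw)).1
  have hF0l : Tendsto (fun n => broN A φ (F n) 0) V (𝓝 (broN A φ h 0)) := by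
    refine broN_tendsto hφ (V : Filter ℕ) F (fun _ => (0 : ℂ)) h 0 (hh 0) fun i hi => ?_
    have h5 := jet_lim (U := (V : Filter ℕ)) (F := F) (u := fun _ => (0 : ℂ)) (g := h) (t := 0)
      (ρ := 1) one_pos (fun z _ => hbf.1 z) (hFh 0) ((hlim 1).2) tendsto_const_nhds i hi 1
    simpa only [iteratedDeriv_one] using h5
  have hg0 : broN A φ h 0 = 1 := by
    simp only [hF0'] at hF0l
    exact tendsto_nhds_unique hF0l tendsto_const_nhds
  refine ⟨h, ⟨2, hbf⟩, fun ε hε R N => ?_, fun z => ?_, ?_⟩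
  · have h1 := Metric.tendstoUniformlyOn_iff.1 (hlim (R + 1)).2 ε hε
    have h2 : ∀ᶠ n : ℕ in (V : Filter ℕ), N ≤ n := hV (eventually_ge_atTop N)
    obtain ⟨n, hn1, hn2, hn3⟩ := (h1.and (h2.and (hlarge R))).exists
    refine ⟨n, hn2, (r n : ℂ), a n, ?_, fun z hz => ?_⟩
    · exact_mod_cast (hr n).ne'
    · have h3 : z ∈ ball (0 : ℂ) (R + 1) := by
        rw [mem_ball_zero_iff]
        linarith
      have h4 := hn1 z h3
      have h5 := (hF' n z (lt_of_le_of_lt hz hn3)).1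
      rw [dist_comm, hFd] at h4
      rw [add_comm]
      exact ⟨h5, h4⟩
  · have h1 := pp_lim D (U := (V : Filter ℕ)) (F := F) (u := fun _ => z) (g := h) (t := z)
      (ρ := 1) one_pos (fun z _ => hbf.1 z) (hFh z) ((hlim (‖z‖ + 1)).2.mono (hsub z))
      tendsto_const_nhds
    have h2 : Tendsto (fun n : ℕ => (1 / ((n : ℝ) + 1)) ^ m) V (𝓝 0) := by
      have h3 := ((tendsto_one_div_add_atTop_nhds_zero_nat (𝕜 := ℝ)).mono_left hV).pow m
      rwa [zero_pow D.pos.ne'] at h3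
    have h3 : Tendsto (fun n => D.PP (F n) z) V (𝓝 0) := by
      refine squeeze_zero_norm' ?_ h2
      filter_upwards [hlarge ‖z‖] with n hn
      exact (hF' n z hn).2.2.2
    exact tendsto_nhds_unique h1 h3
  · by_contra hno
    push Not at hno
    have h1 : broN A φ h 0 = 0 := by
      unfold broN
      refine Finset.sum_eq_zero fun i _ => ?_
      have h2 : A.loc i h = fun _ => A.ch i (h 0) := by
        funext t
        rw [Cha.loc, hno t 0]
      rw [h2, deriv_const, norm_zero, mul_zero]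
    rw [hg0] at h1
    exact one_ne_zero h1

theorem zal_fail_pr (f : ℕ → ℂ → X) (U : ℕ → Set ℂ) (hf : ∀ n, ∀ z ∈ U n, A.HolAt (f n) z)
    (hz : ∀ n : ℕ, ¬ D.Zal n (f n) (U n)) :
    ∃ h : ℂ → X, (∃ C, h ∈ BF A C) ∧ RLim f U h ∧ (∀ z, D.PP h z = 0) ∧ ∃ z z', h z ≠ h z' := by
  obtain ⟨h, h1, h2, h3, h4⟩ := b4_main D (fun n => f (n + 1)) (fun n => U (n + 1))
    (fun n => hf (n + 1)) (fun n => by
      have h5 := hz (n + 1)
      push_cast at h5
      exact h5)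
  refine ⟨h, h1, fun ε hε R N => ?_, h3, h4⟩
  obtain ⟨n, hn, a, b, ha, hab⟩ := h2 ε hε R N
  exact ⟨n + 1, by omega, a, b, ha, hab⟩



end

end Pool.Agent.SL

namespace Pool.Agent.SL

alias zal_fail := zal_fail_pr

end Pool.Agent.SL
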