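import Pool.Agent.Lib_helper80.SL.Base
import Pool.Agent.Lib_helper58.MBS.L.BCMP
import Pool.Agent.Lib_helper80.SL.L.B0
import Pool.Agent.Lib_helper80.SL.L.B1
import Pool.Agent.Lib_helper80.SL.L.B2
import Pool.Agent.Lib_helper80.SL.L.B3

/-! Project SL (MP_45e720_ag), block B5 (P2), by helper65. -/

set_option autoImplicit false
set_option linter.unusedVariables false
set_option linter.unusedSectionVars false

open Filter Topology Metric Set
open scoped Manifold ContDiff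

namespace Pool.Agent.SL

open Pool.Agent.BR Pool.Agent.MBS

section

variable {E X : Type} [NormedAddCommGroup E] [NormedSpace ℂ E] [FiniteDimensional ℂ E]
  [MetricSpace X] [CompactSpace X] {A : Cha E X}

variable {k m s : ℕ} (D : IJ A k m s)

theorem fam_affine_pr {C : ℝ} {g : ℂ → X} (hg : g ∈ D.Fam C) {a b : ℂ} (ha : ‖a‖ = 1) :
    (fun z => g (a * z + b)) ∈ D.Fam C := by
  have hφ : ∀ w : ℂ, AnalyticAt ℂ (fun z : ℂ => a * z + b) w := fun w => by fun_prop
  have hd : ∀ w : ℂ, deriv (fun z : ℂ => a * z + b) w = a := by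
    intro w
    have h1 : HasDerivAt (fun z : ℂ => a * z + b) a w := by
      simpa using ((hasDerivAt_id w).const_mul a).add_const b
    exact h1.deriv
  refine ⟨⟨fun w => ?_, fun w i hi => ?_⟩, fun w => ?_⟩
  · exact (hol_comp (φ := fun z : ℂ => a * z + b) (hφ w) (hg.1.1 _)).1
  · have h1 := (hol_comp (φ := fun z : ℂ => a * z + b) (hφ w) (hg.1.1 _)).2 i
      (A.W_sub i (subset_closure hi))
    rw [h1, hd, norm_smul, ha, one_mul]
    exact hg.1.2 _ i hi
  · have h1 := pp_comp D (φ := fun z : ℂ => a * z + b) (hφ w) (hg.1.1 _)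
    rw [h1, hd, norm_smul, norm_pow, ha, one_pow, one_mul]
    exact hg.2 _

theorem fam_closed_pr (C : ℝ) : IsClosed (D.Fam C) := by
  have h1 : D.Fam C = BF A C ∩ ⋂ z : ℂ, (BF A C ∩ (fun g => D.PP g z) ⁻¹' (sphere 0 1)) := by
    ext g
    constructor
    · intro hg
      refine ⟨hg.1, mem_iInter.2 fun z => ⟨hg.1, ?_⟩⟩
      have h2 := hg.2 z
      simpa using h2
    · rintro ⟨hg, hg2⟩
      refine ⟨hg, fun z => ?_⟩
      have h2 := (mem_iInter.1 hg2 z).2
      simpa using h2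
  rw [h1]
  exact (bf_closed_pr A C).inter (isClosed_iInter fun z =>
    (pp_cont D C z).preimage_isClosed_of_isClosed (bf_closed_pr A C) isClosed_sphere)

theorem b5_tr_zero (w : ℂ) (f : ℂ → X) (u : ℂ) : D.PP (tr w f) u = D.PP f (u + w) := by
  have h1 : tr u (tr w f) = tr (u + w) f := by
    funext z
    simp only [tr]
    rw [add_assoc]
  rw [IJ.PP, IJ.PP, h1]

theorem b5_hb_tr {f : ℂ → X} {z : ℂ} {r C : ℝ} (h : HB A f (ball z r) C) :
    HB A (tr z f) (ball 0 r) C := by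
  intro w hw
  have hw' : w + z ∈ ball z r := by
    rw [mem_ball_iff_norm]
    rw [mem_ball_zero_iff] at hw
    rwa [add_sub_cancel_right]
  have hφ : AnalyticAt ℂ (fun u : ℂ => u + z) w := by fun_prop
  have hd : deriv (fun u : ℂ => u + z) w = 1 := by
    have h1 : HasDerivAt (fun u : ℂ => u + z) 1 w := (hasDerivAt_id w).add_const z
    exact h1.deriv
  have h1 := hol_comp (φ := fun u : ℂ => u + z) hφ (h _ hw').1
  refine ⟨h1.1, fun i hi => ?_⟩
  have h2 := h1.2 i (A.W_sub i (subset_closure hi))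
  rw [hd, one_smul] at h2
  have h3 := (h _ hw').2 i hi
  rw [← h2] at h3
  exact h3

theorem b5_deriv_tr (i : A.ι) (f : ℂ → X) (z : ℂ) :
    deriv (A.loc i (tr z f)) 0 = deriv (A.loc i f) z := by
  have h1 := jet_tr (A := A) i f z 1
  rwa [iteratedDeriv_one, iteratedDeriv_one] at h1

theorem vel_lower_pr (C : ℝ) : ∃ c > 0, ∀ (f : ℂ → X) (z : ℂ), HB A f (ball z 1) C →
    (∀ w ∈ ball z 1, 1 / 2 ≤ ‖D.PP f w‖) → ∀ i, f z ∈ A.W i → c ≤ ‖deriv (A.loc i f) z‖ := by
  by_contra hno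
  push Not at hno
  have key : ∀ n : ℕ, ∃ (F : ℂ → X) (i : A.ι), HB A F (ball 0 1) C ∧
      (∀ w ∈ ball (0 : ℂ) 1, 1 / 2 ≤ ‖D.PP F w‖) ∧ F 0 ∈ A.W i ∧
        ‖deriv (A.loc i F) 0‖ < 1 / ((n : ℝ) + 1) := by
    intro n
    obtain ⟨f, z, h1, h2, i, h3, h4⟩ := hno (1 / ((n : ℝ) + 1)) (by positivity)
    refine ⟨tr z f, i, b5_hb_tr h1, fun w hw => ?_, ?_, ?_⟩
    · rw [b5_tr_zero]
      refine h2 _ ?_
      rw [mem_ball_iff_norm]
      rw [mem_ball_zero_iff] at hw
      rwa [add_sub_cancel_right]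
    · have h5 : tr z f 0 = f z := by
        simp [tr]
      rwa [h5]
    · rwa [b5_deriv_tr]
  choose F i hF hP hW hd using key
  let U : Ultrafilter ℕ := Ultrafilter.of atTop
  have hU : (U : Filter ℕ) ≤ atTop := Ultrafilter.of_le _
  obtain ⟨g, hg, hg2⟩ := loc_lim A U F
  obtain ⟨h3, h4⟩ := hg2 (1 / 2) 1 C (by norm_num) (Eventually.of_forall hF)
  have := A.fin
  obtain ⟨j, hj⟩ : ∃ j, ∀ᶠ n in (U : Filter ℕ), i n = j := by
    by_contra hcon
    have h5 : ∀ j, ∀ᶠ n in (U : Filter ℕ), ¬ i n = j := fun j => by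
      rw [Ultrafilter.eventually_not]
      exact fun h => hcon ⟨j, h⟩
    have h6 : ∀ᶠ n in (U : Filter ℕ), ∀ j, ¬ i n = j := eventually_all.2 h5
    obtain ⟨n, hn⟩ := h6.exists
    exact hn (i n) rfl
  have h0 : (0 : ℂ) ∈ ball (0 : ℂ) (1 / 2) := mem_ball_self (by norm_num)
  have hgj : g 0 ∈ (A.ch j).source := by
    refine A.W_sub j (mem_closure_of_tendsto (hg 0) ?_)
    filter_upwards [hj] with n hn
    have h5 := hW n
    rwa [hn] at h5
  have hFh : ∀ᶠ n in (U : Filter ℕ), ∀ z ∈ ball (0 : ℂ) (1 / 2), A.HolAt (F n) z :=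
    Eventually.of_forall fun n z hz => (hF n z (ball_subset_ball (by norm_num) hz)).1
  have h5 := jet_lim (U := (U : Filter ℕ)) (F := F) (u := fun _ => (0 : ℂ)) (g := g) (t := 0)
    (ρ := 1 / 2) (by norm_num) (fun z hz => (h3 z hz).1) hFh h4 tendsto_const_nhds j hgj 1
  simp only [iteratedDeriv_one] at h5
  have h6 : Tendsto (fun n : ℕ => 1 / ((n : ℝ) + 1)) U (𝓝 0) :=
    (tendsto_one_div_add_atTop_nhds_zero_nat (𝕜 := ℝ)).mono_left hU
  have h7 : Tendsto (fun n => deriv (A.loc j (F n)) 0) U (𝓝 0) := by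
    refine squeeze_zero_norm' ?_ h6
    filter_upwards [hj] with n hn
    have h8 := hd n
    rw [hn] at h8
    exact h8.le
  have h8 : deriv (A.loc j g) 0 = 0 := tendsto_nhds_unique h5 h7
  have h9 : D.PP g 0 = 0 := pp_zero D (h3 0 h0).1 hgj h8
  have h10 := pp_lim D (U := (U : Filter ℕ)) (F := F) (u := fun _ => (0 : ℂ)) (g := g) (t := 0)
    (ρ := 1 / 2) (by norm_num) (fun z hz => (h3 z hz).1) hFh h4 tendsto_const_nhds
  rw [h9] at h10
  have h11 : (1 / 2 : ℝ) ≤ ‖(0 : Fin s → ℂ)‖ := by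
    refine ge_of_tendsto h10.norm (Eventually.of_forall fun n => ?_)
    exact hP n 0 (mem_ball_self one_pos)
  rw [norm_zero] at h11
  norm_num at h11

theorem fam_kk_pr (C : ℝ) : ∃ c > 0, D.Fam C ⊆ A.KK c C := by
  obtain ⟨c, hc, h⟩ := vel_lower_pr D C
  refine ⟨c, hc, fun g hg => ⟨hg.1.1, fun z i hi => ⟨?_, hg.1.2 z i hi⟩⟩⟩
  refine h g z (fun w hw => ⟨hg.1.1 w, fun i hi => hg.1.2 w i hi⟩) (fun w hw => ?_) i hi
  rw [hg.2 w]
  norm_num






end

end Pool.Agent.SL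

namespace Pool.Agent.SL

alias fam_affine := fam_affine_pr
alias fam_closed := fam_closed_pr
alias vel_lower := vel_lower_pr
alias fam_kk := fam_kk_pr

end Pool.Agent.SL
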