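import Pool.Agent.Lib_helper80.SL.Base
import Pool.Agent.Lib_helper80.SL.L.B0
import Pool.Agent.Lib_helper80.SL.L.B1
import Pool.Agent.Lib_helper80.SL.L.B3

/-! # Hyperbolicity modulo tori (MP_45e720_ag), block B6: approximation by the family -/

set_option autoImplicit false
set_option linter.unusedVariables false
set_option linter.unusedSectionVars false

open Filter Topology Metric Set
open scoped Manifold ContDiff

namespace Pool.Agent.SL

open Pool.Agent.BR Pool.Agent.MBS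

section

variable {E X : Type} [NormedAddCommGroup E] [NormedSpace ℂ E] [FiniteDimensional ℂ E]
  [MetricSpace X] [CompactSpace X] {A : Cha E X}

/-- translations -/
theorem b6_hb {f : ℂ → X} {z : ℂ} {ρ C : ℝ} (h : HB A f (ball z ρ) C) :
    HB A (fun u => f (z + u)) (ball 0 ρ) C := by
  intro u hu
  have hu' : z + u ∈ ball z ρ := by
    rw [mem_ball_zero_iff] at hu
    rw [mem_ball_iff_norm]
    rwa [add_sub_cancel_left]
  obtain ⟨h1, h2⟩ := h (z + u) hu'
  have hφ : AnalyticAt ℂ (fun v : ℂ => z + v) u := analyticAt_const.add analyticAt_id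
  obtain ⟨h3, h4⟩ := hol_comp (A := A) (f := f) (φ := fun v : ℂ => z + v) (w := u) hφ h1
  refine ⟨h3, ?_⟩
  intro i hi
  have h5 := h4 i (A.W_sub i (subset_closure hi))
  have hd : deriv (fun v : ℂ => z + v) u = 1 := by
    rw [deriv_const_add]
    exact deriv_id u
  rw [h5, hd, one_smul]
  exact h2 i hi

variable {k m s : ℕ} (D : IJ A k m s)

theorem b6_pp (f : ℂ → X) (z u : ℂ) : D.PP (fun v => f (z + v)) u = D.PP f (z + u) := by
  unfold IJ.PP
  congr 1
  funext v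
  show f (z + (v + u)) = f (v + (z + u))
  congr 1
  ring

/-- BLOCK B6 (P3), APX: approximation by the family. Otherwise `F_n` with `δ = 1/(n+1)`, `ρ = n + 1`; take
`z = 0` (translate); the ultralimit (`loc_lim`) is in `Fam` (`pp_lim`), and the convergence is uniform on
`ball 0 (1/ε + 1)`. -/
theorem apx_pr (C : ℝ) (ε : ℝ) (hε : 0 < ε) : ∃ δ > 0, ∃ ρ > 0, ∀ (f : ℂ → X) (z : ℂ),
    HB A f (ball z ρ) C → (∀ w ∈ ball z ρ, 1 - δ ≤ ‖D.PP f w‖ ∧ ‖D.PP f w‖ ≤ 1 + δ) →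
      ∃ g ∈ D.Fam C, ∀ u : ℂ, ‖u‖ ≤ 1 / ε → dist (f (z + u)) (g u) ≤ ε := by
  by_contra hcon
  push Not at hcon
  have hn : ∀ n : ℕ, ∃ (f : ℂ → X) (z : ℂ), HB A f (ball z (n + 1)) C ∧
      (∀ w ∈ ball z ((n : ℝ) + 1), 1 - 1 / ((n : ℝ) + 1) ≤ ‖D.PP f w‖ ∧
        ‖D.PP f w‖ ≤ 1 + 1 / ((n : ℝ) + 1)) ∧
      ∀ g ∈ D.Fam C, ∃ u : ℂ, ‖u‖ ≤ 1 / ε ∧ ε < dist (f (z + u)) (g u) := fun n =>
    hcon (1 / ((n : ℝ) + 1)) (by positivity) ((n : ℝ) + 1) (by positivity)
  choose F z hF1 hF2 hF3 using hn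
  let f : ℕ → ℂ → X := fun n u => F n (z n + u)
  have hf1 : ∀ n : ℕ, HB A (f n) (ball 0 (n + 1)) C := fun n => b6_hb (hF1 n)
  have hf2 : ∀ n : ℕ, ∀ w ∈ ball (0 : ℂ) ((n : ℝ) + 1), 1 - 1 / ((n : ℝ) + 1) ≤ ‖D.PP (f n) w‖ ∧
      ‖D.PP (f n) w‖ ≤ 1 + 1 / ((n : ℝ) + 1) := by
    intro n w hw
    have h1 : D.PP (f n) w = D.PP (F n) (z n + w) := b6_pp D (F n) (z n) w
    rw [h1]
    apply hF2 n
    rw [mem_ball_zero_iff] at hw
    rw [mem_ball_iff_norm, add_sub_cancel_left]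
    exact hw
  let U : Ultrafilter ℕ := hyperfilter ℕ
  have hU : (U : Filter ℕ) ≤ atTop := by
    rw [← Nat.cofinite_eq_atTop]
    exact hyperfilter_le_cofinite
  obtain ⟨g, hg1, hg2⟩ := loc_lim A U f
  have hlarge : ∀ r : ℝ, ∀ᶠ n : ℕ in (U : Filter ℕ), r ≤ (n : ℝ) := fun r =>
    hU (tendsto_natCast_atTop_atTop.eventually_ge_atTop r)
  have hHB : ∀ r : ℝ, HB A g (ball 0 r) C ∧ TendstoUniformlyOn f g U (ball 0 r) := by
    intro r
    refine hg2 r (r + 1) C (by linarith) ?_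
    filter_upwards [hlarge r] with n hn w hw
    refine hf1 n w (ball_subset_ball ?_ hw)
    linarith
  have hgBF : g ∈ BF A C := by
    refine ⟨fun w => ?_, fun w => ?_⟩
    · exact ((hHB (‖w‖ + 1)).1 w (by rw [mem_ball_zero_iff]; linarith)).1
    · exact ((hHB (‖w‖ + 1)).1 w (by rw [mem_ball_zero_iff]; linarith)).2
  have hgFam : g ∈ D.Fam C := by
    refine ⟨hgBF, fun w => ?_⟩
    have h1 : Tendsto (fun n => D.PP (f n) w) U (𝓝 (D.PP g w)) := by
      refine pp_lim D (ρ := 1) (t := w) (u := fun _ => w) one_pos (fun v _ => hgBF.1 v) ?_ ?_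
        tendsto_const_nhds
      · filter_upwards [hlarge (‖w‖ + 1)] with n hn v hv
        refine (hf1 n v ?_).1
        rw [mem_ball_iff_norm] at hv
        rw [mem_ball_zero_iff]
        have h2 : ‖v‖ ≤ ‖w‖ + ‖v - w‖ := by
          have := norm_add_le w (v - w)
          rwa [add_sub_cancel] at this
        linarith
      · refine (hHB (‖w‖ + 1)).2.mono ?_
        intro v hv
        rw [mem_ball_iff_norm] at hv
        rw [mem_ball_zero_iff]
        have h2 : ‖v‖ ≤ ‖w‖ + ‖v - w‖ := by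
          have := norm_add_le w (v - w)
          rwa [add_sub_cancel] at this
        linarith
    have h2 := h1.norm
    have h3 : Tendsto (fun n : ℕ => 1 / ((n : ℝ) + 1)) U (𝓝 0) :=
      tendsto_one_div_add_atTop_nhds_zero_nat.mono_left hU
    have h4 : Tendsto (fun n : ℕ => 1 - 1 / ((n : ℝ) + 1)) U (𝓝 1) := by
      have := h3.const_sub 1
      rwa [sub_zero] at this
    have h5 : Tendsto (fun n : ℕ => 1 + 1 / ((n : ℝ) + 1)) U (𝓝 1) := by
      have := h3.const_add 1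
      rwa [add_zero] at this
    have hev : ∀ᶠ n : ℕ in (U : Filter ℕ), 1 - 1 / ((n : ℝ) + 1) ≤ ‖D.PP (f n) w‖ ∧
        ‖D.PP (f n) w‖ ≤ 1 + 1 / ((n : ℝ) + 1) := by
      filter_upwards [hlarge ‖w‖] with n hn
      apply hf2 n
      rw [mem_ball_zero_iff]
      linarith
    refine le_antisymm ?_ ?_
    · exact le_of_tendsto_of_tendsto h2 h5 (hev.mono fun n hn => hn.2)
    · exact le_of_tendsto_of_tendsto h4 h2 (hev.mono fun n hn => hn.1)
  -- the uniform convergence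
  have hunif := (hHB (1 / ε + 1)).2
  rw [Metric.tendstoUniformlyOn_iff] at hunif
  obtain ⟨n, hn⟩ := (hunif ε hε).exists
  obtain ⟨u, hu1, hu2⟩ := hF3 n g hgFam
  have h1 := hn u (by rw [mem_ball_zero_iff]; linarith)
  rw [dist_comm] at h1
  exact absurd h1 (not_lt.mpr hu2.le)

end

end Pool.Agent.SL

namespace Pool.Agent.SL

alias apx := apx_pr

end Pool.Agent.SL
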