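import Pool.Agent.Lib_helper80.SL.Base

/-! # Hyperbolicity modulo tori (MP_45e720_ag), block B7: `ball_affine` (helper36) -/

set_option autoImplicit false
set_option linter.unusedVariables false
set_option linter.unusedSectionVars false

open Filter Topology Metric Set
open scoped Manifold ContDiff

namespace Pool.Agent.SL

open Pool.Agent.BR Pool.Agent.MBS

section

variable {E X : Type} [NormedAddCommGroup E] [NormedSpace ℂ E] [FiniteDimensional ℂ E]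
  [MetricSpace X] [CompactSpace X] {A : Cha E X}

theorem ball_affine_pr {L k' : ℕ} (F : A.Frm L k') (hk' : 0 < k') {c C : ℝ} (hc : 0 < c)
    (hC : 0 < C) (η : ℝ) (hη : 0 < η) : ∃ R > 0, ∃ ε > 0, ∀ g ∈ A.KK c C, ∀ h ∈ A.KK c C,
      (∀ u : ℂ, ‖u‖ ≤ R → dist (g u) (h u) ≤ ε) →
      ∃ a b : ℂ, (∀ z, g z = h (a * z + b)) ∧ ‖a - 1‖ ≤ η ∧ ‖b‖ ≤ η := by
  obtain ⟨Rd, hRd, hD⟩ := kk_dyn A c C hc hC
  obtain ⟨Rh, hRh, hhp⟩ := hp_all hc hC F hk'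
  obtain ⟨r₁, hr₁⟩ : ∃ r₁, r₁ = min (min Rd Rh) η := ⟨_, rfl⟩
  have hr₁0 : 0 < r₁ := by rw [hr₁]; exact lt_min (lt_min hRd hRh) hη
  have hr₁d : r₁ ≤ Rd := by rw [hr₁]; exact (min_le_left _ _).trans (min_le_left _ _)
  have hr₁h : r₁ ≤ Rh := by rw [hr₁]; exact (min_le_left _ _).trans (min_le_right _ _)
  have hr₁η : r₁ ≤ η := by rw [hr₁]; exact min_le_right _ _
  have D := hD r₁ hr₁0 hr₁d
  obtain ⟨ε₀, hε₀, hH⟩ := hhp r₁ hr₁0 hr₁h
  obtain ⟨εd, hεd, hinj⟩ := D.inj (r₁ / 8) (by positivity)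
  obtain ⟨ε, hε⟩ : ∃ ε, ε = min ε₀ (εd / 4) := ⟨_, rfl⟩
  have hε0 : 0 < ε := by rw [hε]; exact lt_min hε₀ (by positivity)
  have hε1 : ε ≤ ε₀ := by rw [hε]; exact min_le_left _ _
  have hε2 : ε ≤ εd / 4 := by rw [hε]; exact min_le_right _ _
  obtain ⟨δe, hδe, heq⟩ := D.equi ε hε0
  obtain ⟨r, hr⟩ : ∃ r, r = min r₁ (δe / 2) := ⟨_, rfl⟩
  have hr0 : 0 < r := by rw [hr]; exact lt_min hr₁0 (by positivity)
  have hr1 : r ≤ r₁ := by rw [hr]; exact min_le_left _ _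
  have hr2 : r ≤ δe / 2 := by rw [hr]; exact min_le_right _ _
  have hinj' : ∀ h ∈ A.KK c C, ∀ w w' : ℂ, ‖w - w'‖ ≤ r₁ → dist (h w) (h w') ≤ 3 * ε →
      ‖w - w'‖ ≤ r₁ / 8 := fun h hh w w' hw hd => (hinj h hh w w' hw (by linarith)).le
  obtain ⟨R, hR, hRb⟩ := ball_lemma D hε0 hr0 (hH ε r hε1 hr0).1 (hH ε r hε1 hr0).2 hinj'
    (fun g hg z z' hz => (heq g hg z z' (by linarith)).le)
  refine ⟨max R 1, lt_of_lt_of_le one_pos (le_max_right _ _), ε, hε0, fun g hg h hh hgh => ?_⟩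
  obtain ⟨a, b, hab, hb⟩ := hRb g hg h hh (fun z => z) ⟨fun z hz => hgh z
    ((mem_closedBall_zero_iff.1 hz).trans (le_max_left _ _)), fun z _ z' _ hz => hz.trans hr1⟩
  rw [sub_zero] at hb
  -- `a z + b` is near `z`
  have key : ∀ z : ℂ, ‖z‖ ≤ max R 1 → ‖a * z + b - z‖ ≤ r₁ → ‖a * z + b - z‖ ≤ r₁ / 8 := by
    intro z hz hz1
    refine hinj' h hh _ _ hz1 ?_
    rw [← hab z]
    exact (hgh z hz).trans (by linarith)
  have h1 : ‖a * 1 + b - 1‖ ≤ r₁ / 8 := by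
    refine key 1 (by rw [norm_one]; exact le_max_right _ _) ?_
    by_contra hcon
    rw [not_le] at hcon
    have hcont : ContinuousOn (fun t : ℝ => ‖a * (t : ℂ) + b - (t : ℂ)‖) (Icc 0 1) := by
      fun_prop
    have h0 : ‖a * ((0 : ℝ) : ℂ) + b - ((0 : ℝ) : ℂ)‖ ≤ r₁ / 2 := by
      rw [Complex.ofReal_zero, mul_zero, zero_add, sub_zero]
      linarith
    have h1' : r₁ / 2 ≤ ‖a * ((1 : ℝ) : ℂ) + b - ((1 : ℝ) : ℂ)‖ := by
      rw [Complex.ofReal_one]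
      linarith
    obtain ⟨t, ht, ht1⟩ := intermediate_value_Icc (zero_le_one' ℝ) hcont ⟨h0, h1'⟩
    simp only at ht1
    have h2 := key (t : ℂ) (by
      rw [Complex.norm_real, Real.norm_of_nonneg ht.1]
      exact ht.2.trans (le_max_right _ _)) (by rw [ht1]; linarith)
    rw [ht1] at h2
    linarith
  refine ⟨a, b, hab, ?_, by linarith⟩
  have h2 : a - 1 = (a * 1 + b - 1) - b := by ring
  rw [h2]
  have h3 := norm_sub_le (a * 1 + b - 1) b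
  linarith



end

end Pool.Agent.SL

namespace Pool.Agent.SL

alias ball_affine := ball_affine_pr

end Pool.Agent.SL
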