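import Pool.Agent.Lib_helper80.SL.Base
import Pool.Agent.Lib_helper58.MBS.L.BLIM
import Pool.Agent.Lib_helper82.BR.Top
import Pool.Agent.Lib_helper80.SL.L.B2
import Pool.Agent.Lib_helper80.SL.L.B5
import Pool.Agent.Lib_helper80.SL.L.B7

/-! # SL, block B8: finiteness of the family -/

set_option autoImplicit false
set_option linter.unusedVariables false
set_option linter.unusedSectionVars false

open Filter Topology Metric Set
open scoped Manifold ContDiff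

namespace Pool.Agent.SL

open Pool.Agent.BR Pool.Agent.MBS

/-- a doubly periodic map takes all its values in bounded time -/
theorem b8_red {X : Type} {f : ℂ → X} (hf : DoublyPeriodic f) :
    ∃ R : ℝ, ∀ z : ℂ, ∃ l : ℂ, (∀ w, f (w + l) = f w) ∧ ‖z - l‖ ≤ R := by
  obtain ⟨Λ, h1, h2, h3⟩ := hf
  have h4 : Module.Free ℤ Λ := ZLattice.module_free ℝ Λ
  have h5 : Module.Finite ℤ Λ := ZLattice.module_finite ℝ Λ
  let b₀ := Module.Free.chooseBasis ℤ Λ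
  let b : Module.Basis _ ℝ ℂ := b₀.ofZLatticeBasis ℝ Λ
  refine ⟨∑ i, ‖b i‖, fun z => ⟨(ZSpan.floor b z : ℂ), ?_, ?_⟩⟩
  · refine h3 _ ?_
    have h6 : ((ZSpan.floor b z : Submodule.span ℤ (Set.range b)) : ℂ) ∈
        Submodule.span ℤ (Set.range b) := (ZSpan.floor b z).2
    have h7 : Submodule.span ℤ (Set.range b) = Λ := b₀.ofZLatticeBasis_span ℝ
    exact h7.le h6
  · have h6 := ZSpan.norm_fract_le (K := ℝ) b z
    rwa [ZSpan.fract_apply] at h6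

section

variable {E X : Type} [NormedAddCommGroup E] [NormedSpace ℂ E] [FiniteDimensional ℂ E]
  [MetricSpace X] [CompactSpace X] {A : Cha E X}

variable {k m s : ℕ} (D : IJ A k m s)

theorem fam_norm_pr {C : ℝ} {g h : ℂ → X} (hg : g ∈ D.Fam C) (hh : h ∈ D.Fam C) {a b : ℂ}
    (h1 : ∀ z, g z = h (a * z + b)) : ‖a‖ = 1 := by
  have e : g = fun u => h ((fun z => a * z + b) u) := funext h1
  have hφ : AnalyticAt ℂ (fun z : ℂ => a * z + b) 0 := by fun_prop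
  have h2 := pp_comp D hφ (hh.1.1 (a * 0 + b))
  have hd : deriv (fun z : ℂ => a * z + b) 0 = a := by
    have h3 : HasDerivAt (fun z : ℂ => a * z + b) (a * 1) 0 :=
      ((hasDerivAt_id (0 : ℂ)).const_mul a).add_const b
    rw [h3.deriv, mul_one]
  rw [hd] at h2
  have h4 : ‖D.PP g 0‖ = 1 := hg.2 0
  rw [e, h2, norm_smul, norm_pow, hh.2, mul_one] at h4
  exact (pow_eq_one_iff_of_nonneg (norm_nonneg a) D.pos.ne').1 h4

theorem b8_near {C : ℝ} {h : ℂ → X} (hh : h ∈ D.Fam C) (R ε : ℝ) (hε : 0 < ε) :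
    {g : ℂ → X | ∀ u : ℂ, ‖u‖ ≤ R → dist (g u) (h u) ≤ ε} ∈ 𝓝[D.Fam C] h := by
  have hlim : Tendsto (fun g : ℂ → X => g) (𝓝[D.Fam C] h) (𝓝 h) := tendsto_id.mono_left
    nhdsWithin_le_nhds
  have hmem : ∀ᶠ g in 𝓝[D.Fam C] h, (fun g : ℂ → X => g) g ∈ BF A C := by
    have h1 : ∀ᶠ g in 𝓝[D.Fam C] h, g ∈ D.Fam C := self_mem_nhdsWithin
    exact h1.mono fun g hg => hg.1
  filter_upwards [bf_unif hmem hh.1 hlim R ε hε] with g hg u hu
  exact (hg u hu).le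

theorem fam_finite_pr {C : ℝ} (hC : 0 < C) {L k' : ℕ} (F : A.Frm L k') (hk' : 0 < k') :
    ∃ 𝒢 : Set (ℂ → X), 𝒢.Finite ∧ 𝒢 ⊆ D.Fam C ∧
      ∀ g ∈ D.Fam C, ∃ h ∈ 𝒢, ∃ a b : ℂ, ‖a‖ = 1 ∧ ∀ z, g z = h (a * z + b) := by
  obtain ⟨c, hc, hK⟩ := fam_kk D C
  obtain ⟨R, hR, ε, hε, hB⟩ := ball_affine F hk' hc hC 1 one_pos
  have hcomp : IsCompact (D.Fam C) := (fam_closed D C).isCompact
  obtain ⟨t, ht, hcov⟩ := hcomp.elim_nhdsWithin_subcover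
    (fun h => {g : ℂ → X | ∀ u : ℂ, ‖u‖ ≤ R → dist (g u) (h u) ≤ ε})
    (fun h hh => b8_near D hh R ε hε)
  refine ⟨t, t.finite_toSet, fun h hh => ht h hh, fun g hg => ?_⟩
  obtain ⟨h, hh, hgh⟩ : ∃ h ∈ t, ∀ u : ℂ, ‖u‖ ≤ R → dist (g u) (h u) ≤ ε := by
    simpa using hcov hg
  obtain ⟨a, b, h1, _, _⟩ := hB g (hK hg) h (hK (ht h hh)) hgh
  exact ⟨h, hh, a, b, fam_norm_pr D hg (ht h hh) h1, h1⟩

theorem fam_reach_pr {C : ℝ} (hC : 0 < C) {L k' : ℕ} (F : A.Frm L k') (hk' : 0 < k') :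
    ∃ R : ℝ, ∀ g ∈ D.Fam C, ∀ w : ℂ, ∃ u : ℂ, ‖u‖ ≤ R ∧ g u = g w := by
  obtain ⟨c, hc, hK⟩ := fam_kk D C
  obtain ⟨𝒢, hfin, hsub, hall⟩ := fam_finite_pr D hC F hk'
  have h1 : ∀ h ∈ 𝒢, ∃ R : ℝ, ∀ z : ℂ, ∃ l : ℂ, (∀ w, h (w + l) = h w) ∧ ‖z - l‖ ≤ R :=
    fun h hh => b8_red (kk_periodic F hk' hc hC (hK (hsub hh)))
  choose! Rf hRf using h1
  obtain ⟨R, hR⟩ := (hfin.image Rf).bddAbove
  refine ⟨R, fun g hg w => ?_⟩
  obtain ⟨h, hh, a, b, ha, hgh⟩ := hall g hg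
  obtain ⟨l, hl, hn⟩ := hRf h hh (a * w)
  have ha0 : a ≠ 0 := fun h0 => by
    rw [h0, norm_zero] at ha
    exact zero_ne_one ha
  refine ⟨(a * w - l) / a, ?_, ?_⟩
  · rw [norm_div, ha, div_one]
    exact hn.trans (hR ⟨h, hh, rfl⟩)
  · rw [hgh, hgh, mul_div_cancel₀ _ ha0]
    rw [← hl (a * w - l + b)]
    congr 1
    ring

end





end Pool.Agent.SL

namespace Pool.Agent.SL

alias fam_norm := fam_norm_pr
alias fam_finite := fam_finite_pr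
alias fam_reach := fam_reach_pr

end Pool.Agent.SL
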