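import Pool.Agent.Lib_helper80.SL.Base
import Pool.Agent.Lib_helper82.BR.B.EQC

/-! # Block C0 of SL: local equicontinuity -/

set_option autoImplicit false
set_option linter.unusedVariables false
set_option linter.unusedSectionVars false

open Filter Topology Metric Set
open scoped Manifold ContDiff

namespace Pool.Agent.SL

open Pool.Agent.BR Pool.Agent.MBS

variable {E X : Type} [NormedAddCommGroup E] [NormedSpace ℂ E] [FiniteDimensional ℂ E]
  [MetricSpace X] [CompactSpace X]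

/-- the local form -/
theorem c0_local (A : Cha E X) (C ε : ℝ) (hε : 0 < ε) (x₀ : X) :
    ∃ δ > 0, ∃ N ∈ 𝓝 x₀, ∀ (g : ℂ → X) (U : Set ℂ), Convex ℝ U → HB A g U C →
      ∀ z ∈ U, ∀ z' ∈ U, g z ∈ N → ‖z - z'‖ < δ → dist (g z) (g z') < ε := by
  obtain ⟨i, hi⟩ := A.cover x₀
  have hsrc : x₀ ∈ (A.ch i).source := A.W_sub i (subset_closure hi)
  obtain ⟨ξ₀, hξ₀⟩ : ∃ ξ₀, ξ₀ = A.ch i x₀ := ⟨_, rfl⟩
  have hξt : ξ₀ ∈ (A.ch i).target := by rw [hξ₀]; exact (A.ch i).map_source hsrc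
  have hsymm : (A.ch i).symm ξ₀ = x₀ := by rw [hξ₀]; exact (A.ch i).left_inv hsrc
  have h1 : ∀ᶠ ξ in 𝓝 ξ₀, ξ ∈ (A.ch i).target ∧ (A.ch i).symm ξ ∈ A.W i ∩ ball x₀ (ε / 2) := by
    have h2 : A.W i ∩ ball x₀ (ε / 2) ∈ 𝓝 ((A.ch i).symm ξ₀) := by
      rw [hsymm]
      exact inter_mem ((A.W_open i).mem_nhds hi) (ball_mem_nhds _ (by linarith))
    exact ((A.ch i).open_target.eventually_mem hξt).and
      (((A.ch i).continuousAt_symm hξt).eventually h2)
  obtain ⟨η, hη, hη2⟩ := Metric.nhds_basis_closedBall.mem_iff.mp h1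
  have hC : 0 < |C| + 1 := by positivity
  refine ⟨η / (4 * (|C| + 1)), by positivity,
    {x | x ∈ (A.ch i).source ∧ ‖A.ch i x - ξ₀‖ < η / 2}, ?_, ?_⟩
  · have h3 : ContinuousAt (fun x => ‖A.ch i x - ξ₀‖) x₀ :=
      (((A.ch i).continuousAt hsrc).sub continuousAt_const).norm
    have h4 : ‖A.ch i x₀ - ξ₀‖ < η / 2 := by
      rw [hξ₀, sub_self, norm_zero]; linarith
    exact ((A.ch i).open_source.eventually_mem hsrc).and (h3.eventually (gt_mem_nhds h4))
  · intro g U hU hg z hzU z' hzU' hz hzz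
    obtain ⟨hz1, hz2⟩ := hz
    have hseg : ∀ τ ∈ Icc (0 : ℝ) 1, z + (τ : ℂ) * (z' - z) ∈ U := by
      intro τ hτ
      have h5 := hU.add_smul_sub_mem hzU hzU' hτ
      rwa [Complex.real_smul] at h5
    have hL : (|C| + 1) * ‖z' - z‖ ≤ η / 4 := by
      have h5 : ‖z' - z‖ ≤ η / (4 * (|C| + 1)) := by
        rw [norm_sub_rev]; exact hzz.le
      calc (|C| + 1) * ‖z' - z‖ ≤ (|C| + 1) * (η / (4 * (|C| + 1))) :=
            mul_le_mul_of_nonneg_left h5 hC.le
        _ = η / 4 := by field_simp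
    have haff : ∀ τ : ℝ, HasDerivAt (fun σ : ℝ => z + (σ : ℂ) * (z' - z)) (z' - z) τ := by
      intro τ
      have h4 : HasDerivAt (fun σ : ℝ => (σ : ℂ)) 1 τ := Complex.ofRealCLM.hasDerivAt
      have h5 := (h4.mul_const (z' - z)).const_add z
      rwa [one_mul] at h5
    have hcurve := SS.lmb_curve (A.ch i) (fun τ : ℝ => g (z + (τ : ℂ) * (z' - z)))
      (ξ₀ := ξ₀) (ρ := η) (L := (|C| + 1) * ‖z' - z‖)
      (fun τ hτ => by
        have h4 : ContinuousAt g ((fun σ : ℝ => z + (σ : ℂ) * (z' - z)) τ) :=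
          (hg _ (hseg τ hτ)).1.1
        exact h4.comp (f := fun σ : ℝ => z + (σ : ℂ) * (z' - z)) (haff τ).continuousAt)
      (by positivity) (fun ξ hξ => (hη2 hξ).1)
      (by simpa using hz1)
      (by
        have h4 : (z + ((0 : ℝ) : ℂ) * (z' - z)) = z := by simp
        rw [h4]
        linarith)
      (fun τ hτ hs1 hs2 => by
        have hmem : A.ch i (g (z + (τ : ℂ) * (z' - z))) ∈ closedBall ξ₀ η := by
          rw [mem_closedBall_iff_norm]; exact hs2
        have hW : g (z + (τ : ℂ) * (z' - z)) ∈ A.W i := by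
          have h6 := (hη2 hmem).2.1
          rwa [(A.ch i).left_inv hs1] at h6
        refine ⟨(z' - z) • deriv (A.loc i g) (z + (τ : ℂ) * (z' - z)), ?_, ?_⟩
        · have h4 : HasDerivAt (A.loc i g) (deriv (A.loc i g) (z + (τ : ℂ) * (z' - z)))
              (z + (τ : ℂ) * (z' - z)) :=
            ((hg _ (hseg τ hτ)).1.2 i hs1).differentiableAt.hasDerivAt
          exact h4.scomp τ (haff τ)
        · rw [norm_smul, mul_comm]
          apply mul_le_mul_of_nonneg_right _ (norm_nonneg _)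
          exact ((hg _ (hseg τ hτ)).2 i hW).trans ((le_abs_self C).trans (by linarith)))
      1 ⟨zero_le_one, le_rfl⟩
    have e1 : z + ((1 : ℝ) : ℂ) * (z' - z) = z' := by push_cast; ring
    have e0 : z + ((0 : ℝ) : ℂ) * (z' - z) = z := by simp
    simp only [e1, e0, mul_one] at hcurve
    have hnear : ∀ x, x ∈ (A.ch i).source → ‖A.ch i x - ξ₀‖ ≤ η → dist x x₀ < ε / 2 := by
      intro x hx1 hx2
      have hmem : A.ch i x ∈ closedBall ξ₀ η := by
        rw [mem_closedBall_iff_norm]; exact hx2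
      have h6 := (hη2 hmem).2.2
      rw [(A.ch i).left_inv hx1] at h6
      exact h6
    have hz'2 : ‖A.ch i (g z') - ξ₀‖ ≤ η := by
      calc ‖A.ch i (g z') - ξ₀‖ = ‖(A.ch i (g z') - A.ch i (g z)) + (A.ch i (g z) - ξ₀)‖ := by
            congr 1; abel
        _ ≤ ‖A.ch i (g z') - A.ch i (g z)‖ + ‖A.ch i (g z) - ξ₀‖ := norm_add_le _ _
        _ ≤ η := by linarith [hcurve.2]
    have d1 := hnear _ hz1 (by linarith)
    have d2 := hnear _ hcurve.1 hz'2
    calc dist (g z) (g z') ≤ dist (g z) x₀ + dist x₀ (g z') := dist_triangle _ _ _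
      _ = dist (g z) x₀ + dist (g z') x₀ := by rw [dist_comm x₀]
      _ < ε := by linarith

theorem lequi_pr (A : Cha E X) (C ε : ℝ) (hε : 0 < ε) : ∃ δ > 0, ∀ (g : ℂ → X) (U : Set ℂ),
    Convex ℝ U → IsOpen U → HB A g U C → ∀ z ∈ U, ∀ z' ∈ U, ‖z - z'‖ < δ →
      dist (g z) (g z') < ε := by
  have h := isCompact_univ.induction_on (s := (univ : Set X))
    (p := fun s => ∃ δ > 0, ∀ (g : ℂ → X) (U : Set ℂ), Convex ℝ U → HB A g U C →
      ∀ z ∈ U, ∀ z' ∈ U, g z ∈ s → ‖z - z'‖ < δ → dist (g z) (g z') < ε)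
    ⟨1, one_pos, fun g U _ _ z _ z' _ hz _ => absurd hz (notMem_empty _)⟩
    (fun s t hst ⟨δ, hδ, h⟩ => ⟨δ, hδ, fun g U hU hg z hzU z' hzU' hz =>
      h g U hU hg z hzU z' hzU' (hst hz)⟩)
    (fun s t ⟨δ, hδ, h⟩ ⟨δ', hδ', h'⟩ => ⟨min δ δ', lt_min hδ hδ',
      fun g U hU hg z hzU z' hzU' hz hzz => by
        rcases hz with hz | hz
        · exact h g U hU hg z hzU z' hzU' hz (hzz.trans_le (min_le_left _ _))
        · exact h' g U hU hg z hzU z' hzU' hz (hzz.trans_le (min_le_right _ _))⟩)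
    (fun x _ => by
      obtain ⟨δ, hδ, N, hN, h⟩ := c0_local A C ε hε x
      exact ⟨N, mem_nhdsWithin_of_mem_nhds hN, δ, hδ, h⟩)
  obtain ⟨δ, hδ, h⟩ := h
  exact ⟨δ, hδ, fun g U hU _ hg z hzU z' hzU' hzz => h g U hU hg z hzU z' hzU' (mem_univ _) hzz⟩


end Pool.Agent.SL

namespace Pool.Agent.SL

alias lequi := lequi_pr

end Pool.Agent.SL
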