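import Pool.Agent.Lib_helper80.SL.Base
import Pool.Agent.Lib_helper82.BR.B.UNI
import Pool.Agent.Lib_helper80.SL.L.C0

/-! Block C1 (helper99): local uniform constants -/

set_option autoImplicit false
set_option linter.unusedVariables false
set_option linter.unusedSectionVars false

open Filter Topology Metric Set
open scoped Manifold ContDiff

namespace Pool.Agent.SL

open Pool.Agent.BR Pool.Agent.MBS

section

variable {E X : Type} [NormedAddCommGroup E] [NormedSpace ℂ E] [FiniteDimensional ℂ E]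
  [MetricSpace X] [CompactSpace X] {A : Cha E X}

theorem exists_luni_pr (A : Cha E X) (c C : ℝ) (hc : 0 < c) (hC : 0 < C) :
    ∃ lam C₂ rb : ℝ, 0 < rb ∧ ∀ r₀ : ℝ, 0 < r₀ → r₀ ≤ rb → A.Uni c C lam r₀ C₂ ∧
      ∀ (g : ℂ → X) (z₀ : ℂ), KL A c C g (ball z₀ (2 * rb)) → LG A c C lam r₀ C₂ g z₀ := by
  have hcomplete : CompleteSpace E := FiniteDimensional.complete ℂ E
  obtain ⟨lam, hlam, hleb⟩ := lebesgue_number_lemma_of_metric (s := (univ : Set X))
    isCompact_univ A.W_open (fun x _ => by
      obtain ⟨i, hi⟩ := A.cover x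
      exact mem_iUnion.2 ⟨i, hi⟩)
  obtain ⟨δ1, hδ1, heq1⟩ := equicont A C (lam / 4) (by positivity)
  obtain ⟨δ2, hδ2, heq2⟩ := lequi A C (lam / 4) (by positivity)
  obtain ⟨δ, hδe⟩ : ∃ δ, δ = min δ1 δ2 := ⟨_, rfl⟩
  have hδ : 0 < δ := by rw [hδe]; exact lt_min hδ1 hδ2
  have hδ1' : δ ≤ δ1 := by rw [hδe]; exact min_le_left _ _
  have hδ2' : δ ≤ δ2 := by rw [hδe]; exact min_le_right _ _
  refine ⟨lam, C / (δ / 4), δ / 4, by positivity, ?_⟩
  intro r₀ hr₀ hr
  constructor
  · have hstay : ∀ g ∈ A.KK c C, ∀ z z' : ℂ, ‖z - z'‖ < 2 * (δ / 4) →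
        dist (g z) (g z') < lam / 4 := by
      intro g hg z z' h
      exact heq1 g hg.1 (fun z i hi => (hg.2 z i hi).2) z z' (h.trans (by linarith))
    refine ⟨hc, hC, hlam, hr₀, fun x => hleb x (mem_univ x), ?_, ?_⟩
    · intro g hg z z' h
      exact hstay g hg z z' (h.trans_le (by linarith))
    · intro g hg i z₀ hball
      have hW : ∀ w : ℂ, ‖w - z₀‖ < 2 * (δ / 4) → g w ∈ A.W i := by
        intro w hw
        apply hball
        rw [mem_ball]
        exact (hstay g hg w z₀ hw).trans (by linarith)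
      have hsrc : ∀ w : ℂ, ‖w - z₀‖ < 2 * (δ / 4) → AnalyticAt ℂ (A.loc i g) w := by
        intro w hw
        exact (hg.1 w).2 i (A.W_sub i (subset_closure (hW w hw)))
      have hin : ∀ z ∈ ball z₀ r₀, ‖z - z₀‖ < 2 * (δ / 4) := by
        intro z hz
        rw [mem_ball_iff_norm] at hz
        linarith
      refine ⟨fun z hz => hsrc z (hin z hz), fun z hz => (hg.2 z i (hW z (hin z hz))).1,
        fun z hz => (hg.2 z i (hW z (hin z hz))).2, ?_⟩
      intro z hz
      have hz' : ‖z - z₀‖ < δ / 4 := by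
        rw [mem_ball_iff_norm] at hz
        linarith
      have hcl : ∀ w ∈ closedBall z (δ / 4), ‖w - z₀‖ < 2 * (δ / 4) := by
        intro w hw
        rw [mem_closedBall_iff_norm] at hw
        calc ‖w - z₀‖ = ‖(w - z) + (z - z₀)‖ := by congr 1; ring
          _ ≤ ‖w - z‖ + ‖z - z₀‖ := norm_add_le _ _
          _ < 2 * (δ / 4) := by linarith
      apply Complex.norm_deriv_le_of_forall_mem_sphere_norm_le (by positivity)
      · apply DifferentiableOn.diffContOnCl
        intro w hw
        have hw' : w ∈ closedBall z (δ / 4) := closure_ball_subset_closedBall hw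
        exact (hsrc w (hcl w hw')).deriv.differentiableAt.differentiableWithinAt
      · intro w hw
        exact (hg.2 w i (hW w (hcl w (sphere_subset_closedBall hw)))).2
  · intro g z₀ hg
    have hHB : HB A g (ball z₀ (2 * (δ / 4))) C := fun z hz =>
      ⟨(hg z hz).1, fun i hi => ((hg z hz).2 i hi).2⟩
    have hz₀ : z₀ ∈ ball z₀ (2 * (δ / 4)) := mem_ball_self (by positivity)
    have hstay : ∀ z ∈ ball z₀ (2 * (δ / 4)), dist (g z) (g z₀) < lam / 4 := by
      intro z hz
      apply heq2 g _ (convex_ball _ _) isOpen_ball hHB z hz z₀ hz₀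
      rw [mem_ball_iff_norm] at hz
      linarith
    have hsub : ball z₀ (2 * r₀) ⊆ ball z₀ (2 * (δ / 4)) := ball_subset_ball (by linarith)
    refine ⟨fun z hz => (hg z (hsub hz)).1, fun z hz => hstay z (hsub hz), ?_⟩
    intro i hball
    have hW : ∀ w : ℂ, ‖w - z₀‖ < 2 * (δ / 4) → g w ∈ A.W i := by
      intro w hw
      apply hball
      rw [mem_ball]
      exact (hstay w (by rw [mem_ball_iff_norm]; exact hw)).trans (by linarith)
    have hmem : ∀ w : ℂ, ‖w - z₀‖ < 2 * (δ / 4) → w ∈ ball z₀ (2 * (δ / 4)) := fun w hw => by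
      rw [mem_ball_iff_norm]; exact hw
    have hsrc : ∀ w : ℂ, ‖w - z₀‖ < 2 * (δ / 4) → AnalyticAt ℂ (A.loc i g) w := by
      intro w hw
      exact (hg w (hmem w hw)).1.2 i (A.W_sub i (subset_closure (hW w hw)))
    have hin : ∀ z ∈ ball z₀ r₀, ‖z - z₀‖ < 2 * (δ / 4) := by
      intro z hz
      rw [mem_ball_iff_norm] at hz
      linarith
    refine ⟨fun z hz => hsrc z (hin z hz),
      fun z hz => ((hg z (hmem z (hin z hz))).2 i (hW z (hin z hz))).1,
      fun z hz => ((hg z (hmem z (hin z hz))).2 i (hW z (hin z hz))).2, ?_⟩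
    intro z hz
    have hz' : ‖z - z₀‖ < δ / 4 := by
      rw [mem_ball_iff_norm] at hz
      linarith
    have hcl : ∀ w ∈ closedBall z (δ / 4), ‖w - z₀‖ < 2 * (δ / 4) := by
      intro w hw
      rw [mem_closedBall_iff_norm] at hw
      calc ‖w - z₀‖ = ‖(w - z) + (z - z₀)‖ := by congr 1; ring
        _ ≤ ‖w - z‖ + ‖z - z₀‖ := norm_add_le _ _
        _ < 2 * (δ / 4) := by linarith
    apply Complex.norm_deriv_le_of_forall_mem_sphere_norm_le (by positivity)
    · apply DifferentiableOn.diffContOnCl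
      intro w hw
      have hw' : w ∈ closedBall z (δ / 4) := closure_ball_subset_closedBall hw
      exact (hsrc w (hcl w hw')).deriv.differentiableAt.differentiableWithinAt
    · intro w hw
      have hw' := hcl w (sphere_subset_closedBall hw)
      exact ((hg w (hmem w hw')).2 i (hW w hw')).2



end

end Pool.Agent.SL

namespace Pool.Agent.SL

alias exists_luni := exists_luni_pr

end Pool.Agent.SL
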