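import Pool.Agent.Lib_helper80.SL.Base
import Pool.Agent.Lib_helper82.BR.B.MAT

/-! Block C2 (helper99): local match -/

set_option autoImplicit false
set_option linter.unusedVariables false
set_option linter.unusedSectionVars false

open Filter Topology Metric Set
open scoped Manifold ContDiff

namespace Pool.Agent.SL

open Pool.Agent.BR Pool.Agent.MBS

section

variable {E X : Type} [NormedAddCommGroup E] [NormedSpace ℂ E] [FiniteDimensional ℂ E]
  [MetricSpace X] [CompactSpace X] {A : Cha E X}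

theorem exists_lmatch_pr (A : Cha E X) (c C C₂ : ℝ) (hc : 0 < c) :
    ∃ rb > 0, ∃ C₃ > 0, ∀ lam r₀ : ℝ, r₀ ≤ rb → A.Uni c C lam r₀ C₂ →
      ∃ ρ₀ > 0, ρ₀ ≤ r₀ ∧ ∃ R₁ > 0, ∀ ρ > 0, ρ ≤ ρ₀ → ∀ δ > 0, ∃ ε₀ > 0,
        ∀ ε r r₁ : ℝ, ε ≤ ε₀ → 0 < r → 0 < r₁ → r₁ ≤ R₁ → ∀ (g : ℂ → X) (z₀ : ℂ),
          LG A c C lam r₀ C₂ g z₀ → ∀ h ∈ A.KK c C,
          ∀ (s : ℂ → ℂ), CM ε r r₁ g h s (ball z₀ ρ) → ∀ i, ball (g z₀) lam ⊆ A.W i →
            ∃ l t, Mt A c C₃ lam r₀ ρ₀ ρ δ g h s z₀ i l t := by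
  have : CompleteSpace E := FiniteDimensional.complete ℂ E
  by_cases hcase : c ≤ C ∧ 0 ≤ C₂
  swap
  · refine ⟨1, one_pos, 1, one_pos, fun lam r₀ _ hU => ⟨r₀, hU.r₀_pos, le_rfl, 1, one_pos,
      fun ρ _ _ δ _ => ⟨1, one_pos, ?_⟩⟩⟩
    intro ε r r₁ _ _ _ _ g z₀ hg h _ s _ i hi
    exfalso
    apply hcase
    have hG := hg.gc i ((ball_subset_ball (by linarith [hU.lam_pos])).trans hi)
    have hz : z₀ ∈ ball z₀ r₀ := mem_ball_self hU.r₀_pos
    exact ⟨(hG.lo z₀ hz).trans (hG.up z₀ hz), (norm_nonneg _).trans (hG.acc z₀ hz)⟩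
  obtain ⟨hcC, hC₂⟩ := hcase
  have hC : 0 < C := hc.trans_le hcC
  obtain ⟨C₃, hC₃, rb, hrb, hLO⟩ := exists_LO hc hcC hC₂
  refine ⟨min rb (c / (4 * (C₂ + 1))), by positivity, C₃, hC₃, ?_⟩
  intro lam r₀ hr₀b hU
  have hr₀ := hU.r₀_pos
  have hlam := hU.lam_pos
  have hlowr : C₂ * (2 * r₀) ≤ c / 2 := by
    have h1 : r₀ ≤ c / (4 * (C₂ + 1)) := hr₀b.trans (min_le_right _ _)
    rw [le_div_iff₀ (by positivity)] at h1
    nlinarith
  obtain ⟨ρm, hρm, ρL, hρL, hρmr, hρLr, hLO⟩ := hLO r₀ hr₀ (hr₀b.trans (min_le_left _ _))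
  have hcC8 : 0 < c * r₀ / (8 * C) := by positivity
  refine ⟨min (min ρL ρm) (c * r₀ / (8 * C)), by positivity,
    ((min_le_left _ _).trans (min_le_left _ _)).trans hρLr.le, r₀ / 4, by positivity, ?_⟩
  intro ρ hρ hρ₀ δ hδ
  have hρL' : ρ ≤ ρL := hρ₀.trans ((min_le_left _ _).trans (min_le_left _ _))
  have hρm' : ρ ≤ ρm := hρ₀.trans ((min_le_left _ _).trans (min_le_right _ _))
  have hρC : C * ρ ≤ c * r₀ / 8 := by
    have h1 : ρ ≤ c * r₀ / (8 * C) := hρ₀.trans (min_le_right _ _)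
    calc C * ρ ≤ C * (c * r₀ / (8 * C)) := by gcongr
      _ = c * r₀ / 8 := by field_simp
  have hρr : ρ < r₀ := lt_of_le_of_lt hρL' hρLr
  obtain ⟨εL, hεL, hLO⟩ := hLO (ρ / 2) (by positivity) (by linarith)
  obtain ⟨ε', hε'⟩ : ∃ ε', ε' = min εL (min (δ / (C₃ + C * C₃ + 1)) (c * r₀ / 16)) := ⟨_, rfl⟩
  have hε'0 : 0 < ε' := by rw [hε']; positivity
  have hε'1 : ε' ≤ εL := by rw [hε']; exact min_le_left _ _
  have hε'2 : ε' * (C₃ + C * C₃ + 1) ≤ δ := by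
    rw [← le_div_iff₀ (by positivity), hε']
    exact (min_le_right _ _).trans (min_le_left _ _)
  have hε'3 : ε' ≤ c * r₀ / 16 := by
    rw [hε']; exact (min_le_right _ _).trans (min_le_right _ _)
  obtain ⟨δ', hδ', hnear⟩ := near_chart A ε' hε'0
  refine ⟨min (δ' / 2) (lam / 4), by positivity, ?_⟩
  intro ε r r₁ hε hr hr₁ hr₁R g z₀ hg h hh s hCM i hi
  obtain ⟨hCM1, hCM2⟩ := hCM
  have hz₀ : z₀ ∈ ball z₀ ρ := mem_ball_self hρ
  have hεδ : ε < δ' := by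
    have := hε.trans (min_le_left _ _)
    linarith
  have hεlam : ε ≤ lam / 4 := hε.trans (min_le_right _ _)
  have hbg : ball (g z₀) (lam / 2) ⊆ A.W i := (ball_subset_ball (by linarith)).trans hi
  have hbh : ball (h (s z₀)) (lam / 2) ⊆ A.W i := by
    refine Subset.trans ?_ hi
    intro x hx
    rw [mem_ball] at hx ⊢
    have h1 := hCM1 z₀ hz₀
    have h2 := dist_triangle x (h (s z₀)) (g z₀)
    rw [dist_comm (h (s z₀)) (g z₀)] at h2
    linarith
  have hG := hg.gc i hbg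
  have hH := hU.gc h hh i (s z₀) hbh
  -- near in the chart
  have hnr : ∀ z ∈ ball z₀ ρ, ‖A.loc i h (s z) - A.loc i g z‖ ≤ ε' := by
    intro z hz
    have hzW : g z ∈ A.W i := by
      apply hi
      rw [mem_ball]
      have h1 := hg.stay z (ball_subset_ball (by linarith) hz)
      linarith
    have h1 := hnear i (g z) (subset_closure hzW) (h (s z)) (lt_of_le_of_lt (hCM1 z hz) hεδ)
    exact h1.2.le
  have hballr : ∀ z ∈ ball z₀ ρ, z ∈ ball z₀ r₀ := fun z hz => ball_subset_ball hρr.le hz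
  have hz₀r : z₀ ∈ ball z₀ r₀ := mem_ball_self hr₀
  have hw₀r : s z₀ ∈ ball (s z₀) r₀ := mem_ball_self hr₀
  -- the chain
  have hch := mat_chain (s := s) (z₀ := z₀) (ρ := ρ) hr hr₀ hr₁R
    (fun z hz z' hz' hzz => hCM2 z hz z' hz' hzz) (by
      intro z hz hlt
      have h1 : s z ∈ ball (s z₀) r₀ := by rw [mem_ball_iff_norm]; exact hlt
      have h2 := hH.low hC₂ hlowr h1 hw₀r
      have h3 := hnr z hz
      have h4 := hnr z₀ hz₀
      have h5 := hG.lip (hballr z hz) hz₀r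
      have h6 : A.loc i h (s z) - A.loc i h (s z₀) = (A.loc i h (s z) - A.loc i g z) +
          (A.loc i g z - A.loc i g z₀) - (A.loc i h (s z₀) - A.loc i g z₀) := by abel
      have h7 : ‖A.loc i h (s z) - A.loc i h (s z₀)‖ ≤ ε' + C * ‖z - z₀‖ + ε' := by
        rw [h6]
        refine (norm_sub_le _ _).trans ?_
        have := norm_add_le (A.loc i h (s z) - A.loc i g z) (A.loc i g z - A.loc i g z₀)
        linarith
      have h8 : C * ‖z - z₀‖ ≤ c * r₀ / 8 := by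
        refine le_trans ?_ hρC
        apply mul_le_mul_of_nonneg_left _ hC.le
        rw [mem_ball_iff_norm] at hz
        exact hz.le
      have h9 : c / 2 * ‖s z - s z₀‖ ≤ c / 2 * (r₀ / 2) := by
        have : c / 2 * (r₀ / 2) = c * r₀ / 4 := by ring
        linarith
      exact le_of_mul_le_mul_left h9 (by positivity))
  have hsr : ∀ z ∈ ball z₀ ρ, s z ∈ ball (s z₀) r₀ := by
    intro z hz
    rw [mem_ball_iff_norm]
    have := hch z hz
    linarith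
  -- the second point
  have hz₁n : ‖(z₀ + ((ρ / 2 : ℝ) : ℂ)) - z₀‖ = ρ / 2 := by
    rw [add_sub_cancel_left, Complex.norm_real, Real.norm_of_nonneg (by positivity)]
  have hz₁ : z₀ + ((ρ / 2 : ℝ) : ℂ) ∈ ball z₀ ρ := by
    rw [mem_ball_iff_norm, hz₁n]; linarith
  obtain ⟨l, t, hlt⟩ := hLO (A.loc i g) (A.loc i h) z₀ (s z₀) (z₀ + ((ρ / 2 : ℝ) : ℂ))
    (s (z₀ + ((ρ / 2 : ℝ) : ℂ))) hG hH ((hnr z₀ hz₀).trans hε'1) hz₁n (hsr _ hz₁)
    ((hnr _ hz₁).trans hε'1)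
  have hts : ∀ z ∈ ball z₀ ρ, ‖t z - s z‖ ≤ C₃ * ε' := by
    intro z hz
    refine (hlt.uniq z (ball_subset_ball hρL' hz) (s z) (hsr z hz)).trans ?_
    exact mul_le_mul_of_nonneg_left (hnr z hz) hC₃.le
  have hCC : 0 ≤ C * C₃ * ε' := by positivity
  have hCε : 0 ≤ C₃ * ε' := by positivity
  refine ⟨l, t, hi, hbh, mat_mono hlt ((min_le_left _ _).trans (min_le_left _ _)), ?_, ?_⟩
  · intro z hz
    refine (hts z hz).trans ?_
    nlinarith
  · intro z hz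
    have h1 := hH.lip (hlt.t_mem z (ball_subset_ball hρL' hz)) (hsr z hz)
    have h2 := hnr z hz
    have h3 : A.loc i h (t z) - A.loc i g z = (A.loc i h (t z) - A.loc i h (s z)) +
        (A.loc i h (s z) - A.loc i g z) := by abel
    rw [h3]
    refine (norm_add_le _ _).trans ?_
    have h4 : C * ‖t z - s z‖ ≤ C * (C₃ * ε') := mul_le_mul_of_nonneg_left (hts z hz) hC.le
    nlinarith



end

end Pool.Agent.SL

namespace Pool.Agent.SL

alias exists_lmatch := exists_lmatch_pr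

end Pool.Agent.SL
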