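import Pool.Agent.Lib_helper80.SL.Base
import Pool.Agent.Lib_helper82.BR.B.CMP

/-! # Block C3 of SL: comparison of two local matches (port of BR/B/CMP) -/

set_option autoImplicit false
set_option linter.unusedVariables false
set_option linter.unusedSectionVars false

open Filter Topology Metric Set
open scoped Manifold ContDiff

namespace Pool.Agent.SL

open Pool.Agent.BR Pool.Agent.MBS

section

variable {E X : Type} [NormedAddCommGroup E] [NormedSpace ℂ E] [FiniteDimensional ℂ E]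
  [MetricSpace X] [CompactSpace X] {A : Cha E X}

theorem lmt_compare_pr {c C lam r₀ C₂ : ℝ} (hU : A.Uni c C lam r₀ C₂) {L k' : ℕ} (F : A.Frm L k')
    (hk' : 0 < k') {C₃ ρ₀ ρ : ℝ} (hρ : 0 < ρ) (hρ₀ : ρ ≤ ρ₀ / 4) (hr₀ : ρ₀ ≤ r₀) (e : ℝ)
    (he : 0 < e) :
    ∃ δ > 0, ∀ (g : ℂ → X) (z₀ z₁ : ℂ), LG A c C lam r₀ C₂ g z₀ → LG A c C lam r₀ C₂ g z₁ →
      ∀ h ∈ A.KK c C, ∀ h' ∈ A.KK c C, ∀ a b : ℂ, (∀ w, h' w = h (a * w + b)) → ‖a - 1‖ ≤ δ →
      ‖a * z₁ + b - z₁‖ ≤ δ → ∀ (i j : A.ι) (l l' : E →L[ℂ] ℂ) (t t' : ℂ → ℂ), ‖z₁ - z₀‖ ≤ ρ / 2 →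
        Mt A c C₃ lam r₀ ρ₀ ρ δ g h id z₀ i l t → Mt A c C₃ lam r₀ ρ₀ ρ δ g h' id z₁ j l' t' →
          ‖TV (F.T i) (A.loc i g) (A.loc i h) t z₁‖ ≤
            (1 + e) * ‖TV (F.T j) (A.loc j g) (A.loc j h') t' z₁‖ := by
  have hc := hU.c_pos
  have hC := hU.C_pos
  have hr := hU.r₀_pos
  have hlam := hU.lam_pos
  have hρ₀p : 0 < ρ₀ := by linarith
  obtain ⟨M₀, hM₀, htra₀⟩ := exists_tra A
  obtain ⟨C₃', hC₃'⟩ : ∃ C₃' : ℝ, C₃' = max C₃ 1 := ⟨_, rfl⟩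
  have hC₃p : 0 < C₃' := by rw [hC₃']; exact lt_of_lt_of_le one_pos (le_max_right _ _)
  have hC₃le : C₃ ≤ C₃' := by rw [hC₃']; exact le_max_left _ _
  obtain ⟨ρ', hρ'⟩ : ∃ ρ' : ℝ, ρ' = min (ρ / 2) (r₀ / 8) := ⟨_, rfl⟩
  have hρ'p : 0 < ρ' := by rw [hρ']; exact lt_min (by linarith) (by positivity)
  have hρ'1 : ρ' ≤ ρ / 2 := by rw [hρ']; exact min_le_left _ _
  have hρ'2 : ρ' ≤ r₀ / 8 := by rw [hρ']; exact min_le_right _ _
  -- the pure comparison in each chart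
  have hpure : ∀ j : A.ι, ∃ ε > 0, ∀ (G H : ℂ → E) (z₀ w₀ : ℂ) (l : E →L[ℂ] ℂ) (t t' : ℂ → ℂ),
      GC c C (max C₂ 0) G z₀ r₀ → GC c C (max C₂ 0) H w₀ r₀ → LO c C₃' ρ₀ r₀ G H z₀ w₀ l t →
      G z₀ ∈ A.ch j '' closure (A.W j) →
      (∀ z ∈ ball z₀ ρ', AnalyticAt ℂ t' z ∧ t' z ∈ ball w₀ r₀ ∧ ‖H (t' z) - G z‖ ≤ ε) →
      ∀ (ψ : E → E) (ξ η v : E) (D : E →L[ℂ] E), Tra (max M₀ 1) ψ ξ D → ψ ξ = G z₀ →
      ψ (ξ + η) = H (t' z₀) → D v = deriv G z₀ → ‖η‖ ≤ ε →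
      (∀ a : ℂ, c / (c + 2 * C) * ‖η‖ ≤ ‖η - a • v‖) →
      ‖F.T j (G z₀) (D η) (D v)‖ ≤ (1 + e) * ‖TV (F.T j) G H t z₀‖ ∧
        ‖TV (F.T j) G H t z₀‖ ≤ (1 + e) * ‖F.T j (G z₀) (D η) (D v)‖ := by
    intro j
    have hK : IsCompact (A.ch j '' closure (A.W j)) :=
      isClosed_closure.isCompact.image_of_continuousOn
        ((A.ch j).continuousOn.mono (A.W_sub j))
    have hKO : A.ch j '' closure (A.W j) ⊆ (A.ch j).target := by
      rintro _ ⟨x, hx, rfl⟩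
      exact (A.ch j).map_source (A.W_sub j hx)
    exact compare_pr (F.tf j) hK hKO hc hC (le_max_right _ _) hC₃p hρ₀p hr₀ hρ'p
      (le_max_right _ _) (by positivity) he
  choose εj hεj hpj using hpure
  obtain ⟨ε, hε, hεle⟩ : ∃ ε > 0, ∀ j, ε ≤ εj j := by
    have := A.fin
    rcases isEmpty_or_nonempty A.ι with hemp | hne
    · exact ⟨1, one_pos, fun j => (hemp.false j).elim⟩
    · obtain ⟨j₀, hj₀⟩ := Finite.exists_min εj
      exact ⟨εj j₀, hεj j₀, hj₀⟩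
  obtain ⟨δ₁, hδ₁, hnc⟩ := near_chart A ε hε
  obtain ⟨ε₂, hε₂, hnm⟩ := near_metric A δ₁ hδ₁
  obtain ⟨δ, hδdef⟩ : ∃ δ : ℝ, δ = min (min (ε₂ / 2) ε) (min (r₀ / 24) (1 / 2)) := ⟨_, rfl⟩
  have hδ : 0 < δ := by
    rw [hδdef]
    exact lt_min (lt_min (by linarith) hε) (lt_min (by linarith) (by norm_num))
  have hδ1 : δ < ε₂ := by
    have : δ ≤ ε₂ / 2 := by rw [hδdef]; exact (min_le_left _ _).trans (min_le_left _ _)
    linarith
  have hδ2 : δ ≤ ε := by rw [hδdef]; exact (min_le_left _ _).trans (min_le_right _ _)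
  have hδ3 : δ ≤ r₀ / 24 := by rw [hδdef]; exact (min_le_right _ _).trans (min_le_left _ _)
  have hδ4 : δ ≤ 1 / 2 := by rw [hδdef]; exact (min_le_right _ _).trans (min_le_right _ _)
  refine ⟨δ, hδ, ?_⟩
  intro g z₀ z₁ hg0 hg1 h hh h' hh' a b hab ha hb' i j l l' t t' hz M1 M2
  have hane : (1 : ℝ) / 2 ≤ ‖a‖ := by
    have h1 : ‖(1 : ℂ)‖ ≤ ‖a‖ + ‖1 - a‖ := by
      calc ‖(1 : ℂ)‖ = ‖a + (1 - a)‖ := by ring_nf
        _ ≤ ‖a‖ + ‖1 - a‖ := norm_add_le _ _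
    rw [norm_one, norm_sub_rev] at h1
    linarith
  have ha0 : a ≠ 0 := by
    intro h1
    rw [h1, norm_zero] at hane
    linarith
  -- the other time change
  obtain ⟨τ, hτ⟩ : ∃ τ : ℂ → ℂ, ∀ z, τ z = (t z - b) / a := ⟨_, fun z => rfl⟩
  have hτh : ∀ z, h' (τ z) = h (t z) := by
    intro z
    rw [hab, hτ]
    congr 1
    field_simp
    ring
  have hτl : ∀ z, A.loc j h' (τ z) = A.loc j h (t z) := by
    intro z
    simp only [Cha.loc]
    rw [hτh]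
  -- membership
  have hb : ∀ z ∈ ball z₁ ρ', z ∈ ball z₀ ρ := by
    intro z hz'
    rw [mem_ball, dist_eq_norm] at hz' ⊢
    calc ‖z - z₀‖ = ‖(z - z₁) + (z₁ - z₀)‖ := by ring_nf
      _ ≤ ‖z - z₁‖ + ‖z₁ - z₀‖ := norm_add_le _ _
      _ < ρ := by linarith
  have hb0 : ∀ z ∈ ball z₀ ρ, z ∈ ball z₀ ρ₀ := fun z hz' => ball_subset_ball (by linarith) hz'
  have hgi : ∀ z ∈ ball z₀ ρ, g z ∈ A.W i := by
    intro z hz'
    apply M1.bg
    rw [mem_ball]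
    rw [mem_ball, dist_eq_norm] at hz'
    have := hg0.stay z (by rw [mem_ball, dist_eq_norm]; linarith)
    linarith
  have hhi : ∀ z ∈ ball z₀ ρ, h (t z) ∈ A.W i := by
    intro z hz'
    apply M1.bh
    rw [mem_ball]
    have h1 := M1.lo.t_mem z (hb0 z hz')
    rw [mem_ball, dist_eq_norm] at h1
    have := hU.stay h hh (t z) (id z₀) (by linarith)
    linarith
  have hgj : ∀ z ∈ ball z₁ ρ', g z ∈ A.W j := by
    intro z hz'
    apply M2.bg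
    rw [mem_ball]
    rw [mem_ball, dist_eq_norm] at hz'
    have := hg1.stay z (by rw [mem_ball, dist_eq_norm]; linarith)
    linarith
  have hz₁ : z₁ ∈ ball z₁ ρ' := mem_ball_self hρ'p
  have hz₁0 : z₁ ∈ ball z₀ ρ := hb z₁ hz₁
  have hz₁00 : z₁ ∈ ball z₀ ρ₀ := hb0 _ hz₁0
  -- distances
  have hdist : ∀ z ∈ ball z₀ ρ, dist (g z) (h (t z)) < δ₁ := by
    intro z hz'
    apply hnm i _ (subset_closure (hgi z hz')) _ (subset_closure (hhi z hz'))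
    exact lt_of_le_of_lt (M1.small z hz') hδ1
  have hsmallj : ∀ z ∈ ball z₁ ρ', ‖A.loc j h (t z) - A.loc j g z‖ ≤ εj j := by
    intro z hz'
    have h1 := (hnc j _ (subset_closure (hgj z hz')) (h (t z)) (hdist z (hb z hz'))).2
    exact h1.le.trans (hεle j)
  have hτmem : ∀ z ∈ ball z₁ ρ', τ z ∈ ball (id z₁) r₀ := by
    intro z hz'
    have h1 := M1.ts z (hb z hz')
    rw [mem_ball, dist_eq_norm] at hz' ⊢
    simp only [id] at h1 ⊢
    have h2 : τ z - z₁ = ((t z - z) + (z - z₁) + -(a * z₁ + b - z₁)) / a := by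
      rw [hτ]
      field_simp
      ring
    have h3 : ‖(t z - z) + (z - z₁) + -(a * z₁ + b - z₁)‖ ≤ δ + ρ' + δ := by
      have h4 := norm_add_le ((t z - z) + (z - z₁)) (-(a * z₁ + b - z₁))
      have h5 := norm_add_le (t z - z) (z - z₁)
      rw [norm_neg] at h4
      linarith
    rw [h2, norm_div]
    calc ‖(t z - z) + (z - z₁) + -(a * z₁ + b - z₁)‖ / ‖a‖ ≤ (δ + ρ' + δ) / (1 / 2) :=
          div_le_div₀ (by linarith) h3 (by norm_num) hane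
      _ < r₀ := by linarith
  have hτan : ∀ z ∈ ball z₁ ρ', AnalyticAt ℂ τ z := by
    intro z hz'
    have h1 := M1.lo.t_an z (hb0 z (hb z hz'))
    have h2 : τ = fun z => (t z - b) / a := funext hτ
    rw [h2]
    exact (h1.sub analyticAt_const).div analyticAt_const ha0
  -- the change of charts at `g z₁`
  have hxi : g z₁ ∈ (A.ch i).source := A.W_sub i (subset_closure (hgi z₁ hz₁0))
  have hxj : g z₁ ∈ (A.ch j).source := A.W_sub j (subset_closure (hgj z₁ hz₁))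
  have hyi : h (t z₁) ∈ (A.ch i).source := A.W_sub i (subset_closure (hhi z₁ hz₁0))
  have hT := cmp_tra (le_max_left M₀ 1)
    (htra₀ i j (g z₁) (subset_closure (hgi z₁ hz₁0)) (subset_closure (hgj z₁ hz₁)))
  have hψ1 : (fun ξ => A.ch j ((A.ch i).symm ξ)) (A.ch i (g z₁)) = A.loc j g z₁ := by
    simp only [Cha.loc]
    rw [(A.ch i).left_inv hxi]
  have hψ2 : (fun ξ => A.ch j ((A.ch i).symm ξ))
      (A.ch i (g z₁) + (A.loc i h (t z₁) - A.loc i g z₁)) = A.loc j h (t z₁) := by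
    simp only [Cha.loc]
    rw [add_sub_cancel, (A.ch i).left_inv hyi]
  have hder : fderiv ℂ (fun ξ => A.ch j ((A.ch i).symm ξ)) (A.ch i (g z₁))
      (deriv (A.loc i g) z₁) = deriv (A.loc j g) z₁ := by
    have hhol := hg1.hol z₁ (mem_ball_self (by linarith))
    have hev : A.loc j g =ᶠ[𝓝 z₁] (fun ξ => A.ch j ((A.ch i).symm ξ)) ∘ (A.loc i g) := by
      have := hhol.1.eventually ((A.ch i).open_source.mem_nhds hxi)
      filter_upwards [this] with z hz'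
      simp only [Cha.loc, Function.comp_apply]
      rw [(A.ch i).left_inv hz']
    have h1 : HasDerivAt (A.loc i g) (deriv (A.loc i g) z₁) z₁ :=
      (hhol.2 i hxi).differentiableAt.hasDerivAt
    have h2 := (HasFDerivAt.comp_hasDerivAt z₁ (l := fun ξ => A.ch j ((A.ch i).symm ξ))
      (l' := fderiv ℂ (fun ξ => A.ch j ((A.ch i).symm ξ)) (A.ch i (g z₁)))
      (f := A.loc i g) hT.d h1)
    have h3 := h2.congr_of_eventuallyEq hev
    exact h3.deriv.symm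
  have hGC1 := hg0.gc i ((ball_subset_ball (by linarith)).trans M1.bg)
  have htr : ∀ a : ℂ, c / (c + 2 * C) * ‖A.loc i h (t z₁) - A.loc i g z₁‖ ≤
      ‖A.loc i h (t z₁) - A.loc i g z₁ - a • deriv (A.loc i g) z₁‖ := by
    apply cmp_transv hc hC M1.lo.l_le
    · rw [map_sub, M1.lo.eq z₁ hz₁00, sub_self]
    · exact M1.lo.low z₁ hz₁00
    · exact hGC1.up z₁ (ball_subset_ball hr₀ hz₁00)
  have hGC := hg1.gc j ((ball_subset_ball (by linarith)).trans M2.bg)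
  have hGCh := hU.gc h' hh' j (id z₁) M2.bh
  have hfin := (hpj j (A.loc j g) (A.loc j h') z₁ (id z₁) l' t' τ
    (cmp_gc (le_max_left _ _) hGC) (cmp_gc (le_max_left _ _) hGCh) (cmp_lo hC₃le M2.lo)
    ⟨g z₁, subset_closure (hgj z₁ hz₁), rfl⟩
    (fun z hz' => ⟨hτan z hz', hτmem z hz', by rw [hτl]; exact hsmallj z hz'⟩)
    (fun ξ => A.ch j ((A.ch i).symm ξ)) (A.ch i (g z₁))
    (A.loc i h (t z₁) - A.loc i g z₁) (deriv (A.loc i g) z₁) _ hT hψ1 (hψ2.trans (hτl z₁).symm) hder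
    ((M1.small z₁ hz₁0).trans (hδ2.trans (hεle j))) htr).1
  have hcompat := F.compat i j (g z₁) hxi hxj (A.loc i h (t z₁) - A.loc i g z₁)
    (deriv (A.loc i g) z₁)
  have : TV (F.T i) (A.loc i g) (A.loc i h) t z₁ = F.T i (A.ch i (g z₁))
    (A.loc i h (t z₁) - A.loc i g z₁) (deriv (A.loc i g) z₁) := rfl
  rw [this, hcompat]
  exact hfin

end



end Pool.Agent.SL

namespace Pool.Agent.SL

alias lmt_compare := lmt_compare_pr

end Pool.Agent.SL
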