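import Pool.Agent.Lib_helper80.SL.Base
import Pool.Agent.Lib_helper82.BR.B.STR

set_option autoImplicit false
set_option linter.unusedVariables false
set_option linter.unusedSectionVars false

open Filter Topology Metric Set
open scoped Manifold ContDiff

namespace Pool.Agent.SL

open Pool.Agent.BR Pool.Agent.MBS

section

variable {E X : Type} [NormedAddCommGroup E] [NormedSpace ℂ E] [FiniteDimensional ℂ E]
  [MetricSpace X] [CompactSpace X] {A : Cha E X}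

theorem c4_g {c C lam r₀ C₂ : ℝ} (hU : A.Uni c C lam r₀ C₂) {ρ₀ : ℝ} (hr₀ : ρ₀ ≤ r₀)
    {g : ℂ → X} {z₀ z : ℂ} (hg : LG A c C lam r₀ C₂ g z₀) {i : A.ι}
    (hb : ball (g z₀) lam ⊆ A.W i) (hz : z ∈ ball z₀ ρ₀) : g z ∈ A.W i := by
  have hr := hU.r₀_pos
  have h1 : z ∈ ball z₀ (2 * r₀) := ball_subset_ball (by linarith) hz
  have h2 := hg.stay z h1
  refine hb ?_
  rw [mem_ball]
  have := hU.lam_pos
  linarith

theorem c4_gcg {c C lam r₀ C₂ : ℝ} (hU : A.Uni c C lam r₀ C₂) {g : ℂ → X} {z₀ : ℂ}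
    (hg : LG A c C lam r₀ C₂ g z₀) {i : A.ι} (hb : ball (g z₀) lam ⊆ A.W i) :
    GC c C C₂ (A.loc i g) z₀ r₀ := by
  refine hg.gc i ((ball_subset_ball ?_).trans hb)
  have := hU.lam_pos
  linarith

theorem c4_tv {c C lam r₀ C₂ : ℝ} (hU : A.Uni c C lam r₀ C₂) {L k' : ℕ} (F : A.Frm L k')
    {C₃ ρ₀ ρ δ : ℝ} (hr₀ : ρ₀ ≤ r₀) {g h : ℂ → X} {z₀ : ℂ} (hg : LG A c C lam r₀ C₂ g z₀)
    (hh : h ∈ A.KK c C) {s : ℂ → ℂ} {i : A.ι} {l : E →L[ℂ] ℂ} {t : ℂ → ℂ}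
    (hM : Mt A c C₃ lam r₀ ρ₀ ρ δ g h s z₀ i l t) {z : ℂ} (hz : z ∈ ball z₀ ρ₀) :
    AnalyticAt ℂ (TV (F.T i) (A.loc i g) (A.loc i h) t) z ∧
      HasDerivAt (TV (F.T i) (A.loc i g) (A.loc i h) t)
      (fderiv ℂ (fun p : E × E × E => F.T i p.1 p.2.1 p.2.2) (A.loc i g z,
        A.loc i h (t z) - A.loc i g z, deriv (A.loc i g) z)
        (deriv (A.loc i g) z, deriv (fun z => A.loc i h (t z) - A.loc i g z) z,
          deriv (deriv (A.loc i g)) z)) z := by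
  refine tv_an (F.tf i) hr₀ (c4_gcg hU hg hM.bg) (hU.gc h hh i (s z₀) hM.bh) hM.lo hz ?_
  exact (A.ch i).map_source (A.W_sub i (subset_closure (c4_g hU hr₀ hg hM.bg hz)))

/-- C4 -/
theorem lmt_an_pr {c C lam r₀ C₂ : ℝ} (hU : A.Uni c C lam r₀ C₂) {L k' : ℕ} (F : A.Frm L k')
    {C₃ ρ₀ ρ δ : ℝ} (hr₀ : ρ₀ ≤ r₀) {g h : ℂ → X} {z₀ : ℂ} (hg : LG A c C lam r₀ C₂ g z₀)
    (hh : h ∈ A.KK c C) {s : ℂ → ℂ} {i : A.ι} {l : E →L[ℂ] ℂ} {t : ℂ → ℂ}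
    (hM : Mt A c C₃ lam r₀ ρ₀ ρ δ g h s z₀ i l t) :
    ∀ z ∈ ball z₀ ρ₀, AnalyticAt ℂ (TV (F.T i) (A.loc i g) (A.loc i h) t) z :=
  fun _ hz => (c4_tv hU F hr₀ hg hh hM hz).1

/-- C4 -/
theorem lmt_strict_pr {c C lam r₀ C₂ : ℝ} (hU : A.Uni c C lam r₀ C₂) {L k' : ℕ} (F : A.Frm L k')
    (hk' : 0 < k') {C₃ ρ₀ ρ : ℝ} (hρ : 0 < ρ) (hρ₀ : ρ ≤ ρ₀ / 4) (hr₀ : ρ₀ ≤ r₀) :
    ∃ κ > 0, ∀ (δ : ℝ) (g : ℂ → X) (z₀ : ℂ), LG A c C lam r₀ C₂ g z₀ → ∀ h ∈ A.KK c C,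
      ∀ (s : ℂ → ℂ) (i : A.ι) (l : E →L[ℂ] ℂ) (t : ℂ → ℂ),
        Mt A c C₃ lam r₀ ρ₀ ρ δ g h s z₀ i l t → ∀ μ : ℂ,
          κ * ‖TV (F.T i) (A.loc i g) (A.loc i h) t z₀‖ ≤
            ‖deriv (TV (F.T i) (A.loc i g) (A.loc i h) t) z₀ -
              μ • TV (F.T i) (A.loc i g) (A.loc i h) t z₀‖ := by
  have hc := hU.c_pos
  have hC := hU.C_pos
  have := A.fin
  choose κ hκ0 hκ using fun i : A.ι => imm_unif_pr (F.tf i) (A.ch i).open_target hk' (str_K A i).1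
    (str_K A i).2 (c := c) (C := C) (C₂ := C₂) (c₀ := c / (c + 2 * C)) hc (by positivity)
  obtain ⟨κ', hκ', hle⟩ := str_min κ hκ0
  refine ⟨κ', hκ', fun δ g z₀ hg h hh s i l t hM m => ?_⟩
  have hρ0 : 0 < ρ₀ := by linarith
  have hz : z₀ ∈ ball z₀ ρ₀ := mem_ball_self hρ0
  have hz' : z₀ ∈ ball z₀ r₀ := mem_ball_self hU.r₀_pos
  have hG := c4_gcg hU hg hM.bg
  have hmem : A.loc i g z₀ ∈ A.ch i '' closure (A.W i) :=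
    ⟨g z₀, subset_closure (c4_g hU hr₀ hg hM.bg hz), rfl⟩
  rw [(c4_tv hU F hr₀ hg hh hM hz).2.deriv]
  refine (mul_le_mul_of_nonneg_right (hle i) (norm_nonneg _)).trans ?_
  exact hκ i (A.loc i g z₀) hmem (A.loc i h (t z₀) - A.loc i g z₀) (deriv (A.loc i g) z₀) _ _
    (hG.lo z₀ hz') (hG.up z₀ hz') (hG.acc z₀ hz') (fun a => hM.lo.transv hc hC hG hr₀ hz a) m

/-- C4 -/
theorem lmt_bound_pr {c C lam r₀ C₂ : ℝ} (hU : A.Uni c C lam r₀ C₂) {L k' : ℕ} (F : A.Frm L k')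
    {C₃ ρ₀ ρ : ℝ} (hρ : 0 < ρ) (hρ₀ : ρ ≤ ρ₀ / 4) (hr₀ : ρ₀ ≤ r₀) :
    ∃ B > 0, ∀ δ : ℝ, δ ≤ 1 → ∀ (g : ℂ → X) (z₀ : ℂ), LG A c C lam r₀ C₂ g z₀ → ∀ h ∈ A.KK c C,
      ∀ (s : ℂ → ℂ) (i : A.ι) (l : E →L[ℂ] ℂ) (t : ℂ → ℂ),
        Mt A c C₃ lam r₀ ρ₀ ρ δ g h s z₀ i l t →
          ‖TV (F.T i) (A.loc i g) (A.loc i h) t z₀‖ ≤ B := by
  have := A.fin
  choose B hB using fun i : A.ι => tv_upper_pr (F.tf i) (str_K A i).1 (str_K A i).2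
    (C := max 1 C)
  obtain ⟨B', hB'⟩ := (Set.finite_range B).bddAbove
  refine ⟨max B' 1, lt_of_lt_of_le one_pos (le_max_right _ _), fun δ hδ g z₀ hg h hh s i l t hM => ?_⟩
  have hρ0 : 0 < ρ₀ := by linarith
  have hz : z₀ ∈ ball z₀ ρ₀ := mem_ball_self hρ0
  have hz' : z₀ ∈ ball z₀ r₀ := mem_ball_self hU.r₀_pos
  have hG := c4_gcg hU hg hM.bg
  have hmem : A.loc i g z₀ ∈ A.ch i '' closure (A.W i) :=
    ⟨g z₀, subset_closure (c4_g hU hr₀ hg hM.bg hz), rfl⟩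
  refine ((hB i (A.loc i g z₀) hmem (A.loc i h (t z₀) - A.loc i g z₀) (deriv (A.loc i g) z₀)
    ?_ ?_).trans (hB' (mem_range_self i))).trans (le_max_left _ _)
  · exact ((hM.small z₀ (mem_ball_self hρ)).trans hδ).trans (le_max_left _ _)
  · exact (hG.up z₀ hz').trans (le_max_right _ _)

end





end Pool.Agent.SL

namespace Pool.Agent.SL

alias lmt_an := lmt_an_pr
alias lmt_strict := lmt_strict_pr
alias lmt_bound := lmt_bound_pr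

end Pool.Agent.SL
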