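import Pool.Agent.Lib_helper80.SL.Base
import Pool.Agent.Lib_helper82.BR.B.STR

set_option autoImplicit false
set_option linter.unusedVariables false
set_option linter.unusedSectionVars false

open Filter Topology Metric Set
open scoped Manifold ContDiff

namespace Pool.Agent.SL

open Pool.Agent.BR Pool.Agent.MBS

section pure

variable {E : Type} [NormedAddCommGroup E] [NormedSpace ℂ E] [FiniteDimensional ℂ E]
  {O K₀ : Set E} {L k : ℕ} {T : E → E → E → EuclideanSpace ℂ (Fin L)}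

/-- lower bound on unit vectors -/
private theorem c5_unit (hT : TForm O L k T) (hK : IsCompact K₀) (hKO : K₀ ⊆ O)
    {c C c₀ : ℝ} (hc : 0 < c) (hc₀ : 0 < c₀) : ∃ κ > 0, ∀ ξ ∈ K₀, ∀ u v : E,
      ‖u‖ = 1 → c ≤ ‖v‖ → ‖v‖ ≤ C → (∀ a : ℂ, c₀ ≤ ‖u - a • v‖) → κ ≤ ‖T ξ u v‖ := by
  haveI : ProperSpace E := FiniteDimensional.proper ℂ E
  have hcl : IsClosed {p : E × E × E | c ≤ ‖p.2.2‖ ∧ ∀ a : ℂ, c₀ ≤ ‖p.2.1 - a • p.2.2‖} := by
    have h1 : IsClosed {p : E × E × E | c ≤ ‖p.2.2‖} := isClosed_le continuous_const (by fun_prop)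
    have h2 : IsClosed (⋂ a : ℂ, {p : E × E × E | c₀ ≤ ‖p.2.1 - a • p.2.2‖}) :=
      isClosed_iInter fun a => isClosed_le continuous_const (by fun_prop)
    have h3 : {p : E × E × E | c ≤ ‖p.2.2‖ ∧ ∀ a : ℂ, c₀ ≤ ‖p.2.1 - a • p.2.2‖} =
        {p : E × E × E | c ≤ ‖p.2.2‖} ∩ ⋂ a : ℂ, {p : E × E × E | c₀ ≤ ‖p.2.1 - a • p.2.2‖} := by
      ext p
      simp only [mem_setOf_eq, mem_inter_iff, mem_iInter]
    rw [h3]
    exact h1.inter h2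
  have hcp : IsCompact ((K₀ ×ˢ (sphere (0 : E) 1 ×ˢ closedBall (0 : E) C)) ∩
      {p : E × E × E | c ≤ ‖p.2.2‖ ∧ ∀ a : ℂ, c₀ ≤ ‖p.2.1 - a • p.2.2‖}) :=
    (hK.prod ((isCompact_sphere _ _).prod (isCompact_closedBall _ _))).inter_right hcl
  rcases ((K₀ ×ˢ (sphere (0 : E) 1 ×ˢ closedBall (0 : E) C)) ∩
      {p : E × E × E | c ≤ ‖p.2.2‖ ∧ ∀ a : ℂ, c₀ ≤ ‖p.2.1 - a • p.2.2‖}).eq_empty_or_nonempty with
    he | hne
  · refine ⟨1, one_pos, fun ξ hξ u v hu hv1 hv2 htr => ?_⟩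
    exfalso
    have : ((ξ, u, v) : E × E × E) ∈ ((K₀ ×ˢ (sphere (0 : E) 1 ×ˢ closedBall (0 : E) C)) ∩
      {p : E × E × E | c ≤ ‖p.2.2‖ ∧ ∀ a : ℂ, c₀ ≤ ‖p.2.1 - a • p.2.2‖}) :=
      ⟨⟨hξ, by simpa using hu, by simpa using hv2⟩, hv1, htr⟩
    rw [he] at this
    exact this
  · obtain ⟨p, hp, hmin⟩ := hcp.exists_isMinOn (f := fun p : E × E × E => ‖T p.1 p.2.1 p.2.2‖) hne
      (fun p hp => ((hT.hol p.1 (hKO hp.1.1) p.2.1 p.2.2).continuousAt.norm).continuousWithinAt)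
    refine ⟨‖T p.1 p.2.1 p.2.2‖, ?_, fun ξ hξ u v hu hv1 hv2 htr => ?_⟩
    · rw [gt_iff_lt, norm_pos_iff]
      have hu : ‖p.2.1‖ = 1 := by
        have := hp.1.2.1
        rwa [mem_sphere_zero_iff_norm] at this
      have hu0 : p.2.1 ≠ 0 := by
        rw [← norm_pos_iff, hu]
        exact one_pos
      have hv0 : p.2.2 ≠ 0 := by
        rw [← norm_pos_iff]
        exact lt_of_lt_of_le hc hp.2.1
      refine hT.ne p.1 (hKO hp.1.1) _ _ (indep_of_transv hc₀ hu0 hv0 fun a => ?_)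
      rw [hu, mul_one]
      exact hp.2.2 a
    · exact isMinOn_iff.1 hmin (ξ, u, v) ⟨⟨hξ, by simpa using hu, by simpa using hv2⟩, hv1, htr⟩

private theorem c5_low (hT : TForm O L k T) (hk : 0 < k) (hK : IsCompact K₀) (hKO : K₀ ⊆ O)
    {c C c₀ : ℝ} (hc : 0 < c) (hc₀ : 0 < c₀) : ∃ κ > 0, ∀ ξ ∈ K₀, ∀ u v : E,
      c ≤ ‖v‖ → ‖v‖ ≤ C → (∀ a : ℂ, c₀ * ‖u‖ ≤ ‖u - a • v‖) → κ * ‖u‖ ^ k ≤ ‖T ξ u v‖ := by
  obtain ⟨κ, hκ, h⟩ := c5_unit hT hK hKO (c := c) (C := C) (c₀ := c₀) hc hc₀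
  refine ⟨κ, hκ, fun ξ hξ u v hv1 hv2 htr => ?_⟩
  rcases eq_or_ne u 0 with hu | hu
  · rw [hu, norm_zero, zero_pow hk.ne', mul_zero]
    exact norm_nonneg _
  · have hn : 0 < ‖u‖ := norm_pos_iff.2 hu
    have hnc : ((‖u‖ : ℝ) : ℂ) ≠ 0 := by exact_mod_cast hn.ne'
    have hnn : ‖((‖u‖ : ℝ) : ℂ)‖ = ‖u‖ := by
      rw [Complex.norm_real, Real.norm_of_nonneg hn.le]
    have e1 : u = ((‖u‖ : ℝ) : ℂ) • ((((‖u‖ : ℝ) : ℂ))⁻¹ • u) := by
      rw [smul_smul, mul_inv_cancel₀ hnc, one_smul]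
    have e2 : T ξ u v = ((‖u‖ : ℝ) : ℂ) ^ k • T ξ ((((‖u‖ : ℝ) : ℂ))⁻¹ • u) v := by
      rw [← hT.smul_left (hKO hξ), ← e1]
    rw [e2, norm_smul, norm_pow, hnn, mul_comm κ]
    refine mul_le_mul_of_nonneg_left ?_ (by positivity)
    refine h ξ hξ _ v ?_ hv1 hv2 fun a => ?_
    · rw [norm_smul, norm_inv, hnn, inv_mul_cancel₀ hn.ne']
    · have e3 : (((‖u‖ : ℝ) : ℂ))⁻¹ • u - a • v =
          (((‖u‖ : ℝ) : ℂ))⁻¹ • (u - (((‖u‖ : ℝ) : ℂ) * a) • v) := by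
        rw [smul_sub, smul_smul, ← mul_assoc, inv_mul_cancel₀ hnc, one_mul]
      rw [e3, norm_smul, norm_inv, hnn, inv_mul_eq_div, le_div_iff₀ hn]
      exact htr _

end pure

section

variable {E X : Type} [NormedAddCommGroup E] [NormedSpace ℂ E] [FiniteDimensional ℂ E]
  [MetricSpace X] [CompactSpace X] {A : Cha E X}

/-- points of a core which are near in the chart are near -/
private theorem c5_near (A : Cha E X) (i : A.ι) {lB : ℝ} (hl : 0 < lB) : ∃ δ > 0,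
    ∀ x ∈ closure (A.W i), ∀ y ∈ closure (A.W i), ‖A.ch i x - A.ch i y‖ ≤ δ → dist x y < lB := by
  have hcp : IsCompact ((closure (A.W i) ×ˢ closure (A.W i)) ∩ {p : X × X | lB ≤ dist p.1 p.2}) :=
    ((isClosed_closure.isCompact).prod (isClosed_closure.isCompact)).inter_right
      (isClosed_le continuous_const (by fun_prop))
  rcases ((closure (A.W i) ×ˢ closure (A.W i)) ∩
      {p : X × X | lB ≤ dist p.1 p.2}).eq_empty_or_nonempty with he | hne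
  · refine ⟨1, one_pos, fun x hx y hy _ => ?_⟩
    by_contra hcon
    have : ((x, y) : X × X) ∈ ((closure (A.W i) ×ˢ closure (A.W i)) ∩
      {p : X × X | lB ≤ dist p.1 p.2}) := ⟨⟨hx, hy⟩, not_lt.1 hcon⟩
    rw [he] at this
    exact this
  · have hco : ContinuousOn (fun p : X × X => ‖A.ch i p.1 - A.ch i p.2‖)
        ((closure (A.W i) ×ˢ closure (A.W i)) ∩ {p : X × X | lB ≤ dist p.1 p.2}) := by
      have h1 : ContinuousOn (fun p : X × X => A.ch i p.1)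
          ((closure (A.W i) ×ˢ closure (A.W i)) ∩ {p : X × X | lB ≤ dist p.1 p.2}) :=
        (A.ch i).continuousOn.comp continuousOn_fst fun p hp => A.W_sub i hp.1.1
      have h2 : ContinuousOn (fun p : X × X => A.ch i p.2)
          ((closure (A.W i) ×ˢ closure (A.W i)) ∩ {p : X × X | lB ≤ dist p.1 p.2}) :=
        (A.ch i).continuousOn.comp continuousOn_snd fun p hp => A.W_sub i hp.1.2
      exact (h1.sub h2).norm
    obtain ⟨p, hp, hmin⟩ := hcp.exists_isMinOn hne hco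
    have hpos : 0 < ‖A.ch i p.1 - A.ch i p.2‖ := by
      rw [norm_pos_iff, sub_ne_zero]
      intro h
      have := (A.ch i).injOn (A.W_sub i hp.1.1) (A.W_sub i hp.1.2) h
      have h2 := hp.2
      simp only [mem_setOf_eq] at h2
      rw [this, dist_self] at h2
      linarith
    refine ⟨‖A.ch i p.1 - A.ch i p.2‖ / 2, by linarith, fun x hx y hy hxy => ?_⟩
    by_contra hcon
    have := isMinOn_iff.1 hmin (x, y) ⟨⟨hx, hy⟩, not_lt.1 hcon⟩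
    simp only at this
    linarith

theorem lmt_lower_pr {lB LB : ℝ} (hB : BLip A lB LB) {c C lam r₀ C₂ : ℝ} (hU : A.Uni c C lam r₀ C₂)
    {L k' : ℕ} (F : A.Frm L k') (hk' : 0 < k') {C₃ ρ₀ ρ : ℝ} (hρ : 0 < ρ) (hρ₀ : ρ ≤ ρ₀ / 4)
    (hr₀ : ρ₀ ≤ r₀) :
    ∃ b > 0, ∃ δ₁ > 0, ∀ δ ≤ δ₁, ∀ (g : ℂ → X) (z₀ : ℂ), LG A c C lam r₀ C₂ g z₀ → ∀ h ∈ A.KK c C,
      ∀ (s : ℂ → ℂ) (i : A.ι) (l : E →L[ℂ] ℂ) (t : ℂ → ℂ),
        Mt A c C₃ lam r₀ ρ₀ ρ δ g h s z₀ i l t →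
          b * dist (g z₀) (h (t z₀)) ^ k' ≤ ‖TV (F.T i) (A.loc i g) (A.loc i h) t z₀‖ := by
  have hc := hU.c_pos
  have hC := hU.C_pos
  have := A.fin
  choose κ hκ0 hκ using fun i : A.ι => c5_low (F.tf i) hk' (str_K A i).1
    (str_K A i).2 (c := c) (C := C) (c₀ := c / (c + 2 * C)) hc (by positivity)
  obtain ⟨κ', hκ', hle⟩ := str_min κ hκ0
  choose η hη0 hη using fun i : A.ι => c5_near A i hB.lam_pos
  obtain ⟨η', hη', hηle⟩ := str_min η hη0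
  have hL : 0 < LB := lt_of_lt_of_le one_pos hB.L_one
  refine ⟨κ' / LB ^ k', div_pos hκ' (pow_pos hL _), η', hη', ?_⟩
  intro δ hδ g z₀ hg h hh s i l t hM
  have hρ0 : 0 < ρ₀ := by linarith
  have hz : z₀ ∈ ball z₀ ρ₀ := mem_ball_self hρ0
  have hz' : z₀ ∈ ball z₀ r₀ := mem_ball_self hU.r₀_pos
  have hG : GC c C C₂ (A.loc i g) z₀ r₀ := by
    refine hg.gc i ((ball_subset_ball ?_).trans hM.bg)
    have := hU.lam_pos
    linarith
  have hgW : g z₀ ∈ closure (A.W i) := subset_closure (hM.bg (mem_ball_self hU.lam_pos))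
  have hhW : h (t z₀) ∈ closure (A.W i) := subset_closure (str_h hU hh hM.bh (hM.lo.t_mem z₀ hz))
  have hsm := hM.small z₀ (mem_ball_self hρ)
  have hch : ‖A.ch i (g z₀) - A.ch i (h (t z₀))‖ = ‖A.loc i h (t z₀) - A.loc i g z₀‖ := by
    rw [norm_sub_rev]
    rfl
  have hd : dist (g z₀) (h (t z₀)) < lB := by
    refine hη i _ hgW _ hhW ?_
    rw [hch]
    exact (hsm.trans hδ).trans (hηle i)
  have hd2 : dist (g z₀) (h (t z₀)) ≤ LB * ‖A.loc i h (t z₀) - A.loc i g z₀‖ := by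
    rw [← hch]
    refine hB.le_ch i (g z₀) hgW (g z₀) (mem_ball_self hB.lam_pos) (h (t z₀)) ?_
    rw [mem_ball, dist_comm]
    exact hd
  have hmem : A.loc i g z₀ ∈ A.ch i '' closure (A.W i) := ⟨g z₀, hgW, rfl⟩
  have h1 := hκ i (A.loc i g z₀) hmem (A.loc i h (t z₀) - A.loc i g z₀) (deriv (A.loc i g) z₀)
    (hG.lo z₀ hz') (hG.up z₀ hz') (fun a => hM.lo.transv hc hC hG hr₀ hz a)
  have h2 : dist (g z₀) (h (t z₀)) ^ k' ≤ LB ^ k' * ‖A.loc i h (t z₀) - A.loc i g z₀‖ ^ k' := by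
    rw [← mul_pow]
    exact pow_le_pow_left₀ dist_nonneg hd2 _
  calc κ' / LB ^ k' * dist (g z₀) (h (t z₀)) ^ k'
      ≤ κ' / LB ^ k' * (LB ^ k' * ‖A.loc i h (t z₀) - A.loc i g z₀‖ ^ k') :=
        mul_le_mul_of_nonneg_left h2 (div_nonneg hκ'.le (pow_nonneg hL.le _))
    _ = κ' * ‖A.loc i h (t z₀) - A.loc i g z₀‖ ^ k' := by
        rw [← mul_assoc, div_mul_cancel₀ _ (pow_pos hL k').ne']
    _ ≤ κ i * ‖A.loc i h (t z₀) - A.loc i g z₀‖ ^ k' :=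
        mul_le_mul_of_nonneg_right (hle i) (pow_nonneg (norm_nonneg _) _)
    _ ≤ _ := h1



end

end Pool.Agent.SL

namespace Pool.Agent.SL

alias lmt_lower := lmt_lower_pr

end Pool.Agent.SL
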