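import Pool.Agent.Lib_helper80.SL.Base
import Pool.Agent.Lib_helper80.SL.L.B5
import Pool.Agent.Lib_helper80.SL.L.B6
import Pool.Agent.Lib_helper80.SL.L.B7

set_option autoImplicit false
set_option linter.unusedVariables false
set_option linter.unusedSectionVars false

open Filter Topology Metric Set
open scoped Manifold ContDiff

namespace Pool.Agent.SL

open Pool.Agent.BR Pool.Agent.MBS

section

variable {E X : Type} [NormedAddCommGroup E] [NormedSpace ℂ E] [FiniteDimensional ℂ E]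
  [MetricSpace X] [CompactSpace X] {A : Cha E X}

variable {k m s : ℕ} (D : IJ A k m s)

theorem choice_pr {C : ℝ} (hC : 0 < C) {L k' : ℕ} (F : A.Frm L k') (hk' : 0 < k') (ε η : ℝ)
    (hε : 0 < ε) (hη : 0 < η) : ∃ δ₀ > 0, ∃ ρ₁ > 0, ∀ (f : ℂ → X) (c : ℂ) (R : ℝ),
      HB A f (ball c R) C →
      (∀ z ∈ ball c R, 1 - δ₀ ≤ ‖D.PP f z‖ ∧ ‖D.PP f z‖ ≤ 1 + δ₀) →
      ∃ G : ℂ → ℂ → X,
        (∀ z ∈ ball c (R - ρ₁), G z ∈ D.Fam C ∧
          ∀ w : ℂ, ‖w - z‖ ≤ 1 / ε → dist (f w) (G z w) ≤ ε) ∧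
        ∀ z ∈ ball c (R - ρ₁), ∀ z' ∈ ball c (R - ρ₁), ‖z - z'‖ ≤ 1 →
          ∃ a b : ℂ, (∀ w, G z' w = G z (a * w + b)) ∧ ‖a - 1‖ ≤ η ∧ ‖a * z' + b - z'‖ ≤ η := by
  classical
  obtain ⟨c₁, hc₁, hKK⟩ := fam_kk D C
  obtain ⟨R₂, hR₂, ε₂, hε₂, hba⟩ := ball_affine (A := A) F hk' hc₁ hC η hη
  obtain ⟨ε', hε', h1, h2, h3⟩ : ∃ ε' : ℝ, 0 < ε' ∧ ε' ≤ ε ∧ 2 * ε' ≤ ε₂ ∧
      1 / ε + R₂ + 2 ≤ 1 / ε' := by
    have hq : 0 < 1 / ε + R₂ + 2 := by positivity
    refine ⟨min (min ε (ε₂ / 2)) (1 / (1 / ε + R₂ + 2)), ?_, ?_, ?_, ?_⟩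
    · positivity
    · exact (min_le_left _ _).trans (min_le_left _ _)
    · have : min (min ε (ε₂ / 2)) (1 / (1 / ε + R₂ + 2)) ≤ ε₂ / 2 :=
        (min_le_left _ _).trans (min_le_right _ _)
      linarith
    · have h : min (min ε (ε₂ / 2)) (1 / (1 / ε + R₂ + 2)) ≤ 1 / (1 / ε + R₂ + 2) :=
        min_le_right _ _
      have hp : 0 < min (min ε (ε₂ / 2)) (1 / (1 / ε + R₂ + 2)) := by positivity
      calc 1 / ε + R₂ + 2 = 1 / (1 / (1 / ε + R₂ + 2)) := by rw [one_div_one_div]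
        _ ≤ _ := one_div_le_one_div_of_le hp h
  have hε1 : 0 < 1 / ε := by positivity
  obtain ⟨δ, hδ, ρ, hρ, hapx⟩ := apx D C ε' hε'
  refine ⟨δ, hδ, ρ, hρ, fun f c R hf hP => ?_⟩
  have hg : ∀ z ∈ ball c (R - ρ), ∃ g ∈ D.Fam C, ∀ u : ℂ, ‖u‖ ≤ 1 / ε' →
      dist (f (z + u)) (g u) ≤ ε' := by
    intro z hz
    have hsub : ball z ρ ⊆ ball c R := by
      refine ball_subset_ball' ?_
      rw [mem_ball] at hz
      linarith
    exact hapx f z (fun w hw => hf w (hsub hw)) (fun w hw => hP w (hsub hw))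
  have : Nonempty (ℂ → X) := ⟨f⟩
  choose! g hgF hgd using hg
  have hGF : ∀ z ∈ ball c (R - ρ), ∀ v : ℂ, (fun w => g z (w + v - z)) ∈ D.Fam C := by
    intro z hz v
    have := fam_affine D (hgF z hz) (a := 1) (b := v - z) (by simp)
    convert this using 1
    funext w
    congr 1
    ring
  have hGd : ∀ z ∈ ball c (R - ρ), ∀ w : ℂ, ‖w - z‖ ≤ 1 / ε' → dist (f w) (g z (w - z)) ≤ ε' := by
    intro z hz w hw
    have := hgd z hz (w - z) hw
    rwa [add_sub_cancel] at this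
  refine ⟨fun z w => g z (w - z), ?_, ?_⟩
  · intro z hz
    refine ⟨?_, ?_⟩
    · have := hGF z hz 0
      simpa using this
    · intro w hw
      exact (hGd z hz w (by linarith)).trans h1
  · intro z hz z' hz' hzz
    obtain ⟨a, b, hab, ha, hb⟩ := hba (fun w => g z' (w + z' - z')) (hKK (hGF z' hz' z'))
      (fun w => g z (w + z' - z)) (hKK (hGF z hz z')) (by
        intro u hu
        have e1 : dist (f (u + z')) (g z' (u + z' - z')) ≤ ε' := by
          refine hGd z' hz' _ ?_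
          rw [add_sub_cancel_right]
          linarith
        have e2 : dist (f (u + z')) (g z (u + z' - z)) ≤ ε' := by
          refine hGd z hz _ ?_
          have : u + z' - z = u + (z' - z) := by ring
          rw [this]
          have e3 := norm_add_le u (z' - z)
          rw [norm_sub_rev z' z] at e3
          linarith
        calc dist (g z' (u + z' - z')) (g z (u + z' - z)) ≤
            dist (f (u + z')) (g z' (u + z' - z')) + dist (f (u + z')) (g z (u + z' - z)) :=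
              dist_triangle_left _ _ _
          _ ≤ ε₂ := by linarith)
    refine ⟨a, b + z' - a * z', ?_, ha, ?_⟩
    · intro w
      have := hab (w - z')
      have e1 : w - z' + z' - z' = w - z' := by ring
      have e2 : a * (w - z') + b + z' - z = a * w + (b + z' - a * z') - z := by ring
      rw [e1, e2] at this
      exact this
    · have : a * z' + (b + z' - a * z') - z' = b := by ring
      rw [this]
      exact hb

end

end Pool.Agent.SL

namespace Pool.Agent.SL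

alias choice := choice_pr

end Pool.Agent.SL
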