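import Pool.Agent.Lib_helper80.SL.Base
import Pool.Agent.Lib_helper26.BR.Key
import Pool.Agent.Lib_helper80.SL.L.B5
import Pool.Agent.Lib_helper80.SL.L.C1
import Pool.Agent.Lib_helper80.SL.L.C2
import Pool.Agent.Lib_helper80.SL.L.C3
import Pool.Agent.Lib_helper80.SL.L.C4
import Pool.Agent.Lib_helper80.SL.L.C5
import Pool.Agent.Lib_helper80.SL.L.D1

-- block D2 (helper81)

set_option autoImplicit false
set_option linter.unusedVariables false
set_option linter.unusedSectionVars false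

open Filter Topology Metric Set
open scoped Manifold ContDiff

namespace Pool.Agent.SL

open Pool.Agent.BR Pool.Agent.MBS

section

variable {E X : Type} [NormedAddCommGroup E] [NormedSpace ℂ E] [FiniteDimensional ℂ E]
  [MetricSpace X] [CompactSpace X] {A : Cha E X}

theorem d2_mono {c C₃ lam r₀ ρ₀ ρ δ δ' : ℝ} {g h : ℂ → X} {s : ℂ → ℂ} {z₀ : ℂ} {i : A.ι}
    {l : E →L[ℂ] ℂ} {t : ℂ → ℂ} (hM : Mt A c C₃ lam r₀ ρ₀ ρ δ g h s z₀ i l t) (hδ : δ ≤ δ') :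
    Mt A c C₃ lam r₀ ρ₀ ρ δ' g h s z₀ i l t :=
  ⟨hM.bg, hM.bh, hM.lo, fun z hz => (hM.ts z hz).trans hδ, fun z hz => (hM.small z hz).trans hδ⟩

variable {k m s : ℕ} (D : IJ A k m s)

theorem decay_val_pr {lB LB : ℝ} (hB : BLip A lB LB) {C : ℝ} (hC : 0 < C) {L k' : ℕ} (F : A.Frm L k')
    (hk' : 0 < k') (ε : ℝ) (hε : 0 < ε) :
    ∃ κ > 0, ∃ r > 0, ∃ C' > 0, ∃ δ₀ > 0, ∃ ρ₁ > 0, ∀ (f : ℂ → X) (c : ℂ) (R : ℝ),
      HB A f (ball c R) C →
      (∀ z ∈ ball c R, 1 - δ₀ ≤ ‖D.PP f z‖ ∧ ‖D.PP f z‖ ≤ 1 + δ₀) →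
      ∃ (G : ℂ → ℂ → X) (val : ℂ → ℝ),
        (∀ z ∈ ball c (R - ρ₁), G z ∈ D.Fam C ∧
          ∀ w : ℂ, ‖w - z‖ ≤ 1 / ε → dist (f w) (G z w) ≤ ε) ∧
        (∀ z ∈ ball c (R - ρ₁), ∀ z' ∈ ball c (R - ρ₁), ‖z - z'‖ ≤ 1 →
          ∃ a b : ℂ, a ≠ 0 ∧ ∀ w, G z' w = G z (a * w + b)) ∧
        (∀ z ∈ ball c (R - ρ₁), val z ≤ 1) ∧
        (∀ z₀ ∈ ball c (R - ρ₁ - r), ∀ (B : ℝ) (β : ℂ),
          (∀ z, ‖z - z₀‖ = r → val z ≤ Real.exp (B - (β * z).re)) →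
            val z₀ ≤ Real.exp (B - κ - (β * z₀).re)) ∧
        ∀ z ∈ ball c (R - ρ₁), ∃ w : ℂ, dist (f z) (G z w) ^ k' ≤ C' * val z := by
  classical
  obtain ⟨c₁, hc₁, hfam⟩ := fam_kk D C
  obtain ⟨c₂, hc₂, hvel⟩ := vel_lower D C
  obtain ⟨c₀, hc₀def⟩ : ∃ c₀, c₀ = min c₁ c₂ := ⟨_, rfl⟩
  have hc₀ : 0 < c₀ := by rw [hc₀def]; exact lt_min hc₁ hc₂
  have hfam' : D.Fam C ⊆ A.KK c₀ C := by
    intro g hg
    have h1 := hfam hg
    refine ⟨h1.1, fun z i hi => ⟨?_, (h1.2 z i hi).2⟩⟩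
    have h2 : c₀ ≤ c₁ := by rw [hc₀def]; exact min_le_left _ _
    exact h2.trans (h1.2 z i hi).1
  obtain ⟨lam, C₂, rb, hrb, huni⟩ := exists_luni A c₀ C hc₀ hC
  obtain ⟨rb', hrb', C₃, hC₃, hmatch⟩ := exists_lmatch A c₀ C C₂ hc₀
  obtain ⟨r₀, hr₀def⟩ : ∃ r₀, r₀ = min rb rb' := ⟨_, rfl⟩
  have hr₀ : 0 < r₀ := by rw [hr₀def]; exact lt_min hrb hrb'
  obtain ⟨hU, hLG⟩ := huni r₀ hr₀ (by rw [hr₀def]; exact min_le_left _ _)
  obtain ⟨ρ₀, hρ₀, hρ₀r, R₁, hR₁, hmatch⟩ := hmatch lam r₀ (by rw [hr₀def]; exact min_le_right _ _) hU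
  obtain ⟨ρ, hρdef⟩ : ∃ ρ, ρ = min (ρ₀ / 4) 1 := ⟨_, rfl⟩
  have hρ : 0 < ρ := by rw [hρdef]; exact lt_min (by linarith) one_pos
  have hρ4 : ρ ≤ ρ₀ / 4 := by rw [hρdef]; exact min_le_left _ _
  have hρ1 : ρ ≤ 1 := by rw [hρdef]; exact min_le_right _ _
  obtain ⟨κ, hκ, hstr⟩ := lmt_strict hU F hk' (C₃ := C₃) hρ hρ4 hρ₀r
  obtain ⟨B, hBpos, hBb⟩ := lmt_bound hU F (C₃ := C₃) hρ hρ4 hρ₀r
  obtain ⟨S, hS⟩ : ∃ S, S = √(1 + (κ * (ρ / 2)) ^ 2) := ⟨_, rfl⟩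
  have hS1 : 1 < S := by
    rw [hS]
    have h1 : (1 : ℝ) < 1 + (κ * (ρ / 2)) ^ 2 := by
      have : 0 < (κ * (ρ / 2)) ^ 2 := by positivity
      linarith
    calc (1 : ℝ) = √1 := Real.sqrt_one.symm
      _ < √(1 + (κ * (ρ / 2)) ^ 2) := Real.sqrt_lt_sqrt zero_le_one h1
  have hS2 : 1 < √S := by
    calc (1 : ℝ) = √1 := Real.sqrt_one.symm
      _ < √S := Real.sqrt_lt_sqrt zero_le_one hS1
  obtain ⟨δc, hδc, hcmp⟩ := lmt_compare hU F hk' (C₃ := C₃) hρ hρ4 hρ₀r (√S - 1) (by linarith)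
  obtain ⟨b, hb, δ₁, hδ₁, hlow⟩ := lmt_lower hB hU F hk' (C₃ := C₃) hρ hρ4 hρ₀r
  obtain ⟨δ, hδdef⟩ : ∃ δ, δ = min δc (min 1 δ₁) := ⟨_, rfl⟩
  have hδ : 0 < δ := by rw [hδdef]; exact lt_min hδc (lt_min one_pos hδ₁)
  have hδ1 : δ ≤ δc := by rw [hδdef]; exact min_le_left _ _
  have hδ2 : δ ≤ 1 := by rw [hδdef]; exact (min_le_right _ _).trans (min_le_left _ _)
  have hδ3 : δ ≤ δ₁ := by rw [hδdef]; exact (min_le_right _ _).trans (min_le_right _ _)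
  obtain ⟨εm, hεm, hmatch⟩ := hmatch ρ hρ (by linarith) δ hδ
  obtain ⟨ε', hε'def⟩ : ∃ ε', ε' = min ε (min εm 1) := ⟨_, rfl⟩
  have hε' : 0 < ε' := by rw [hε'def]; exact lt_min hε (lt_min hεm one_pos)
  have hε1 : ε' ≤ ε := by rw [hε'def]; exact min_le_left _ _
  have hε2 : ε' ≤ εm := by rw [hε'def]; exact (min_le_right _ _).trans (min_le_left _ _)
  have hε3 : ε' ≤ 1 := by rw [hε'def]; exact (min_le_right _ _).trans (min_le_right _ _)
  obtain ⟨δ₂, hδ₂, ρ₂, hρ₂, hch⟩ := choice D hC F hk' ε' (min δc (1 / 2)) hε'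
    (lt_min hδc (by norm_num))
  refine ⟨Real.log (√S), Real.log_pos hS2, ρ / 2, by positivity, B / b, by positivity,
    min δ₂ (1 / 2), lt_min hδ₂ (by norm_num), ρ₂ + 2 * rb + 1, by positivity, ?_⟩
  intro f c R hf hPP
  obtain ⟨G, hG1, hG2⟩ := hch f c R hf (fun z hz => ⟨by
    have := (hPP z hz).1
    have h2 : min δ₂ (1 / 2) ≤ δ₂ := min_le_left _ _
    linarith, by
    have := (hPP z hz).2
    have h2 : min δ₂ (1 / 2) ≤ δ₂ := min_le_left _ _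
    linarith⟩)
  have hsub : ∀ z ∈ ball c (R - (ρ₂ + 2 * rb + 1)), z ∈ ball c (R - ρ₂) := fun z hz =>
    ball_subset_ball (by linarith) hz
  -- f is locally good
  have hKL : ∀ z ∈ ball c (R - (ρ₂ + 2 * rb + 1)), KL A c₀ C f (ball z (2 * rb)) := by
    intro z hz w hw
    have hw1 : ball w 1 ⊆ ball c R := by
      apply ball_subset_ball'
      rw [mem_ball] at hz hw
      have := dist_triangle w z c
      linarith
    have hwR : w ∈ ball c R := hw1 (mem_ball_self one_pos)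
    refine ⟨(hf w hwR).1, fun i hi => ⟨?_, (hf w hwR).2 i hi⟩⟩
    have h2 : c₀ ≤ c₂ := by rw [hc₀def]; exact min_le_right _ _
    refine h2.trans (hvel f w (fun u hu => hf u (hw1 hu)) (fun u hu => ?_) i hi)
    have h3 := (hPP u (hw1 hu)).1
    have h4 : min δ₂ (1 / 2) ≤ 1 / 2 := min_le_right _ _
    linarith
  have hLGf : ∀ z ∈ ball c (R - (ρ₂ + 2 * rb + 1)), LG A c₀ C lam r₀ C₂ f z := fun z hz =>
    hLG f z (hKL z hz)
  have h1ε : 1 ≤ 1 / ε' := by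
    rw [le_div_iff₀ hε']; linarith
  -- the matches
  have hM : ∀ z, ∃ (i : A.ι) (l : E →L[ℂ] ℂ) (t : ℂ → ℂ), z ∈ ball c (R - (ρ₂ + 2 * rb + 1)) →
      Mt A c₀ C₃ lam r₀ ρ₀ ρ δ f (G z) id z i l t := by
    intro z
    obtain ⟨i, hi⟩ := hU.leb (f z)
    by_cases hz : z ∈ ball c (R - (ρ₂ + 2 * rb + 1))
    · obtain ⟨l, t, h⟩ := hmatch ε' R₁ R₁ hε2 hR₁ hR₁ le_rfl f z (hLGf z hz) (G z)
        (hfam' (hG1 z (hsub z hz)).1) id
        ⟨fun w hw => (hG1 z (hsub z hz)).2 w (by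
          rw [mem_ball, dist_eq_norm] at hw
          linarith), fun w _ w' _ h => h⟩ i hi
      exact ⟨i, l, t, fun _ => h⟩
    · exact ⟨i, 0, id, fun h => absurd h hz⟩
  choose i l t hMt using hM
  refine ⟨G, fun z => ‖TV (F.T (i z)) (A.loc (i z) f) (A.loc (i z) (G z)) (t z) z‖ / B,
    ?_, ?_, ?_, ?_, ?_⟩
  · intro z hz
    refine ⟨(hG1 z (hsub z hz)).1, fun w hw => ?_⟩
    refine ((hG1 z (hsub z hz)).2 w (hw.trans ?_)).trans hε1
    exact one_div_le_one_div_of_le hε' hε1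
  · intro z hz z' hz' hzz
    obtain ⟨a, b', h1, h2, h3⟩ := hG2 z (hsub z hz) z' (hsub z' hz') hzz
    refine ⟨a, b', ?_, h1⟩
    intro ha
    rw [ha, zero_sub, norm_neg, norm_one] at h2
    have := h2.trans (min_le_right _ _)
    linarith
  · intro z hz
    rw [div_le_one hBpos]
    exact hBb δ hδ2 f z (hLGf z hz) (G z) (hfam' (hG1 z (hsub z hz)).1) id (i z) (l z) (t z)
      (hMt z hz)
  · intro z₀ hz₀ B' β hbd
    have hin : ∀ z, ‖z - z₀‖ ≤ ρ / 2 → z ∈ ball c (R - (ρ₂ + 2 * rb + 1)) := by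
      intro z hz
      rw [mem_ball] at hz₀ ⊢
      have := dist_triangle z z₀ c
      rw [dist_eq_norm z z₀] at this
      linarith
    have hz₀' : z₀ ∈ ball c (R - (ρ₂ + 2 * rb + 1)) :=
      hin z₀ (by rw [sub_self, norm_zero]; positivity)
    have hg₀ := hfam' (hG1 z₀ (hsub z₀ hz₀')).1
    have hM₀ := hMt z₀ hz₀'
    obtain ⟨T, hT⟩ : ∃ T, T = TV (F.T (i z₀)) (A.loc (i z₀) f) (A.loc (i z₀) (G z₀)) (t z₀) :=
      ⟨_, rfl⟩
    have han : ∀ z ∈ ball z₀ ρ₀, AnalyticAt ℂ T z := by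
      rw [hT]
      exact lmt_an hU F hρ₀r (hLGf z₀ hz₀') hg₀ hM₀
    have hcl : closedBall z₀ (ρ / 2) ⊆ ball z₀ ρ₀ := by
      apply closedBall_subset_ball
      linarith
    have hdc : DiffContOnCl ℂ T (ball z₀ (ρ / 2)) := by
      apply DifferentiableOn.diffContOnCl
      rw [closure_ball z₀ (by positivity)]
      intro z hz
      exact (han z (hcl hz)).differentiableAt.differentiableWithinAt
    have hder : HasDerivAt T (deriv T z₀) z₀ :=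
      (han z₀ (mem_ball_self (by linarith))).differentiableAt.hasDerivAt
    have him : ∀ μ : ℂ, κ * ‖T z₀‖ ≤ ‖deriv T z₀ - μ • T z₀‖ := by
      rw [hT]
      exact hstr δ f z₀ (hLGf z₀ hz₀') (G z₀) hg₀ id (i z₀) (l z₀) (t z₀) hM₀
    have hsph : ∀ z, ‖z - z₀‖ = ρ / 2 →
        ‖T z‖ ≤ Real.exp ((B' + Real.log (√S) + Real.log B) - (β * z).re) := by
      intro z hz
      have hzin := hin z hz.le
      obtain ⟨a, b', e1, e2, e3⟩ := hG2 z₀ (hsub z₀ hz₀') z (hsub z hzin) (by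
        rw [norm_sub_rev, hz]; linarith)
      have h1 := hcmp f z₀ z (hLGf z₀ hz₀') (hLGf z hzin) (G z₀) hg₀ (G z)
        (hfam' (hG1 z (hsub z hzin)).1) a b' e1 (e2.trans (min_le_left _ _))
        (e3.trans (min_le_left _ _)) (i z₀) (i z) (l z₀) (l z) (t z₀) (t z) hz.le
        (d2_mono hM₀ hδ1) (d2_mono (hMt z hzin) hδ1)
      rw [← hT] at h1
      have h2 := hbd z hz
      rw [div_le_iff₀ hBpos] at h2
      have h4 : 1 + (√S - 1) = √S := by ring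
      rw [h4] at h1
      calc ‖T z‖ ≤ √S * (Real.exp (B' - (β * z).re) * B) :=
            h1.trans (mul_le_mul_of_nonneg_left h2 (Real.sqrt_nonneg _))
        _ = Real.exp ((B' + Real.log (√S) + Real.log B) - (β * z).re) := by
            have h7 : B' + Real.log √S + Real.log B - (β * z).re =
              Real.log (√S) + ((B' - (β * z).re) + Real.log B) := by ring
            rw [h7, Real.exp_add, Real.exp_add, Real.exp_log (by linarith), Real.exp_log hBpos]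
    have hkey := key_ineq (by positivity) hκ hdc hder him hsph
    rw [← hS] at hkey
    simp only
    rw [← hT, div_le_iff₀ hBpos]
    have h9 : B' + Real.log √S + Real.log B - (β * z₀).re =
        (B' - Real.log √S - (β * z₀).re) + (2 * Real.log √S + Real.log B) := by ring
    have h10 : Real.exp (2 * Real.log √S) = S := by
      rw [two_mul, Real.exp_add, Real.exp_log (by linarith), Real.mul_self_sqrt (by linarith)]
    rw [h9, Real.exp_add, Real.exp_add (2 * Real.log √S), h10, Real.exp_log hBpos] at hkey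
    have hSpos : 0 < S := by linarith
    have h11 : ‖T z₀‖ * S ≤ (Real.exp (B' - Real.log √S - (β * z₀).re) * B) * S := by
      calc ‖T z₀‖ * S ≤ Real.exp (B' - Real.log √S - (β * z₀).re) * (S * B) := hkey
        _ = (Real.exp (B' - Real.log √S - (β * z₀).re) * B) * S := by ring
    exact le_of_mul_le_mul_right h11 hSpos
  · intro z hz
    refine ⟨t z z, ?_⟩
    have h1 := hlow δ hδ3 f z (hLGf z hz) (G z) (hfam' (hG1 z (hsub z hz)).1) id (i z) (l z) (t z)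
      (hMt z hz)
    have h2 : B / b * (‖TV (F.T (i z)) (A.loc (i z) f) (A.loc (i z) (G z)) (t z) z‖ / B) =
        ‖TV (F.T (i z)) (A.loc (i z) f) (A.loc (i z) (G z)) (t z) z‖ / b := by
      field_simp
    rw [h2, le_div_iff₀ hb, mul_comm]
    exact h1



end

end Pool.Agent.SL

namespace Pool.Agent.SL

alias decay_val := decay_val_pr

end Pool.Agent.SL
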