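import Pool.Agent.Lib_helper80.SL.Base
import Pool.Agent.Lib_helper80.SL.L.A5
import Pool.Agent.Lib_helper80.SL.L.B5
import Pool.Agent.Lib_helper80.SL.L.D2

/-! # Block D3 of SL: the decay -/

set_option autoImplicit false
set_option linter.unusedVariables false
set_option linter.unusedSectionVars false

open Filter Topology Metric Set
open scoped Manifold ContDiff

namespace Pool.Agent.SL

open Pool.Agent.BR Pool.Agent.MBS

section

variable {E X : Type} [NormedAddCommGroup E] [NormedSpace ℂ E] [FiniteDimensional ℂ E]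
  [MetricSpace X] [CompactSpace X] {A : Cha E X}

variable {k m s : ℕ} (D : IJ A k m s)

theorem d3_root {x C' c₀ t : ℝ} {k' : ℕ} (hk' : 0 < k') (hx : 0 ≤ x)
    (h : x ^ k' ≤ C' * Real.exp (-(c₀ * t))) :
    x ≤ max C' 1 * Real.exp (-(c₀ / k' * t)) := by
  by_contra hcon
  push Not at hcon
  have hk : (k' : ℝ) ≠ 0 := by exact_mod_cast hk'.ne'
  have h1 : (max C' 1 * Real.exp (-(c₀ / k' * t))) ^ k' < x ^ k' :=
    pow_lt_pow_left₀ hcon (by positivity) hk'.ne'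
  have h2 : (max C' 1 * Real.exp (-(c₀ / k' * t))) ^ k' =
      (max C' 1) ^ k' * Real.exp (-(c₀ * t)) := by
    rw [mul_pow, ← Real.exp_nat_mul]
    congr 2
    field_simp
  have h3 : max C' 1 ≤ (max C' 1) ^ k' :=
    le_self_pow₀ (le_max_right _ _) hk'.ne'
  have h4 : C' * Real.exp (-(c₀ * t)) ≤ (max C' 1) ^ k' * Real.exp (-(c₀ * t)) :=
    mul_le_mul_of_nonneg_right ((le_max_left _ _).trans h3) (Real.exp_pos _).le
  rw [h2] at h1
  linarith

theorem d3_chain {G : ℂ → ℂ → X} {c : ℂ} {r : ℝ} (hr : 0 < r)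
    (h : ∀ z ∈ ball c r, ∀ z' ∈ ball c r, ‖z - z'‖ ≤ 1 →
      ∃ a b : ℂ, a ≠ 0 ∧ ∀ w, G z' w = G z (a * w + b)) {z : ℂ} (hz : z ∈ ball c r) :
    ∃ a b : ℂ, a ≠ 0 ∧ ∀ w, G z w = G c (a * w + b) := by
  obtain ⟨n, hn⟩ := exists_nat_gt ‖z - c‖
  have hn0 : (0 : ℝ) < n := (norm_nonneg _).trans_lt hn
  have hz' : ‖z - c‖ < r := by rwa [← dist_eq_norm]
  have hp : ∀ j : ℕ, j ≤ n → c + ((j / n : ℝ) : ℂ) * (z - c) ∈ ball c r := by
    intro j hj
    rw [mem_ball, dist_eq_norm, add_sub_cancel_left, norm_mul, Complex.norm_real,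
      Real.norm_of_nonneg (by positivity)]
    have h1 : (j / n : ℝ) ≤ 1 := by
      rw [div_le_one hn0]
      exact_mod_cast hj
    have h2 := mul_le_mul_of_nonneg_right h1 (norm_nonneg (z - c))
    linarith
  have key : ∀ j : ℕ, j ≤ n → ∃ a b : ℂ, a ≠ 0 ∧
      ∀ w, G (c + ((j / n : ℝ) : ℂ) * (z - c)) w = G c (a * w + b) := by
    intro j
    induction j with
    | zero =>
      intro _
      refine ⟨1, 0, one_ne_zero, fun w => ?_⟩
      simp
    | succ j ih =>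
      intro hj
      obtain ⟨a, b, ha, hab⟩ := ih (by omega)
      obtain ⟨a', b', ha', hab'⟩ := h _ (hp j (by omega)) _ (hp (j + 1) hj) (by
        have e : c + ((j / n : ℝ) : ℂ) * (z - c) - (c + (((j + 1 : ℕ) / n : ℝ) : ℂ) * (z - c)) =
            ((-(1 / n) : ℝ) : ℂ) * (z - c) := by
          push_cast
          ring
        rw [e, norm_mul, Complex.norm_real, norm_neg, Real.norm_of_nonneg (by positivity),
          one_div, inv_mul_le_iff₀ hn0]
        linarith)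
      refine ⟨a * a', a * b' + b, mul_ne_zero ha ha', fun w => ?_⟩
      rw [hab', hab]
      congr 1
      ring
  obtain ⟨a, b, ha, hab⟩ := key n le_rfl
  refine ⟨a, b, ha, fun w => ?_⟩
  rw [← hab]
  congr 1
  rw [div_self hn0.ne', Complex.ofReal_one]
  ring

theorem decay_pr {lB LB : ℝ} (hB : BLip A lB LB) {C : ℝ} (hC : 0 < C) {L k' : ℕ} (F : A.Frm L k')
    (hk' : 0 < k') (ε : ℝ) (hε : 0 < ε) :
    ∃ c₀ > 0, ∃ C₂ > 0, ∃ δ₀ > 0, ∃ ρ₀ > 0, ∀ (f : ℂ → X) (c : ℂ) (R : ℝ), ρ₀ < R →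
      HB A f (ball c R) C →
      (∀ z ∈ ball c R, 1 - δ₀ ≤ ‖D.PP f z‖ ∧ ‖D.PP f z‖ ≤ 1 + δ₀) →
      ∃ g ∈ D.Fam C, (∀ z ∈ ball c (R - ρ₀), ∃ w : ℂ,
          dist (f z) (g w) ≤ C₂ * Real.exp (-(c₀ * ((R - ρ₀) ^ 2 - ‖z - c‖ ^ 2)))) ∧
        ∀ u : ℂ, ‖u‖ ≤ 1 / ε → dist (f (c + u)) (g u) ≤ ε := by
  obtain ⟨κ, hκ, r, hr, C', hC', δ₀, hδ₀, ρ₁, hρ₁, hdv⟩ := decay_val D hB hC F hk' ε hε
  obtain ⟨c₀, hc₀, hbar⟩ := barrier hκ hr
  have hk0 : (0 : ℝ) < k' := by exact_mod_cast hk'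
  refine ⟨c₀ / k', by positivity, max C' 1, by positivity, δ₀, hδ₀, ρ₁ + r, by positivity, ?_⟩
  intro f c R hR hf hP
  obtain ⟨G, val, hG, hGG, hv1, hv2, hv3⟩ := hdv f c R hf hP
  have hRr : 0 < R - ρ₁ := by linarith
  have hcb : c ∈ ball c (R - ρ₁) := mem_ball_self hRr
  have hdec := hbar val c (R - ρ₁ - r) (by rwa [sub_add_cancel]) hv2
  refine ⟨fun u => G c (c + u), ?_, ?_, ?_⟩
  · have h1 := fam_affine D (hG c hcb).1 (a := 1) (b := c) norm_one
    have e : (fun u => G c (c + u)) = fun z => G c (1 * z + c) := by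
      funext z
      rw [one_mul, add_comm]
    rw [e]
    exact h1
  · intro z hz
    have hz1 : z ∈ ball c (R - ρ₁ - r) := by rwa [sub_sub]
    have hz2 : z ∈ ball c (R - ρ₁) := ball_subset_ball (by linarith) hz1
    obtain ⟨w, hw⟩ := hv3 z hz2
    obtain ⟨a, b, ha, hab⟩ := d3_chain hRr hGG hz2
    refine ⟨a * w + b - c, ?_⟩
    show dist (f z) (G c (c + (a * w + b - c))) ≤ _
    rw [add_sub_cancel, ← hab, ← sub_sub]
    refine d3_root hk' dist_nonneg (hw.trans ?_)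
    exact mul_le_mul_of_nonneg_left (hdec z hz1) hC'.le
  · intro u hu
    exact (hG c hcb).2 (c + u) (by rwa [add_sub_cancel_left])



end

end Pool.Agent.SL

namespace Pool.Agent.SL

alias decay := decay_pr

end Pool.Agent.SL
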