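import Pool.Agent.Lib_helper80.SL.Base

/-! # SL, block A1: the growth lemma (helper56) -/

set_option autoImplicit false
set_option linter.unusedVariables false
set_option linter.unusedSectionVars false

open Filter Topology Metric Set
open scoped Manifold ContDiff

namespace Pool.Agent.SL

open Pool.Agent.BR Pool.Agent.MBS

/-- `K ^ 2 ≤ (16 + C₁) ^ 2 sqrt N` -/
theorem a1_K {C₁ N : ℝ} (hC₁ : 4 ≤ C₁) (hN : 1 ≤ N) :
    4 * Real.log N + C₁ ≤ (16 + C₁) * Real.sqrt (Real.sqrt N) := by
  have h0 : 0 < N := by linarith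
  have hs : 1 ≤ Real.sqrt (Real.sqrt N) := by
    rw [Real.one_le_sqrt, Real.one_le_sqrt]; exact hN
  have hp : 0 < Real.sqrt (Real.sqrt N) := by linarith
  have e : Real.log N = 4 * Real.log (Real.sqrt (Real.sqrt N)) := by
    rw [Real.log_sqrt (Real.sqrt_nonneg _), Real.log_sqrt h0.le]; ring
  have h1 : Real.log (Real.sqrt (Real.sqrt N)) ≤ Real.sqrt (Real.sqrt N) := by
    have := Real.log_le_sub_one_of_pos hp
    linarith
  rw [e]
  nlinarith

theorem a1_K2 {C₁ N : ℝ} (hC₁ : 4 ≤ C₁) (hN : 1 ≤ N) :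
    (4 * Real.log N + C₁) ^ 2 ≤ (16 + C₁) ^ 2 * Real.sqrt N := by
  have h := a1_K hC₁ hN
  have hl : 0 ≤ Real.log N := Real.log_nonneg hN
  have h2 : (4 * Real.log N + C₁) ^ 2 ≤ ((16 + C₁) * Real.sqrt (Real.sqrt N)) ^ 2 :=
    pow_le_pow_left₀ (by linarith) h 2
  rwa [mul_pow, Real.sq_sqrt (Real.sqrt_nonneg _)] at h2

/-- `K / N ≤ C₁ + 4` -/
theorem a1_KN {C₁ N : ℝ} (hC₁ : 4 ≤ C₁) (hN : 1 ≤ N) :
    4 * Real.log N + C₁ ≤ (C₁ + 4) * N := by
  have h0 : 0 < N := by linarith
  have h1 := Real.log_le_sub_one_of_pos h0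
  nlinarith

/-- the square root inequality for the steps of type II -/
theorem a1_sqrt {N N' x : ℝ} (hN : 1 ≤ N) (hx : 0 ≤ x) (hx1 : x ≤ 1) (h : N * (1 + x) ≤ N') :
    1 / Real.sqrt N' ≤ 1 / Real.sqrt N * (1 - x / 4) := by
  have h0 : 0 < N := by linarith
  have hN' : 0 < N' := by nlinarith
  have hs : 0 < Real.sqrt N := Real.sqrt_pos.2 h0
  have hs' : 0 < Real.sqrt N' := Real.sqrt_pos.2 hN'
  rw [div_mul_eq_mul_div, one_mul, div_le_div_iff₀ hs' hs, one_mul]
  have hq : 0 ≤ 1 - x / 4 := by linarith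
  have e : Real.sqrt N ≤ Real.sqrt (((1 - x / 4) * Real.sqrt N') ^ 2) := by
    apply Real.sqrt_le_sqrt
    rw [mul_pow, Real.sq_sqrt hN'.le]
    have h1 : 1 ≤ (1 - x / 4) ^ 2 * (1 + x) := by nlinarith [mul_nonneg hx hx, mul_nonneg (mul_nonneg hx hx) hx]
    calc N = N * 1 := (mul_one N).symm
      _ ≤ N * ((1 - x / 4) ^ 2 * (1 + x)) := mul_le_mul_of_nonneg_left h1 h0.le
      _ = (1 - x / 4) ^ 2 * (N * (1 + x)) := by ring
      _ ≤ (1 - x / 4) ^ 2 * N' := mul_le_mul_of_nonneg_left h (sq_nonneg _)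
  rwa [Real.sqrt_sq (mul_nonneg hq hs'.le)] at e

theorem growth_pr (δ : ℝ) (hδ : 0 < δ) (C₁ : ℝ) (hC₁ : 4 ≤ C₁) :
    ∃ T > 0, ∀ (t₀ : ℝ) (a n : ℝ → ℝ),
      (∀ t ∈ Icc t₀ (t₀ + T), ∀ y ∈ Icc t₀ (t₀ + T), t ≤ y →
        n t * (y - t) ≤ a y - a t ∧ a y - a t ≤ n y * (y - t)) →
      (∀ t ∈ Icc t₀ (t₀ + T), 1 ≤ n t) → 0 ≤ a t₀ →
      ∃ t N : ℝ, 1 ≤ N ∧ t₀ ≤ t - 2 * (4 * Real.log N + C₁) / N ∧
        t + 2 * (4 * Real.log N + C₁) / N ≤ t₀ + T ∧ N ≤ Real.exp (a t / 2) ∧
        ∀ x, |x| ≤ 2 * (4 * Real.log N + C₁) / N → |a (t + x) - a t - N * x| ≤ δ := by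
  obtain ⟨δ', hδ', hδ1, hδδ⟩ : ∃ δ' : ℝ, 0 < δ' ∧ δ' ≤ 1 ∧ δ' ≤ δ :=
    ⟨min δ 1, lt_min hδ one_pos, min_le_right _ _, min_le_left _ _⟩
  obtain ⟨C', hC'⟩ : ∃ C' : ℝ, C' = 32 * (16 + C₁) ^ 2 / δ' := ⟨_, rfl⟩
  have hC'0 : 0 < C' := by rw [hC']; positivity
  obtain ⟨T, hT⟩ : ∃ T : ℝ, T = 3 + C' + 4 * (C₁ + 4) + 1 := ⟨_, rfl⟩
  have hT0 : 0 < T := by rw [hT]; linarith
  refine ⟨T, hT0, ?_⟩
  intro t₀ a n hs hn ha0
  by_contra hcon
  push Not at hcon
  -- monotonicity
  have hmn : ∀ t ∈ Icc t₀ (t₀ + T), ∀ y ∈ Icc t₀ (t₀ + T), t ≤ y → n t ≤ n y := by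
    intro t ht y hy hty
    rcases eq_or_lt_of_le hty with h | h
    · rw [h]
    · have h1 := hs t ht y hy hty
      have h2 : n t * (y - t) ≤ n y * (y - t) := le_trans h1.1 h1.2
      exact le_of_mul_le_mul_right h2 (by linarith)
  have hma : ∀ t ∈ Icc t₀ (t₀ + T), ∀ y ∈ Icc t₀ (t₀ + T), t ≤ y → a t ≤ a y := by
    intro t ht y hy hty
    have h1 := (hs t ht y hy hty).1
    have h2 := hn t ht
    nlinarith
  obtain ⟨η, hη, hη1, hη2⟩ : ∃ η : ℝ, 0 < η ∧ η ≤ 1 ∧ η ≤ δ' / (2 * (C₁ + 4)) :=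
    ⟨min 1 (δ' / (2 * (C₁ + 4))), lt_min one_pos (by positivity), min_le_left _ _, min_le_right _ _⟩
  -- the step
  have hstep : ∀ s ∈ Icc t₀ (t₀ + T), 0 ≤ a s →
      s + 3 * Real.exp (-(a s / 2)) + C' * (1 / Real.sqrt (n s)) ≤ t₀ + 3 + C' →
      ∃ s' ∈ Icc t₀ (t₀ + T), 0 ≤ a s' ∧
        s' + 3 * Real.exp (-(a s' / 2)) + C' * (1 / Real.sqrt (n s')) ≤ t₀ + 3 + C' ∧
        a s + n s + η ≤ a s' + n s' := by
    intro s hsI has hE
    have hN := hn s hsI
    have hN0 : 0 < n s := by linarith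
    have hsq : 0 < Real.sqrt (n s) := Real.sqrt_pos.2 hN0
    have hex := Real.exp_pos (-(a s / 2))
    have hfr : 0 < C' * (1 / Real.sqrt (n s)) := by positivity
    have hsup : s ≤ t₀ + 3 + C' := by linarith
    by_cases hc : Real.exp (a s / 2) < n s
    · -- type I
      have h1N : 1 / n s ≤ 1 := by rw [div_le_one hN0]; exact hN
      have h1N0 : 0 < 1 / n s := by positivity
      have hs'I : s + 1 / n s ∈ Icc t₀ (t₀ + T) := by
        refine ⟨by linarith [hsI.1], ?_⟩
        rw [hT]; linarith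
      have h1 := (hs s hsI _ hs'I (by linarith)).1
      have h2 : n s * (s + 1 / n s - s) = 1 := by
        rw [add_sub_cancel_left]; field_simp
      rw [h2] at h1
      have hnn := hmn s hsI _ hs'I (by linarith)
      refine ⟨s + 1 / n s, hs'I, by linarith, ?_, by linarith⟩
      have h3 : 1 / n s ≤ Real.exp (-(a s / 2)) := by
        rw [Real.exp_neg, ← one_div]
        exact one_div_le_one_div_of_le (Real.exp_pos _) hc.le
      have h4 : Real.exp (-(a (s + 1 / n s) / 2)) ≤ Real.exp (-(a s / 2)) * (2 / 3) := by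
        have h5 : Real.exp (-(a (s + 1 / n s) / 2)) ≤ Real.exp (-(a s / 2) + (-(1 / 2))) := by
          apply Real.exp_le_exp.2; linarith
        rw [Real.exp_add] at h5
        refine le_trans h5 (mul_le_mul_of_nonneg_left ?_ hex.le)
        rw [Real.exp_neg]
        have h6 : (3 / 2 : ℝ) ≤ Real.exp (1 / 2) := by
          have := Real.add_one_le_exp (1 / 2 : ℝ)
          linarith
        calc (Real.exp (1 / 2))⁻¹ ≤ (3 / 2 : ℝ)⁻¹ := inv_anti₀ (by norm_num) h6
          _ = 2 / 3 := by norm_num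
      have h7 : 1 / Real.sqrt (n (s + 1 / n s)) ≤ 1 / Real.sqrt (n s) :=
        one_div_le_one_div_of_le hsq (Real.sqrt_le_sqrt hnn)
      have h8 : C' * (1 / Real.sqrt (n (s + 1 / n s))) ≤ C' * (1 / Real.sqrt (n s)) :=
        mul_le_mul_of_nonneg_left h7 hC'0.le
      linarith
    · -- type II
      rw [not_lt] at hc
      obtain ⟨K, hK⟩ : ∃ K : ℝ, K = 4 * Real.log (n s) + C₁ := ⟨_, rfl⟩
      have hK4 : 4 ≤ K := by
        rw [hK]; linarith [Real.log_nonneg hN]
      have hK0 : 0 < K := by linarith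
      have hKN : K ≤ (C₁ + 4) * n s := by rw [hK]; exact a1_KN hC₁ hN
      have hK2 : K ^ 2 ≤ (16 + C₁) ^ 2 * Real.sqrt (n s) := by rw [hK]; exact a1_K2 hC₁ hN
      have hw : 4 * K / n s ≤ 4 * (C₁ + 4) := by
        rw [div_le_iff₀ hN0]; nlinarith
      have hw0 : 0 < 4 * K / n s := by positivity
      have hs'I : s + 4 * K / n s ∈ Icc t₀ (t₀ + T) := by
        refine ⟨by linarith [hsI.1], ?_⟩
        rw [hT]; linarith
      have hgrow : n s * (1 + δ / (2 * K)) < n (s + 4 * K / n s) := by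
        by_contra hle
        rw [not_lt] at hle
        have e2 : 2 * K / n s + 2 * K / n s = 4 * K / n s := by ring
        obtain ⟨x, hx, hxδ⟩ := hcon (s + 2 * K / n s) (n s) hN
          (by rw [← hK]; linarith [hsI.1]) (by rw [← hK]; linarith [hs'I.2])
          (by
            refine le_trans hc (Real.exp_le_exp.2 ?_)
            have : a s ≤ a (s + 2 * K / n s) := by
              refine hma s hsI _ ⟨?_, ?_⟩ ?_
              · have : 0 < 2 * K / n s := by positivity
                linarith [hsI.1]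
              · have : 0 < 2 * K / n s := by positivity
                linarith [hs'I.2]
              · have : 0 < 2 * K / n s := by positivity
                linarith
            linarith)
        rw [← hK] at hx
        have h2K : 0 < 2 * K / n s := by positivity
        have htI : s + 2 * K / n s ∈ Icc t₀ (t₀ + T) :=
          ⟨by linarith [hsI.1], by linarith [hs'I.2]⟩
        obtain ⟨hx1, hx2⟩ := abs_le.1 hx
        have hyI : s + 2 * K / n s + x ∈ Icc t₀ (t₀ + T) :=
          ⟨by linarith [hsI.1], by linarith [hs'I.2]⟩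
        have hb : ∀ y : ℝ, 0 ≤ y → y ≤ 2 * K / n s → n s * (1 + δ / (2 * K)) * y ≤ n s * y + δ := by
          intro y hy0 hy
          have : n s * (δ / (2 * K)) * y ≤ n s * (δ / (2 * K)) * (2 * K / n s) :=
            mul_le_mul_of_nonneg_left hy (by positivity)
          have e3 : n s * (δ / (2 * K)) * (2 * K / n s) = δ := by field_simp
          rw [e3] at this
          linarith
        rcases le_total 0 x with h0 | h0
        · have h1 := hs _ htI _ hyI (by linarith)
          have e4 : s + 2 * K / n s + x - (s + 2 * K / n s) = x := by ring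
          rw [e4] at h1
          have h2 := hmn s hsI _ htI (by linarith)
          have h3 := hmn _ hyI _ hs'I (by linarith)
          have h4 := hb x h0 hx2
          have h5 : n s * x ≤ n (s + 2 * K / n s) * x := mul_le_mul_of_nonneg_right h2 h0
          have h6 : n (s + 2 * K / n s + x) * x ≤ n s * (1 + δ / (2 * K)) * x :=
            mul_le_mul_of_nonneg_right (le_trans h3 hle) h0
          have h7 : |a (s + 2 * K / n s + x) - a (s + 2 * K / n s) - n s * x| ≤ δ := by
            rw [abs_le]; constructor <;> linarith [h1.1, h1.2]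
          linarith
        · have h1 := hs _ hyI _ htI (by linarith)
          have e4 : s + 2 * K / n s - (s + 2 * K / n s + x) = -x := by ring
          rw [e4] at h1
          have h2 := hmn s hsI _ hyI (by linarith)
          have h3 := hmn _ htI _ hs'I (by linarith)
          have h4 := hb (-x) (by linarith) (by linarith)
          have h5 : n s * (-x) ≤ n (s + 2 * K / n s + x) * (-x) :=
            mul_le_mul_of_nonneg_right h2 (by linarith)
          have h6 : n (s + 2 * K / n s) * (-x) ≤ n s * (1 + δ / (2 * K)) * (-x) :=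
            mul_le_mul_of_nonneg_right (le_trans h3 hle) (by linarith)
          have h7 : |a (s + 2 * K / n s + x) - a (s + 2 * K / n s) - n s * x| ≤ δ := by
            rw [abs_le]; constructor <;> linarith [h1.1, h1.2]
          linarith
      have hgrow' : n s * (1 + δ' / (2 * K)) ≤ n (s + 4 * K / n s) := by
        refine le_trans (mul_le_mul_of_nonneg_left ?_ hN0.le) hgrow.le
        have : δ' / (2 * K) ≤ δ / (2 * K) := div_le_div_of_nonneg_right hδδ (by positivity)
        linarith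
      have haa := hma s hsI _ hs'I (by linarith)
      refine ⟨s + 4 * K / n s, hs'I, by linarith, ?_, ?_⟩
      · have hx1 : δ' / (2 * K) ≤ 1 := by
          rw [div_le_one (by positivity)]; linarith
        have h1 := a1_sqrt hN (by positivity) hx1 hgrow'
        have h2 : C' * (1 / Real.sqrt (n (s + 4 * K / n s))) ≤
            C' * (1 / Real.sqrt (n s)) - C' * (1 / Real.sqrt (n s)) * (δ' / (2 * K) / 4) := by
          have := mul_le_mul_of_nonneg_left h1 hC'0.le
          linarith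
        have h3 : 4 * K / n s ≤ C' * (1 / Real.sqrt (n s)) * (δ' / (2 * K) / 4) := by
          have e5 : C' * (1 / Real.sqrt (n s)) * (δ' / (2 * K) / 4) =
              4 * (16 + C₁) ^ 2 * Real.sqrt (n s) / (K * n s) := by
            have hr : Real.sqrt (n s) * Real.sqrt (n s) = n s := Real.mul_self_sqrt hN0.le
            have e : 4 * (16 + C₁) ^ 2 * Real.sqrt (n s) / (K * n s) =
                4 * (16 + C₁) ^ 2 / (K * Real.sqrt (n s)) := by
              rw [div_eq_div_iff (by positivity) (by positivity)]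
              calc 4 * (16 + C₁) ^ 2 * Real.sqrt (n s) * (K * Real.sqrt (n s)) =
                    4 * (16 + C₁) ^ 2 * K * (Real.sqrt (n s) * Real.sqrt (n s)) := by ring
                _ = 4 * (16 + C₁) ^ 2 * (K * n s) := by rw [hr]; ring
            rw [e, hC']
            field_simp
            norm_num
          rw [e5, div_le_div_iff₀ hN0 (by positivity)]
          have : 4 * K * (K * n s) = 4 * K ^ 2 * n s := by ring
          rw [this]
          have h4 := mul_le_mul_of_nonneg_right hK2 hN0.le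
          linarith
        have h5 : Real.exp (-(a (s + 4 * K / n s) / 2)) ≤ Real.exp (-(a s / 2)) := by
          apply Real.exp_le_exp.2; linarith
        linarith
      · have h1 : δ' / (2 * (C₁ + 4)) ≤ n s * (δ' / (2 * K)) := by
          have e6 : n s * (δ' / (2 * K)) = n s * δ' / (2 * K) := by ring
          rw [e6, div_le_div_iff₀ (by positivity) (by positivity)]
          nlinarith
        have h2 : n s + n s * (δ' / (2 * K)) ≤ n (s + 4 * K / n s) := by
          have : n s * (1 + δ' / (2 * K)) = n s + n s * (δ' / (2 * K)) := by ring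
          linarith
        linarith
  -- iteration
  have ht0I : t₀ ∈ Icc t₀ (t₀ + T) := ⟨le_rfl, by linarith⟩
  have htTI : t₀ + T ∈ Icc t₀ (t₀ + T) := ⟨by linarith, le_rfl⟩
  have hit : ∀ k : ℕ, ∃ s ∈ Icc t₀ (t₀ + T), 0 ≤ a s ∧
      s + 3 * Real.exp (-(a s / 2)) + C' * (1 / Real.sqrt (n s)) ≤ t₀ + 3 + C' ∧
      a t₀ + n t₀ + k * η ≤ a s + n s := by
    intro k
    induction k with
    | zero =>
      refine ⟨t₀, ht0I, ha0, ?_, by simp⟩
      have h1 : Real.exp (-(a t₀ / 2)) ≤ 1 := by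
        rw [← Real.exp_zero]; apply Real.exp_le_exp.2; linarith
      have h2 : 1 / Real.sqrt (n t₀) ≤ 1 := by
        have : 1 ≤ Real.sqrt (n t₀) := by rw [Real.one_le_sqrt]; exact hn t₀ ht0I
        rw [div_le_one (by linarith)]; exact this
      have h3 := mul_le_mul_of_nonneg_left h2 hC'0.le
      linarith
    | succ k ih =>
      obtain ⟨s, hsI, has, hE, hk⟩ := ih
      obtain ⟨s', hs'I, has', hE', hk'⟩ := hstep s hsI has hE
      refine ⟨s', hs'I, has', hE', ?_⟩
      push_cast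
      linarith
  obtain ⟨k, hk⟩ := exists_nat_gt ((a (t₀ + T) + n (t₀ + T) - (a t₀ + n t₀)) / η)
  obtain ⟨s, hsI, -, -, hsk⟩ := hit k
  rw [div_lt_iff₀ hη] at hk
  have h1 := hma s hsI _ htTI hsI.2
  have h2 := hmn s hsI _ htTI hsI.2
  linarith



end Pool.Agent.SL

namespace Pool.Agent.SL

alias growth := growth_pr

end Pool.Agent.SL
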