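import Pool.Agent.Lib_helper80.SL.Base
import Pool.Agent.Lib_helper80.SL.L.A4
import Pool.Agent.Lib_helper80.SL.L.B1
import Pool.Agent.Lib_helper80.SL.L.B2

set_option autoImplicit false
set_option linter.unusedVariables false
set_option linter.unusedSectionVars false

open Filter Topology Metric Set
open scoped Manifold ContDiff

namespace Pool.Agent.SL

open Pool.Agent.BR Pool.Agent.MBS

section

variable {E X : Type} [NormedAddCommGroup E] [NormedSpace ℂ E] [FiniteDimensional ℂ E]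
  [MetricSpace X] [CompactSpace X] {A : Cha E X}

variable {k m s : ℕ} (D : IJ A k m s)

private theorem w1_disc {K : ℝ} (hK : 4 ≤ K) {Λ : ℝ} (hΛ : 0 < Λ) {ζ : ℂ}
    (h : ζ ∈ ball (((Λ * (Real.exp K / 2) : ℝ)) : ℂ) (Λ * (Real.exp K / 2 - 1 / 4))) :
    0 < (ζ / (Λ : ℂ)).re ∧ Real.exp (-K) ≤ ‖ζ / (Λ : ℂ)‖ ∧ ‖ζ / (Λ : ℂ)‖ < Real.exp K := by
  have hΛc : (Λ : ℂ) ≠ 0 := by exact_mod_cast hΛ.ne'
  have h1 : ‖ζ / (Λ : ℂ) - ((Real.exp K / 2 : ℝ) : ℂ)‖ < Real.exp K / 2 - 1 / 4 := by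
    have e : ζ / (Λ : ℂ) - ((Real.exp K / 2 : ℝ) : ℂ) =
        (ζ - (((Λ * (Real.exp K / 2) : ℝ)) : ℂ)) / (Λ : ℂ) := by
      rw [sub_div, Complex.ofReal_mul, mul_div_cancel_left₀ _ hΛc]
    rw [e, norm_div, Complex.norm_real, Real.norm_of_nonneg hΛ.le, div_lt_iff₀ hΛ]
    rw [mem_ball, dist_eq_norm] at h
    linarith
  have h2 : |(ζ / (Λ : ℂ)).re - Real.exp K / 2| < Real.exp K / 2 - 1 / 4 := by
    have := Complex.abs_re_le_norm (ζ / (Λ : ℂ) - ((Real.exp K / 2 : ℝ) : ℂ))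
    rw [Complex.sub_re, Complex.ofReal_re] at this
    linarith
  have h3 : 1 / 4 < (ζ / (Λ : ℂ)).re := by
    have := (abs_lt.1 h2).1
    linarith
  have h4 : (ζ / (Λ : ℂ)).re ≤ ‖ζ / (Λ : ℂ)‖ := Complex.re_le_norm _
  have h5 : ‖ζ / (Λ : ℂ)‖ ≤ ‖ζ / (Λ : ℂ) - ((Real.exp K / 2 : ℝ) : ℂ)‖ +
      ‖((Real.exp K / 2 : ℝ) : ℂ)‖ := by
    have := norm_add_le (ζ / (Λ : ℂ) - ((Real.exp K / 2 : ℝ) : ℂ)) ((Real.exp K / 2 : ℝ) : ℂ)
    rwa [sub_add_cancel] at this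
  have h6 : ‖((Real.exp K / 2 : ℝ) : ℂ)‖ = Real.exp K / 2 := by
    rw [Complex.norm_real, Real.norm_of_nonneg (by positivity)]
  have h7 : Real.exp (-K) ≤ 1 / 4 := by
    rw [Real.exp_neg, inv_eq_one_div]
    apply one_div_le_one_div_of_le (by norm_num)
    have := Real.add_one_le_exp K
    linarith
  refine ⟨by linarith, by linarith, by linarith⟩

theorem bigdisc_pr (δ₀ : ℝ) (hδ₀ : 0 < δ₀) : ∃ δ > 0, ∀ (f : ℂ → X) (a : ℝ → ℝ)
    (t N K : ℝ) (zr : ℂ), 1 ≤ N → 4 ≤ K →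
    (∀ z ∈ ball (0 : ℂ) (Real.exp (t + 2 * K / N)), A.HolAt f z) →
    (∀ y < t + 2 * K / N, ∀ z, ‖z‖ = Real.exp y → ‖D.PP f z‖ ≤ Real.exp (m * (a y - y))) →
    (∀ x, |x| ≤ 2 * K / N → |a (t + x) - a t - N * x| ≤ δ) →
    ‖zr‖ = Real.exp t → ‖D.PP f zr‖ = Real.exp (m * (a t - t)) →
    ∀ ζ ∈ ball (((Real.exp (a t) / N * (Real.exp K / 2) : ℝ)) : ℂ)
        (Real.exp (a t) / N * (Real.exp K / 2 - 1 / 4)),
      A.HolAt (fun ζ => f (zr * Complex.exp (Complex.log (ζ / (Real.exp (a t) / N : ℝ)) / N))) ζ ∧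
      1 - δ₀ ≤ ‖D.PP (fun ζ => f (zr * Complex.exp (Complex.log
        (ζ / (Real.exp (a t) / N : ℝ)) / N))) ζ‖ ∧
      ‖D.PP (fun ζ => f (zr * Complex.exp (Complex.log
        (ζ / (Real.exp (a t) / N : ℝ)) / N))) ζ‖ ≤ 1 + δ₀ := by
  have hm : 0 < m := D.pos
  have hmr : (0 : ℝ) < m := by exact_mod_cast hm
  refine ⟨Real.log (1 + δ₀ / 8) / m, div_pos (Real.log_pos (by linarith)) hmr, ?_⟩
  intro f a t N K zr hN hK hf hup ha hz hzF ζ hζ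
  have hδm : Real.exp (m * (Real.log (1 + δ₀ / 8) / m)) = 1 + δ₀ / 8 := by
    rw [mul_div_cancel₀ _ hmr.ne', Real.exp_log (by linarith)]
  have hδ0 : 0 ≤ Real.log (1 + δ₀ / 8) / m := (div_pos (Real.log_pos (by linarith)) hmr).le
  have hN0 : (0 : ℝ) < N := by linarith
  generalize hΛe : Real.exp (a t) / N = Λ at *
  have hΛ : 0 < Λ := by rw [← hΛe]; positivity
  have hΛc : (Λ : ℂ) ≠ 0 := by exact_mod_cast hΛ.ne'
  obtain ⟨w1, w2, w3⟩ := w1_disc hK hΛ hζ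
  have hw := window hm hN hK hδ0 (fun z hz' => pp_an D (hf z hz')) hup ha hz hzF (ζ / (Λ : ℂ)) w1 w2
    w3.le
  rw [hδm, hΛe] at hw
  have hNc : (N : ℂ) ≠ 0 := by exact_mod_cast hN0.ne'
  have hw0 : ζ / (Λ : ℂ) ≠ 0 := by
    intro h0
    rw [h0, Complex.zero_re] at w1
    exact lt_irrefl _ w1
  have hζ0 : ζ ≠ 0 := fun h0 => hw0 (by rw [h0, zero_div])
  -- the map
  have hd : HasDerivAt (fun ζ : ℂ => zr * Complex.exp (Complex.log (ζ / (Λ : ℂ)) / N))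
      (zr * (Complex.exp (Complex.log (ζ / (Λ : ℂ)) / N) * (1 / (Λ : ℂ) / (ζ / (Λ : ℂ)) / N))) ζ := by
    have e1 : HasDerivAt (fun ζ : ℂ => ζ / (Λ : ℂ)) (1 / (Λ : ℂ)) ζ := (hasDerivAt_id ζ).div_const _
    have e2 := e1.clog (Or.inl w1)
    exact ((e2.div_const (N : ℂ)).cexp).const_mul zr
  have han : AnalyticAt ℂ (fun ζ : ℂ => zr * Complex.exp (Complex.log (ζ / (Λ : ℂ)) / N)) ζ := by
    have e1 : AnalyticAt ℂ (fun ζ : ℂ => ζ / (Λ : ℂ)) ζ := by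
      simp only [div_eq_mul_inv]
      exact analyticAt_id.mul analyticAt_const
    have e2 : AnalyticAt ℂ (fun ζ : ℂ => Complex.log (ζ / (Λ : ℂ))) ζ := e1.clog (Or.inl w1)
    have e3 : AnalyticAt ℂ (fun ζ : ℂ => Complex.log (ζ / (Λ : ℂ)) / (N : ℂ)) ζ := by
      simp only [div_eq_mul_inv] at e2 ⊢
      exact e2.mul analyticAt_const
    exact analyticAt_const.mul e3.cexp
  have hmem : zr * Complex.exp (Complex.log (ζ / (Λ : ℂ)) / N) ∈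
      ball (0 : ℂ) (Real.exp (t + 2 * K / N)) := by
    rw [mem_ball_zero_iff, norm_mul, hz, Complex.norm_exp, ← Real.exp_add, Real.exp_lt_exp]
    have e1 : (Complex.log (ζ / (Λ : ℂ)) / N).re = Real.log ‖ζ / (Λ : ℂ)‖ / N := by
      rw [Complex.div_ofReal_re, Complex.log_re]
    rw [e1, add_lt_add_iff_left, div_lt_div_iff_of_pos_right hN0]
    have e2 : Real.log ‖ζ / (Λ : ℂ)‖ < K := by
      rw [Real.log_lt_iff_lt_exp (norm_pos_iff.2 hw0)]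
      exact w3
    linarith
  have hH := hf _ hmem
  refine ⟨(hol_comp han hH).1, ?_⟩
  have hpp := pp_comp D (w := ζ) han hH
  have key : ‖D.PP (fun ζ => f (zr * Complex.exp (Complex.log (ζ / (Λ : ℂ)) / N))) ζ‖ =
      ‖(zr * Complex.exp (Complex.log (ζ / (Λ : ℂ)) / N) / (N * (ζ / (Λ : ℂ)))) ^ m •
        D.PP f (zr * Complex.exp (Complex.log (ζ / (Λ : ℂ)) / N))‖ / Λ ^ m := by
    rw [hpp, hd.deriv, norm_smul, norm_smul, norm_pow, norm_pow]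
    have e : zr * (Complex.exp (Complex.log (ζ / (Λ : ℂ)) / N) * (1 / (Λ : ℂ) / (ζ / (Λ : ℂ)) / N)) =
        zr * Complex.exp (Complex.log (ζ / (Λ : ℂ)) / N) / (N * (ζ / (Λ : ℂ))) / (Λ : ℂ) := by
      field_simp
    rw [e, norm_div _ (Λ : ℂ), Complex.norm_real, Real.norm_of_nonneg hΛ.le, div_pow]
    ring
  have hΛm : 0 < Λ ^ m := pow_pos hΛ m
  rw [key]
  constructor
  · rw [le_div_iff₀ hΛm]
    refine le_trans (le_of_eq ?_) hw.1
    ring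
  · rw [div_le_iff₀ hΛm]
    refine hw.2.trans ?_
    have : Λ ^ m * (1 + δ₀ / 8) ≤ Λ ^ m * (1 + δ₀) := by
      apply mul_le_mul_of_nonneg_left _ hΛm.le
      linarith
    linarith



end

end Pool.Agent.SL

namespace Pool.Agent.SL

alias bigdisc := bigdisc_pr

end Pool.Agent.SL
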