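import Pool.Agent.Lib_helper80.SL.Base
import Pool.Agent.Lib_helper80.SL.L.B1
import Pool.Agent.Lib_helper80.SL.L.B2

set_option autoImplicit false
set_option linter.unusedVariables false
set_option linter.unusedSectionVars false

open Filter Topology Metric Set
open scoped Manifold ContDiff

namespace Pool.Agent.SL

open Pool.Agent.BR Pool.Agent.MBS

section

variable {E X : Type} [NormedAddCommGroup E] [NormedSpace ℂ E] [FiniteDimensional ℂ E]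
  [MetricSpace X] [CompactSpace X] {A : Cha E X}

variable {k m s : ℕ} (D : IJ A k m s)

/-- the exponential change of variables -/
noncomputable def w2phi (Λ N : ℝ) (zr ζ : ℂ) : ℂ :=
  zr * Complex.exp (Complex.log (ζ / (Λ : ℂ)) / N)

theorem w2_re {Λ : ℝ} (hΛ : 4 ≤ Λ) {ζ : ℂ} : (ζ / (Λ : ℂ)).re = ζ.re / Λ := by
  rw [Complex.div_ofReal_re]

theorem w2_der {Λ N : ℝ} (hN : 1 ≤ N) (hΛ : 4 ≤ Λ) (zr ζ : ℂ) (hζ : 0 < ζ.re) :
    AnalyticAt ℂ (w2phi Λ N zr) ζ ∧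
    deriv (w2phi Λ N zr) ζ = w2phi Λ N zr ζ / (N * ζ) := by
  have hΛ0 : (Λ : ℂ) ≠ 0 := by
    have : Λ ≠ 0 := by linarith
    exact_mod_cast this
  have hN0 : (N : ℂ) ≠ 0 := by
    have : N ≠ 0 := by linarith
    exact_mod_cast this
  have hζ0 : ζ ≠ 0 := by
    rintro rfl
    simp at hζ
  have hre : 0 < (ζ / (Λ : ℂ)).re := by
    rw [w2_re hΛ]
    have : 0 < Λ := by linarith
    positivity
  have hsl : ζ / (Λ : ℂ) ∈ Complex.slitPlane := Or.inl hre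
  have han : AnalyticAt ℂ (fun ζ : ℂ => ζ / (Λ : ℂ)) ζ := by
    have : (fun ζ : ℂ => ζ / (Λ : ℂ)) = fun ζ : ℂ => ζ * (Λ : ℂ)⁻¹ := by
      funext; rw [div_eq_mul_inv]
    rw [this]
    exact analyticAt_id.mul analyticAt_const
  constructor
  · unfold w2phi
    refine analyticAt_const.mul (AnalyticAt.cexp ?_)
    have : (fun ζ : ℂ => Complex.log (ζ / (Λ : ℂ)) / (N : ℂ)) =
        fun ζ : ℂ => Complex.log (ζ / (Λ : ℂ)) * (N : ℂ)⁻¹ := by
      funext; rw [div_eq_mul_inv]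
    rw [this]
    exact (han.clog hsl).mul analyticAt_const
  · have h1 : HasDerivAt (fun ζ : ℂ => ζ / (Λ : ℂ)) (1 / (Λ : ℂ)) ζ :=
      (hasDerivAt_id ζ).div_const _
    have h2 := ((h1.clog hsl).div_const (N : ℂ)).cexp.const_mul zr
    have h3 : HasDerivAt (w2phi Λ N zr) _ ζ := h2
    rw [h3.deriv]
    unfold w2phi
    field_simp

theorem w2_norm {Λ N t : ℝ} (hN : 1 ≤ N) (hΛ : 4 ≤ Λ) {zr ζ : ℂ} (hζ : 0 < ζ.re)
    (hzr : ‖zr‖ = Real.exp t) :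
    ‖w2phi Λ N zr ζ‖ = Real.exp (t + Real.log (‖ζ‖ / Λ) / N) := by
  have hΛ0 : 0 < Λ := by linarith
  unfold w2phi
  rw [norm_mul, hzr, Complex.norm_exp, Complex.div_ofReal_re, Complex.log_re, norm_div,
    Complex.norm_real, Real.norm_eq_abs, abs_of_pos hΛ0, ← Real.exp_add]

theorem w2_disc {Λ K : ℝ} (hK : 4 ≤ K) (hΛ : 4 ≤ Λ) {ζ : ℂ}
    (h : ζ ∈ ball ((Λ * (Real.exp K / 2) : ℝ) : ℂ) (Λ * (Real.exp K / 2 - 1 / 4))) :
    Λ / 4 < ζ.re ∧ ‖ζ‖ < Λ * Real.exp K := by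
  rw [mem_ball, dist_eq_norm] at h
  have h1 : |(ζ - ((Λ * (Real.exp K / 2) : ℝ) : ℂ)).re| ≤ ‖ζ - ((Λ * (Real.exp K / 2) : ℝ) : ℂ)‖ :=
    Complex.abs_re_le_norm _
  rw [Complex.sub_re, Complex.ofReal_re] at h1
  have h2 := abs_le.1 (h1.trans h.le)
  have h3 := abs_lt.1 (h1.trans_lt h)
  constructor
  · linarith [h3.1]
  · have h4 : ‖ζ‖ ≤ ‖ζ - ((Λ * (Real.exp K / 2) : ℝ) : ℂ)‖ + ‖((Λ * (Real.exp K / 2) : ℝ) : ℂ)‖ := by
      calc ‖ζ‖ = ‖(ζ - ((Λ * (Real.exp K / 2) : ℝ) : ℂ)) + ((Λ * (Real.exp K / 2) : ℝ) : ℂ)‖ := by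
            rw [sub_add_cancel]
        _ ≤ _ := norm_add_le _ _
    have h5 : ‖((Λ * (Real.exp K / 2) : ℝ) : ℂ)‖ = Λ * (Real.exp K / 2) := by
      rw [Complex.norm_real, Real.norm_eq_abs, abs_of_nonneg]
      have : 0 < Λ := by linarith
      positivity
    rw [h5] at h4
    nlinarith

/-- the point `ζ'` of the disc over the point `z'` near `φ ζ` -/
theorem w2_inv {Λ N : ℝ} (hN : 1 ≤ N) (hΛ : 4 ≤ Λ) {zr ζ z' : ℂ} (hζ : 2 < ζ.re) (hzr : zr ≠ 0)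
    (hz' : ‖z' - w2phi Λ N zr ζ‖ < ‖w2phi Λ N zr ζ‖ / (4 * N * ‖ζ‖)) :
    ∃ ζ' : ℂ, ‖ζ' - ζ‖ < 1 ∧ ‖ζ'‖ ≤ 11 / 8 * ‖ζ‖ ∧ w2phi Λ N zr ζ' = z' ∧
      7 / 8 * ‖w2phi Λ N zr ζ‖ ≤ ‖z'‖ := by
  have hΛp : 0 < Λ := by linarith
  have hNp : 0 < N := by linarith
  have hΛ0 : (Λ : ℂ) ≠ 0 := by exact_mod_cast hΛp.ne'
  have hN0 : (N : ℂ) ≠ 0 := by exact_mod_cast hNp.ne'
  have hζn : 2 < ‖ζ‖ := hζ.trans_le (Complex.re_le_norm ζ)
  have hζ0 : ζ ≠ 0 := by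
    rintro rfl
    simp at hζn
    linarith
  set z : ℂ := w2phi Λ N zr ζ with hzdef
  have hz0 : z ≠ 0 := by
    rw [hzdef]
    unfold w2phi
    exact mul_ne_zero hzr (Complex.exp_ne_zero _)
  have hzn : 0 < ‖z‖ := norm_pos_iff.2 hz0
  set v : ℂ := z' / z - 1 with hv
  have hvz : v * z = z' - z := by
    rw [hv]; field_simp
  have hvn : ‖v‖ * (4 * N * ‖ζ‖) < 1 := by
    have h1 : ‖v‖ * ‖z‖ = ‖z' - z‖ := by rw [← norm_mul, hvz]
    have h2 : 0 < 4 * N * ‖ζ‖ := by positivity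
    rw [lt_div_iff₀ h2, ← h1] at hz'
    have h3 : ‖v‖ * (4 * N * ‖ζ‖) * ‖z‖ < 1 * ‖z‖ := by linarith [hz']
    exact lt_of_mul_lt_mul_right h3 hzn.le
  have hvn8 : ‖v‖ ≤ 1 / 8 := by
    have h1 : ‖v‖ * 8 ≤ ‖v‖ * (4 * N * ‖ζ‖) := by
      refine mul_le_mul_of_nonneg_left ?_ (norm_nonneg _)
      nlinarith
    linarith
  set q : ℂ := N * Complex.log (1 + v) with hq
  have hqn : ‖q‖ * ‖ζ‖ ≤ 3 / 8 := by
    rw [hq, norm_mul, Complex.norm_real, Real.norm_eq_abs, abs_of_pos hNp]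
    have h1 := Complex.norm_log_one_add_half_le_self (z := v) (by linarith)
    have h2 : N * ‖Complex.log (1 + v)‖ * ‖ζ‖ ≤ N * (3 / 2 * ‖v‖) * ‖ζ‖ := by gcongr
    nlinarith
  have hqn1 : ‖q‖ ≤ 3 / 16 := by
    have : ‖q‖ * 2 ≤ ‖q‖ * ‖ζ‖ := mul_le_mul_of_nonneg_left hζn.le (norm_nonneg _)
    linarith
  have he : ‖Complex.exp q - 1‖ ≤ 2 * ‖q‖ := Complex.norm_exp_sub_one_le (by linarith)
  have hd : ‖ζ * Complex.exp q - ζ‖ ≤ 3 / 4 := by
    have : ζ * Complex.exp q - ζ = ζ * (Complex.exp q - 1) := by ring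
    rw [this, norm_mul]
    nlinarith [norm_nonneg ζ, norm_nonneg q]
  refine ⟨ζ * Complex.exp q, by linarith, ?_, ?_, ?_⟩
  · have h1 : ‖ζ * Complex.exp q‖ ≤ ‖ζ * Complex.exp q - ζ‖ + ‖ζ‖ := by
      calc ‖ζ * Complex.exp q‖ = ‖(ζ * Complex.exp q - ζ) + ζ‖ := by rw [sub_add_cancel]
        _ ≤ _ := norm_add_le _ _
    linarith
  · unfold w2phi
    have hre : 0 < (ζ / (Λ : ℂ)).re := by
      rw [w2_re hΛ]
      have : 0 < ζ.re := by linarith
      positivity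
    have hx0 : ζ / (Λ : ℂ) ≠ 0 := div_ne_zero hζ0 hΛ0
    have harg := Complex.abs_arg_lt_pi_div_two_iff.2 (Or.inl hre)
    have harg' := abs_lt.1 harg
    have hqi : |q.im| ≤ 3 / 16 := (Complex.abs_im_le_norm q).trans hqn1
    have hqi' := abs_le.1 hqi
    have hpi := Real.pi_gt_three
    have hlog : Complex.log (ζ * Complex.exp q / (Λ : ℂ)) = Complex.log (ζ / (Λ : ℂ)) + q := by
      have h1 : ζ * Complex.exp q / (Λ : ℂ) = Complex.exp (Complex.log (ζ / (Λ : ℂ)) + q) := by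
        rw [Complex.exp_add, Complex.exp_log hx0]
        ring
      rw [h1, Complex.log_exp]
      · rw [Complex.add_im, Complex.log_im]
        linarith [harg'.1, hqi'.1]
      · rw [Complex.add_im, Complex.log_im]
        linarith [harg'.2, hqi'.2]
    have h1v : (1 : ℂ) + v ≠ 0 := by
      intro h
      have : v = -1 := by linear_combination h
      rw [this] at hvn8
      simp at hvn8
      linarith
    have h2 : (Complex.log (ζ / (Λ : ℂ)) + q) / N =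
        Complex.log (ζ / (Λ : ℂ)) / N + Complex.log (1 + v) := by
      rw [hq]; field_simp
    rw [hlog, h2, Complex.exp_add, Complex.exp_log h1v, ← mul_assoc]
    have h3 : zr * Complex.exp (Complex.log (ζ / (Λ : ℂ)) / N) = z := by
      rw [hzdef]; rfl
    rw [h3]
    linear_combination hvz
  · have h1 : ‖z‖ ≤ ‖z'‖ + ‖z' - z‖ := by
      calc ‖z‖ = ‖z' - (z' - z)‖ := by rw [sub_sub_cancel]
        _ ≤ _ := norm_sub_le _ _
    have h2 : ‖z' - z‖ = ‖v‖ * ‖z‖ := by rw [← norm_mul, hvz]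
    rw [h2] at h1
    nlinarith

theorem window_vel_pr {C₀ : ℝ} (hC₀ : 0 < C₀) (f : ℂ → X) (Λ t N K : ℝ) (zr : ℂ) (hN : 1 ≤ N)
    (hK : 4 ≤ K) (hΛ : 4 ≤ Λ) (hf : ∀ z ∈ ball (0 : ℂ) (Real.exp (t + 2 * K / N)), A.HolAt f z)
    (hz : D.Zal C₀ f (ball (0 : ℂ) (Real.exp (t + 2 * K / N)))) (hzr : ‖zr‖ = Real.exp t)
    (hP : ∀ ζ ∈ ball ((Λ * (Real.exp K / 2) : ℝ) : ℂ) (Λ * (Real.exp K / 2 - 1 / 4)),
      ‖D.PP (fun ζ => f (zr * Complex.exp (Complex.log (ζ / (Λ : ℂ)) / N))) ζ‖ ≤ 2) :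
    HB A (fun ζ => f (zr * Complex.exp (Complex.log (ζ / (Λ : ℂ)) / N)))
      (ball ((Λ * (Real.exp K / 2) : ℝ) : ℂ) (Λ * (Real.exp K / 2 - 1 / 4) - 1)) (10 * C₀) := by
  change HB A (fun ζ => f (w2phi Λ N zr ζ)) _ _
  have hP' : ∀ ζ ∈ ball ((Λ * (Real.exp K / 2) : ℝ) : ℂ) (Λ * (Real.exp K / 2 - 1 / 4)),
      ‖D.PP (fun ζ => f (w2phi Λ N zr ζ)) ζ‖ ≤ 2 := hP
  have hzr0 : zr ≠ 0 := by
    rintro rfl
    rw [norm_zero] at hzr
    exact (Real.exp_pos t).ne hzr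
  have hΛp : 0 < Λ := by linarith
  have hNp : 0 < N := by linarith
  -- the points of the disc
  have hball : ∀ ζ ∈ ball ((Λ * (Real.exp K / 2) : ℝ) : ℂ) (Λ * (Real.exp K / 2 - 1 / 4)),
      ‖w2phi Λ N zr ζ‖ < Real.exp (t + K / N) := by
    intro ζ hζ
    obtain ⟨h1, h2⟩ := w2_disc hK hΛ hζ
    have h0 : 0 < ζ.re := by linarith
    have hn : 0 < ‖ζ‖ := h0.trans_le (Complex.re_le_norm ζ)
    rw [w2_norm hN hΛ h0 hzr]
    refine Real.exp_lt_exp.2 ?_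
    have h3 : Real.log (‖ζ‖ / Λ) < K := by
      rw [Real.log_lt_iff_lt_exp (by positivity), div_lt_iff₀ hΛp]
      linarith
    have h4 : Real.log (‖ζ‖ / Λ) / N < K / N := div_lt_div_of_pos_right h3 hNp
    linarith
  have hexp : Real.exp (t + K / N) ≤ Real.exp (t + 2 * K / N) := by
    refine Real.exp_le_exp.2 ?_
    have : K / N ≤ 2 * K / N := div_le_div_of_nonneg_right (by linarith) hNp.le
    linarith
  intro ζ hζ
  have hζD : ball ζ 1 ⊆ ball ((Λ * (Real.exp K / 2) : ℝ) : ℂ) (Λ * (Real.exp K / 2 - 1 / 4)) := by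
    refine ball_subset_ball' ?_
    rw [mem_ball] at hζ
    linarith
  have hζm := hζD (mem_ball_self one_pos)
  have hζ2 : 2 < ζ.re := by
    rw [mem_ball, dist_eq_norm] at hζ
    have h1 : |(ζ - ((Λ * (Real.exp K / 2) : ℝ) : ℂ)).re| ≤
        ‖ζ - ((Λ * (Real.exp K / 2) : ℝ) : ℂ)‖ := Complex.abs_re_le_norm _
    rw [Complex.sub_re, Complex.ofReal_re] at h1
    have h3 := abs_lt.1 (h1.trans_lt hζ)
    linarith [h3.1]
  have hζ0 : 0 < ζ.re := by linarith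
  have hζn : 2 < ‖ζ‖ := hζ2.trans_le (Complex.re_le_norm ζ)
  obtain ⟨han, hder⟩ := w2_der hN hΛ zr ζ hζ0
  have hz1 := hball ζ hζm
  have hf1 : A.HolAt f (w2phi Λ N zr ζ) := by
    refine hf _ ?_
    rw [mem_ball_zero_iff]
    linarith
  obtain ⟨hh1, hh2⟩ := hol_comp (A := A) han hf1
  refine ⟨hh1, fun i hi => ?_⟩
  have hisrc : f (w2phi Λ N zr ζ) ∈ (A.ch i).source := A.W_sub i (subset_closure hi)
  rw [hh2 i hisrc]
  set z : ℂ := w2phi Λ N zr ζ with hzdef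
  have hz0 : z ≠ 0 := by
    rw [hzdef]
    unfold w2phi
    exact mul_ne_zero hzr0 (Complex.exp_ne_zero _)
  have hzn : 0 < ‖z‖ := norm_pos_iff.2 hz0
  have hdn : ‖deriv (w2phi Λ N zr) ζ‖ = ‖z‖ / (N * ‖ζ‖) := by
    rw [hder, norm_div, norm_mul, Complex.norm_real, Real.norm_eq_abs, abs_of_pos hNp]
  set d : ℝ := ‖deriv (w2phi Λ N zr) ζ‖ with hd
  have hd0 : 0 < d := by rw [hdn]; positivity
  have key : ‖deriv (A.loc i f) z‖ ≤ C₀ * (4 / d + 1 / (d / 4)) := by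
    refine hz z (d / 4) (4 / d) (by positivity) (by positivity) ?_ ?_ i hi
    · intro w hw
      rw [mem_ball_zero_iff]
      rw [mem_ball, dist_eq_norm] at hw
      have h1 : ‖w‖ ≤ ‖w - z‖ + ‖z‖ := by
        calc ‖w‖ = ‖(w - z) + z‖ := by rw [sub_add_cancel]
          _ ≤ _ := norm_add_le _ _
      have h2 : d / 4 ≤ ‖z‖ * (1 / (8 * N)) := by
        rw [hdn]
        have : ‖z‖ / (N * ‖ζ‖) / 4 = ‖z‖ * (1 / (4 * N * ‖ζ‖)) := by
          field_simp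
        rw [this]
        refine mul_le_mul_of_nonneg_left ?_ hzn.le
        refine one_div_le_one_div_of_le (by positivity) ?_
        nlinarith
      have h3 : ‖w‖ ≤ ‖z‖ * (1 / (8 * N) + 1) := by linarith
      have h4 : 1 / (8 * N) + 1 ≤ Real.exp (K / N) := by
        have h5 := Real.add_one_le_exp (K / N)
        have h6 : 1 / (8 * N) ≤ K / N := by
          rw [div_le_div_iff₀ (by positivity) hNp]
          nlinarith
        linarith
      calc ‖w‖ ≤ ‖z‖ * (1 / (8 * N) + 1) := h3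
        _ ≤ ‖z‖ * Real.exp (K / N) := mul_le_mul_of_nonneg_left h4 hzn.le
        _ < Real.exp (t + K / N) * Real.exp (K / N) :=
            mul_lt_mul_of_pos_right hz1 (Real.exp_pos _)
        _ = Real.exp (t + 2 * K / N) := by
            rw [← Real.exp_add]; congr 1; ring
    · intro z' hz'
      rw [mem_ball, dist_eq_norm] at hz'
      have hz'' : ‖z' - w2phi Λ N zr ζ‖ < ‖w2phi Λ N zr ζ‖ / (4 * N * ‖ζ‖) := by
        rw [← hzdef]
        have : ‖z‖ / (4 * N * ‖ζ‖) = d / 4 := by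
          rw [hdn]; field_simp
        rw [this]
        exact hz'
      obtain ⟨ζ', h1, h2, h3, h4⟩ := w2_inv hN hΛ hζ2 hzr0 hz''
      rw [← hzdef] at h4
      have hζ'D : ζ' ∈ ball ζ 1 := by rw [mem_ball, dist_eq_norm]; exact h1
      have hζ'm := hζD hζ'D
      have hre' : 0 < ζ'.re := by
        have := (w2_disc hK hΛ hζ'm).1
        linarith
      obtain ⟨han', hder'⟩ := w2_der hN hΛ zr ζ' hre'
      have hf' : A.HolAt f (w2phi Λ N zr ζ') := by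
        refine hf _ ?_
        rw [mem_ball_zero_iff]
        exact (hball ζ' hζ'm).trans_le hexp
      have hcomp := pp_comp D han' hf'
      have hPζ := hP' ζ' hζ'm
      rw [hcomp, norm_smul, norm_pow, h3] at hPζ
      have hζ'n : 0 < ‖ζ'‖ := hre'.trans_le (Complex.re_le_norm ζ')
      have hd' : d / 2 ≤ ‖deriv (w2phi Λ N zr) ζ'‖ := by
        rw [hder', norm_div, norm_mul, Complex.norm_real, Real.norm_eq_abs, abs_of_pos hNp, h3, hdn,
          div_div, div_le_div_iff₀ (by positivity) (by positivity)]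
        have e1 : ‖z‖ * (N * ‖ζ'‖) ≤ ‖z‖ * (N * (11 / 8 * ‖ζ‖)) := by gcongr
        have e2 : 7 / 8 * ‖z‖ * (N * ‖ζ‖ * 2) ≤ ‖z'‖ * (N * ‖ζ‖ * 2) := by gcongr
        have e3 : 0 ≤ ‖z‖ * (N * ‖ζ‖) := by positivity
        nlinarith
      have hdm : (d / 2) ^ m ≤ ‖deriv (w2phi Λ N zr) ζ'‖ ^ m := pow_le_pow_left₀ (by positivity) hd' m
      have hdmp : 0 < (d / 2) ^ m := by positivity
      have h5 : (d / 2) ^ m * ‖D.PP f z'‖ ≤ 2 :=
        (mul_le_mul_of_nonneg_right hdm (norm_nonneg _)).trans hPζ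
      have h6 : (2 : ℝ) ≤ 2 ^ m := by
        calc (2 : ℝ) = 2 ^ 1 := by norm_num
          _ ≤ 2 ^ m := pow_le_pow_right₀ (by norm_num) D.pos
      have h7 : (4 / d) ^ m * (d / 2) ^ m = 2 ^ m := by
        rw [← mul_pow]
        congr 1
        field_simp
        norm_num
      have h8 : (d / 2) ^ m * ‖D.PP f z'‖ ≤ (d / 2) ^ m * (4 / d) ^ m := by
        rw [mul_comm ((d / 2) ^ m) ((4 / d) ^ m), h7]
        linarith
      exact le_of_mul_le_mul_left h8 hdmp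
  rw [norm_smul]
  calc d * ‖deriv (A.loc i f) z‖ ≤ d * (C₀ * (4 / d + 1 / (d / 4))) :=
        mul_le_mul_of_nonneg_left key hd0.le
    _ = 8 * C₀ := by field_simp; norm_num
    _ ≤ 10 * C₀ := by linarith

end

end Pool.Agent.SL

namespace Pool.Agent.SL

alias window_vel := window_vel_pr

end Pool.Agent.SL
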