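import Pool.Agent.Lib_helper80.SL.Base
import Pool.Agent.Lib_helper80.SL.L.D3
import Pool.Agent.Lib_helper80.SL.L.W1
import Pool.Agent.Lib_helper80.SL.L.W2

/-! Block W3 -/

set_option autoImplicit false
set_option linter.unusedVariables false
set_option linter.unusedSectionVars false

open Filter Topology Metric Set
open scoped Manifold ContDiff

namespace Pool.Agent.SL

open Pool.Agent.BR Pool.Agent.MBS

/-- `|exp (i φ) - x| ^ 2 = 1 - 2 x cos φ + x ^ 2`, multiplied by `Λ ^ 2` -/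
theorem w3_norm (Λ x φ : ℝ) :
    ‖(Λ : ℂ) * Complex.exp (φ * Complex.I) - ((Λ * x : ℝ) : ℂ)‖ ^ 2 =
      Λ ^ 2 * (1 - 2 * x * Real.cos φ + x ^ 2) := by
  rw [← Complex.normSq_eq_norm_sq, Complex.normSq_apply]
  have hre : ((Λ : ℂ) * Complex.exp (φ * Complex.I) - ((Λ * x : ℝ) : ℂ)).re =
      Λ * Real.cos φ - Λ * x := by
    rw [Complex.sub_re, Complex.re_ofReal_mul, Complex.exp_ofReal_mul_I_re, Complex.ofReal_re]
  have him : ((Λ : ℂ) * Complex.exp (φ * Complex.I) - ((Λ * x : ℝ) : ℂ)).im =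
      Λ * Real.sin φ := by
    rw [Complex.sub_im, Complex.im_ofReal_mul, Complex.exp_ofReal_mul_I_im, Complex.ofReal_im,
      sub_zero]
  rw [hre, him]
  have h := Real.sin_sq_add_cos_sq φ
  linear_combination Λ ^ 2 * h

/-- the point on the arc is deep inside the big disc -/
theorem w3_deep {Λ K s φ : ℝ} (hK : 4 ≤ K) (hs : 0 ≤ s) (hΛ0 : 0 < Λ) (hΛ : 5 * s ≤ Λ)
    (hφ : |φ| ≤ 1 / 4) :
    1 / 2 * (Λ ^ 2 * Real.exp K) ≤ (Λ * (Real.exp K / 2 - 1 / 4) - s) ^ 2 -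
      ‖(Λ : ℂ) * Complex.exp (φ * Complex.I) - ((Λ * (Real.exp K / 2) : ℝ) : ℂ)‖ ^ 2 := by
  rw [w3_norm]
  have hE : 50 ≤ Real.exp K := by
    have h1 : (2.7 : ℝ) ≤ Real.exp 1 := by
      have := Real.exp_one_gt_d9
      linarith
    have h2 : Real.exp 4 = Real.exp 1 ^ 4 := by
      rw [← Real.exp_nat_mul]
      norm_num
    have h3 : (2.7 : ℝ) ^ 4 ≤ Real.exp 1 ^ 4 := pow_le_pow_left₀ (by norm_num) h1 4
    have h4 : Real.exp 4 ≤ Real.exp K := Real.exp_le_exp.mpr hK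
    have h5 : (50 : ℝ) ≤ 2.7 ^ 4 := by norm_num
    linarith
  have hc : 31 / 32 ≤ Real.cos φ := by
    have h1 := Real.one_sub_sq_div_two_le_cos (x := φ)
    have h2 : φ ^ 2 ≤ (1 / 4) ^ 2 := by
      rw [← sq_abs φ]
      exact pow_le_pow_left₀ (abs_nonneg φ) hφ 2
    linarith
  set E := Real.exp K with hEdef
  have hLL : 0 < Λ ^ 2 := by positivity
  have h1 : Λ ^ 2 * (31 / 32 * E) ≤ Λ ^ 2 * (Real.cos φ * E) :=
    mul_le_mul_of_nonneg_left (mul_le_mul_of_nonneg_right hc (by linarith)) hLL.le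
  have h2 : s * (Λ * E) ≤ 1 / 5 * (Λ ^ 2 * E) := by
    have : s * (Λ * E) ≤ (Λ / 5) * (Λ * E) :=
      mul_le_mul_of_nonneg_right (by linarith) (by positivity)
    nlinarith
  have h3 : Λ ^ 2 * 50 ≤ Λ ^ 2 * E := mul_le_mul_of_nonneg_left hE hLL.le
  have h4 : 0 ≤ s * Λ := by positivity
  nlinarith [sq_nonneg s]

theorem w3_log_norm {K : ℝ} {w : ℂ} (hK : 0 ≤ K) (h : ‖w‖ ≤ Real.exp K) :
    (Complex.log w).re ≤ K := by
  rw [Complex.log_re]
  rcases (norm_nonneg w).eq_or_lt' with h0 | h0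
  · rw [h0, Real.log_zero]
    exact hK
  · rw [Real.log_le_iff_le_exp h0]
    exact h

section

variable {E X : Type} [NormedAddCommGroup E] [NormedSpace ℂ E] [FiniteDimensional ℂ E]
  [MetricSpace X] [CompactSpace X] {A : Cha E X}

variable {k m s : ℕ} (D : IJ A k m s)

theorem arcclose_pr {lB LB : ℝ} (hB : BLip A lB LB) {C₀ : ℝ} (hC₀ : 0 < C₀) {L k' : ℕ}
    (F : A.Frm L k') (hk' : 0 < k') (ε : ℝ) (hε : 0 < ε) :
    ∃ c₀ > 0, ∃ C₂ > 0, ∃ δ > 0, ∃ Λ₀ > 0, ∀ (f : ℂ → X) (a : ℝ → ℝ)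
      (t N K : ℝ) (zr : ℂ), 1 ≤ N → 4 ≤ K →
      (∀ z ∈ ball (0 : ℂ) (Real.exp (t + 2 * K / N)), A.HolAt f z) →
      D.Zal C₀ f (ball (0 : ℂ) (Real.exp (t + 2 * K / N))) →
      (∀ y < t + 2 * K / N, ∀ z, ‖z‖ = Real.exp y → ‖D.PP f z‖ ≤ Real.exp (m * (a y - y))) →
      (∀ x, |x| ≤ 2 * K / N → |a (t + x) - a t - N * x| ≤ δ) →
      ‖zr‖ = Real.exp t → ‖D.PP f zr‖ = Real.exp (m * (a t - t)) → Λ₀ ≤ Real.exp (a t) / N →
      ∃ g ∈ D.Fam (10 * C₀), (∀ θ : ℝ, |θ| ≤ 1 / (4 * N) → ∃ w : ℂ,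
        dist (f (zr * Complex.exp (θ * Complex.I))) (g w) ≤
          C₂ * Real.exp (-(c₀ * (Real.exp (a t) / N) ^ 2 * Real.exp K))) ∧
        ∀ u : ℂ, ‖u‖ ≤ 1 / ε →
          ∃ z ∈ ball (0 : ℂ) (Real.exp (t + 2 * K / N)), dist (f z) (g u) ≤ ε := by
  have hC : 0 < 10 * C₀ := by positivity
  obtain ⟨c₁, hc₁, C₂, hC₂, δ₀, hδ₀, ρ₀, hρ₀, hdec⟩ := decay D hB hC F hk' ε hε
  obtain ⟨δ, hδ, hbig⟩ := bigdisc D (min δ₀ 1) (lt_min hδ₀ one_pos)
  refine ⟨c₁ / 2, by positivity, C₂, hC₂, δ, hδ, 4 + 5 * (1 + ρ₀) + 1 / ε, by positivity, ?_⟩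
  intro f a t N K zr hN hK hf hz hup ha hzr hzF hΛ₀
  have hN0 : 0 < N := by linarith
  have hK0 : 0 < K := by linarith
  set Λ := Real.exp (a t) / N with hΛdef
  have hε' : 0 < 1 / ε := by positivity
  have hΛ4 : 4 ≤ Λ := by linarith
  have hΛ5 : 5 * (1 + ρ₀) ≤ Λ := by linarith
  have hΛε : 1 / ε ≤ Λ := by linarith
  have hΛ0 : 0 < Λ := by linarith
  have hbig' := hbig f a t N K zr hN hK hf hup ha hzr hzF
  rw [← hΛdef] at hbig'
  set F₁ : ℂ → X := fun ζ => f (zr * Complex.exp (Complex.log (ζ / (Λ : ℂ)) / N)) with hF₁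
  set c : ℂ := ((Λ * (Real.exp K / 2) : ℝ) : ℂ) with hcdef
  set Rb : ℝ := Λ * (Real.exp K / 2 - 1 / 4) with hRb
  have hE : 50 ≤ Real.exp K := by
    have h1 : (2.7 : ℝ) ≤ Real.exp 1 := by
      have := Real.exp_one_gt_d9
      linarith
    have h2 : Real.exp 4 = Real.exp 1 ^ 4 := by
      rw [← Real.exp_nat_mul]
      norm_num
    have h3 : (2.7 : ℝ) ^ 4 ≤ Real.exp 1 ^ 4 := pow_le_pow_left₀ (by norm_num) h1 4
    have h4 : Real.exp 4 ≤ Real.exp K := Real.exp_le_exp.mpr hK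
    have h5 : (50 : ℝ) ≤ 2.7 ^ 4 := by norm_num
    linarith
  have hRb1 : Λ ≤ Rb := by
    rw [hRb]
    nlinarith
  have hHB : HB A F₁ (ball c (Rb - 1)) (10 * C₀) := by
    refine window_vel D hC₀ f Λ t N K zr hN hK hΛ4 hf hz hzr fun ζ hζ => ?_
    have h := (hbig' ζ hζ).2.2
    have h1 : min δ₀ 1 ≤ 1 := min_le_right _ _
    exact h.trans (by linarith)
  have hPP : ∀ z ∈ ball c (Rb - 1), 1 - δ₀ ≤ ‖D.PP F₁ z‖ ∧ ‖D.PP F₁ z‖ ≤ 1 + δ₀ := by
    intro z hzb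
    have h := (hbig' z (ball_subset_ball (by linarith) hzb)).2
    have h1 : min δ₀ 1 ≤ δ₀ := min_le_left _ _
    exact ⟨le_trans (by linarith) h.1, h.2.trans (by linarith)⟩
  obtain ⟨g, hg, h1, h2⟩ := hdec F₁ c (Rb - 1) (by linarith) hHB hPP
  refine ⟨g, hg, fun θ hθ => ?_, fun u hu => ?_⟩
  · -- the arc
    set φ : ℝ := N * θ with hφ
    have hφ4 : |φ| ≤ 1 / 4 := by
      rw [hφ, abs_mul, abs_of_pos hN0]
      calc N * |θ| ≤ N * (1 / (4 * N)) := mul_le_mul_of_nonneg_left hθ hN0.le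
        _ = 1 / 4 := by field_simp
    set ζ : ℂ := (Λ : ℂ) * Complex.exp (φ * Complex.I) with hζ
    have hdeep := w3_deep (s := 1 + ρ₀) hK (by linarith) hΛ0 hΛ5 hφ4
    rw [← hζ, ← hcdef, ← hRb] at hdeep
    have hpos : 0 < 1 / 2 * (Λ ^ 2 * Real.exp K) := by positivity
    have hmem : ζ ∈ ball c (Rb - 1 - ρ₀) := by
      rw [mem_ball, dist_eq_norm]
      have hR0 : 0 ≤ Rb - 1 - ρ₀ := by linarith
      refine lt_of_pow_lt_pow_left₀ 2 hR0 ?_
      have : Rb - (1 + ρ₀) = Rb - 1 - ρ₀ := by ring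
      rw [this] at hdeep
      linarith
    obtain ⟨w, hw⟩ := h1 ζ hmem
    refine ⟨w, ?_⟩
    have hval : F₁ ζ = f (zr * Complex.exp (θ * Complex.I)) := by
      rw [hF₁]
      simp only
      have e1 : ζ / (Λ : ℂ) = Complex.exp (φ * Complex.I) := by
        rw [hζ, mul_comm, mul_div_assoc, div_self (by exact_mod_cast hΛ0.ne'), mul_one]
      have hpi := Real.pi_gt_three
      have e2 : Complex.log (Complex.exp (φ * Complex.I)) = φ * Complex.I := by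
        have hab := abs_le.mp hφ4
        have him : ((φ : ℂ) * Complex.I).im = φ := by simp
        apply Complex.log_exp
        · rw [him]
          linarith
        · rw [him]
          linarith
      rw [e1, e2, hφ]
      congr 3
      have hNc : (N : ℂ) ≠ 0 := by exact_mod_cast hN0.ne'
      push_cast
      field_simp
    rw [hval] at hw
    refine hw.trans (mul_le_mul_of_nonneg_left (Real.exp_le_exp.mpr (neg_le_neg ?_)) hC₂.le)
    rw [← dist_eq_norm, ← sub_sub] at hdeep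
    rw [← dist_eq_norm]
    calc c₁ / 2 * Λ ^ 2 * Real.exp K = c₁ * (1 / 2 * (Λ ^ 2 * Real.exp K)) := by ring
      _ ≤ c₁ * ((Rb - 1 - ρ₀) ^ 2 - dist ζ c ^ 2) := mul_le_mul_of_nonneg_left hdeep hc₁.le
  · -- the centre
    refine ⟨zr * Complex.exp (Complex.log ((c + u) / (Λ : ℂ)) / N), ?_, h2 u hu⟩
    rw [mem_ball, dist_zero_right, norm_mul, hzr, Complex.norm_exp, ← Real.exp_add]
    refine Real.exp_lt_exp.mpr ?_
    have e1 : (Complex.log ((c + u) / (Λ : ℂ)) / N).re =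
        (Complex.log ((c + u) / (Λ : ℂ))).re / N := Complex.div_ofReal_re _ _
    rw [e1]
    have e2 : ‖(c + u) / (Λ : ℂ)‖ ≤ Real.exp K := by
      rw [norm_div, Complex.norm_real, Real.norm_eq_abs, abs_of_pos hΛ0, div_le_iff₀ hΛ0]
      have e3 : ‖c‖ = Λ * (Real.exp K / 2) := by
        rw [hcdef, Complex.norm_real, Real.norm_eq_abs, abs_of_pos (by positivity)]
      calc ‖c + u‖ ≤ ‖c‖ + ‖u‖ := norm_add_le _ _
        _ ≤ Λ * (Real.exp K / 2) + Λ := by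
            rw [e3]
            linarith
        _ ≤ Real.exp K * Λ := by nlinarith
    have e4 := w3_log_norm hK0.le e2
    have e5 : (Complex.log ((c + u) / (Λ : ℂ))).re / N ≤ K / N :=
      div_le_div_of_nonneg_right e4 hN0.le
    have e6 : K / N < 2 * K / N := by
      rw [mul_div_assoc]
      have : 0 < K / N := by positivity
      linarith
    linarith

end



end Pool.Agent.SL

namespace Pool.Agent.SL

alias arcclose := arcclose_pr

end Pool.Agent.SL
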