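import Pool.Agent.Lib_helper80.SL.Base

/-! Block W4 -/

set_option autoImplicit false
set_option linter.unusedVariables false
set_option linter.unusedSectionVars false

open Filter Topology Metric Set
open scoped Manifold ContDiff

namespace Pool.Agent.SL

open Pool.Agent.BR Pool.Agent.MBS

section

variable {E X : Type} [NormedAddCommGroup E] [NormedSpace ℂ E] [FiniteDimensional ℂ E]
  [MetricSpace X] [CompactSpace X] {A : Cha E X}

variable {k m s : ℕ} (D : IJ A k m s)

theorem fbound_pr {C₀ : ℝ} (hC₀ : 0 < C₀) : ∃ C > 0, ∀ (f : ℂ → X) (a : ℝ → ℝ) (t N : ℝ),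
    1 ≤ N → (∀ z ∈ ball (0 : ℂ) (Real.exp (t + 1 / N)), A.HolAt f z) →
    D.Zal C₀ f (ball (0 : ℂ) (Real.exp (t + 1 / N))) →
    (∀ y < t + 1 / N, ∀ z, ‖z‖ ≤ Real.exp y → ‖D.PP f z‖ ≤ Real.exp (m * (a y - y))) →
    (∀ y, t ≤ y → y < t + 1 / N → a y ≤ a t + 2) →
    HB A f (closedBall 0 (Real.exp t)) (C * (Real.exp (a t) + N) / Real.exp t) := by
  refine ⟨C₀ * Real.exp 2, by positivity, fun f a t N hN hf hz hP ha z hzm => ?_⟩
  have hN0 : 0 < N := by linarith
  have het : 0 < Real.exp t := Real.exp_pos t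
  have hzn : ‖z‖ ≤ Real.exp t := by simpa using hzm
  have hNi : 0 < 1 / N := by positivity
  have hexp : Real.exp t * (1 + 1 / N) ≤ Real.exp (t + 1 / N) := by
    rw [Real.exp_add]
    refine mul_le_mul_of_nonneg_left ?_ het.le
    have := Real.add_one_le_exp (1 / N)
    linarith
  have hsub : ball z (Real.exp t / N) ⊆ ball (0 : ℂ) (Real.exp (t + 1 / N)) := by
    intro w hw
    rw [mem_ball, dist_eq_norm] at hw
    rw [mem_ball, dist_zero_right]
    calc ‖w‖ = ‖(w - z) + z‖ := by rw [sub_add_cancel]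
      _ ≤ ‖w - z‖ + ‖z‖ := norm_add_le _ _
      _ < Real.exp t / N + Real.exp t := by linarith
      _ = Real.exp t * (1 + 1 / N) := by ring
      _ ≤ _ := hexp
  refine ⟨hf z ?_, fun i hi => ?_⟩
  · rw [mem_ball, dist_zero_right]
    refine hzn.trans_lt (Real.exp_lt_exp.mpr (by linarith))
  · have hρ : 0 < Real.exp t / N := by positivity
    have key := hz z (Real.exp t / N) (Real.exp (a t + 2 - t)) hρ (Real.exp_pos _).le hsub ?_ i hi
    · refine key.trans ?_
      have e1 : Real.exp (a t + 2 - t) = Real.exp 2 * Real.exp (a t) / Real.exp t := by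
        rw [Real.exp_sub, Real.exp_add]
        ring
      have e2 : 1 / (Real.exp t / N) = N / Real.exp t := by
        rw [one_div_div]
      have h1 : (1 : ℝ) ≤ Real.exp 2 := Real.one_le_exp (by norm_num)
      rw [e1, e2, ← add_div, ← mul_div_assoc]
      refine div_le_div_of_nonneg_right ?_ het.le
      rw [mul_assoc C₀]
      refine mul_le_mul_of_nonneg_left ?_ hC₀.le
      nlinarith
    · intro w hw
      have hw2 := hsub hw
      rw [mem_ball, dist_zero_right] at hw2
      obtain ⟨y, hy1, hy2, hy3⟩ : ∃ y, t ≤ y ∧ y < t + 1 / N ∧ ‖w‖ ≤ Real.exp y := by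
        rcases le_or_gt ‖w‖ (Real.exp t) with h | h
        · exact ⟨t, le_rfl, by linarith, h⟩
        · have hw0 : 0 < ‖w‖ := het.trans h
          refine ⟨Real.log ‖w‖, ?_, ?_, ?_⟩
          · rw [Real.le_log_iff_exp_le hw0]
            exact h.le
          · rw [Real.log_lt_iff_lt_exp hw0]
            exact hw2
          · rw [Real.exp_log hw0]
      refine (hP y hy2 w hy3).trans ?_
      rw [← Real.exp_nat_mul]
      refine Real.exp_le_exp.mpr (mul_le_mul_of_nonneg_left ?_ (Nat.cast_nonneg m))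
      have := ha y hy1 hy2
      linarith

end



end Pool.Agent.SL

namespace Pool.Agent.SL

alias fbound := fbound_pr

end Pool.Agent.SL
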