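import Pool.Agent.Lib_helper80.SL.Base
import Pool.Agent.Lib_helper80.SL.L.A1
import Pool.Agent.Lib_helper80.SL.L.A2
import Pool.Agent.Lib_helper80.SL.L.A8
import Pool.Agent.Lib_helper80.SL.L.B2
import Pool.Agent.Lib_helper80.SL.L.W3
import Pool.Agent.Lib_helper80.SL.L.W4

set_option autoImplicit false
set_option linter.unusedVariables false
set_option linter.unusedSectionVars false

open Filter Topology Metric Set
open scoped Manifold ContDiff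

namespace Pool.Agent.SL

open Pool.Agent.BR Pool.Agent.MBS

/-- numerical part, exponent of `qsm_arc` -/
theorem f1_num {c₀ CF Cq C₁ N Λ : ℝ} (hc₀ : 0 < c₀) (hCq : 0 < Cq)
    (hC₁ : 1600 * (8 * Cq * CF ^ 2 + 1) / c₀ ≤ Real.exp C₁) (hN : 1 ≤ N) (hΛ : 1 ≤ Λ) :
    -((c₀ * Λ ^ 2 * (N ^ 4 * Real.exp C₁) / 2) * (1 / (4 * N)) ^ 2 / 50) +
      2 * Cq * (CF * (N * (Λ + 1))) ^ 2 ≤ -(N ^ 2 * Λ ^ 2) := by
  have hN0 : 0 < N := by linarith
  have e1 : (c₀ * Λ ^ 2 * (N ^ 4 * Real.exp C₁) / 2) * (1 / (4 * N)) ^ 2 / 50 =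
      (N ^ 2 * Λ ^ 2) * (c₀ * Real.exp C₁ / 1600) := by
    field_simp
    ring
  have e2 : 8 * Cq * CF ^ 2 + 1 ≤ c₀ * Real.exp C₁ / 1600 := by
    rw [div_le_iff₀ hc₀] at hC₁
    linarith
  have hP : 0 ≤ N ^ 2 * Λ ^ 2 := by positivity
  have e3 := mul_le_mul_of_nonneg_left e2 hP
  have e4 : (Λ + 1) ^ 2 ≤ 4 * Λ ^ 2 := by nlinarith
  have e5 : 2 * Cq * (CF * (N * (Λ + 1))) ^ 2 ≤ (N ^ 2 * Λ ^ 2) * (8 * Cq * CF ^ 2) := by
    have : 0 ≤ 2 * Cq * CF ^ 2 * N ^ 2 := by positivity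
    calc 2 * Cq * (CF * (N * (Λ + 1))) ^ 2 = (2 * Cq * CF ^ 2 * N ^ 2) * (Λ + 1) ^ 2 := by ring
      _ ≤ (2 * Cq * CF ^ 2 * N ^ 2) * (4 * Λ ^ 2) := mul_le_mul_of_nonneg_left e4 this
      _ = _ := by ring
  rw [e1]
  linarith

/-- numerical part, the bound on the arc -/
theorem f1_arc {c₀ Q L2 E : ℝ} (hc₀ : 0 < c₀) (hQ : 0 ≤ Q)
    (hL : 2 * Real.log (Q + 1) / c₀ ≤ L2) (hL0 : 0 ≤ L2) (hE : 1 ≤ E) :
    Q * Real.exp (-(c₀ * L2 * E)) ≤ Real.exp (-(c₀ * L2 * E / 2)) := by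
  have h1 : Real.log (Q + 1) ≤ c₀ * L2 * E / 2 := by
    rw [div_le_iff₀ hc₀] at hL
    have : c₀ * L2 * 1 ≤ c₀ * L2 * E := mul_le_mul_of_nonneg_left hE (by positivity)
    linarith
  have h2 : Q + 1 ≤ Real.exp (c₀ * L2 * E / 2) := by
    rw [← Real.log_le_iff_le_exp (by linarith)]
    exact h1
  calc Q * Real.exp (-(c₀ * L2 * E)) ≤
      Real.exp (c₀ * L2 * E / 2) * Real.exp (-(c₀ * L2 * E)) :=
        mul_le_mul_of_nonneg_right (by linarith) (Real.exp_pos _).le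
    _ = Real.exp (-(c₀ * L2 * E / 2)) := by
        rw [← Real.exp_add]
        congr 1
        ring

section

variable {E X : Type} [NormedAddCommGroup E] [NormedSpace ℂ E] [FiniteDimensional ℂ E]
  [MetricSpace X] [CompactSpace X] {A : Cha E X}

variable {k m s : ℕ} (D : IJ A k m s)

theorem f1_zal_mono {C₀ : ℝ} {f : ℂ → X} {U V : Set ℂ} (h : D.Zal C₀ f U) (hVU : V ⊆ U) :
    D.Zal C₀ f V := fun z ρ B hρ hB hb hw => h z ρ B hρ hB (hb.trans hVU) hw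

theorem window_thm_pr {lB LB : ℝ} (hB : BLip A lB LB) {C₀ : ℝ} (hC₀ : 0 < C₀) {L k' : ℕ}
    (F : A.Frm L k') (hk' : 0 < k') {J : Type} [Finite J] (ρ : J → X → ℝ) {Cq εq Lp : ℝ}
    (hCq : 0 < Cq) (hεq : 0 < εq) (hρ : ∀ j, Good A (ρ j) Cq εq Lp) (ε : ℝ) (hε : 0 < ε) :
    ∃ T > 0, ∃ A₀ : ℝ, ∀ (a₀ t₀ : ℝ) (f : ℂ → X), A₀ ≤ a₀ →
      (∀ z ∈ ball (0 : ℂ) (Real.exp (t₀ + T)), A.HolAt f z) →
      D.Zal C₀ f (ball (0 : ℂ) (Real.exp (t₀ + T))) →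
      (∃ z, ‖z‖ ≤ Real.exp t₀ ∧ Real.exp (m * (a₀ - t₀)) ≤ ‖D.PP f z‖) →
      ∃ g ∈ D.Fam (10 * C₀), (∀ j, (∀ w, ρ j (g w) = 0) → ρ j (f 0) ≤ Real.exp (-a₀)) ∧
        ∀ u : ℂ, ‖u‖ ≤ 1 / ε →
          ∃ z ∈ ball (0 : ℂ) (Real.exp (t₀ + T)), dist (f z) (g u) ≤ ε := by
  obtain ⟨c₀, hc₀, C₂, hC₂, δ, hδ, Λ₀, hΛ₀, hAC⟩ := arcclose D hB hC₀ F hk' ε hε
  obtain ⟨CF, hCF, hFB⟩ := fbound D hC₀
  have hm : 0 < m := D.pos
  have hmR : (0 : ℝ) < m := by exact_mod_cast hm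
  -- the constants
  obtain ⟨δ', hδ'0, hδ'1, hδ'δ⟩ : ∃ δ' : ℝ, 0 < δ' ∧ δ' ≤ 1 ∧ δ' ≤ δ :=
    ⟨min δ 1, lt_min hδ one_pos, min_le_right _ _, min_le_left _ _⟩
  obtain ⟨C₁, hC₁4, hC₁⟩ : ∃ C₁ : ℝ, 4 ≤ C₁ ∧
      1600 * (8 * Cq * CF ^ 2 + 1) / c₀ ≤ Real.exp C₁ := by
    refine ⟨4 + 1600 * (8 * Cq * CF ^ 2 + 1) / c₀, ?_, ?_⟩
    · have : 0 ≤ 1600 * (8 * Cq * CF ^ 2 + 1) / c₀ := by positivity
      linarith
    · have := Real.add_one_le_exp (4 + 1600 * (8 * Cq * CF ^ 2 + 1) / c₀)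
      linarith
  obtain ⟨T', hT', hG⟩ := growth δ' hδ'0 C₁ hC₁4
  have hQ0 : 0 ≤ |Lp| * C₂ := by positivity
  have hlog0 : 0 ≤ Real.log (|Lp| * C₂ + 1) := Real.log_nonneg (by linarith)
  refine ⟨T' + 1, by linarith, 2 * Λ₀ + 2 * Real.log (|Lp| * C₂ + 1) / c₀, ?_⟩
  intro a₀ t₀ f ha₀ hf hZ hz0
  obtain ⟨z₀, hz₀, hz₀'⟩ := hz0
  have hq0 : 0 ≤ 2 * Real.log (|Lp| * C₂ + 1) / c₀ := by positivity
  have ha₀0 : 0 ≤ a₀ := by linarith
  have hex1 : Real.exp t₀ < Real.exp (t₀ + (T' + 1)) := Real.exp_lt_exp.2 (by linarith)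
  obtain ⟨a, n, h1, h2, h3⟩ := logmax hm (F := D.PP f) (b := t₀ + (T' + 1))
    (fun z hz => pp_an D (hf z hz)) ⟨z₀, by
      rw [mem_ball, dist_zero_right]
      exact lt_of_le_of_lt hz₀ hex1, by
      intro h
      rw [h, norm_zero] at hz₀'
      exact absurd hz₀' (not_le.2 (Real.exp_pos _))⟩
  have hat₀ : a₀ ≤ a t₀ := by
    have := hz₀'.trans ((h1 t₀ (by linarith)).1 z₀ hz₀)
    rw [Real.exp_le_exp] at this
    have := le_of_mul_le_mul_left this hmR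
    linarith
  obtain ⟨t, N, hN, ht1, ht2, hNe, hwin⟩ := hG t₀ a n
    (fun t ht y hy hty => h2 t y hty (lt_of_le_of_lt hy.2 (by linarith)))
    (fun t ht => h3 t (lt_of_le_of_lt ht.2 (by linarith))) (ha₀0.trans hat₀)
  have hN0 : 0 < N := by linarith
  have hlogN : 0 ≤ Real.log N := Real.log_nonneg hN
  -- `K`
  obtain ⟨K, hK⟩ : ∃ K : ℝ, K = 4 * Real.log N + C₁ := ⟨_, rfl⟩
  rw [← hK] at ht1 ht2 hwin
  have hK4 : 4 ≤ K := by rw [hK]; linarith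
  have hKN : 0 < 2 * K / N := by positivity
  have hKN1 : 1 / N ≤ 2 * K / N := by
    apply div_le_div_of_nonneg_right _ hN0.le
    linarith
  have hexpK : Real.exp K = N ^ 4 * Real.exp C₁ := by
    rw [hK, Real.exp_add]
    congr 1
    rw [show (4 : ℝ) * Real.log N = Real.log N + Real.log N + Real.log N + Real.log N by ring,
      Real.exp_add, Real.exp_add, Real.exp_add, Real.exp_log hN0]
    ring
  have hexpK1 : 1 ≤ Real.exp K := Real.one_le_exp (by linarith)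
  have htt : t₀ ≤ t := by linarith
  have htb : t + 2 * K / N < t₀ + (T' + 1) := by linarith
  have hat : a₀ ≤ a t := by
    have q1 := (h2 t₀ t htt (by linarith)).1
    have q2 := h3 t₀ (by linarith)
    have q3 : 0 ≤ n t₀ * (t - t₀) := mul_nonneg (by linarith) (by linarith)
    linarith
  have hballs : ball (0 : ℂ) (Real.exp (t + 2 * K / N)) ⊆
      ball (0 : ℂ) (Real.exp (t₀ + (T' + 1))) :=
    ball_subset_ball (Real.exp_le_exp.2 htb.le)
  have hballs2 : ball (0 : ℂ) (Real.exp (t + 1 / N)) ⊆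
      ball (0 : ℂ) (Real.exp (t₀ + (T' + 1))) :=
    ball_subset_ball (Real.exp_le_exp.2 (by linarith))
  obtain ⟨zr, hzr, hzrF⟩ := (h1 t (by linarith)).2
  -- `Λ`
  obtain ⟨Λ, hΛ⟩ : ∃ Λ : ℝ, Λ = Real.exp (a t) / N := ⟨_, rfl⟩
  have hΛe : Real.exp (a t / 2) ≤ Λ := by
    rw [hΛ, le_div_iff₀ hN0]
    calc Real.exp (a t / 2) * N ≤ Real.exp (a t / 2) * Real.exp (a t / 2) :=
        mul_le_mul_of_nonneg_left hNe (Real.exp_pos _).le
      _ = Real.exp (a t) := by rw [← Real.exp_add]; congr 1; ring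
  have hΛa : 1 + a₀ / 2 ≤ Λ := by
    have := Real.add_one_le_exp (a t / 2)
    linarith
  have hΛ1 : 1 ≤ Λ := by linarith
  have hΛΛ₀ : Λ₀ ≤ Λ := by linarith
  have hΛ2 : a₀ ≤ Λ ^ 2 := by
    have q1 : Real.exp (a t / 2) ^ 2 ≤ Λ ^ 2 :=
      pow_le_pow_left₀ (Real.exp_pos _).le hΛe 2
    have q2 : Real.exp (a t / 2) ^ 2 = Real.exp (a t) := by
      rw [sq, ← Real.exp_add]; congr 1; ring
    have q3 := Real.add_one_le_exp (a t)
    linarith
  have hNΛ : a₀ ≤ N ^ 2 * Λ ^ 2 := by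
    have q1 : 1 * Λ ^ 2 ≤ N ^ 2 * Λ ^ 2 :=
      mul_le_mul_of_nonneg_right (one_le_pow₀ hN) (by positivity)
    linarith
  obtain ⟨g, hgF, hgarc, hgu⟩ := hAC f a t N K zr hN hK4
    (fun z hz => hf z (hballs hz)) (f1_zal_mono D hZ hballs)
    (fun y hy z hz => (h1 y (by linarith)).1 z hz.le)
    (fun x hx => (hwin x hx).trans hδ'δ) hzr hzrF (by rw [← hΛ]; exact hΛΛ₀)
  refine ⟨g, hgF, ?_, ?_⟩
  · intro j hj
    have hHB := hFB f a t N hN (fun z hz => hf z (hballs2 hz)) (f1_zal_mono D hZ hballs2)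
      (fun y hy z hz => (h1 y (by linarith)).1 z hz)
      (fun y hy1 hy2 => by
        have q0 : |y - t| = y - t := abs_of_nonneg (by linarith)
        have q1 := hwin (y - t) (by rw [q0]; linarith)
        rw [abs_le] at q1
        have q2 : t + (y - t) = y := by ring
        rw [q2] at q1
        have q3 : N * (y - t) ≤ 1 := by
          have : y - t ≤ 1 / N := by linarith
          calc N * (y - t) ≤ N * (1 / N) := mul_le_mul_of_nonneg_left this hN0.le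
            _ = 1 := by field_simp
        linarith [q1.2])
    rw [← hzr] at hHB
    have hzr0 : zr ≠ 0 := by
      intro h
      rw [h, norm_zero] at hzr
      exact absurd hzr (Real.exp_pos _).ne
    have hzrpos : 0 < ‖zr‖ := norm_pos_iff.2 hzr0
    have hG := hρ j
    have harc := qsm_arc hG.cont hG.nonneg hG.le_one hCq hεq hG.qsm f zr
      (CF * (Real.exp (a t) + N) / ‖zr‖) (c₀ * Λ ^ 2 * Real.exp K / 2) (1 / (4 * N)) hzr0
      (by positivity) hHB (by positivity)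
      (by
        rw [div_le_one (by positivity)]
        linarith) (by positivity)
      (by
        intro θ hθ
        obtain ⟨w, hw⟩ := hgarc θ hθ
        rw [← hΛ] at hw
        have q1 := hG.lip (f (zr * Complex.exp (θ * Complex.I))) (g w)
        rw [hj w, sub_zero] at q1
        have q2 := (le_abs_self _).trans q1
        calc ρ j (f (zr * Complex.exp (θ * Complex.I))) ≤
            Lp * dist (f (zr * Complex.exp (θ * Complex.I))) (g w) := q2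
          _ ≤ |Lp| * dist (f (zr * Complex.exp (θ * Complex.I))) (g w) :=
              mul_le_mul_of_nonneg_right (le_abs_self _) dist_nonneg
          _ ≤ |Lp| * (C₂ * Real.exp (-(c₀ * Λ ^ 2 * Real.exp K))) :=
              mul_le_mul_of_nonneg_left hw (abs_nonneg _)
          _ = (|Lp| * C₂) * Real.exp (-(c₀ * Λ ^ 2 * Real.exp K)) := by ring
          _ ≤ Real.exp (-(c₀ * Λ ^ 2 * Real.exp K / 2)) :=
              f1_arc hc₀ hQ0 (by linarith) (by positivity) hexpK1)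
    refine harc.trans (Real.exp_le_exp.2 ?_)
    have e1 : CF * (Real.exp (a t) + N) / ‖zr‖ * ‖zr‖ = CF * (N * (Λ + 1)) := by
      rw [div_mul_cancel₀ _ hzrpos.ne', hΛ]
      field_simp
    rw [e1, hexpK]
    exact (f1_num hc₀ hCq hC₁ hN hΛ1).trans (by linarith)
  · intro u hu
    obtain ⟨z, hz, hzu⟩ := hgu u hu
    exact ⟨z, hballs hz, hzu⟩



end

end Pool.Agent.SL

namespace Pool.Agent.SL

alias window_thm := window_thm_pr

end Pool.Agent.SL
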