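import Pool.Agent.Lib_helper80.SL.Base

/-! Block J1 of project SL (helper97): the functions `rhoR`. -/

set_option autoImplicit false
set_option linter.unusedVariables false
set_option linter.unusedSectionVars false

open Filter Topology Metric Set
open scoped Manifold ContDiff

namespace Pool.Agent.SL

open Pool.Agent.BR Pool.Agent.MBS

section

variable {E X : Type} [NormedAddCommGroup E] [NormedSpace ℂ E] [FiniteDimensional ℂ E]
  [MetricSpace X] [CompactSpace X] {A : Cha E X}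

theorem j1_norm_ne {n : ℕ} {v : Fin (n + 1) → ℂ} (hv : v ≠ 0) :
    ‖(WithLp.toLp 2 v : EuclideanSpace ℂ (Fin (n + 1)))‖ ≠ 0 := by
  rw [norm_ne_zero_iff]
  intro h
  apply hv
  have := congrArg (fun w : EuclideanSpace ℂ (Fin (n + 1)) => WithLp.ofLp w) h
  simpa using this

theorem j1_eval_smul {n d : ℕ} {R : MvPolynomial (Fin (n + 1)) ℂ} (hR : R.IsHomogeneous d)
    (a : ℂ) (v : Fin (n + 1) → ℂ) :
    MvPolynomial.eval (a • v) R = a ^ d * MvPolynomial.eval v R := by
  rw [MvPolynomial.eval_eq, MvPolynomial.eval_eq, Finset.mul_sum]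
  refine Finset.sum_congr rfl fun e he => ?_
  have h1 : (∏ i ∈ e.support, (a • v) i ^ e i) = a ^ d * ∏ i ∈ e.support, v i ^ e i := by
    have h2 : ∀ i ∈ e.support, (a • v) i ^ e i = a ^ e i * v i ^ e i := by
      intro i _
      simp [mul_pow]
    rw [Finset.prod_congr rfl h2, Finset.prod_mul_distrib, Finset.prod_pow_eq_pow_sum]
    have h3 : ∑ i ∈ e.support, e i = d := (hR.degree_eq_sum_deg_support he).symm
    rw [h3]
  rw [h1]
  ring

theorem rho_lift_pr {n d : ℕ} {ι : X → Projectivization ℂ (Fin (n + 1) → ℂ)}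
    {R : MvPolynomial (Fin (n + 1)) ℂ} (hR : R.IsHomogeneous d) {x : X} {v : Fin (n + 1) → ℂ}
    (hv : v ≠ 0) (h : ι x = Projectivization.mk ℂ v hv) :
    rhoR ι d R x = ‖MvPolynomial.eval v R‖ /
      ‖(WithLp.toLp 2 v : EuclideanSpace ℂ (Fin (n + 1)))‖ ^ d := by
  obtain ⟨a, ha⟩ := Projectivization.exists_smul_eq_mk_rep ℂ v hv
  have ha0 : (a : ℂ) ≠ 0 := a.ne_zero
  have hrep : (ι x).rep = (a : ℂ) • v := by
    rw [h, ← ha]
    rfl
  unfold rhoR
  rw [hrep, j1_eval_smul hR, WithLp.toLp_smul, norm_smul, norm_mul, norm_pow, mul_pow]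
  have h1 : ‖(a : ℂ)‖ ^ d ≠ 0 := pow_ne_zero _ (norm_ne_zero_iff.mpr ha0)
  rw [mul_div_mul_left _ _ h1]

theorem rho_cont_pr {n d : ℕ} {ι : X → Projectivization ℂ (Fin (n + 1) → ℂ)} (hι : Plift A n ι)
    {R : MvPolynomial (Fin (n + 1)) ℂ} (hR : R.IsHomogeneous d) : Continuous (rhoR ι d R) := by
  rw [continuous_iff_continuousAt]
  intro x
  obtain ⟨G, hG⟩ := hι.lift x
  obtain ⟨i, hi⟩ := A.cover x
  have hxs : x ∈ (A.ch i).source := A.W_sub i (subset_closure hi)
  have hGx := hG.self_of_nhds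
  have hGc : ContinuousAt G x := by
    have h1 : ContinuousAt (fun ξ => G ((A.ch i).symm ξ)) (A.ch i x) := (hGx.2 i hxs).continuousAt
    have h2 : ContinuousAt (A.ch i) x := (A.ch i).continuousAt hxs
    have h3 : ContinuousAt (fun y => G ((A.ch i).symm (A.ch i y))) x :=
      ContinuousAt.comp (g := fun ξ => G ((A.ch i).symm ξ)) h1 h2
    refine h3.congr ?_
    filter_upwards [(A.ch i).open_source.mem_nhds hxs] with y hy
    rw [(A.ch i).left_inv hy]
  have h4 : ContinuousAt (fun y => ‖MvPolynomial.eval (G y) R‖ /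
      ‖(WithLp.toLp 2 (G y) : EuclideanSpace ℂ (Fin (n + 1)))‖ ^ d) x := by
    apply ContinuousAt.div
    · have h5 : Continuous fun v : Fin (n + 1) → ℂ => MvPolynomial.eval v R :=
        MvPolynomial.continuous_eval R
      exact (h5.continuousAt.comp hGc).norm
    · apply ContinuousAt.pow
      have h6 : Continuous fun v : Fin (n + 1) → ℂ =>
          (WithLp.toLp 2 v : EuclideanSpace ℂ (Fin (n + 1))) := PiLp.continuous_toLp 2 _
      exact (h6.continuousAt.comp hGc).norm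
    · obtain ⟨h7, _⟩ := hGx.1
      exact pow_ne_zero _ (j1_norm_ne h7)
  refine h4.congr ?_
  filter_upwards [hG] with y hy
  obtain ⟨h8, h9⟩ := hy.1
  exact (rho_lift_pr hR h8 h9).symm

theorem rho_le_pr {n d : ℕ} {ι : X → Projectivization ℂ (Fin (n + 1) → ℂ)}
    {R : MvPolynomial (Fin (n + 1)) ℂ} (hR : R.IsHomogeneous d) :
    ∃ B > 0, ∀ x, 0 ≤ rhoR ι d R x ∧ rhoR ι d R x ≤ B := by
  refine ⟨(∑ e ∈ R.support, ‖R.coeff e‖) + 1, by positivity, fun x => ?_⟩
  have hne := j1_norm_ne (ι x).rep_nonzero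
  unfold rhoR
  set v := (ι x).rep with hv
  set N := ‖(WithLp.toLp 2 v : EuclideanSpace ℂ (Fin (n + 1)))‖ with hN
  have hN0 : 0 < N := lt_of_le_of_ne (norm_nonneg _) (Ne.symm hne)
  refine ⟨by positivity, ?_⟩
  rw [div_le_iff₀ (by positivity)]
  have h1 : ‖MvPolynomial.eval v R‖ ≤ ∑ e ∈ R.support, ‖R.coeff e‖ * N ^ d := by
    rw [MvPolynomial.eval_eq]
    refine (norm_sum_le _ _).trans (Finset.sum_le_sum fun e he => ?_)
    rw [norm_mul]
    refine mul_le_mul_of_nonneg_left ?_ (norm_nonneg _)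
    rw [norm_prod]
    have h2 : ∏ i ∈ e.support, ‖v i ^ e i‖ ≤ ∏ i ∈ e.support, N ^ e i := by
      refine Finset.prod_le_prod (fun i _ => norm_nonneg _) fun i _ => ?_
      rw [norm_pow]
      refine pow_le_pow_left₀ (norm_nonneg _) ?_ _
      exact PiLp.norm_apply_le (WithLp.toLp 2 v : EuclideanSpace ℂ (Fin (n + 1))) i
    refine h2.trans (le_of_eq ?_)
    rw [Finset.prod_pow_eq_pow_sum]
    have h3 : ∑ i ∈ e.support, e i = d := (hR.degree_eq_sum_deg_support he).symm
    rw [h3]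
  refine h1.trans ?_
  rw [← Finset.sum_mul]
  exact mul_le_mul_of_nonneg_right (by linarith) (by positivity)

theorem rho_zero_pr {n d : ℕ} {ι : X → Projectivization ℂ (Fin (n + 1) → ℂ)}
    {R : MvPolynomial (Fin (n + 1)) ℂ} {x : X} :
    rhoR ι d R x = 0 ↔ MvPolynomial.eval (ι x).rep R = 0 := by
  have hne := j1_norm_ne (ι x).rep_nonzero
  unfold rhoR
  rw [div_eq_zero_iff, norm_eq_zero]
  constructor
  · rintro (h | h)
    · exact h
    · exact absurd h (pow_ne_zero _ hne)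
  · exact fun h => Or.inl h

end






end Pool.Agent.SL

namespace Pool.Agent.SL

alias rho_lift := rho_lift_pr
alias rho_cont := rho_cont_pr
alias rho_le := rho_le_pr
alias rho_zero := rho_zero_pr

end Pool.Agent.SL
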