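import Pool.Agent.Lib_helper80.SL.Base
import Pool.Agent.Lib_helper80.SL.L.J1

/-! # Block J2 of SL: the functions `rhoR` are Lipschitz -/

set_option autoImplicit false
set_option linter.unusedVariables false
set_option linter.unusedSectionVars false

open Filter Topology Metric Set
open scoped Manifold ContDiff

namespace Pool.Agent.SL

open Pool.Agent.BR Pool.Agent.MBS

section

variable {E X : Type} [NormedAddCommGroup E] [NormedSpace ℂ E] [FiniteDimensional ℂ E]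
  [MetricSpace X] [CompactSpace X] {A : Cha E X}

/-- the quotient is locally Lipschitz -/
theorem j2_vec {n d : ℕ} {R : MvPolynomial (Fin (n + 1)) ℂ} {H : E → Fin (n + 1) → ℂ} {ξ₀ : E}
    (hH : AnalyticAt ℂ H ξ₀) (h0 : H ξ₀ ≠ 0) :
    ∃ K : ℝ, ∃ s ∈ 𝓝 ξ₀, ∀ ξ ∈ s, ∀ ξ' ∈ s,
      |‖MvPolynomial.eval (H ξ) R‖ / ‖(WithLp.toLp 2 (H ξ) : EuclideanSpace ℂ (Fin (n + 1)))‖ ^ d -
        ‖MvPolynomial.eval (H ξ') R‖ /
          ‖(WithLp.toLp 2 (H ξ') : EuclideanSpace ℂ (Fin (n + 1)))‖ ^ d| ≤ K * ‖ξ - ξ'‖ := by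
  have hcs : CompleteSpace E := FiniteDimensional.complete ℂ E
  let _ : NormedSpace ℝ E := NormedSpace.restrictScalars ℝ ℂ E
  have hHc : ∀ i, AnalyticAt ℂ (fun ξ => H ξ i) ξ₀ := fun i => (analyticAt_pi_iff.1 hH) i
  have ha : AnalyticAt ℂ (fun ξ => MvPolynomial.eval (H ξ) R) ξ₀ := by
    have h1 : (fun ξ => MvPolynomial.eval (H ξ) R) = fun ξ =>
        ∑ e ∈ R.support, MvPolynomial.coeff e R * ∏ i, H ξ i ^ (e i) := by
      funext ξ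
      exact MvPolynomial.eval_eq' (H ξ) R
    rw [h1]
    refine Finset.analyticAt_fun_sum _ fun e _ => ?_
    refine analyticAt_const.mul ?_
    exact Finset.analyticAt_fun_prod _ fun i _ => (hHc i).pow (e i)
  have hac : ContDiffAt ℂ 1 (fun ξ => MvPolynomial.eval (H ξ) R) ξ₀ := ha.contDiffAt
  obtain ⟨Ka, sa, hsa, hLa⟩ := hac.exists_lipschitzOnWith
  have hHr : ContDiffAt ℝ 1 H ξ₀ := hH.contDiffAt.restrict_scalars ℝ
  have ht : ContDiffAt ℝ 1 (fun ξ => (WithLp.toLp 2 (H ξ) : EuclideanSpace ℂ (Fin (n + 1)))) ξ₀ := by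
    have h1 : ContDiff ℝ 1 (fun v : Fin (n + 1) → ℂ =>
        (WithLp.toLp 2 v : EuclideanSpace ℂ (Fin (n + 1)))) := by
      exact (PiLp.continuousLinearEquiv 2 ℝ (fun _ : Fin (n + 1) => ℂ)).symm.contDiff
    exact h1.contDiffAt.comp ξ₀ hHr
  have hne : (WithLp.toLp 2 (H ξ₀) : EuclideanSpace ℂ (Fin (n + 1))) ≠ 0 := by
    intro h
    apply h0
    have := congrArg (WithLp.ofLp) h
    simpa using this
  have hb : ContDiffAt ℝ 1 (fun ξ =>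
      (‖(WithLp.toLp 2 (H ξ) : EuclideanSpace ℂ (Fin (n + 1)))‖ ^ d)⁻¹) ξ₀ := by
    have h1 := (ht.norm ℂ hne).pow d
    exact h1.inv (pow_ne_zero _ (norm_ne_zero_iff.2 hne))
  obtain ⟨Kb, sb, hsb, hLb⟩ := hb.exists_lipschitzOnWith
  have hbd : ∀ᶠ ξ in 𝓝 ξ₀, |(‖(WithLp.toLp 2 (H ξ) : EuclideanSpace ℂ (Fin (n + 1)))‖ ^ d)⁻¹| <
      |(‖(WithLp.toLp 2 (H ξ₀) : EuclideanSpace ℂ (Fin (n + 1)))‖ ^ d)⁻¹| + 1 :=
    hb.continuousAt.abs.eventually (gt_mem_nhds (lt_add_one _))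
  have had : ∀ᶠ ξ in 𝓝 ξ₀, ‖MvPolynomial.eval (H ξ) R‖ < ‖MvPolynomial.eval (H ξ₀) R‖ + 1 :=
    ha.continuousAt.norm.eventually (gt_mem_nhds (lt_add_one _))
  obtain ⟨Mb, hMb⟩ : ∃ M : ℝ, M =
      |(‖(WithLp.toLp 2 (H ξ₀) : EuclideanSpace ℂ (Fin (n + 1)))‖ ^ d)⁻¹| + 1 := ⟨_, rfl⟩
  obtain ⟨Ma, hMa⟩ : ∃ M : ℝ, M = ‖MvPolynomial.eval (H ξ₀) R‖ + 1 := ⟨_, rfl⟩
  refine ⟨Ka * Mb + Ma * Kb, _, inter_mem (inter_mem hsa hsb) (hbd.and had), ?_⟩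
  rintro ξ ⟨⟨h1, h2⟩, h3⟩ ξ' ⟨⟨h1', h2'⟩, h3'⟩
  obtain ⟨a, hadef⟩ : ∃ a : E → ℂ, a = fun ξ => MvPolynomial.eval (H ξ) R := ⟨_, rfl⟩
  obtain ⟨b, hbdef⟩ : ∃ b : E → ℝ, b = fun ξ =>
      (‖(WithLp.toLp 2 (H ξ) : EuclideanSpace ℂ (Fin (n + 1)))‖ ^ d)⁻¹ := ⟨_, rfl⟩
  have e1 : dist (a ξ) (a ξ') ≤ Ka * dist ξ ξ' := by
    rw [hadef]
    exact hLa.dist_le_mul _ h1 _ h1'
  have e2 : dist (b ξ) (b ξ') ≤ Kb * dist ξ ξ' := by
    rw [hbdef]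
    exact hLb.dist_le_mul _ h2 _ h2'
  have e3 : |b ξ| ≤ Mb := by
    rw [hbdef, hMb]
    exact h3.1.le
  have e4 : ‖a ξ'‖ ≤ Ma := by
    rw [hadef, hMa]
    exact h3'.2.le
  rw [div_eq_mul_inv, div_eq_mul_inv]
  have e5 : ‖MvPolynomial.eval (H ξ) R‖ = ‖a ξ‖ := by rw [hadef]
  have e6 : ‖MvPolynomial.eval (H ξ') R‖ = ‖a ξ'‖ := by rw [hadef]
  have e7 : (‖(WithLp.toLp 2 (H ξ) : EuclideanSpace ℂ (Fin (n + 1)))‖ ^ d)⁻¹ = b ξ := by rw [hbdef]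
  have e8 : (‖(WithLp.toLp 2 (H ξ') : EuclideanSpace ℂ (Fin (n + 1)))‖ ^ d)⁻¹ = b ξ' := by
    rw [hbdef]
  rw [e5, e6, e7, e8]
  rw [dist_eq_norm, dist_eq_norm] at e1 e2
  rw [Real.norm_eq_abs] at e2
  have e9 : ‖a ξ‖ * b ξ - ‖a ξ'‖ * b ξ' = (‖a ξ‖ - ‖a ξ'‖) * b ξ + ‖a ξ'‖ * (b ξ - b ξ') := by
    ring
  rw [e9]
  have e10 : |(‖a ξ‖ - ‖a ξ'‖) * b ξ| ≤ Ka * ‖ξ - ξ'‖ * Mb := by
    rw [abs_mul]
    exact mul_le_mul ((abs_norm_sub_norm_le _ _).trans e1) e3 (abs_nonneg _) (by positivity)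
  have e11 : |‖a ξ'‖ * (b ξ - b ξ')| ≤ Ma * (Kb * ‖ξ - ξ'‖) := by
    rw [abs_mul, abs_norm]
    exact mul_le_mul e4 e2 (abs_nonneg _) ((norm_nonneg _).trans e4)
  calc |(‖a ξ‖ - ‖a ξ'‖) * b ξ + ‖a ξ'‖ * (b ξ - b ξ')| ≤ _ := abs_add_le _ _
    _ ≤ Ka * ‖ξ - ξ'‖ * Mb + Ma * (Kb * ‖ξ - ξ'‖) := add_le_add e10 e11
    _ = (Ka * Mb + Ma * Kb) * ‖ξ - ξ'‖ := by ring

theorem j2_local {lB LB : ℝ} (hB : BLip A lB LB) {n d : ℕ}
    {ι : X → Projectivization ℂ (Fin (n + 1) → ℂ)} (hι : Plift A n ι)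
    {R : MvPolynomial (Fin (n + 1)) ℂ} (hR : R.IsHomogeneous d) (x₀ : X) :
    ∃ L : ℝ, ∃ V ∈ 𝓝 x₀, ∀ y ∈ V, ∀ y' ∈ V,
      |rhoR ι d R y - rhoR ι d R y'| ≤ L * dist y y' := by
  obtain ⟨i, hi⟩ := hB.leb x₀
  have hx₀ : x₀ ∈ A.W i := hi (mem_ball_self hB.lam_pos)
  have hsrc : x₀ ∈ (A.ch i).source := A.W_sub i (subset_closure hx₀)
  obtain ⟨G, hG⟩ := hι.lift x₀
  have hG0 := hG.self_of_nhds
  have han := hG0.2 i hsrc
  have hne : G ((A.ch i).symm (A.ch i x₀)) ≠ 0 := by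
    rw [(A.ch i).left_inv hsrc]
    exact hG0.1.choose
  obtain ⟨K, s, hs, hK⟩ := j2_vec (d := d) (R := R) han hne
  have hs' : (A.ch i) ⁻¹' s ∈ 𝓝 x₀ := (A.ch i).continuousAt hsrc hs
  refine ⟨|K| * LB, _, inter_mem (inter_mem hG (ball_mem_nhds x₀ hB.lam_pos))
    (inter_mem hs' ((A.ch i).open_source.mem_nhds hsrc)), ?_⟩
  rintro y ⟨⟨h1, h2⟩, h3, h4⟩ y' ⟨⟨h1', h2'⟩, h3', h4'⟩
  obtain ⟨hv, hv2⟩ := h1.1
  obtain ⟨hv', hv2'⟩ := h1'.1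
  rw [rho_lift hR hv hv2, rho_lift hR hv' hv2']
  have h5 := hK _ h3 _ h3'
  simp only [(A.ch i).left_inv h4, (A.ch i).left_inv h4'] at h5
  refine h5.trans ?_
  have h6 := hB.ch_le i x₀ (subset_closure hx₀) y h2 y' h2'
  calc K * ‖A.ch i y - A.ch i y'‖ ≤ |K| * ‖A.ch i y - A.ch i y'‖ :=
        mul_le_mul_of_nonneg_right (le_abs_self K) (norm_nonneg _)
    _ ≤ |K| * (LB * dist y y') := mul_le_mul_of_nonneg_left h6 (abs_nonneg _)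
    _ = |K| * LB * dist y y' := by ring

theorem rho_lip_pr {lB LB : ℝ} (hB : BLip A lB LB) {n d : ℕ}
    {ι : X → Projectivization ℂ (Fin (n + 1) → ℂ)} (hι : Plift A n ι)
    {R : MvPolynomial (Fin (n + 1)) ℂ} (hR : R.IsHomogeneous d) :
    ∃ Lp, ∀ x y, |rhoR ι d R x - rhoR ι d R y| ≤ Lp * dist x y := by
  have h := isCompact_univ.induction_on (s := (univ : Set X))
    (p := fun s => ∃ L : ℝ, ∃ δ > 0, ∀ x ∈ s, ∀ y, dist x y < δ →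
      |rhoR ι d R x - rhoR ι d R y| ≤ L * dist x y)
    ⟨0, 1, one_pos, fun x hx => absurd hx (notMem_empty _)⟩
    (fun s t hst ⟨L, δ, hδ, h⟩ => ⟨L, δ, hδ, fun x hx => h x (hst hx)⟩)
    (fun s t ⟨L, δ, hδ, h⟩ ⟨L', δ', hδ', h'⟩ => ⟨max L L', min δ δ', lt_min hδ hδ',
      fun x hx y hy => by
        rcases hx with hx | hx
        · exact (h x hx y (hy.trans_le (min_le_left _ _))).trans
            (mul_le_mul_of_nonneg_right (le_max_left _ _) dist_nonneg)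
        · exact (h' x hx y (hy.trans_le (min_le_right _ _))).trans
            (mul_le_mul_of_nonneg_right (le_max_right _ _) dist_nonneg)⟩)
    (fun x₀ _ => by
      obtain ⟨L, V, hV, hL⟩ := j2_local hB hι hR x₀
      obtain ⟨r, hr, hrV⟩ := Metric.mem_nhds_iff.1 hV
      refine ⟨ball x₀ (r / 2), mem_nhdsWithin_of_mem_nhds (ball_mem_nhds _ (half_pos hr)), L,
        r / 2, half_pos hr, fun x hx y hy => ?_⟩
      have hx' : dist x x₀ < r / 2 := hx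
      refine hL x (hrV ?_) y (hrV ?_)
      · rw [mem_ball]
        linarith
      · rw [mem_ball]
        have h1 := dist_triangle y x x₀
        rw [dist_comm y x] at h1
        linarith)
  obtain ⟨L, δ, hδ, h⟩ := h
  obtain ⟨B, hB0, hBρ⟩ := rho_le (ι := ι) hR
  refine ⟨max L 0 + B / δ, fun x y => ?_⟩
  rcases lt_or_ge (dist x y) δ with hlt | hge
  · refine (h x (mem_univ x) y hlt).trans (mul_le_mul_of_nonneg_right ?_ dist_nonneg)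
    have h1 : 0 ≤ B / δ := by positivity
    linarith [le_max_left L 0]
  · have h1 : |rhoR ι d R x - rhoR ι d R y| ≤ B := by
      rw [abs_le]
      constructor <;> linarith [(hBρ x).1, (hBρ x).2, (hBρ y).1, (hBρ y).2]
    have h2 : B ≤ B / δ * dist x y := by
      rw [div_mul_eq_mul_div, le_div_iff₀ hδ]
      exact mul_le_mul_of_nonneg_left hge hB0.le
    have h3 : 0 ≤ max L 0 * dist x y := mul_nonneg (le_max_right _ _) dist_nonneg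
    rw [add_mul]
    linarith



end

end Pool.Agent.SL

namespace Pool.Agent.SL

alias rho_lip := rho_lip_pr

end Pool.Agent.SL
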