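import Pool.Agent.Lib_helper80.SL.Base
import Pool.Agent.Lib_helper64.SS.B.LMB
import Pool.Agent.Lib_helper80.SL.L.J1

-- block J3 (helper81)

set_option autoImplicit false
set_option linter.unusedVariables false
set_option linter.unusedSectionVars false

open Filter Topology Metric Set
open scoped Manifold ContDiff

namespace Pool.Agent.SL

open Pool.Agent.BR Pool.Agent.MBS

section

variable {E X : Type} [NormedAddCommGroup E] [NormedSpace ℂ E] [FiniteDimensional ℂ E]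
  [MetricSpace X] [CompactSpace X] {A : Cha E X}

/-- the part in the euclidean space -/
theorem j3_core {n d : ℕ} {R : MvPolynomial (Fin (n + 1)) ℂ} {Fv : ℂ → Fin (n + 1) → ℂ}
    {z₀ : ℂ} {r b δ : ℝ} {H : ℂ → ℂ} (hr : 0 < r) (hb : 0 < b) (hδ : 0 ≤ δ) (hδb : δ ≤ b / 2)
    (hF : ∀ z ∈ closedBall z₀ r, AnalyticAt ℂ Fv z)
    (h0 : b ≤ ‖(WithLp.toLp 2 (Fv z₀) : EuclideanSpace ℂ (Fin (n + 1)))‖)
    (hd : ∀ z ∈ closedBall z₀ r, ‖(WithLp.toLp 2 (Fv z) : EuclideanSpace ℂ (Fin (n + 1))) -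
      WithLp.toLp 2 (Fv z₀)‖ ≤ δ)
    (hH : ∀ z ∈ closedBall z₀ r, AnalyticAt ℂ H z)
    (hc : ∀ z, ‖z - z₀‖ = r → ‖MvPolynomial.eval (Fv z) R‖ ≤
      Real.exp (H z).re * ‖(WithLp.toLp 2 (Fv z) : EuclideanSpace ℂ (Fin (n + 1)))‖ ^ d) :
    ‖MvPolynomial.eval (Fv z₀) R‖ ≤ Real.exp ((H z₀).re + d * (2 * δ ^ 2 / b ^ 2)) *
      ‖(WithLp.toLp 2 (Fv z₀) : EuclideanSpace ℂ (Fin (n + 1)))‖ ^ d := by
  obtain ⟨F, hFdef⟩ : ∃ F : ℂ → EuclideanSpace ℂ (Fin (n + 1)), F = fun z => WithLp.toLp 2 (Fv z) :=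
    ⟨_, rfl⟩
  have hFz : ∀ z, (WithLp.toLp 2 (Fv z) : EuclideanSpace ℂ (Fin (n + 1))) = F z := fun z => by
    rw [hFdef]
  simp only [hFz] at h0 hd hc ⊢
  have hFan : ∀ z ∈ closedBall z₀ r, AnalyticAt ℂ F z := by
    intro z hz
    rw [hFdef]
    exact ((PiLp.continuousLinearEquiv 2 ℂ (fun _ : Fin (n + 1) => ℂ)).symm.toContinuousLinearMap.analyticAt
      (Fv z)).comp (hF z hz)
  obtain ⟨a, ha⟩ : ∃ a, a = F z₀ := ⟨_, rfl⟩
  have hapos : 0 < ‖a‖ := by rw [ha]; exact hb.trans_le h0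
  have ha2 : (‖a‖ : ℂ) ^ 2 ≠ 0 := by
    exact pow_ne_zero 2 (by exact_mod_cast hapos.ne')
  obtain ⟨l, hl⟩ : ∃ l : ℂ → ℂ, l = fun z => ((‖a‖ : ℂ) ^ 2)⁻¹ * innerSL ℂ a (F z) := ⟨_, rfl⟩
  have hlan : ∀ z ∈ closedBall z₀ r, AnalyticAt ℂ l z := by
    intro z hz
    rw [hl]
    exact analyticAt_const.mul (((innerSL ℂ a).analyticAt _).comp (hFan z hz))
  have hl0 : l z₀ = 1 := by
    rw [hl]
    simp only [innerSL_apply_apply]
    rw [← ha, inner_self_eq_norm_sq_to_K]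
    exact inv_mul_cancel₀ ha2
  -- decomposition
  have hz0 : z₀ ∈ closedBall z₀ r := mem_closedBall_self hr.le
  have hkey : ∀ z ∈ closedBall z₀ r, 1 / 2 ≤ ‖l z‖ ∧
      ‖F z‖ ≤ ‖l z‖ * (‖a‖ * Real.exp (2 * δ ^ 2 / b ^ 2)) := by
    intro z hz
    have hab : b ≤ ‖a‖ := by rw [ha]; exact h0
    have hdz : ‖F z - a‖ ≤ δ := by rw [ha]; exact hd z hz
    have hl1 : l z - 1 = ((‖a‖ : ℂ) ^ 2)⁻¹ * innerSL ℂ a (F z - a) := by
      have h1 : (1 : ℂ) = ((‖a‖ : ℂ) ^ 2)⁻¹ * innerSL ℂ a a := by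
        simp only [innerSL_apply_apply]
        rw [inner_self_eq_norm_sq_to_K]
        exact (inv_mul_cancel₀ ha2).symm
      rw [hl, map_sub, mul_sub, ← h1]
    have hl2 : ‖l z - 1‖ ≤ 1 / 2 := by
      rw [hl1, norm_mul, norm_inv, norm_pow, Complex.norm_real, norm_norm]
      have h2 : ‖innerSL ℂ a (F z - a)‖ ≤ ‖a‖ * ‖F z - a‖ := by
        simp only [innerSL_apply_apply]
        exact norm_inner_le_norm _ _
      calc (‖a‖ ^ 2)⁻¹ * ‖innerSL ℂ a (F z - a)‖ ≤ (‖a‖ ^ 2)⁻¹ * (‖a‖ * δ) := by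
            gcongr
            exact h2.trans (mul_le_mul_of_nonneg_left hdz hapos.le)
        _ = δ / ‖a‖ := by field_simp
        _ ≤ 1 / 2 := by
            rw [div_le_div_iff₀ hapos two_pos]
            linarith
    have hl3 : 1 / 2 ≤ ‖l z‖ := by
      have h3 : (1 : ℝ) ≤ ‖l z‖ + ‖l z - 1‖ := by
        have h4 : ‖(1 : ℂ)‖ ≤ ‖l z‖ + ‖l z - 1‖ := by
          calc ‖(1 : ℂ)‖ = ‖l z - (l z - 1)‖ := by congr 1; ring
            _ ≤ ‖l z‖ + ‖l z - 1‖ := norm_sub_le _ _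
        simpa using h4
      linarith
    refine ⟨hl3, ?_⟩
    -- w = F z - l z • a is orthogonal to a
    obtain ⟨w, hw⟩ : ∃ w, w = F z - l z • a := ⟨_, rfl⟩
    have hort : inner ℂ a w = 0 := by
      rw [hw, inner_sub_right, inner_smul_right, inner_self_eq_norm_sq_to_K]
      rw [hl]
      simp only [innerSL_apply_apply]
      have : ((‖a‖ : ℂ) ^ 2)⁻¹ * inner ℂ a (F z) * (‖a‖ : ℂ) ^ 2 = inner ℂ a (F z) := by
        rw [mul_right_comm, inv_mul_cancel₀ ha2, one_mul]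
      rw [show ((RCLike.ofReal ‖a‖ : ℂ)) = ((‖a‖ : ℝ) : ℂ) from rfl, this, sub_self]
    have hw1 : ‖w‖ ≤ δ := by
      have h5 : F z - a = w + (l z - 1) • a := by
        rw [hw, sub_smul, one_smul]; abel
      have h6 : ‖F z - a‖ ^ 2 = ‖w‖ ^ 2 + ‖(l z - 1) • a‖ ^ 2 := by
        rw [h5]
        have h7 : inner ℂ w ((l z - 1) • a) = 0 := by
          rw [inner_smul_right, ← inner_conj_symm, hort, map_zero, mul_zero]
        rw [sq, sq, sq]
        exact norm_add_sq_eq_norm_sq_add_norm_sq_of_inner_eq_zero _ _ h7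
      have h8 : ‖w‖ ^ 2 ≤ δ ^ 2 := by
        calc ‖w‖ ^ 2 ≤ ‖F z - a‖ ^ 2 := by rw [h6]; linarith [sq_nonneg ‖(l z - 1) • a‖]
          _ ≤ δ ^ 2 := by gcongr
      exact (sq_le_sq₀ (norm_nonneg _) hδ).1 h8
    have h9 : ‖F z‖ ^ 2 = ‖w‖ ^ 2 + ‖l z • a‖ ^ 2 := by
      have h5 : F z = w + l z • a := by rw [hw]; abel
      rw [h5]
      have h7 : inner ℂ w (l z • a) = 0 := by
        rw [inner_smul_right, ← inner_conj_symm, hort, map_zero, mul_zero]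
      rw [sq, sq, sq]
      exact norm_add_sq_eq_norm_sq_add_norm_sq_of_inner_eq_zero _ _ h7
    have h10 : ‖F z‖ ^ 2 ≤ (‖l z‖ * (‖a‖ * Real.exp (2 * δ ^ 2 / b ^ 2))) ^ 2 := by
      rw [h9, norm_smul]
      have e1 : (‖l z‖ * (‖a‖ * Real.exp (2 * δ ^ 2 / b ^ 2))) ^ 2 =
          (‖l z‖ * ‖a‖) ^ 2 * Real.exp (4 * δ ^ 2 / b ^ 2) := by
        rw [← mul_assoc, mul_pow, ← Real.exp_nat_mul]
        congr 2
        push_cast; ring
      rw [e1]
      have e2 : 1 + 4 * δ ^ 2 / b ^ 2 ≤ Real.exp (4 * δ ^ 2 / b ^ 2) := by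
        have := Real.add_one_le_exp (4 * δ ^ 2 / b ^ 2)
        linarith
      have e3 : ‖w‖ ^ 2 ≤ (‖l z‖ * ‖a‖) ^ 2 * (4 * δ ^ 2 / b ^ 2) := by
        have e4 : (b / 2) ^ 2 ≤ (‖l z‖ * ‖a‖) ^ 2 := by
          have : b / 2 ≤ ‖l z‖ * ‖a‖ := by
            calc b / 2 = 1 / 2 * b := by ring
              _ ≤ ‖l z‖ * ‖a‖ := by gcongr
          gcongr
        calc ‖w‖ ^ 2 ≤ δ ^ 2 := by gcongr
          _ = (b / 2) ^ 2 * (4 * δ ^ 2 / b ^ 2) := by field_simp; norm_num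
          _ ≤ (‖l z‖ * ‖a‖) ^ 2 * (4 * δ ^ 2 / b ^ 2) := by gcongr
      nlinarith [e2, e3, sq_nonneg (‖l z‖ * ‖a‖)]
    exact (sq_le_sq₀ (norm_nonneg _) (by positivity)).1 h10
  have hlne : ∀ z ∈ closedBall z₀ r, l z ≠ 0 := by
    intro z hz h
    have := (hkey z hz).1
    rw [h, norm_zero] at this
    linarith
  -- the holomorphic function Q
  obtain ⟨Q, hQ⟩ : ∃ Q : ℂ → ℂ, Q = fun z => MvPolynomial.eval (Fv z) R / l z ^ d *
    Complex.exp (-H z) := ⟨_, rfl⟩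
  have hQan : ∀ z ∈ closedBall z₀ r, AnalyticAt ℂ Q z := by
    intro z hz
    rw [hQ]
    have h1 : AnalyticAt ℂ (fun z => MvPolynomial.eval (Fv z) R) z := by
      have h2 := AnalyticAt.aeval_mvPolynomial (𝕜 := ℂ) (f := Fv) (z := z)
        (fun i => (analyticAt_pi_iff.1 (hF z hz)) i) R
      refine h2.congr (Eventually.of_forall fun w => ?_)
      exact congrFun (congrArg DFunLike.coe (MvPolynomial.coe_aeval_eq_eval (Fv w))) R
    exact (h1.div ((hlan z hz).pow d) (pow_ne_zero d (hlne z hz))).mul ((hH z hz).neg.cexp)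
  have hQb : ∀ z, ‖z - z₀‖ = r → ‖Q z‖ ≤ (‖a‖ * Real.exp (2 * δ ^ 2 / b ^ 2)) ^ d := by
    intro z hz
    have hzm : z ∈ closedBall z₀ r := by rw [mem_closedBall, dist_eq_norm]; exact hz.le
    have hlp : 0 < ‖l z‖ := norm_pos_iff.2 (hlne z hzm)
    rw [hQ]
    simp only [norm_mul, norm_div, norm_pow, Complex.norm_exp, Complex.neg_re]
    calc ‖MvPolynomial.eval (Fv z) R‖ / ‖l z‖ ^ d * Real.exp (-(H z).re)
        ≤ (Real.exp (H z).re * ‖F z‖ ^ d) / ‖l z‖ ^ d * Real.exp (-(H z).re) := by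
          gcongr
          exact hc z hz
      _ = (‖F z‖ / ‖l z‖) ^ d * (Real.exp (H z).re * Real.exp (-(H z).re)) := by
          rw [div_pow]; ring
      _ = (‖F z‖ / ‖l z‖) ^ d := by rw [← Real.exp_add, add_neg_cancel, Real.exp_zero, mul_one]
      _ ≤ (‖a‖ * Real.exp (2 * δ ^ 2 / b ^ 2)) ^ d := by
          gcongr
          rw [div_le_iff₀ hlp, mul_comm]
          exact (hkey z hzm).2
  have hmax : ‖Q z₀‖ ≤ (‖a‖ * Real.exp (2 * δ ^ 2 / b ^ 2)) ^ d := by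
    have hdc : DiffContOnCl ℂ Q (ball z₀ r) := by
      have h1 : DifferentiableOn ℂ Q (closedBall z₀ r) := fun z hz =>
        (hQan z hz).differentiableAt.differentiableWithinAt
      refine ⟨h1.mono ball_subset_closedBall, ?_⟩
      rw [closure_ball z₀ hr.ne']
      exact h1.continuousOn
    refine Complex.norm_le_of_forall_mem_frontier_norm_le isBounded_ball hdc ?_
      (subset_closure (mem_ball_self hr))
    intro z hz
    rw [frontier_ball z₀ hr.ne', mem_sphere_iff_norm] at hz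
    exact hQb z hz
  -- conclusion
  have hQ0 : ‖Q z₀‖ = ‖MvPolynomial.eval (Fv z₀) R‖ * Real.exp (-(H z₀).re) := by
    rw [hQ]
    simp only [hl0, one_pow, div_one, norm_mul, Complex.norm_exp, Complex.neg_re]
  rw [hQ0] at hmax
  have e5 : ‖MvPolynomial.eval (Fv z₀) R‖ =
      ‖MvPolynomial.eval (Fv z₀) R‖ * Real.exp (-(H z₀).re) * Real.exp (H z₀).re := by
    rw [mul_assoc, ← Real.exp_add, neg_add_cancel, Real.exp_zero, mul_one]
  rw [e5]
  calc ‖MvPolynomial.eval (Fv z₀) R‖ * Real.exp (-(H z₀).re) * Real.exp (H z₀).re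
      ≤ (‖a‖ * Real.exp (2 * δ ^ 2 / b ^ 2)) ^ d * Real.exp (H z₀).re := by gcongr
    _ = Real.exp ((H z₀).re + d * (2 * δ ^ 2 / b ^ 2)) * ‖F z₀‖ ^ d := by
        rw [mul_pow, ← Real.exp_nat_mul, Real.exp_add, ha]; ring

theorem j3_local {n : ℕ} {ι : X → Projectivization ℂ (Fin (n + 1) → ℂ)} (hι : Plift A n ι)
    (x₀ : X) : ∃ C > 0, ∃ ε₀ > 0, ∃ N ∈ 𝓝 x₀, ∀ (d : ℕ) (R : MvPolynomial (Fin (n + 1)) ℂ),
      R.IsHomogeneous d → ∀ (f : ℂ → X) (z₀ : ℂ) (r v : ℝ) (H : ℂ → ℂ), 0 < r → 0 ≤ v →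
        v * r ≤ ε₀ → HB A f (closedBall z₀ r) v → (∀ z ∈ closedBall z₀ r, AnalyticAt ℂ H z) →
        (∀ z, ‖z - z₀‖ = r → rhoR ι d R (f z) ≤ Real.exp (H z).re) → f z₀ ∈ N →
        rhoR ι d R (f z₀) ≤ Real.exp ((H z₀).re + (C * d) * (v * r) ^ 2) := by
  obtain ⟨G, hG⟩ := hι.lift x₀
  obtain ⟨i, hi⟩ := A.cover x₀
  have hsrc : x₀ ∈ (A.ch i).source := A.W_sub i (subset_closure hi)
  obtain ⟨ξ₀, hξ₀⟩ : ∃ ξ₀, ξ₀ = A.ch i x₀ := ⟨_, rfl⟩
  have hξt : ξ₀ ∈ (A.ch i).target := by rw [hξ₀]; exact (A.ch i).map_source hsrc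
  have hsymm : (A.ch i).symm ξ₀ = x₀ := by rw [hξ₀]; exact (A.ch i).left_inv hsrc
  obtain ⟨Gt, hGt⟩ : ∃ Gt : E → Fin (n + 1) → ℂ, Gt = fun ξ => G ((A.ch i).symm ξ) := ⟨_, rfl⟩
  have hGan : AnalyticAt ℂ Gt ξ₀ := by
    rw [hGt, hξ₀]; exact (hG.self_of_nhds).2 i hsrc
  obtain ⟨G2, hG2⟩ : ∃ G2 : E → EuclideanSpace ℂ (Fin (n + 1)), G2 = fun ξ => WithLp.toLp 2 (Gt ξ) :=
    ⟨_, rfl⟩
  have hG2an : ∀ ξ, AnalyticAt ℂ Gt ξ → AnalyticAt ℂ G2 ξ := by
    intro ξ h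
    rw [hG2]
    exact ((PiLp.continuousLinearEquiv 2 ℂ (fun _ : Fin (n + 1) => ℂ)).symm.toContinuousLinearMap.analyticAt
      (Gt ξ)).comp h
  have hG20 : G2 ξ₀ ≠ 0 := by
    obtain ⟨hne, _⟩ := (hG.self_of_nhds).1
    rw [hG2]
    simp only
    rw [hGt]
    simp only
    rw [hsymm]
    intro h
    apply hne
    have := congrArg WithLp.ofLp h
    simpa using this
  obtain ⟨b, hb⟩ : ∃ b, b = ‖G2 ξ₀‖ / 2 := ⟨_, rfl⟩
  have hbpos : 0 < b := by
    rw [hb]; have := norm_pos_iff.2 hG20; linarith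
  obtain ⟨M, hM⟩ : ∃ M, M = ‖fderiv ℂ G2 ξ₀‖ + 1 := ⟨_, rfl⟩
  have hMpos : 0 < M := by rw [hM]; positivity
  have h1 : ∀ᶠ ξ in 𝓝 ξ₀, (ξ ∈ (A.ch i).target ∧ (A.ch i).symm ξ ∈ A.W i ∧
      ∃ h : G ((A.ch i).symm ξ) ≠ 0, ι ((A.ch i).symm ξ) =
        Projectivization.mk ℂ (G ((A.ch i).symm ξ)) h) ∧
      AnalyticAt ℂ Gt ξ ∧ ‖fderiv ℂ G2 ξ‖ ≤ M ∧ b ≤ ‖G2 ξ‖ := by
    have hcs : ContinuousAt (A.ch i).symm ξ₀ := (A.ch i).continuousAt_symm hξt
    have e1 : ∀ᶠ ξ in 𝓝 ξ₀, (A.ch i).symm ξ ∈ A.W i :=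
      hcs.eventually (by rw [hsymm]; exact (A.W_open i).mem_nhds hi)
    have e2 : ∀ᶠ ξ in 𝓝 ξ₀, ∃ h : G ((A.ch i).symm ξ) ≠ 0, ι ((A.ch i).symm ξ) =
        Projectivization.mk ℂ (G ((A.ch i).symm ξ)) h :=
      hcs.eventually (p := fun x => ∃ h : G x ≠ 0, ι x = Projectivization.mk ℂ (G x) h)
        (by rw [hsymm]; exact hG.mono fun x hx => hx.1)
    have e3 : ∀ᶠ ξ in 𝓝 ξ₀, ‖fderiv ℂ G2 ξ‖ ≤ M := by
      have hc : ContinuousAt (fun ξ => ‖fderiv ℂ G2 ξ‖) ξ₀ :=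
        (hG2an ξ₀ hGan).fderiv.continuousAt.norm
      have : ‖fderiv ℂ G2 ξ₀‖ < M := by rw [hM]; linarith
      exact (hc.eventually (gt_mem_nhds this)).mono fun ξ h => h.le
    have e4 : ∀ᶠ ξ in 𝓝 ξ₀, b ≤ ‖G2 ξ‖ := by
      have hc : ContinuousAt (fun ξ => ‖G2 ξ‖) ξ₀ := (hG2an ξ₀ hGan).continuousAt.norm
      have : b < ‖G2 ξ₀‖ := by rw [hb]; have := norm_pos_iff.2 hG20; linarith
      exact (hc.eventually (lt_mem_nhds this)).mono fun ξ h => h.le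
    filter_upwards [(A.ch i).open_target.eventually_mem hξt, e1, e2,
      hGan.eventually_analyticAt, e3, e4] with ξ a1 a2 a3 a4 a5 a6
    exact ⟨⟨a1, a2, a3⟩, a4, a5, a6⟩
  obtain ⟨η, hη, hη2⟩ := Metric.nhds_basis_closedBall.mem_iff.mp h1
  refine ⟨2 * M ^ 2 / b ^ 2, by positivity, min (η / 4) (b / (2 * M)), by positivity,
    {x | x ∈ (A.ch i).source ∧ ‖A.ch i x - ξ₀‖ < η / 2}, ?_, ?_⟩
  · have h3 : ContinuousAt (fun x => ‖A.ch i x - ξ₀‖) x₀ :=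
      (((A.ch i).continuousAt hsrc).sub continuousAt_const).norm
    have h4 : ‖A.ch i x₀ - ξ₀‖ < η / 2 := by
      rw [hξ₀, sub_self, norm_zero]; linarith
    exact ((A.ch i).open_source.eventually_mem hsrc).and (h3.eventually (gt_mem_nhds h4))
  · intro d R hR f z₀ r v H hr hv hvr hf hH hρ hN
    obtain ⟨hN1, hN2⟩ := hN
    have hvr1 : v * r ≤ η / 4 := hvr.trans (min_le_left _ _)
    have hvr2 : v * r ≤ b / (2 * M) := hvr.trans (min_le_right _ _)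
    have hseg : ∀ z ∈ closedBall z₀ r, ∀ τ ∈ Icc (0 : ℝ) 1,
        z₀ + (τ : ℂ) * (z - z₀) ∈ closedBall z₀ r := by
      intro z hz τ hτ
      rw [mem_closedBall, dist_eq_norm] at hz ⊢
      have : z₀ + (τ : ℂ) * (z - z₀) - z₀ = (τ : ℂ) * (z - z₀) := by ring
      rw [this, norm_mul, Complex.norm_real, Real.norm_eq_abs, abs_of_nonneg hτ.1]
      calc τ * ‖z - z₀‖ ≤ 1 * r := mul_le_mul hτ.2 hz (norm_nonneg _) zero_le_one
        _ = r := one_mul r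
    -- the curve stays in the chart
    have hstay : ∀ z ∈ closedBall z₀ r, f z ∈ (A.ch i).source ∧ ‖A.ch i (f z) - ξ₀‖ ≤ η := by
      intro z' hz'
      have haff : ∀ τ : ℝ, HasDerivAt (fun σ : ℝ => z₀ + (σ : ℂ) * (z' - z₀)) (z' - z₀) τ := by
        intro τ
        have h4 : HasDerivAt (fun σ : ℝ => (σ : ℂ)) 1 τ := Complex.ofRealCLM.hasDerivAt
        have h5 := (h4.mul_const (z' - z₀)).const_add z₀
        rwa [one_mul] at h5
      have hzr : ‖z' - z₀‖ ≤ r := by rwa [mem_closedBall, dist_eq_norm] at hz'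
      have hcurve := SS.lmb_curve (A.ch i) (fun τ : ℝ => f (z₀ + (τ : ℂ) * (z' - z₀)))
        (ξ₀ := ξ₀) (ρ := η) (L := v * r)
        (fun τ hτ => by
          have h4 : ContinuousAt f ((fun σ : ℝ => z₀ + (σ : ℂ) * (z' - z₀)) τ) :=
            (hf _ (hseg z' hz' τ hτ)).1.1
          exact h4.comp (f := fun σ : ℝ => z₀ + (σ : ℂ) * (z' - z₀)) (haff τ).continuousAt)
        (by positivity) (fun ξ hξ => (hη2 hξ).1.1)
        (by simpa using hN1)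
        (by
          have h4 : (z₀ + ((0 : ℝ) : ℂ) * (z' - z₀)) = z₀ := by simp
          rw [h4]
          linarith)
        (fun τ hτ hs1 hs2 => by
          have hmem : A.ch i (f (z₀ + (τ : ℂ) * (z' - z₀))) ∈ closedBall ξ₀ η := by
            rw [mem_closedBall_iff_norm]; exact hs2
          have hW : f (z₀ + (τ : ℂ) * (z' - z₀)) ∈ A.W i := by
            have h6 := (hη2 hmem).1.2.1
            rwa [(A.ch i).left_inv hs1] at h6
          have hz'' := hf _ (hseg z' hz' τ hτ)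
          refine ⟨(z' - z₀) • deriv (A.loc i f) (z₀ + (τ : ℂ) * (z' - z₀)), ?_, ?_⟩
          · have h4 : HasDerivAt (A.loc i f) (deriv (A.loc i f) (z₀ + (τ : ℂ) * (z' - z₀)))
                (z₀ + (τ : ℂ) * (z' - z₀)) := (hz''.1.2 i hs1).differentiableAt.hasDerivAt
            exact h4.scomp τ (haff τ)
          · rw [norm_smul, mul_comm]
            exact mul_le_mul (hz''.2 i hW) hzr (norm_nonneg _) hv)
        1 ⟨zero_le_one, le_rfl⟩
      have e1 : z₀ + ((1 : ℝ) : ℂ) * (z' - z₀) = z' := by push_cast; ring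
      have e0 : z₀ + ((0 : ℝ) : ℂ) * (z' - z₀) = z₀ := by simp
      simp only [e1, e0, mul_one] at hcurve
      refine ⟨hcurve.1, ?_⟩
      calc ‖A.ch i (f z') - ξ₀‖ = ‖(A.ch i (f z') - A.ch i (f z₀)) + (A.ch i (f z₀) - ξ₀)‖ := by
            congr 1; abel
        _ ≤ ‖A.ch i (f z') - A.ch i (f z₀)‖ + ‖A.ch i (f z₀) - ξ₀‖ := norm_add_le _ _
        _ ≤ η := by linarith [hcurve.2]
    have hin : ∀ z ∈ closedBall z₀ r, A.loc i f z ∈ closedBall ξ₀ η := fun z hz => by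
      rw [mem_closedBall_iff_norm]; exact (hstay z hz).2
    have hsy : ∀ z ∈ closedBall z₀ r, (A.ch i).symm (A.loc i f z) = f z := fun z hz =>
      (A.ch i).left_inv (hstay z hz).1
    -- the lift along the curve
    obtain ⟨Fv, hFv⟩ : ∃ Fv : ℂ → Fin (n + 1) → ℂ, Fv = fun z => Gt (A.loc i f z) := ⟨_, rfl⟩
    have hFvG : ∀ z ∈ closedBall z₀ r, Fv z = G (f z) := by
      intro z hz
      rw [hFv]
      simp only
      rw [hGt]
      simp only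
      rw [hsy z hz]
    have hρF : ∀ z ∈ closedBall z₀ r, ∃ h : Fv z ≠ 0, ι (f z) = Projectivization.mk ℂ (Fv z) h := by
      intro z hz
      obtain ⟨h, e⟩ := (hη2 (hin z hz)).1.2.2
      rw [hFvG z hz]
      simp only [hsy z hz] at h e
      exact ⟨h, e⟩
    have hval : ∀ z ∈ closedBall z₀ r, rhoR ι d R (f z) = ‖MvPolynomial.eval (Fv z) R‖ /
        ‖(WithLp.toLp 2 (Fv z) : EuclideanSpace ℂ (Fin (n + 1)))‖ ^ d := by
      intro z hz
      obtain ⟨h, e⟩ := hρF z hz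
      exact rho_lift hR h e
    have hlocan : ∀ z ∈ closedBall z₀ r, AnalyticAt ℂ (A.loc i f) z := fun z hz =>
      (hf z hz).1.2 i (hstay z hz).1
    have hFan : ∀ z ∈ closedBall z₀ r, AnalyticAt ℂ Fv z := by
      intro z hz
      rw [hFv]
      exact (hη2 (hin z hz)).2.1.comp (hlocan z hz)
    have hnorm : ∀ z ∈ closedBall z₀ r,
        b ≤ ‖(WithLp.toLp 2 (Fv z) : EuclideanSpace ℂ (Fin (n + 1)))‖ := by
      intro z hz
      have := (hη2 (hin z hz)).2.2.2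
      rw [hG2] at this
      rw [hFv]
      exact this
    have hlip : ∀ z ∈ closedBall z₀ r, ‖(WithLp.toLp 2 (Fv z) : EuclideanSpace ℂ (Fin (n + 1))) -
        WithLp.toLp 2 (Fv z₀)‖ ≤ M * (v * r) := by
      intro z hz
      have hder : ∀ w ∈ closedBall z₀ r, HasDerivAt (fun w => G2 (A.loc i f w))
          (fderiv ℂ G2 (A.loc i f w) (deriv (A.loc i f) w)) w := by
        intro w hw
        have h1 : HasFDerivAt G2 (fderiv ℂ G2 (A.loc i f w)) (A.loc i f w) :=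
          (hG2an _ (hη2 (hin w hw)).2.1).differentiableAt.hasFDerivAt
        exact h1.comp_hasDerivAt w (hlocan w hw).differentiableAt.hasDerivAt
      have hW : ∀ w ∈ closedBall z₀ r, f w ∈ A.W i := by
        intro w hw
        have h6 := (hη2 (hin w hw)).1.2.1
        rwa [hsy w hw] at h6
      have hbd : ∀ w ∈ closedBall z₀ r, ‖fderiv ℂ G2 (A.loc i f w) (deriv (A.loc i f) w)‖ ≤ M * v := by
        intro w hw
        refine (ContinuousLinearMap.le_opNorm _ _).trans ?_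
        exact mul_le_mul (hη2 (hin w hw)).2.2.1 ((hf w hw).2 i (hW w hw)) (norm_nonneg _) hMpos.le
      have hmv := (convex_closedBall z₀ r).norm_image_sub_le_of_norm_hasDerivWithin_le
        (f := fun w => G2 (A.loc i f w))
        (f' := fun w => fderiv ℂ G2 (A.loc i f w) (deriv (A.loc i f) w)) (C := M * v)
        (fun w hw => (hder w hw).hasDerivWithinAt) hbd (mem_closedBall_self hr.le) hz
      have hzr : ‖z - z₀‖ ≤ r := by rwa [mem_closedBall, dist_eq_norm] at hz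
      have e1 : ∀ w, (WithLp.toLp 2 (Fv w) : EuclideanSpace ℂ (Fin (n + 1))) = G2 (A.loc i f w) := by
        intro w
        rw [hG2, hFv]
      rw [e1, e1]
      calc ‖G2 (A.loc i f z) - G2 (A.loc i f z₀)‖ ≤ M * v * ‖z - z₀‖ := hmv
        _ ≤ M * v * r := by gcongr
        _ = M * (v * r) := by ring
    have hδb : M * (v * r) ≤ b / 2 := by
      calc M * (v * r) ≤ M * (b / (2 * M)) := by gcongr
        _ = b / 2 := by field_simp
    have hz0 : z₀ ∈ closedBall z₀ r := mem_closedBall_self hr.le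
    have hcore := j3_core (R := R) (d := d) (H := H) hr hbpos
      (by positivity : 0 ≤ M * (v * r)) hδb hFan (hnorm z₀ hz0) hlip hH
      (fun z hz => by
        have hzm : z ∈ closedBall z₀ r := by rw [mem_closedBall, dist_eq_norm]; exact hz.le
        have h7 := hρ z hz
        rw [hval z hzm] at h7
        have hp : 0 < ‖(WithLp.toLp 2 (Fv z) : EuclideanSpace ℂ (Fin (n + 1)))‖ ^ d :=
          pow_pos (hbpos.trans_le (hnorm z hzm)) d
        rwa [div_le_iff₀ hp] at h7)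
    rw [hval z₀ hz0]
    have hp : 0 < ‖(WithLp.toLp 2 (Fv z₀) : EuclideanSpace ℂ (Fin (n + 1)))‖ ^ d :=
      pow_pos (hbpos.trans_le (hnorm z₀ hz0)) d
    rw [div_le_iff₀ hp]
    refine hcore.trans (le_of_eq ?_)
    congr 3
    rw [mul_pow]
    ring

theorem rho_qsm_pr {n : ℕ} {ι : X → Projectivization ℂ (Fin (n + 1) → ℂ)} (hι : Plift A n ι) :
    ∃ C > 0, ∃ ε₀ > 0, ∀ (d : ℕ) (R : MvPolynomial (Fin (n + 1)) ℂ), R.IsHomogeneous d →
      QSM A (rhoR ι d R) (C * d) ε₀ := by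
  have h := isCompact_univ.induction_on (s := (univ : Set X))
    (p := fun s => ∃ C > 0, ∃ ε₀ > 0, ∀ (d : ℕ) (R : MvPolynomial (Fin (n + 1)) ℂ),
      R.IsHomogeneous d → ∀ (f : ℂ → X) (z₀ : ℂ) (r v : ℝ) (H : ℂ → ℂ), 0 < r → 0 ≤ v →
        v * r ≤ ε₀ → HB A f (closedBall z₀ r) v → (∀ z ∈ closedBall z₀ r, AnalyticAt ℂ H z) →
        (∀ z, ‖z - z₀‖ = r → rhoR ι d R (f z) ≤ Real.exp (H z).re) → f z₀ ∈ s →
        rhoR ι d R (f z₀) ≤ Real.exp ((H z₀).re + (C * d) * (v * r) ^ 2))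
    ⟨1, one_pos, 1, one_pos, fun _ _ _ _ _ _ _ _ _ _ _ _ _ _ h => absurd h (notMem_empty _)⟩
    (fun s t hst ⟨C, hC, ε, hε, h⟩ => ⟨C, hC, ε, hε, fun d R hR f z₀ r v H h1 h2 h3 h4 h5 h6 h7 =>
      h d R hR f z₀ r v H h1 h2 h3 h4 h5 h6 (hst h7)⟩)
    (fun s t ⟨C, hC, ε, hε, h⟩ ⟨C', hC', ε', hε', h'⟩ => by
      refine ⟨max C C', lt_max_of_lt_left hC, min ε ε', lt_min hε hε', ?_⟩
      intro d R hR f z₀ r v H h1 h2 h3 h4 h5 h6 h7
      rcases h7 with h7 | h7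
      · refine (h d R hR f z₀ r v H h1 h2 (h3.trans (min_le_left _ _)) h4 h5 h6 h7).trans ?_
        apply Real.exp_le_exp.2
        have : C ≤ max C C' := le_max_left _ _
        gcongr
      · refine (h' d R hR f z₀ r v H h1 h2 (h3.trans (min_le_right _ _)) h4 h5 h6 h7).trans ?_
        apply Real.exp_le_exp.2
        have : C' ≤ max C C' := le_max_right _ _
        gcongr)
    (fun x _ => by
      obtain ⟨C, hC, ε, hε, N, hN, h⟩ := j3_local hι x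
      exact ⟨N, mem_nhdsWithin_of_mem_nhds hN, C, hC, ε, hε, h⟩)
  obtain ⟨C, hC, ε, hε, h⟩ := h
  exact ⟨C, hC, ε, hε, fun d R hR f z₀ r v H h1 h2 h3 h4 h5 h6 =>
    h d R hR f z₀ r v H h1 h2 h3 h4 h5 h6 (mem_univ _)⟩



end

end Pool.Agent.SL

namespace Pool.Agent.SL

alias rho_qsm := rho_qsm_pr

end Pool.Agent.SL
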