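import Pool.Agent.Lib_helper80.SL.Base
import Pool.Agent.Lib_helper80.SL.L.J1
import Pool.Agent.Lib_helper80.SL.L.J2
import Pool.Agent.Lib_helper80.SL.L.J3

set_option autoImplicit false
set_option linter.unusedVariables false
set_option linter.unusedSectionVars false

open Filter Topology Metric Set
open scoped Manifold ContDiff

namespace Pool.Agent.SL

open Pool.Agent.BR Pool.Agent.MBS

section

variable {E X : Type} [NormedAddCommGroup E] [NormedSpace ℂ E] [FiniteDimensional ℂ E]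
  [MetricSpace X] [CompactSpace X] {A : Cha E X}

theorem j4_qsm {ρ : X → ℝ} {C C' ε₀ B : ℝ} (hB : 0 < B) (hC : C ≤ C') (h : QSM A ρ C ε₀) :
    QSM A (fun x => ρ x / B) C' ε₀ := by
  intro f z₀ r v H hr hv hvr hf hH hle
  have hlog : Real.exp (Real.log B) = B := Real.exp_log hB
  have h1 := h f z₀ r v (fun z => H z + (Real.log B : ℂ)) hr hv hvr hf
    (fun z hz => (hH z hz).add analyticAt_const) (fun z hz => by
      have h2 := hle z hz
      rw [div_le_iff₀ hB] at h2
      rw [Complex.add_re, Complex.ofReal_re, Real.exp_add, hlog]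
      exact h2)
  dsimp only at h1 ⊢
  rw [div_le_iff₀ hB]
  refine h1.trans ?_
  rw [Complex.add_re, Complex.ofReal_re]
  calc Real.exp ((H z₀).re + Real.log B + C * (v * r) ^ 2)
      = Real.exp ((H z₀).re + C * (v * r) ^ 2) * B := by
        rw [← hlog, ← Real.exp_add, hlog]
        congr 1
        ring
    _ ≤ Real.exp ((H z₀).re + C' * (v * r) ^ 2) * B := by
        apply mul_le_mul_of_nonneg_right _ hB.le
        apply Real.exp_le_exp.2
        have : C * (v * r) ^ 2 ≤ C' * (v * r) ^ 2 :=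
          mul_le_mul_of_nonneg_right hC (by positivity)
        linarith

theorem exists_good_pr {lB LB : ℝ} (hB : BLip A lB LB) {n : ℕ}
    {ι : X → Projectivization ℂ (Fin (n + 1) → ℂ)} (hι : Plift A n ι) {J : Type} [Finite J]
    (d : J → ℕ) (R : J → MvPolynomial (Fin (n + 1)) ℂ) (hR : ∀ j, (R j).IsHomogeneous (d j)) :
    ∃ (ρ : J → X → ℝ) (Cq εq Lp : ℝ), 0 < Cq ∧ 0 < εq ∧ (∀ j, Good A (ρ j) Cq εq Lp) ∧
      ∀ j x, ρ j x = 0 ↔ MvPolynomial.eval (ι x).rep (R j) = 0 := by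
  obtain ⟨C, hC, ε₀, hε₀, hq⟩ := rho_qsm hι
  choose B hBpos hBle using fun j => rho_le (ι := ι) (hR j)
  choose L hL using fun j => rho_lip hB hι (hR j)
  obtain ⟨C1, hC1⟩ := (Set.finite_range fun j => C * (d j : ℝ)).bddAbove
  obtain ⟨L1, hL1⟩ := (Set.finite_range fun j => L j / B j).bddAbove
  refine ⟨fun j x => rhoR ι (d j) (R j) x / B j, max C C1, ε₀, L1, lt_max_of_lt_left hC, hε₀,
    fun j => ?_, fun j x => ?_⟩
  · have hBj := hBpos j
    refine ⟨(rho_cont hι (hR j)).div_const _, fun x => div_nonneg (hBle j x).1 hBj.le, fun x => ?_,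
      ?_, fun x y => ?_⟩
    · rw [div_le_one hBj]
      exact (hBle j x).2
    · refine j4_qsm hBj ?_ (hq (d j) (R j) (hR j))
      exact (hC1 ⟨j, rfl⟩).trans (le_max_right _ _)
    · have h1 : rhoR ι (d j) (R j) x / B j - rhoR ι (d j) (R j) y / B j =
          (rhoR ι (d j) (R j) x - rhoR ι (d j) (R j) y) / B j := by ring
      rw [h1, abs_div, abs_of_pos hBj]
      calc |rhoR ι (d j) (R j) x - rhoR ι (d j) (R j) y| / B j ≤ (L j * dist x y) / B j := by
            have := hL j x y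
            gcongr
        _ = (L j / B j) * dist x y := by ring
        _ ≤ L1 * dist x y := mul_le_mul_of_nonneg_right (hL1 ⟨j, rfl⟩) dist_nonneg
  · rw [← rho_zero (d := d j) (R := R j) (x := x) (ι := ι), div_eq_zero_iff]
    have := (hBpos j).ne'
    tauto

/-- local dichotomy -/
theorem j4_local {n d : ℕ} {ι : X → Projectivization ℂ (Fin (n + 1) → ℂ)} (hι : Plift A n ι)
    {R : MvPolynomial (Fin (n + 1)) ℂ} (hR : R.IsHomogeneous d) {f : ℂ → X} {z : ℂ}
    (hf : A.HolAt f z) (h : ∃ᶠ w in 𝓝[≠] z, MvPolynomial.eval (ι (f w)).rep R = 0) :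
    ∀ᶠ w in 𝓝 z, MvPolynomial.eval (ι (f w)).rep R = 0 := by
  obtain ⟨G, hG⟩ := hι.lift (f z)
  obtain ⟨i, hi⟩ := A.cover (f z)
  have hsrc : f z ∈ (A.ch i).source := A.W_sub i (subset_closure hi)
  have hcont := hf.1
  have hG1 : ∀ᶠ w in 𝓝 z, ∃ h : G (f w) ≠ 0, ι (f w) = Projectivization.mk ℂ (G (f w)) h :=
    (hcont.eventually hG).mono fun w hw => hw.1
  have hGan : AnalyticAt ℂ (fun ξ => G ((A.ch i).symm ξ)) (A.ch i (f z)) :=
    (hG.self_of_nhds).2 i hsrc
  have hloc : AnalyticAt ℂ (A.loc i f) z := hf.2 i hsrc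
  have hcomp : AnalyticAt ℂ (fun w => G ((A.ch i).symm (A.loc i f w))) z :=
    AnalyticAt.comp (g := fun ξ => G ((A.ch i).symm ξ)) (f := A.loc i f) hGan hloc
  have hsrcn : ∀ᶠ w in 𝓝 z, f w ∈ (A.ch i).source :=
    hcont.eventually ((A.ch i).open_source.mem_nhds hsrc)
  have hG2 : AnalyticAt ℂ (fun w => G (f w)) z := by
    refine hcomp.congr (hsrcn.mono fun w hw => ?_)
    show G ((A.ch i).symm (A.ch i (f w))) = G (f w)
    rw [(A.ch i).left_inv hw]
  have hev : AnalyticAt ℂ (fun w => MvPolynomial.eval (G (f w)) R) z :=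
    AnalyticAt.comp (g := fun v => MvPolynomial.eval v R) (f := fun w => G (f w))
      (AnalyticOnNhd.eval_mvPolynomial R _ (Set.mem_univ _)) hG2
  have hiff : ∀ᶠ w in 𝓝 z, (MvPolynomial.eval (ι (f w)).rep R = 0 ↔
      MvPolynomial.eval (G (f w)) R = 0) := by
    filter_upwards [hG1] with w hw
    obtain ⟨hne, heq⟩ := hw
    rw [← rho_zero (d := d) (R := R) (x := f w) (ι := ι), rho_lift hR hne heq, div_eq_zero_iff,
      norm_eq_zero]
    have h1 : ‖(WithLp.toLp 2 (G (f w)) : EuclideanSpace ℂ (Fin (n + 1)))‖ ^ d ≠ 0 := by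
      apply pow_ne_zero
      rw [norm_ne_zero_iff]
      intro h0
      exact hne (by simpa using h0)
    tauto
  rcases hev.eventually_eq_zero_or_eventually_ne_zero with h1 | h1
  · filter_upwards [h1, hiff] with w hw1 hw2
    exact hw2.2 hw1
  · exfalso
    refine h ?_
    filter_upwards [h1, hiff.filter_mono nhdsWithin_le_nhds] with w hw1 hw2 hw3
    exact hw1 (hw2.1 hw3)

theorem poly_ident_pr {n d : ℕ} {ι : X → Projectivization ℂ (Fin (n + 1) → ℂ)} (hι : Plift A n ι)
    {R : MvPolynomial (Fin (n + 1)) ℂ} (hR : R.IsHomogeneous d) {f : ℂ → X}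
    (hf : ∀ z, A.HolAt f z) {z₀ : ℂ}
    (h : ∃ᶠ z in 𝓝[≠] z₀, MvPolynomial.eval (ι (f z)).rep R = 0) :
    ∀ z, MvPolynomial.eval (ι (f z)).rep R = 0 := by
  set S : Set ℂ := {z | ∀ᶠ w in 𝓝 z, MvPolynomial.eval (ι (f w)).rep R = 0} with hS
  have hopen : IsOpen S := by
    rw [isOpen_iff_mem_nhds]
    intro z hz
    exact eventually_eventually_nhds.2 hz
  have hclosed : IsClosed S := by
    rw [← closure_subset_iff_isClosed]
    intro z hz
    by_cases hzS : z ∈ S
    · exact hzS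
    · apply j4_local hι hR (hf z)
      have h1 : ∃ᶠ w in 𝓝 z, w ∈ S := mem_closure_iff_frequently.1 hz
      rw [frequently_nhdsWithin_iff]
      refine h1.mono fun w hw => ⟨(show ∀ᶠ w' in 𝓝 w, _ from hw).self_of_nhds, ?_⟩
      intro hwz
      rw [mem_singleton_iff] at hwz
      exact hzS (hwz ▸ hw)
  have huniv : S = univ := IsClopen.eq_univ ⟨hclosed, hopen⟩ ⟨z₀, j4_local hι hR (hf z₀) h⟩
  intro z
  have hz : z ∈ S := huniv ▸ mem_univ z
  exact (show ∀ᶠ w' in 𝓝 z, _ from hz).self_of_nhds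




end

end Pool.Agent.SL

namespace Pool.Agent.SL

alias exists_good := exists_good_pr
alias poly_ident := poly_ident_pr

end Pool.Agent.SL
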