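import Pool.Agent.Lib_helper80.SL.Base
import Pool.Agent.Lib_helper80.SL.L.B1
import Pool.Agent.Lib_helper80.SL.L.B2
import Pool.Agent.Lib_helper80.SL.L.B3

/-! # SL, block P7: uniqueness of the factor -/

set_option autoImplicit false
set_option linter.unusedVariables false
set_option linter.unusedSectionVars false

open Filter Topology Metric Set
open scoped Manifold ContDiff

namespace Pool.Agent.SL

open Pool.Agent.BR Pool.Agent.MBS

/-- a function with values in the `m`-th roots of unity which is continuous at a point is locally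
constant -/
theorem P7_root {m : ℕ} (hm : 0 < m) {Q : ℂ → ℂ} {z : ℂ} (hc : ContinuousAt Q z)
    (h : ∀ᶠ w in 𝓝 z, Q w ^ m = 1) : ∀ᶠ w in 𝓝 z, Q w = Q z := by
  have hfin : ({x : ℂ | x ^ m = 1} \ {Q z}).Finite := by
    refine Set.Finite.subset (Polynomial.nthRootsFinset m (1 : ℂ)).finite_toSet fun x hx => ?_
    rw [Finset.mem_coe, Polynomial.mem_nthRootsFinset hm]
    exact hx.1
  have h1 : ∀ᶠ x in 𝓝 (Q z), x ∉ ({x : ℂ | x ^ m = 1} \ {Q z}) :=
    hfin.isClosed.isOpen_compl.mem_nhds (fun hx => hx.2 rfl)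
  filter_upwards [hc.eventually h1, h] with w h2 h3
  by_contra hne
  exact h2 ⟨h3, hne⟩

theorem P7_locconst {F : ℂ → ℂ} {z : ℂ} (hF : AnalyticAt ℂ F z)
    (h : ∀ᶠ w in 𝓝 z, deriv F w = 0) : ∀ᶠ w in 𝓝 z, F w = F z := by
  obtain ⟨r, hr, hb⟩ := Metric.eventually_nhds_iff_ball.1 (h.and hF.eventually_analyticAt)
  filter_upwards [ball_mem_nhds z hr] with w hw
  exact isOpen_ball.is_const_of_deriv_eq_zero (convex_ball z r).isPreconnected
    (fun u hu => (hb u hu).2.differentiableAt.differentiableWithinAt)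
    (fun u hu => (hb u hu).1) hw (mem_ball_self hr)

section

variable {E X : Type} [NormedAddCommGroup E] [NormedSpace ℂ E] [FiniteDimensional ℂ E]
  [MetricSpace X] [CompactSpace X] {A : Cha E X}

theorem P7_hol_const (x : X) (z : ℂ) : A.HolAt (fun _ => x) z :=
  ⟨continuousAt_const, fun i _ => by
    unfold Cha.loc
    exact analyticAt_const⟩

variable {k m s : ℕ} (D : IJ A k m s)

theorem fac_uniq_pr {C : ℝ} {g : ℂ → X} (hg : g ∈ D.Fam C) {f : ℂ → X} (hf : ∀ z, A.HolAt f z)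
    (hne : ∃ z z', f z ≠ f z') {z : ℂ} {P₁ P₂ : ℂ → ℂ} (h1 : AnalyticAt ℂ P₁ z)
    (h2 : AnalyticAt ℂ P₂ z) (e1 : ∀ᶠ w in 𝓝 z, f w = g (P₁ w))
    (e2 : ∀ᶠ w in 𝓝 z, f w = g (P₂ w)) : ∀ᶠ w in 𝓝 z, deriv P₁ w = deriv P₂ w := by
  have hgh : ∀ w, A.HolAt g w := hg.1.1
  set v := D.PP g 0 with hv
  have hv1 : ‖v‖ = 1 := hg.2 0
  have hv0 : v ≠ 0 := by
    intro h0
    rw [h0, norm_zero] at hv1
    exact zero_ne_one hv1
  have hPg : ∀ w, D.PP g w = v := fun w => pp_const D hg.1 w 0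
  -- the powers
  have hpow : ∀ (P : ℂ → ℂ) (w : ℂ), AnalyticAt ℂ P w → (∀ᶠ u in 𝓝 w, f u = g (P u)) →
      D.PP f w = deriv P w ^ m • v := by
    intro P w hP he
    rw [pp_congr D (hf w) (show f =ᶠ[𝓝 w] fun u => g (P u) from he),
      pp_comp D hP (hgh (P w)), hPg]
  -- `f` is not locally constant
  have hfn : ¬ ∀ᶠ w in 𝓝 z, f w = f z := by
    intro hc
    obtain ⟨a, b, hab⟩ := hne
    have := hol_ident (A := A) (f := f) (g := fun _ => f z) isPreconnected_univ isOpen_univ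
      (fun w _ => hf w) (fun w _ => P7_hol_const (f z) w) (mem_univ z) hc
    exact hab ((this (mem_univ a)).trans (this (mem_univ b)).symm)
  have hP1n : ∀ᶠ w in 𝓝[≠] z, deriv P₁ w ≠ 0 := by
    rcases h1.deriv.eventually_eq_zero_or_eventually_ne_zero with h0 | h0
    · exfalso
      apply hfn
      filter_upwards [P7_locconst h1 h0, e1] with w hw1 hw2
      rw [hw2, hw1, ← e1.self_of_nhds]
    · exact h0
  obtain ⟨r, hr, hb⟩ := Metric.eventually_nhds_iff_ball.1
    ((h1.eventually_analyticAt.and h2.eventually_analyticAt).and (e1.and e2))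
  have hbev : ∀ w ∈ ball z r, (∀ᶠ u in 𝓝 w, f u = g (P₁ u)) ∧ (∀ᶠ u in 𝓝 w, f u = g (P₂ u)) := by
    intro w hw
    constructor
    · filter_upwards [isOpen_ball.mem_nhds hw] with u hu using (hb u hu).2.1
    · filter_upwards [isOpen_ball.mem_nhds hw] with u hu using (hb u hu).2.2
  have hpw : ∀ w ∈ ball z r, deriv P₁ w ^ m = deriv P₂ w ^ m := by
    intro w hw
    have a1 := hpow P₁ w (hb w hw).1.1 (hbev w hw).1
    have a2 := hpow P₂ w (hb w hw).1.2 (hbev w hw).2
    exact smul_left_injective ℂ hv0 (a1.symm.trans a2)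
  -- the point `z₂`
  obtain ⟨z₂, hz₂, hz₂b⟩ : ∃ z₂, deriv P₁ z₂ ≠ 0 ∧ z₂ ∈ ball z r := by
    have h3 : ∀ᶠ w in 𝓝[≠] z, w ∈ ball z r :=
      nhdsWithin_le_nhds (ball_mem_nhds z hr)
    exact (hP1n.and h3).exists
  have hA1 := (hb z₂ hz₂b).1.1
  have hA2 := (hb z₂ hz₂b).1.2
  have hbn : ∀ᶠ w in 𝓝 z₂, w ∈ ball z r := isOpen_ball.mem_nhds hz₂b
  have hne2 : ∀ᶠ w in 𝓝 z₂, deriv P₁ w ≠ 0 := hA1.deriv.continuousAt.eventually_ne hz₂
  set Q : ℂ → ℂ := fun w => deriv P₂ w / deriv P₁ w with hQ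
  have hQc : ContinuousAt Q z₂ := (hA2.deriv.div hA1.deriv hz₂).continuousAt
  have hQ1 : ∀ᶠ w in 𝓝 z₂, Q w ^ m = 1 := by
    filter_upwards [hbn, hne2] with w hw hw2
    rw [hQ]
    simp only
    rw [div_pow, ← hpw w hw, div_self (pow_ne_zero _ hw2)]
  have hQc2 := P7_root D.pos hQc hQ1
  set a : ℂ := Q z₂ with ha
  have hd : ∀ᶠ w in 𝓝 z₂, deriv P₂ w = a * deriv P₁ w := by
    filter_upwards [hQc2, hne2] with w hw hw2
    rw [← hw, hQ]
    simp only
    field_simp
  -- `P₂ = a P₁ + b`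
  set b : ℂ := P₂ z₂ - a * P₁ z₂ with hbd
  have hlin : ∀ᶠ w in 𝓝 z₂, P₂ w = a * P₁ w + b := by
    have hF : AnalyticAt ℂ (fun w => P₂ w - a * P₁ w) z₂ := hA2.sub (analyticAt_const.mul hA1)
    have hF0 : ∀ᶠ w in 𝓝 z₂, deriv (fun w => P₂ w - a * P₁ w) w = 0 := by
      filter_upwards [hd, hbn] with w hw hwb
      have d1 := (hb w hwb).1.1.differentiableAt
      have d2 := (hb w hwb).1.2.differentiableAt
      rw [deriv_fun_sub d2 (d1.const_mul a), deriv_const_mul a d1, hw, sub_self]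
    filter_upwards [P7_locconst hF hF0] with w hw
    rw [hbd, ← hw]; ring
  have hgg : ∀ᶠ u in 𝓝 (P₁ z₂), g u = g (a * u + b) := by
    have hst : HasStrictDerivAt P₁ (deriv P₁ z₂) z₂ := hA1.hasStrictDerivAt
    rw [← hst.map_nhds_eq hz₂, eventually_map]
    filter_upwards [hbn, hlin] with w hw hl
    rw [← hl, ← (hb w hw).2.1, (hb w hw).2.2]
  have haff : ∀ u : ℂ, AnalyticAt ℂ (fun u : ℂ => a * u + b) u := fun u =>
    (analyticAt_const.mul analyticAt_id).add analyticAt_const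
  have hgh2 : ∀ w, A.HolAt (fun u => g (a * u + b)) w := fun w =>
    (hol_comp (haff w) (hgh _)).1
  have hall : ∀ u, g u = g (a * u + b) := fun u =>
    hol_ident isPreconnected_univ isOpen_univ (fun w _ => hgh w) (fun w _ => hgh2 w)
      (mem_univ (P₁ z₂)) hgg (mem_univ u)
  have ha1 : a = 1 := by
    by_contra hna
    have hna' : (1 : ℂ) - a ≠ 0 := sub_ne_zero.2 (Ne.symm hna)
    set u₀ : ℂ := b / (1 - a) with hu₀
    have hfix : a * u₀ + b = u₀ := by
      rw [hu₀]; field_simp; ring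
    obtain ⟨i, hi⟩ := A.cover (g u₀)
    have his : g u₀ ∈ (A.ch i).source := A.W_sub i (subset_closure hi)
    have hder := (hol_comp (A := A) (f := g) (haff u₀) (hgh _)).2 i (by rw [hfix]; exact his)
    have hde : deriv (fun u : ℂ => a * u + b) u₀ = a := by
      have : HasDerivAt (fun u : ℂ => a * u + b) (a * 1) u₀ :=
        ((hasDerivAt_id u₀).const_mul a).add_const b
      rw [this.deriv, mul_one]
    have hfe : (fun u => g (a * u + b)) = g := funext fun u => (hall u).symm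
    rw [hfe, hde, hfix] at hder
    have hz : deriv (A.loc i g) u₀ = 0 := by
      have h5 : (1 - a) • deriv (A.loc i g) u₀ = 0 := by
        rw [sub_smul, one_smul, ← hder, sub_self]
      exact (smul_eq_zero.1 h5).resolve_left hna'
    have h6 := pp_zero D (hgh u₀) his hz
    have h7 := hg.2 u₀
    rw [h6, norm_zero] at h7
    exact zero_ne_one h7
  have hloc : ∀ᶠ w in 𝓝 z₂, deriv P₂ w = deriv P₁ w := by
    filter_upwards [hd] with w hw
    rw [hw, ha1, one_mul]
  have hon1 : AnalyticOnNhd ℂ (deriv P₁) (ball z r) := fun w hw => (hb w hw).1.1.deriv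
  have hon2 : AnalyticOnNhd ℂ (deriv P₂) (ball z r) := fun w hw => (hb w hw).1.2.deriv
  have heq := hon2.eqOn_of_preconnected_of_eventuallyEq hon1 (convex_ball z r).isPreconnected
    hz₂b hloc
  filter_upwards [ball_mem_nhds z hr] with w hw
  exact (heq hw).symm



end

end Pool.Agent.SL

namespace Pool.Agent.SL

alias fac_uniq := fac_uniq_pr

end Pool.Agent.SL
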