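import Pool.Agent.Lib_helper80.SL.Base

/-! # Block P8 of SL (MP_45e720_ag), by helper72: extension of an analytic root -/

set_option autoImplicit false
set_option linter.unusedVariables false
set_option linter.unusedSectionVars false

open Filter Topology Metric Set
open scoped Manifold ContDiff

namespace Pool.Agent.SL

open Pool.Agent.BR Pool.Agent.MBS

/-- the zeros of an entire function which does not vanish identically are isolated -/
theorem p8_isolated {φ : ℂ → ℂ} (hφ : Differentiable ℂ φ) (hne : ∃ z, φ z ≠ 0) (z₀ : ℂ) :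
    ∀ᶠ z in 𝓝[≠] z₀, φ z ≠ 0 := by
  by_contra h
  rw [Filter.not_eventually] at h
  have h1 : ∃ᶠ z in 𝓝[≠] z₀, φ z = 0 := h.mono fun z hz => not_not.1 hz
  have h2 : AnalyticOnNhd ℂ φ univ := fun z _ => hφ.analyticAt z
  have h3 := h2.eqOn_zero_of_preconnected_of_frequently_eq_zero isPreconnected_univ
    (mem_univ z₀) h1
  obtain ⟨z, hz⟩ := hne
  exact hz (h3 (mem_univ z))

theorem root_ext_pr {m : ℕ} (hm : 0 < m) {φ Q : ℂ → ℂ} {Ω : Set ℂ} (hφ : Differentiable ℂ φ)
    (hne : ∃ z, φ z ≠ 0) (hΩ : IsOpen Ω) (hsub : ∀ z, φ z ≠ 0 → z ∈ Ω)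
    (hQ : ∀ z ∈ Ω, AnalyticAt ℂ Q z) (hQm : ∀ z ∈ Ω, Q z ^ m = φ z) :
    ∃ P : ℂ → ℂ, Differentiable ℂ P ∧ ∀ z ∈ Ω, φ z ≠ 0 → deriv P z = Q z := by
  classical
  set R : ℂ → ℂ := fun z => if φ z = 0 then 0 else Q z with hR
  have hR0 : ∀ z, φ z = 0 → R z = 0 := fun z hz => by rw [hR]; exact if_pos hz
  have hR1 : ∀ z, φ z ≠ 0 → R z = Q z := fun z hz => by rw [hR]; exact if_neg hz
  have hRm : ∀ z, R z ^ m = φ z := by
    intro z
    by_cases hz : φ z = 0
    · rw [hR0 z hz, hz, zero_pow hm.ne']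
    · rw [hR1 z hz]
      exact hQm z (hsub z hz)
  -- `R` is analytic where `φ ≠ 0`
  have hRan : ∀ z, φ z ≠ 0 → AnalyticAt ℂ R z := by
    intro z hz
    have h1 : R =ᶠ[𝓝 z] Q := by
      filter_upwards [hφ.continuous.continuousAt.eventually_ne hz] with w hw
      exact hR1 w hw
    exact (hQ z (hsub z hz)).congr h1.symm
  -- `R` is continuous at the zeros of `φ`
  have hRc : ∀ z, φ z = 0 → ContinuousAt R z := by
    intro z hz
    rw [ContinuousAt, hR0 z hz, tendsto_zero_iff_norm_tendsto_zero]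
    have h1 : ∀ w, ‖R w‖ = ‖φ w‖ ^ ((m : ℝ)⁻¹) := by
      intro w
      rw [← hRm w, norm_pow, Real.pow_rpow_inv_natCast (norm_nonneg _) hm.ne']
    have h2 : (fun w => ‖R w‖) = fun w => ‖φ w‖ ^ ((m : ℝ)⁻¹) := funext h1
    rw [h2]
    have h3 : Tendsto (fun w => ‖φ w‖) (𝓝 z) (𝓝 0) := by
      have := hφ.continuous.norm.tendsto z
      rwa [hz, norm_zero] at this
    have h4 : (0 : ℝ) < (m : ℝ)⁻¹ := by positivity
    have h5 := h3.rpow_const (Or.inr h4.le) (p := (m : ℝ)⁻¹)
    rwa [Real.zero_rpow h4.ne'] at h5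
  have hRd : Differentiable ℂ R := by
    intro z
    by_cases hz : φ z = 0
    · refine (Complex.analyticAt_of_differentiable_on_punctured_nhds_of_continuousAt ?_
        (hRc z hz)).differentiableAt
      filter_upwards [p8_isolated hφ hne z] with w hw
      exact (hRan w hw).differentiableAt
    · exact (hRan z hz).differentiableAt
  obtain ⟨P, hP⟩ := hRd.isExactOn_univ
  refine ⟨P, fun z => (hP z (mem_univ z)).differentiableAt, fun z _ hz => ?_⟩
  rw [(hP z (mem_univ z)).deriv, hR1 z hz]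



end Pool.Agent.SL

namespace Pool.Agent.SL

alias root_ext := root_ext_pr

end Pool.Agent.SL
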