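import Pool.Agent.Lib_helper80.SL.Base

set_option autoImplicit false
set_option linter.unusedVariables false
set_option linter.unusedSectionVars false

open Filter Topology Metric Set
open scoped Manifold ContDiff

namespace Pool.Agent.SL

open Pool.Agent.BR Pool.Agent.MBS

theorem exists_root_prim_pr {m : ℕ} (hm : 0 < m) {φ : ℂ → ℂ} {c : ℂ} {r : ℝ}
    (hφ : ∀ z ∈ ball c r, AnalyticAt ℂ φ z) (hne : ∀ z ∈ ball c r, φ z ≠ 0) {z₁ : ℂ}
    (hz₁ : z₁ ∈ ball c r) {q b : ℂ} (hq : q ^ m = φ z₁) :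
    ∃ Ψ : ℂ → ℂ, (∀ z ∈ ball c r, AnalyticAt ℂ Ψ z) ∧ (∀ z ∈ ball c r, deriv Ψ z ^ m = φ z) ∧
      deriv Ψ z₁ = q ∧ Ψ z₁ = b := by
  have hφd : DifferentiableOn ℂ φ (ball c r) := fun z hz =>
    (hφ z hz).differentiableAt.differentiableWithinAt
  -- a logarithm
  have h1 : DifferentiableOn ℂ (fun z => deriv φ z / φ z) (ball c r) :=
    (hφd.deriv isOpen_ball).div hφd hne
  obtain ⟨g, hg1, hg⟩ := h1.isExactOn_ball.with_val_at z₁ (Complex.log (φ z₁))
  have hexp : ∀ z ∈ ball c r, φ z = Complex.exp (g z) := by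
    have hF : ∀ z ∈ ball c r, HasDerivAt (fun z => φ z * Complex.exp (-g z)) 0 z := by
      intro z hz
      have hd := ((hφ z hz).differentiableAt.hasDerivAt).mul ((hg z hz).neg.cexp)
      refine hd.congr_deriv ?_
      have := hne z hz
      field_simp
      ring
    have hconst : ∀ z ∈ ball c r, φ z * Complex.exp (-g z) =
        φ z₁ * Complex.exp (-g z₁) := by
      intro z hz
      exact (convex_ball c r).is_const_of_fderivWithin_eq_zero (𝕜 := ℂ)
        (fun x hx => (hF x hx).differentiableAt.differentiableWithinAt)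
        (fun x hx => by
          rw [fderivWithin_of_isOpen isOpen_ball hx]
          exact ((hF x hx).hasFDerivAt.fderiv).trans (by ext; simp)) hz hz₁
    intro z hz
    have h := hconst z hz
    rw [hg1, Complex.exp_neg (Complex.log _), Complex.exp_log (hne z₁ hz₁),
      mul_inv_cancel₀ (hne z₁ hz₁), Complex.exp_neg] at h
    have he : Complex.exp (g z) ≠ 0 := Complex.exp_ne_zero _
    field_simp at h
    exact h
  -- the root
  have hm' : (m : ℂ) ≠ 0 := by exact_mod_cast hm.ne'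
  set ζ : ℂ := q / Complex.exp (g z₁ / m) with hζ
  have hzm : ζ ^ m = 1 := by
    rw [hζ, div_pow, hq, ← Complex.exp_nat_mul, mul_div_cancel₀ _ hm', ← hexp z₁ hz₁]
    exact div_self (hne z₁ hz₁)
  set R : ℂ → ℂ := fun z => ζ * Complex.exp (g z / m) with hR
  have hRm : ∀ z ∈ ball c r, R z ^ m = φ z := fun z hz => by
    rw [hR]
    simp only
    rw [mul_pow, hzm, one_mul, ← Complex.exp_nat_mul, mul_div_cancel₀ _ hm', ← hexp z hz]
  have hRd : DifferentiableOn ℂ R (ball c r) := fun z hz =>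
    (((hg z hz).differentiableAt.div_const _).cexp.const_mul ζ).differentiableWithinAt
  have hR1 : R z₁ = q := by
    rw [hR]
    simp only
    rw [hζ, div_mul_cancel₀ _ (Complex.exp_ne_zero _)]
  obtain ⟨Ψ, hΨ1, hΨ⟩ := hRd.isExactOn_ball.with_val_at z₁ b
  refine ⟨Ψ, fun z hz => ?_, fun z hz => ?_, ?_, hΨ1⟩
  · exact (DifferentiableOn.analyticOnNhd (fun x hx =>
      (hΨ x hx).differentiableAt.differentiableWithinAt) isOpen_ball) z hz
  · rw [(hΨ z hz).deriv, hRm z hz]
  · rw [(hΨ z₁ hz₁).deriv, hR1]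

theorem nz_conn_pr {φ : ℂ → ℂ} (hφ : Differentiable ℂ φ) (hne : ∃ z, φ z ≠ 0) :
    IsPreconnected {z | φ z ≠ 0} := by
  obtain ⟨x, hx⟩ := hne
  have h1 : φ ⁻¹' {0}ᶜ ∈ codiscrete ℂ :=
    AnalyticOnNhd.preimage_zero_mem_codiscrete (fun z _ => hφ.analyticAt z) hx
  have h2 : {z | φ z = 0}.Countable := by
    have h3 : IsDiscrete ({z | φ z = 0} ∩ univ) := by
      refine isDiscrete_of_codiscreteWithin ?_
      exact h1
    rw [inter_univ] at h3
    exact (IsClosed.isLindelof (isClosed_eq hφ.continuous continuous_const)).countable_of_isDiscrete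
      h3
  exact (h2.isConnected_compl_of_one_lt_rank (by simp)).isPreconnected

end Pool.Agent.SL

namespace Pool.Agent.SL

alias exists_root_prim := exists_root_prim_pr
alias nz_conn := nz_conn_pr

end Pool.Agent.SL
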