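import Pool.Agent.Lib_helper80.SL.Base
import Pool.Agent.Lib_helper80.SL.L.B1
import Pool.Agent.Lib_helper80.SL.L.B2
import Pool.Agent.Lib_helper80.SL.L.B3
import Pool.Agent.Lib_helper80.SL.L.P7
import Pool.Agent.Lib_helper80.SL.L.P8
import Pool.Agent.Lib_helper80.SL.L.P9

set_option autoImplicit false
set_option linter.unusedVariables false
set_option linter.unusedSectionVars false

open Filter Topology Metric Set
open scoped Manifold ContDiff

namespace Pool.Agent.SL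

open Pool.Agent.BR Pool.Agent.MBS

/-- two analytic functions with the same derivative near a point and the same value there -/
private theorem p10_eq {F G : ℂ → ℂ} {z : ℂ} (hF : AnalyticAt ℂ F z) (hG : AnalyticAt ℂ G z)
    (hd : ∀ᶠ w in 𝓝 z, deriv F w = deriv G w) (h0 : F z = G z) : ∀ᶠ w in 𝓝 z, F w = G w := by
  have h1 : ∀ᶠ w in 𝓝 z, AnalyticAt ℂ F w ∧ AnalyticAt ℂ G w ∧ deriv F w = deriv G w :=
    hF.eventually_analyticAt.and (hG.eventually_analyticAt.and hd)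
  obtain ⟨r, hr, hb⟩ := Metric.eventually_nhds_iff_ball.1 h1
  have hc : ∀ w ∈ ball z r, F w - G w = F z - G z := by
    intro w hw
    refine isOpen_ball.is_const_of_deriv_eq_zero (convex_ball z r).isPreconnected
      (f := fun w => F w - G w) (fun x hx => ?_) (fun x hx => ?_) hw (mem_ball_self hr)
    · exact ((hb x hx).1.differentiableAt.sub (hb x hx).2.1.differentiableAt).differentiableWithinAt
    · have := deriv_fun_sub (hb x hx).1.differentiableAt (hb x hx).2.1.differentiableAt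
      rw [this, (hb x hx).2.2, sub_self]
      rfl
  filter_upwards [ball_mem_nhds z hr] with w hw
  have := hc w hw
  rw [h0, sub_self] at this
  exact sub_eq_zero.1 this

/-- a root of unity near `1` is `1` -/
private theorem p10_one {m : ℕ} (hm : 0 < m) {ρ : ℂ → ℂ} {z : ℂ} (hc : Tendsto ρ (𝓝 z) (𝓝 1))
    (h1 : ∀ᶠ w in 𝓝 z, ρ w ^ m = 1) : ∀ᶠ w in 𝓝 z, ρ w = 1 := by
  have hfin : ({u : ℂ | u ^ m = 1} \ {1}).Finite := by
    refine (((Polynomial.nthRoots m (1 : ℂ)).toFinset.finite_toSet).subset ?_)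
    rintro u ⟨hu, -⟩
    simp only [Finset.mem_coe, Multiset.mem_toFinset]
    exact (Polynomial.mem_nthRoots hm).2 hu
  have hn : ({u : ℂ | u ^ m = 1} \ {1})ᶜ ∈ 𝓝 (1 : ℂ) :=
    hfin.isClosed.isOpen_compl.mem_nhds fun h => h.2 rfl
  filter_upwards [hc hn, h1] with w hw1 hw2
  by_contra hcon
  exact hw1 ⟨hw2, hcon⟩

section

variable {E X : Type} [NormedAddCommGroup E] [NormedSpace ℂ E] [FiniteDimensional ℂ E]
  [MetricSpace X] [CompactSpace X] {A : Cha E X}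

variable {k m s : ℕ} (D : IJ A k m s)

private theorem p10_const (x : X) (z : ℂ) : A.HolAt (fun _ => x) z :=
  ⟨continuousAt_const, fun i _ => analyticAt_const⟩

theorem continuation_pr {C : ℝ} {g : ℂ → X} (hg : g ∈ D.Fam C) {f : ℂ → X} (hf : ∀ z, A.HolAt f z)
    (hne : ∃ z z', f z ≠ f z') {z₀ : ℂ} {P₀ : ℂ → ℂ} (hP₀ : AnalyticAt ℂ P₀ z₀)
    (h : ∀ᶠ z in 𝓝 z₀, f z = g (P₀ z)) :
    ∃ P : ℂ → ℂ, Differentiable ℂ P ∧ ∀ z, f z = g (P z) := by
  classical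
  have hm : 0 < m := D.pos
  have hgh : ∀ z, A.HolAt g z := hg.1.1
  -- a nonzero component
  obtain ⟨j, hj⟩ : ∃ j, D.PP g 0 j ≠ 0 := by
    by_contra hcon
    push Not at hcon
    have h0 : D.PP g 0 = 0 := funext hcon
    have := hg.2 0
    rw [h0, norm_zero] at this
    exact zero_ne_one this
  set φ : ℂ → ℂ := fun z => D.PP f z j / D.PP g 0 j with hφdef
  have hφ : Differentiable ℂ φ := fun z =>
    (differentiableAt_pi.1 (pp_an D (hf z)).differentiableAt j).div_const _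
  set Ω : Set ℂ := {z | ∃ P : ℂ → ℂ, AnalyticAt ℂ P z ∧ ∀ᶠ w in 𝓝 z, f w = g (P w)} with hΩdef
  have hΩnear : ∀ z : ℂ, ∀ P : ℂ → ℂ, AnalyticAt ℂ P z → (∀ᶠ w in 𝓝 z, f w = g (P w)) →
      ∀ᶠ w in 𝓝 z, AnalyticAt ℂ P w ∧ ∀ᶠ w' in 𝓝 w, f w' = g (P w') := fun z P h1 h2 =>
    h1.eventually_analyticAt.and (eventually_eventually_nhds.2 h2)
  have hΩo : IsOpen Ω := by
    rw [isOpen_iff_mem_nhds]
    rintro z ⟨P, h1, h2⟩
    filter_upwards [hΩnear z P h1 h2] with w hw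
    exact ⟨P, hw⟩
  -- the value of the jet differential
  have hval : ∀ z : ℂ, ∀ P : ℂ → ℂ, AnalyticAt ℂ P z → (∀ᶠ w in 𝓝 z, f w = g (P w)) →
      deriv P z ^ m = φ z := by
    intro z P h1 h2
    have e1 : D.PP f z = D.PP (fun u => g (P u)) z := pp_congr D (hf z) h2
    have e2 : D.PP (fun u => g (P u)) z = deriv P z ^ m • D.PP g (P z) := pp_comp D h1 (hgh _)
    have e3 : D.PP g (P z) = D.PP g 0 := pp_const D hg.1 _ _
    simp only [hφdef]
    rw [e1, e2, e3, Pi.smul_apply, smul_eq_mul, mul_div_cancel_right₀ _ hj]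
  -- a point of Ω where φ does not vanish
  obtain ⟨z₁, hz₁Ω, hz₁φ⟩ : ∃ z₁ ∈ Ω, φ z₁ ≠ 0 := by
    by_contra hcon
    push Not at hcon
    have h1 : ∀ᶠ w in 𝓝 z₀, deriv P₀ w = deriv (fun _ : ℂ => P₀ z₀) w := by
      filter_upwards [hΩnear z₀ P₀ hP₀ h] with w hw
      have h2 := hcon w ⟨P₀, hw⟩
      rw [← hval w P₀ hw.1 hw.2] at h2
      rw [deriv_const]
      exact pow_eq_zero_iff hm.ne' |>.1 h2
    have h2 := p10_eq hP₀ analyticAt_const h1 rfl
    have h3 : f =ᶠ[𝓝 z₀] fun _ => f z₀ := by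
      filter_upwards [h, h2] with w hw1 hw2
      rw [hw1, hw2, h.self_of_nhds]
    have h4 := hol_ident (A := A) isPreconnected_univ isOpen_univ (fun z _ => hf z)
      (fun z _ => p10_const (f z₀) z) (mem_univ z₀) h3
    obtain ⟨z, z', hzz⟩ := hne
    exact hzz ((h4 (mem_univ z)).trans (h4 (mem_univ z')).symm)
  -- the derivative
  have hQex : ∀ z ∈ Ω, ∃ P : ℂ → ℂ, AnalyticAt ℂ P z ∧ ∀ᶠ w in 𝓝 z, f w = g (P w) := fun z hz => hz
  choose! Pc hPc1 hPc2 using hQex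
  set Q : ℂ → ℂ := fun z => deriv (Pc z) z with hQdef
  have hQeq : ∀ z : ℂ, ∀ P : ℂ → ℂ, AnalyticAt ℂ P z → (∀ᶠ w in 𝓝 z, f w = g (P w)) →
      ∀ᶠ w in 𝓝 z, Q w = deriv P w := by
    intro z P h1 h2
    filter_upwards [hΩnear z P h1 h2] with w hw
    have hwΩ : w ∈ Ω := ⟨P, hw⟩
    exact (fac_uniq D hg hf hne (hPc1 w hwΩ) hw.1 (hPc2 w hwΩ) hw.2).self_of_nhds
  have hQan : ∀ z ∈ Ω, AnalyticAt ℂ Q z := by
    rintro z ⟨P, h1, h2⟩
    exact h1.deriv.congr ((hQeq z P h1 h2).mono fun w hw => hw.symm)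
  have hQm : ∀ z ∈ Ω, Q z ^ m = φ z := fun z hz => hval z (Pc z) (hPc1 z hz) (hPc2 z hz)
  -- Ω contains the nonzero points of φ
  have hsub : {z | φ z ≠ 0} ⊆ Ω := by
    refine (nz_conn hφ ⟨z₁, hz₁φ⟩).subset_of_closure_inter_subset hΩo ⟨z₁, hz₁φ, hz₁Ω⟩ ?_
    rintro z ⟨hzc, hzφ⟩
    obtain ⟨r, hr, hb⟩ := Metric.eventually_nhds_iff_ball.1
      ((hφ z).continuousAt.eventually_ne hzφ)
    obtain ⟨z₂, hz₂b, hz₂Ω⟩ := mem_closure_iff_nhds.1 hzc _ (ball_mem_nhds z hr)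
    obtain ⟨P₁, h1, h2⟩ := hz₂Ω
    obtain ⟨Ψ, hΨan, hΨm, hΨd, hΨ0⟩ := exists_root_prim hm
      (fun z _ => hφ.analyticAt z) hb hz₂b (q := deriv P₁ z₂) (b := P₁ z₂) (hval z₂ P₁ h1 h2)
    have hq0 : deriv Ψ z₂ ≠ 0 := by
      intro h0
      have := hΨm z₂ hz₂b
      rw [h0, zero_pow hm.ne'] at this
      exact hb z₂ hz₂b this.symm
    have hcΨ : ContinuousAt (deriv Ψ) z₂ := (hΨan z₂ hz₂b).deriv.continuousAt
    have hcP : ContinuousAt (deriv P₁) z₂ := h1.deriv.continuousAt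
    have hρ : Tendsto (fun w => deriv P₁ w / deriv Ψ w) (𝓝 z₂) (𝓝 1) := by
      have := (hcP.div hcΨ hq0).tendsto
      simp only [Pi.div_apply] at this
      rwa [hΨd, div_self (by rw [← hΨd]; exact hq0)] at this
    have hne' : ∀ᶠ w in 𝓝 z₂, deriv Ψ w ≠ 0 := hcΨ.eventually_ne hq0
    have hρm : ∀ᶠ w in 𝓝 z₂, (deriv P₁ w / deriv Ψ w) ^ m = 1 := by
      filter_upwards [hΩnear z₂ P₁ h1 h2, isOpen_ball.mem_nhds hz₂b, hne'] with w hw1 hw2 hw3
      rw [div_pow, hval w P₁ hw1.1 hw1.2, hΨm w hw2, div_self (hb w hw2)]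
    have hρ1 := p10_one hm hρ hρm
    have hdd : ∀ᶠ w in 𝓝 z₂, deriv Ψ w = deriv P₁ w := by
      filter_upwards [hρ1, hne'] with w hw1 hw2
      rw [div_eq_one_iff_eq hw2] at hw1
      exact hw1.symm
    have hΨP := p10_eq (hΨan z₂ hz₂b) h1 hdd hΨ0
    have h5 : f =ᶠ[𝓝 z₂] fun w => g (Ψ w) := by
      filter_upwards [hΨP, h2] with w hw1 hw2
      rw [hw1, hw2]
    have h6 := hol_ident (A := A) (convex_ball z r).isPreconnected isOpen_ball (fun w _ => hf w)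
      (fun w hw => (hol_comp (hΨan w hw) (hgh _)).1) hz₂b h5
    exact ⟨Ψ, hΨan z (mem_ball_self hr), by
      filter_upwards [ball_mem_nhds z hr] with w hw
      exact h6 hw⟩
  obtain ⟨P, hP, hPQ⟩ := root_ext hm hφ ⟨z₁, hz₁φ⟩ hΩo (fun z hz => hsub hz) hQan hQm
  obtain ⟨P₁, h1, h2⟩ := hz₁Ω
  have hPa : AnalyticAt ℂ (fun w => P w + (P₁ z₁ - P z₁)) z₁ :=
    (hP.analyticAt z₁).add analyticAt_const
  have hdd : ∀ᶠ w in 𝓝 z₁, deriv P₁ w = deriv (fun w => P w + (P₁ z₁ - P z₁)) w := by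
    filter_upwards [hQeq z₁ P₁ h1 h2, (hφ z₁).continuousAt.eventually_ne hz₁φ] with w hw1 hw2
    rw [deriv_add_const, ← hw1, hPQ w (hsub hw2) hw2]
  have h3 := p10_eq h1 hPa hdd (by ring)
  have h4 : f =ᶠ[𝓝 z₁] fun w => g (P w + (P₁ z₁ - P z₁)) := by
    filter_upwards [h2, h3] with w hw1 hw2
    rw [hw1, hw2]
  refine ⟨fun w => P w + (P₁ z₁ - P z₁), hP.add_const _, fun z => ?_⟩
  exact hol_ident (A := A) isPreconnected_univ isOpen_univ (fun z _ => hf z)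
    (fun w _ => (hol_comp ((hP.add_const (P₁ z₁ - P z₁)).analyticAt w) (hgh _)).1) (mem_univ z₁) h4
    (mem_univ z)



end

end Pool.Agent.SL

namespace Pool.Agent.SL

alias continuation := continuation_pr

end Pool.Agent.SL
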