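import Pool.Agent.Lib_helper80.SL.Base

/-! Block P1 (helper76): homogenisation, coordinate quotients (MP_45e720_ag). -/

set_option autoImplicit false
set_option linter.unusedVariables false
set_option linter.unusedSectionVars false

open Filter Topology Metric Set
open scoped Manifold ContDiff

namespace Pool.Agent.SL

open Pool.Agent.BR Pool.Agent.MBS

section

variable {E X : Type} [NormedAddCommGroup E] [NormedSpace ℂ E] [FiniteDimensional ℂ E]
  [MetricSpace X] [CompactSpace X] {A : Cha E X}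

theorem p1_deg {Φ : MvPolynomial (Fin 2) ℂ} {D : ℕ} (hD : Φ.totalDegree ≤ D) {e : Fin 2 →₀ ℕ}
    (he : e ∈ Φ.support) : e 0 + e 1 ≤ D := by
  have h1 := MvPolynomial.le_totalDegree he
  rw [Finsupp.sum_fintype _ _ (fun _ => rfl), Fin.sum_univ_two] at h1
  exact h1.trans hD

theorem hz_hom_pr {n : ℕ} (p q r : Fin (n + 1)) {D : ℕ} {Φ : MvPolynomial (Fin 2) ℂ}
    (hD : Φ.totalDegree ≤ D) : (hz p q r D Φ).IsHomogeneous D := by
  unfold hz
  refine MvPolynomial.IsHomogeneous.sum _ _ _ fun e he => ?_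
  have h1 := p1_deg hD he
  have h2 := (MvPolynomial.isHomogeneous_C (Fin (n + 1)) (MvPolynomial.coeff e Φ)).mul
    (((MvPolynomial.isHomogeneous_X_pow (R := ℂ) p (D - e 0 - e 1)).mul
      (MvPolynomial.isHomogeneous_X_pow (R := ℂ) q (e 0))).mul
        (MvPolynomial.isHomogeneous_X_pow (R := ℂ) r (e 1)))
  have h3 : 0 + (D - e 0 - e 1 + e 0 + e 1) = D := by omega
  rw [h3] at h2
  exact h2

theorem hz_eval_pr {n : ℕ} (p q r : Fin (n + 1)) {D : ℕ} {Φ : MvPolynomial (Fin 2) ℂ}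
    (hD : Φ.totalDegree ≤ D) {v : Fin (n + 1) → ℂ} (hv : v p ≠ 0) :
    MvPolynomial.eval v (hz p q r D Φ) =
      v p ^ D * MvPolynomial.eval ![v q / v p, v r / v p] Φ := by
  unfold hz
  rw [map_sum, MvPolynomial.eval_eq', Finset.mul_sum]
  refine Finset.sum_congr rfl fun e he => ?_
  have h1 := p1_deg hD he
  have h3 : v p ^ D = v p ^ (D - e 0 - e 1) * v p ^ (e 0) * v p ^ (e 1) := by
    rw [← pow_add, ← pow_add]
    congr 1
    omega
  simp only [map_mul, map_pow, MvPolynomial.eval_C, MvPolynomial.eval_X, Fin.prod_univ_two,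
    Matrix.cons_val_zero, Matrix.cons_val_one, div_pow]
  rw [h3]
  field_simp

theorem cr_lift_pr {n : ℕ} {ι : X → Projectivization ℂ (Fin (n + 1) → ℂ)} {x : X}
    {v : Fin (n + 1) → ℂ} (hv : v ≠ 0) (h : ι x = Projectivization.mk ℂ v hv) (p q : Fin (n + 1)) :
    cr ι p q x = v q / v p ∧ ((ι x).rep p = 0 ↔ v p = 0) := by
  obtain ⟨a, ha⟩ := Projectivization.exists_smul_eq_mk_rep ℂ v hv
  have h1 : ∀ j, (ι x).rep j = (a : ℂ) * v j := by
    intro j
    rw [h, ← ha]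
    rfl
  have ha0 : (a : ℂ) ≠ 0 := a.ne_zero
  constructor
  · unfold cr
    rw [h1, h1, mul_div_mul_left _ _ ha0]
  · rw [h1, mul_eq_zero]
    exact ⟨fun h2 => h2.resolve_left ha0, fun h2 => Or.inr h2⟩

theorem cr_an_pr {n : ℕ} {ι : X → Projectivization ℂ (Fin (n + 1) → ℂ)} (hι : Plift A n ι)
    (p q : Fin (n + 1)) {f : ℂ → X} {z : ℂ} (hf : A.HolAt f z) (hz : (ι (f z)).rep p ≠ 0) :
    AnalyticAt ℂ (fun w => cr ι p q (f w)) z ∧ ∀ᶠ w in 𝓝 z, (ι (f w)).rep p ≠ 0 := by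
  obtain ⟨G, hG⟩ := hι.lift (f z)
  have hGf := hf.1.eventually hG
  obtain ⟨i, hi⟩ := A.cover (f z)
  have hs : f z ∈ (A.ch i).source := A.W_sub i (subset_closure hi)
  obtain ⟨⟨hne, hιz⟩, hGa⟩ := hG.self_of_nhds
  have h1 : AnalyticAt ℂ (fun ξ => G ((A.ch i).symm ξ)) (A.loc i f z) := hGa i hs
  have h2 : AnalyticAt ℂ (fun w => G ((A.ch i).symm (A.loc i f w))) z :=
    h1.comp (f := A.loc i f) (hf.2 i hs)
  have hsn : ∀ᶠ w in 𝓝 z, f w ∈ (A.ch i).source :=
    hf.1.eventually ((A.ch i).open_source.mem_nhds hs)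
  have h3 : (fun w => G ((A.ch i).symm (A.loc i f w))) =ᶠ[𝓝 z] fun w => G (f w) := by
    filter_upwards [hsn] with w hw
    show G ((A.ch i).symm (A.ch i (f w))) = G (f w)
    rw [(A.ch i).left_inv hw]
  have h4 : AnalyticAt ℂ (fun w => G (f w)) z := h2.congr h3
  have h5 : ∀ j, AnalyticAt ℂ (fun w => G (f w) j) z := fun j =>
    ((ContinuousLinearMap.proj (R := ℂ) (φ := fun _ : Fin (n + 1) => ℂ) j).analyticAt _).comp h4
  have h6 : G (f z) p ≠ 0 := fun h0 => hz ((cr_lift_pr hne hιz p q).2.2 h0)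
  have h7 : ∀ᶠ w in 𝓝 z, G (f w) p ≠ 0 := (h5 p).continuousAt.eventually_ne h6
  constructor
  · refine ((h5 q).div (h5 p) h6).congr ?_
    filter_upwards [hGf] with w hw
    obtain ⟨⟨hn, hw1⟩, -⟩ := hw
    exact (cr_lift_pr hn hw1 p q).1.symm
  · filter_upwards [h7, hGf] with w hw hw2
    obtain ⟨⟨hn, hw1⟩, -⟩ := hw2
    exact fun h0 => hw ((cr_lift_pr hn hw1 p q).2.1 h0)






end

end Pool.Agent.SL

namespace Pool.Agent.SL

alias hz_hom := hz_hom_pr
alias hz_eval := hz_eval_pr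
alias cr_lift := cr_lift_pr
alias cr_an := cr_an_pr

end Pool.Agent.SL
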