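import Pool.Agent.Lib_helper80.SL.Base
import Pool.Agent.Lib_helper80.SL.L.A7
import Pool.Agent.Lib_helper80.SL.L.J1
import Pool.Agent.Lib_helper80.SL.L.J3

set_option autoImplicit false
set_option linter.unusedVariables false
set_option linter.unusedSectionVars false

open Filter Topology Metric Set
open scoped Manifold ContDiff

namespace Pool.Agent.SL

open Pool.Agent.BR Pool.Agent.MBS

/-- covering radius of a lattice -/
theorem p2_cover (Λ : Submodule ℤ ℂ) [DiscreteTopology Λ] [IsZLattice ℝ Λ] :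
    ∃ R : ℝ, 0 ≤ R ∧ ∀ z : ℂ, ∃ l ∈ Λ, ‖z + l‖ ≤ R := by
  classical
  let b := Module.Free.chooseBasis ℤ Λ
  let b' := b.ofZLatticeBasis ℝ Λ
  obtain ⟨R, hR⟩ := (ZSpan.fundamentalDomain_isBounded b').exists_norm_le
  have hR' : ∀ z : ℂ, ‖ZSpan.fract b' z‖ ≤ R :=
    fun z => hR (ZSpan.fract b' z) (ZSpan.fract_mem_fundamentalDomain b' z)
  refine ⟨R, (norm_nonneg _).trans (hR' 0), fun z => ⟨-(ZSpan.floor b' z : ℂ), ?_, ?_⟩⟩
  · have h := (ZSpan.floor b' z).2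
    have e : Submodule.span ℤ (range b') = Λ := b.ofZLatticeBasis_span ℝ
    exact neg_mem (e.le h)
  · have h := hR' z
    rwa [ZSpan.fract_apply, sub_eq_add_neg] at h

/-- a continuous periodic real function attains its maximum in a fixed disc -/
theorem p2_max {Λ : Submodule ℤ ℂ} {R : ℝ} (hR : 0 ≤ R) (hcov : ∀ z : ℂ, ∃ l ∈ Λ, ‖z + l‖ ≤ R)
    {φ : ℂ → ℝ} (hφ : Continuous φ) (hper : ∀ l ∈ Λ, ∀ z, φ (z + l) = φ z) :
    ∃ z₁ : ℂ, ‖z₁‖ ≤ R ∧ ∀ z, φ z ≤ φ z₁ := by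
  obtain ⟨z₁, hz₁, hmax⟩ := (isCompact_closedBall (0 : ℂ) R).exists_isMaxOn
    ⟨0, by simpa using hR⟩ hφ.continuousOn
  refine ⟨z₁, by simpa using hz₁, fun z => ?_⟩
  obtain ⟨l, hl, hzl⟩ := hcov z
  rw [← hper l hl z]
  exact hmax (by simpa using hzl)

/-- the annulus -/
def p2_ann (ε r : ℝ) : Set ℂ := {z | ε < ‖z‖ ∧ ‖z‖ < r}

theorem p2_ann_open (ε r : ℝ) : IsOpen (p2_ann ε r) :=
  (isOpen_lt continuous_const continuous_norm).inter (isOpen_lt continuous_norm continuous_const)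

theorem p2_ann_clos (ε r : ℝ) : closure (p2_ann ε r) ⊆ {z | ε ≤ ‖z‖ ∧ ‖z‖ ≤ r} := by
  apply closure_minimal
  · rintro z ⟨h1, h2⟩
    exact ⟨h1.le, h2.le⟩
  · exact (isClosed_le continuous_const continuous_norm).inter
      (isClosed_le continuous_norm continuous_const)

theorem p2_ann_front {ε r : ℝ} {z : ℂ} (hz : z ∈ frontier (p2_ann ε r)) :
    ‖z‖ = ε ∨ ‖z‖ = r := by
  rw [(p2_ann_open ε r).frontier_eq] at hz
  have h1 := p2_ann_clos ε r hz.1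
  by_contra hcon
  rw [not_or] at hcon
  exact hz.2 ⟨lt_of_le_of_ne h1.1 (Ne.symm hcon.1), lt_of_le_of_ne h1.2 hcon.2⟩

/-- `log ‖w‖` is locally the real part of a holomorphic function -/
theorem p2_log (p : ℕ) (r S : ℝ) {z : ℂ} (hz : z ≠ 0) :
    ∃ H : ℂ → ℂ, AnalyticAt ℂ H z ∧ ∀ᶠ w in 𝓝 z,
      (p : ℝ) * (Real.log ‖w‖ - Real.log r) + Real.log S = (H w).re := by
  refine ⟨fun w => (p : ℂ) * (Complex.log (w / z) +
    ((Real.log ‖z‖ - Real.log r : ℝ) : ℂ)) + ((Real.log S : ℝ) : ℂ), ?_, ?_⟩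
  · have h1 : AnalyticAt ℂ (fun w : ℂ => w / z) z := analyticAt_id.div_const
    have h2 : AnalyticAt ℂ (fun w : ℂ => Complex.log (w / z)) z := by
      apply h1.clog
      show z / z ∈ Complex.slitPlane
      rw [div_self hz]
      exact Complex.one_mem_slitPlane
    exact (analyticAt_const.mul (h2.add analyticAt_const)).add analyticAt_const
  · have : ∀ᶠ w in 𝓝 z, w ≠ 0 := isOpen_ne.mem_nhds hz
    filter_upwards [this] with w hw
    have e1 : (Complex.log (w / z)).re = Real.log ‖w‖ - Real.log ‖z‖ := by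
      rw [Complex.log_re, norm_div, Real.log_div (norm_ne_zero_iff.2 hw) (norm_ne_zero_iff.2 hz)]
    have e2 : ((p : ℂ) * (Complex.log (w / z) +
        ((Real.log ‖z‖ - Real.log r : ℝ) : ℂ)) + ((Real.log S : ℝ) : ℂ)).re =
        (p : ℝ) * ((Complex.log (w / z)).re + (Real.log ‖z‖ - Real.log r)) + Real.log S := by
      rw [Complex.add_re, Complex.ofReal_re, ← Complex.ofReal_natCast p, Complex.re_ofReal_mul,
        Complex.add_re, Complex.ofReal_re]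
    rw [e2, e1]
    ring

theorem p2_exp {p : ℕ} {x r S : ℝ} (hx : 0 < x) (hr : 0 < r) (hS : 0 < S) :
    Real.exp ((p : ℝ) * (Real.log x - Real.log r) + Real.log S) = (x / r) ^ p * S := by
  rw [Real.exp_add, Real.exp_log hS, ← Real.log_div hx.ne' hr.ne', Real.exp_nat_mul,
    Real.exp_log (by positivity)]

section

variable {E X : Type} [NormedAddCommGroup E] [NormedSpace ℂ E] [FiniteDimensional ℂ E]
  [MetricSpace X] [CompactSpace X] {A : Cha E X}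

theorem p2_qsm_mono {ρ : X → ℝ} {C C' ε₀ : ℝ} (h : QSM A ρ C ε₀) (hC : C ≤ C') :
    QSM A ρ C' ε₀ := by
  intro f z₀ r v H hr hv hvr hf hH hb
  refine (h f z₀ r v H hr hv hvr hf hH hb).trans (Real.exp_le_exp.2 ?_)
  have := mul_le_mul_of_nonneg_right hC (sq_nonneg (v * r))
  linarith

theorem p2_cont {C : ℝ} {g : ℂ → X} (hg : g ∈ BF A C) : Continuous g :=
  continuous_iff_continuousAt.2 fun z => (hg.1 z).1

/-- Jensen's inequality for one function -/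
theorem p2_jensen {ρ : X → ℝ} {Cρ ε₀ : ℝ} (hc : Continuous ρ) (h0 : ∀ x, 0 ≤ ρ x)
    (hC : 0 < Cρ) (hε₀ : 0 < ε₀) (hρ : QSM A ρ Cρ ε₀) {v : ℝ} (hv : 0 ≤ v) {g : ℂ → X}
    (hg : ∀ z, A.HolAt g z ∧ ∀ i, g z ∈ A.W i → ‖deriv (A.loc i g) z‖ ≤ v)
    {R₀ : ℝ} {z₁ : ℂ} (hz₁ : ‖z₁‖ ≤ R₀) (hmax : ∀ z, ρ (g z) ≤ ρ (g z₁)) (hpos : 0 < ρ (g z₁))
    {p : ℕ} {K : ℝ} (hK : ∀ᶠ z in 𝓝 (0 : ℂ), ρ (g z) ≤ K * ‖z‖ ^ (p + 1)) :
    (p : ℝ) * Real.log 2 ≤ 2 * Cρ * v ^ 2 * (2 * R₀ + 1) ^ 2 := by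
  have hR₀ : 0 ≤ R₀ := (norm_nonneg _).trans hz₁
  obtain ⟨r, hr⟩ : ∃ r : ℝ, r = 2 * R₀ + 1 := ⟨_, rfl⟩
  have hr0 : 0 < r := by linarith
  obtain ⟨S, hS⟩ : ∃ S : ℝ, S = ρ (g z₁) := ⟨_, rfl⟩
  have hS0 : 0 < S := by rw [hS]; exact hpos
  have hz₁0 : z₁ ≠ 0 := by
    rintro rfl
    have := hK.self_of_nhds
    rw [norm_zero, zero_pow (Nat.succ_ne_zero p), mul_zero] at this
    linarith
  have hz₁p : 0 < ‖z₁‖ := norm_pos_iff.2 hz₁0
  -- choose `ε`
  obtain ⟨e₁, he₁, hKe⟩ := Metric.eventually_nhds_iff.1 hK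
  obtain ⟨ε, hε0, hεe, hεz, hεK⟩ : ∃ ε : ℝ, 0 < ε ∧ ε < e₁ ∧ ε < ‖z₁‖ ∧
      ε * (|K| * r ^ p + 1) ≤ S := by
    have hD : 0 < |K| * r ^ p + 1 := by positivity
    refine ⟨min (e₁ / 2) (min (‖z₁‖ / 2) (S / (|K| * r ^ p + 1))), ?_, ?_, ?_, ?_⟩
    · exact lt_min (by positivity) (lt_min (by positivity) (by positivity))
    · exact (min_le_left _ _).trans_lt (by linarith)
    · exact ((min_le_right _ _).trans (min_le_left _ _)).trans_lt (by linarith)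
    · rw [← le_div_iff₀ hD]
      exact (min_le_right _ _).trans (min_le_right _ _)
  -- apply the global inequality
  have hclos := p2_ann_clos ε r
  have hne : ∀ z ∈ closure (p2_ann ε r), z ≠ 0 := by
    intro z hz
    have := (hclos hz).1
    exact norm_pos_iff.1 (lt_of_lt_of_le hε0 this)
  have hgl := qsm_gl hc h0 hC hε₀ hρ g r v (p2_ann ε r)
    (fun z => (p : ℝ) * (Real.log ‖z‖ - Real.log r) + Real.log S) hv (p2_ann_open ε r)
    (fun z hz => by rw [mem_ball, dist_zero_right]; exact hz.2)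
    (fun z _ => hg z)
    (by
      apply ContinuousOn.add _ continuousOn_const
      apply ContinuousOn.mul continuousOn_const
      apply ContinuousOn.sub _ continuousOn_const
      exact ContinuousOn.log continuous_norm.continuousOn
        (fun z hz => norm_ne_zero_iff.2 (hne z hz)))
    (fun z hz => p2_log p r S (hne z (subset_closure hz)))
    (by
      intro z hz
      rcases p2_ann_front hz with h | h
      · show ρ (g z) ≤ Real.exp ((p : ℝ) * (Real.log ‖z‖ - Real.log r) + Real.log S)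
        rw [h, p2_exp hε0 hr0 hS0]
        have q1 : ρ (g z) ≤ K * ‖z‖ ^ (p + 1) := hKe (by rw [dist_zero_right, h]; exact hεe)
        rw [h] at q1
        have hεp : 0 < ε ^ (p + 1) := by positivity
        have q2 : K * ε ^ (p + 1) ≤ |K| * ε ^ (p + 1) :=
          mul_le_mul_of_nonneg_right (le_abs_self K) hεp.le
        have q3 : |K| * ε ^ (p + 1) ≤ (ε / r) ^ p * S := by
          have q4 : |K| * ε ^ (p + 1) = (ε / r) ^ p * (ε * (|K| * r ^ p)) := by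
            rw [div_pow]
            field_simp
            ring
          rw [q4]
          apply mul_le_mul_of_nonneg_left _ (by positivity)
          linarith
        linarith
      · show ρ (g z) ≤ Real.exp ((p : ℝ) * (Real.log ‖z‖ - Real.log r) + Real.log S)
        rw [h, p2_exp hr0 hr0 hS0, div_self hr0.ne', one_pow, one_mul, hS]
        exact hmax z)
    z₁ ⟨hεz, by linarith⟩
  rw [← hS] at hgl
  rw [Real.exp_add, p2_exp hz₁p hr0 hS0] at hgl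
  -- conclusion
  have e1 : (‖z₁‖ / r) ^ p ≤ (1 / 2) ^ p := by
    apply pow_le_pow_left₀ (by positivity)
    rw [div_le_div_iff₀ hr0 (by norm_num)]
    linarith
  have e2 : Real.exp (2 * Cρ * v ^ 2 * (r ^ 2 - ‖z₁‖ ^ 2)) ≤ Real.exp (2 * Cρ * v ^ 2 * r ^ 2) := by
    apply Real.exp_le_exp.2
    apply mul_le_mul_of_nonneg_left _ (by positivity)
    have := sq_nonneg ‖z₁‖
    linarith
  have e3 : S ≤ (1 / 2) ^ p * S * Real.exp (2 * Cρ * v ^ 2 * r ^ 2) := by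
    refine hgl.trans ?_
    apply mul_le_mul _ e2 (Real.exp_pos _).le (by positivity)
    exact mul_le_mul_of_nonneg_right e1 hS0.le
  have e4 : (2 : ℝ) ^ p ≤ Real.exp (2 * Cρ * v ^ 2 * r ^ 2) := by
    have q1 : (1 / 2 : ℝ) ^ p * 2 ^ p = 1 := by
      rw [← mul_pow]; norm_num
    have q2 : S * 2 ^ p ≤ S * Real.exp (2 * Cρ * v ^ 2 * r ^ 2) := by
      calc S * 2 ^ p ≤ ((1 / 2) ^ p * S * Real.exp (2 * Cρ * v ^ 2 * r ^ 2)) * 2 ^ p :=
          mul_le_mul_of_nonneg_right e3 (by positivity)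
        _ = ((1 / 2) ^ p * 2 ^ p) * (S * Real.exp (2 * Cρ * v ^ 2 * r ^ 2)) := by ring
        _ = _ := by rw [q1, one_mul]
    exact le_of_mul_le_mul_left q2 hS0
  have e5 : Real.log ((2 : ℝ) ^ p) ≤ 2 * Cρ * v ^ 2 * r ^ 2 := by
    rw [Real.log_le_iff_le_exp (by positivity)]
    exact e4
  rw [Real.log_pow] at e5
  rw [← hr]
  exact e5

theorem ord_bound_pr {n : ℕ} {ι : X → Projectivization ℂ (Fin (n + 1) → ℂ)} (hι : Plift A n ι)
    {C : ℝ} {g : ℂ → X} (hg : g ∈ BF A C) (hper : DoublyPeriodic g) : ∃ N : ℕ,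
    ∀ (d : ℕ) (R : MvPolynomial (Fin (n + 1)) ℂ), R.IsHomogeneous d → ∀ (M : ℕ) (K : ℝ),
      (∀ᶠ z in 𝓝 (0 : ℂ), rhoR ι d R (g z) ≤ K * ‖z‖ ^ M) →
      (∃ z, MvPolynomial.eval (ι (g z)).rep R ≠ 0) → M ≤ N * (d + 1) := by
  obtain ⟨Λ, hΛ1, hΛ2, hΛ⟩ := hper
  obtain ⟨R₀, hR₀, hcov⟩ := p2_cover Λ
  obtain ⟨Cd, hCd, ε₀, hε₀, hq⟩ := rho_qsm (A := A) hι
  obtain ⟨N₁, hN₁⟩ := exists_nat_ge (4 * Cd * |C| ^ 2 * (2 * R₀ + 1) ^ 2)
  refine ⟨N₁ + 1, ?_⟩
  intro d R hR M K hK hne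
  rcases M with _ | p
  · exact Nat.zero_le _
  obtain ⟨z₀, hz₀⟩ := hne
  have hcont : Continuous (rhoR ι d R) := rho_cont (A := A) hι hR
  have hnn : ∀ x, 0 ≤ rhoR ι d R x := by
    obtain ⟨B, hB, h⟩ := rho_le (ι := ι) hR
    exact fun x => (h x).1
  have hgc : Continuous g := p2_cont hg
  obtain ⟨z₁, hz₁, hmax⟩ := p2_max hR₀ hcov (φ := fun z => rhoR ι d R (g z))
    (hcont.comp hgc) (fun l hl z => by rw [hΛ l hl z])
  have hpos : 0 < rhoR ι d R (g z₁) := by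
    have q1 : rhoR ι d R (g z₀) ≠ 0 := fun h => hz₀ (rho_zero.1 h)
    exact lt_of_lt_of_le (lt_of_le_of_ne (hnn _) (Ne.symm q1)) (hmax z₀)
  have hd1 : (0 : ℝ) ≤ d := Nat.cast_nonneg d
  have hmono : Cd * d ≤ Cd * (d + 1) := mul_le_mul_of_nonneg_left (by linarith) hCd.le
  have hJ := p2_jensen hcont hnn (Cρ := Cd * (d + 1)) (by positivity) hε₀
    (p2_qsm_mono (hq d R hR) hmono) (abs_nonneg C) (g := g)
    (fun z => ⟨hg.1 z, fun i hi => (hg.2 z i hi).trans (le_abs_self C)⟩) hz₁ hmax hpos hK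
  have hlog : (1 : ℝ) / 2 ≤ Real.log 2 := by
    have := Real.log_two_gt_d9
    linarith
  have hp0 : (0 : ℝ) ≤ p := Nat.cast_nonneg p
  have h1 : (p : ℝ) * (1 / 2) ≤ (p : ℝ) * Real.log 2 := mul_le_mul_of_nonneg_left hlog hp0
  have h2 : (p : ℝ) ≤ (4 * Cd * |C| ^ 2 * (2 * R₀ + 1) ^ 2) * (d + 1) := by
    calc (p : ℝ) = 2 * (p * (1 / 2)) := by ring
      _ ≤ 2 * (2 * (Cd * (d + 1)) * |C| ^ 2 * (2 * R₀ + 1) ^ 2) := by linarith
      _ = _ := by ring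
  have h3 : (p : ℝ) ≤ N₁ * (d + 1) :=
    h2.trans (mul_le_mul_of_nonneg_right hN₁ (by positivity))
  have h4 : p ≤ N₁ * (d + 1) := by exact_mod_cast h3
  calc p + 1 ≤ N₁ * (d + 1) + 1 := by omega
    _ ≤ (N₁ + 1) * (d + 1) := by nlinarith



end

end Pool.Agent.SL

namespace Pool.Agent.SL

alias ord_bound := ord_bound_pr

end Pool.Agent.SL
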