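import Pool.Agent.Lib_helper80.SL.Base
import Pool.Agent.Lib_helper80.SL.L.P1
import Pool.Agent.Lib_helper80.SL.L.P2

/-! # SL, block P3: existence of polynomial relations -/

set_option autoImplicit false
set_option linter.unusedVariables false
set_option linter.unusedSectionVars false

open Filter Topology Metric Set
open scoped Manifold ContDiff

namespace Pool.Agent.SL

open Pool.Agent.BR Pool.Agent.MBS

/-- more than `M` analytic functions: a combination vanishes to the order `M` -/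
theorem p3_comb {J : Type} [Fintype J] (h : J → ℂ → ℂ) (hh : ∀ j, AnalyticAt ℂ (h j) 0) (M : ℕ)
    (hM : M < Fintype.card J) : ∃ c : J → ℂ, c ≠ 0 ∧ ∃ K : ℝ,
      ∀ᶠ z in 𝓝 (0 : ℂ), ‖∑ j, c j * h j z‖ ≤ K * ‖z‖ ^ M := by
  choose p hp using hh
  let L : (J → ℂ) →ₗ[ℂ] (Fin M → ℂ) :=
    { toFun := fun c k => ∑ j, c j * (p j).coeff k
      map_add' := fun c c' => by
        funext k
        simp only [Pi.add_apply, add_mul, Finset.sum_add_distrib]
      map_smul' := fun a c => by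
        funext k
        simp only [Pi.smul_apply, smul_eq_mul, RingHom.id_apply, Finset.mul_sum, mul_assoc] }
  have hL : ∀ c k, L c k = ∑ j, c j * (p j).coeff k := fun c k => rfl
  have hker : LinearMap.ker L ≠ ⊥ := by
    apply LinearMap.ker_ne_bot_of_finrank_lt
    rw [Module.finrank_fin_fun, Module.finrank_fintype_fun_eq_card]
    exact hM
  obtain ⟨c, hc, hc0⟩ := (Submodule.ne_bot_iff _).1 hker
  refine ⟨c, hc0, ?_⟩
  have hLc : ∀ k : Fin M, ∑ j, c j * (p j).coeff k = 0 := by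
    intro k
    rw [← hL, LinearMap.mem_ker.1 hc]
    rfl
  have hO : (fun z => ∑ j, c j * h j z) =O[𝓝 0] fun z : ℂ => ‖z‖ ^ M := by
    have h1 : ∀ j, (fun z => c j * (h j z - (p j).partialSum M z)) =O[𝓝 0]
        fun z : ℂ => ‖z‖ ^ M := fun j => by
      have := (hp j).isBigO_sub_partialSum_pow M
      simp only [zero_add] at this
      exact this.const_mul_left (c j)
    have h2 := Asymptotics.IsBigO.sum (s := Finset.univ) fun j _ => h1 j
    refine h2.congr_left fun z => ?_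
    have h3 : ∑ j, c j * (p j).partialSum M z = 0 := by
      have h4 : ∀ j, c j * (p j).partialSum M z = ∑ k : Fin M, z ^ (k : ℕ) *
          (c j * (p j).coeff k) := fun j => by
        unfold FormalMultilinearSeries.partialSum
        rw [Finset.sum_range, Finset.mul_sum]
        refine Finset.sum_congr rfl fun k _ => ?_
        rw [FormalMultilinearSeries.apply_eq_pow_smul_coeff, smul_eq_mul]
        ring
      simp only [h4]
      rw [Finset.sum_comm]
      refine Finset.sum_eq_zero fun k _ => ?_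
      rw [← Finset.mul_sum, hLc k, mul_zero]
    rw [Finset.sum_apply]
    simp only [mul_sub, Finset.sum_sub_distrib, h3, sub_zero]
  obtain ⟨K, hK⟩ := hO.bound
  refine ⟨K, ?_⟩
  filter_upwards [hK] with z hz
  simpa using hz

/-- the exponent -/
noncomputable def p3_e {d : ℕ} (j : Fin d × Fin d) : Fin 2 →₀ ℕ :=
  Finsupp.single 0 (j.1 : ℕ) + Finsupp.single 1 (j.2 : ℕ)

theorem p3_e0 {d : ℕ} (j : Fin d × Fin d) : p3_e j 0 = j.1 := by
  simp [p3_e]

theorem p3_e1 {d : ℕ} (j : Fin d × Fin d) : p3_e j 1 = j.2 := by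
  simp [p3_e]

theorem p3_inj {d : ℕ} {i j : Fin d × Fin d} (h : p3_e i = p3_e j) : i = j := by
  have h0 := congrArg (fun e : Fin 2 →₀ ℕ => e 0) h
  have h1 := congrArg (fun e : Fin 2 →₀ ℕ => e 1) h
  simp only [p3_e0] at h0
  simp only [p3_e1] at h1
  exact Prod.ext (Fin.ext h0) (Fin.ext h1)

/-- the polynomial with given coefficients -/
noncomputable def p3_F {d : ℕ} (c : Fin d × Fin d → ℂ) : MvPolynomial (Fin 2) ℂ :=
  ∑ j, MvPolynomial.monomial (p3_e j) (c j)

theorem p3_F_ne {d : ℕ} {c : Fin d × Fin d → ℂ} (hc : c ≠ 0) : p3_F c ≠ 0 := by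
  intro h0
  apply hc
  funext i
  have h1 : MvPolynomial.coeff (p3_e i) (p3_F c) = c i := by
    unfold p3_F
    rw [MvPolynomial.coeff_sum, Finset.sum_eq_single i]
    · rw [MvPolynomial.coeff_monomial, if_pos rfl]
    · intro j _ hj
      rw [MvPolynomial.coeff_monomial, if_neg fun h => hj (p3_inj h)]
    · intro h
      exact absurd (Finset.mem_univ i) h
  rw [← h1, h0]
  simp

theorem p3_F_deg {d : ℕ} (c : Fin (d + 1) × Fin (d + 1) → ℂ) :
    (p3_F c).totalDegree ≤ 2 * d := by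
  unfold p3_F
  refine MvPolynomial.totalDegree_finsetSum_le fun j _ => ?_
  refine le_trans (MvPolynomial.totalDegree_monomial_le _ _) ?_
  rw [Finsupp.sum_fintype _ _ (fun _ => rfl), Fin.sum_univ_two, p3_e0, p3_e1]
  have h1 := j.1.2
  have h2 := j.2.2
  simp only [id_eq]
  omega

theorem p3_F_eval {d : ℕ} (c : Fin d × Fin d → ℂ) (X Y : ℂ) :
    MvPolynomial.eval ![X, Y] (p3_F c) = ∑ j, c j * (X ^ (j.1 : ℕ) * Y ^ (j.2 : ℕ)) := by
  unfold p3_F
  rw [map_sum]
  refine Finset.sum_congr rfl fun j _ => ?_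
  rw [MvPolynomial.eval_monomial, Finsupp.prod_fintype _ _ (fun _ => pow_zero _),
    Fin.prod_univ_two, p3_e0, p3_e1]
  rfl

variable {E X : Type} [NormedAddCommGroup E] [NormedSpace ℂ E] [FiniteDimensional ℂ E]
  [MetricSpace X] [CompactSpace X] {A : Cha E X}

theorem exists_rel_pr {n : ℕ} {ι : X → Projectivization ℂ (Fin (n + 1) → ℂ)} (hι : Plift A n ι)
    {C : ℝ} {g : ℂ → X} (hg : g ∈ BF A C) (hper : DoublyPeriodic g) (p q r : Fin (n + 1))
    (hp : (ι (g 0)).rep p ≠ 0) :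
    ∃ (Φ : MvPolynomial (Fin 2) ℂ) (D : ℕ), Φ ≠ 0 ∧ Φ.totalDegree ≤ D ∧
      ∀ z, MvPolynomial.eval (ι (g z)).rep (hz p q r D Φ) = 0 := by
  obtain ⟨N, hN⟩ := ord_bound hι hg hper
  obtain ⟨hx, hev⟩ := cr_an hι p q (hg.1 0) hp
  obtain ⟨hy, -⟩ := cr_an hι p r (hg.1 0) hp
  obtain ⟨c, hc, K, hK⟩ := p3_comb (J := Fin (2 * N + 1 + 1) × Fin (2 * N + 1 + 1))
    (fun j z => cr ι p q (g z) ^ (j.1 : ℕ) * cr ι p r (g z) ^ (j.2 : ℕ))
    (fun j => (hx.pow _).mul (hy.pow _)) (4 * N ^ 2 + 8 * N + 3) (by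
      rw [Fintype.card_prod, Fintype.card_fin]
      nlinarith)
  have hD : (p3_F c).totalDegree ≤ 2 * (2 * N + 1) := p3_F_deg c
  refine ⟨p3_F c, 2 * (2 * N + 1), p3_F_ne hc, hD, ?_⟩
  by_contra hcon
  push Not at hcon
  have h1 := hN _ _ (hz_hom p q r hD) (4 * N ^ 2 + 8 * N + 3) K (by
    filter_upwards [hK, hev] with z hz1 hz2
    refine le_trans ?_ hz1
    unfold rhoR
    rw [hz_eval p q r hD hz2]
    have e1 : MvPolynomial.eval ![(ι (g z)).rep q / (ι (g z)).rep p,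
        (ι (g z)).rep r / (ι (g z)).rep p] (p3_F c) =
        ∑ j : Fin (2 * N + 1 + 1) × Fin (2 * N + 1 + 1),
          c j * (cr ι p q (g z) ^ (j.1 : ℕ) * cr ι p r (g z) ^ (j.2 : ℕ)) := by
      rw [p3_F_eval]
      rfl
    rw [e1, norm_mul, norm_pow]
    have hv : ‖(ι (g z)).rep p‖ ≤
        ‖(WithLp.toLp 2 (ι (g z)).rep : EuclideanSpace ℂ (Fin (n + 1)))‖ :=
      PiLp.norm_apply_le (WithLp.toLp 2 (ι (g z)).rep : EuclideanSpace ℂ (Fin (n + 1))) p
    have hv0 : 0 < ‖(WithLp.toLp 2 (ι (g z)).rep : EuclideanSpace ℂ (Fin (n + 1)))‖ :=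
      lt_of_lt_of_le (norm_pos_iff.2 hz2) hv
    rw [div_le_iff₀ (pow_pos hv0 _), mul_comm]
    exact mul_le_mul_of_nonneg_left (pow_le_pow_left₀ (norm_nonneg _) hv _) (norm_nonneg _)) hcon
  nlinarith



end Pool.Agent.SL

namespace Pool.Agent.SL

alias exists_rel := exists_rel_pr

end Pool.Agent.SL
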