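import Pool.Agent.Lib_helper80.SL.Base
import Pool.Agent.Lib_helper80.SL.L.J4
import Pool.Agent.Lib_helper80.SL.L.P1
import Pool.Agent.Lib_helper80.SL.L.P3

/-! # Block P4: a minimal relation -/

set_option autoImplicit false
set_option linter.unusedVariables false
set_option linter.unusedSectionVars false

open Filter Topology Metric Set
open scoped Manifold ContDiff

namespace Pool.Agent.SL

open Pool.Agent.BR Pool.Agent.MBS

theorem p4_deg {Φ : MvPolynomial (Fin 2) ℂ} (h : MvPolynomial.pderiv 1 Φ ≠ 0) :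
    (MvPolynomial.pderiv 1 Φ).totalDegree < Φ.totalDegree := by
  classical
  have key : ∀ e ∈ (MvPolynomial.pderiv 1 Φ).support,
      (e.sum fun _ n => n) + 1 ≤ Φ.totalDegree := by
    intro e he
    rw [MvPolynomial.mem_support_iff, MvPolynomial.coeff_pderiv] at he
    have h1 : MvPolynomial.coeff (e + Finsupp.single 1 1) Φ ≠ 0 := left_ne_zero_of_mul he
    have h2 := MvPolynomial.le_totalDegree (MvPolynomial.mem_support_iff.2 h1)
    rw [Finsupp.sum_add_index' (fun _ => rfl) (fun _ _ _ => rfl),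
      Finsupp.sum_single_index rfl] at h2
    exact h2
  obtain ⟨e, he⟩ : (MvPolynomial.pderiv 1 Φ).support.Nonempty := by
    rw [Finset.nonempty_iff_ne_empty]
    intro h0
    exact h (MvPolynomial.support_eq_empty.1 h0)
  have hpos := key e he
  have hle : (MvPolynomial.pderiv 1 Φ).totalDegree ≤ Φ.totalDegree - 1 := by
    unfold MvPolynomial.totalDegree
    rw [Finset.sup_le_iff]
    intro e he
    have h1 := key e he
    unfold MvPolynomial.totalDegree at h1
    omega
  omega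

/-- the polynomial in one variable -/
noncomputable def p4_red (Φ : MvPolynomial (Fin 2) ℂ) : Polynomial ℂ :=
  ∑ e ∈ Φ.support, Polynomial.C (MvPolynomial.coeff e Φ) * Polynomial.X ^ (e 0)

theorem p4_supp {Φ : MvPolynomial (Fin 2) ℂ} (h : MvPolynomial.pderiv 1 Φ = 0) :
    ∀ e ∈ Φ.support, e 1 = 0 := by
  intro e he
  by_contra hne
  have h1 : e - Finsupp.single 1 1 + Finsupp.single 1 1 = e := by
    ext i
    fin_cases i
    · simp
    · simp only [Fin.mk_one, Finsupp.coe_add, Finsupp.coe_tsub, Pi.add_apply, Pi.sub_apply,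
        Finsupp.single_eq_same]
      omega
  have h2 := MvPolynomial.coeff_pderiv (i := 1) Φ (e - Finsupp.single 1 1)
  rw [h, MvPolynomial.coeff_zero, h1] at h2
  have h3 : MvPolynomial.coeff e Φ ≠ 0 := MvPolynomial.mem_support_iff.1 he
  exact mul_ne_zero h3 (Nat.cast_add_one_ne_zero _) h2.symm

theorem p4_eval {Φ : MvPolynomial (Fin 2) ℂ} (h : ∀ e ∈ Φ.support, e 1 = 0) (x y : ℂ) :
    MvPolynomial.eval ![x, y] Φ = (p4_red Φ).eval x := by
  rw [MvPolynomial.eval_eq', p4_red, Polynomial.eval_finsetSum]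
  refine Finset.sum_congr rfl fun e he => ?_
  rw [Fin.prod_univ_two, h e he]
  simp

theorem p4_ne {Φ : MvPolynomial (Fin 2) ℂ} (hΦ : Φ ≠ 0) (h : ∀ e ∈ Φ.support, e 1 = 0) :
    p4_red Φ ≠ 0 := by
  classical
  obtain ⟨e₀, he₀⟩ : Φ.support.Nonempty := by
    rw [Finset.nonempty_iff_ne_empty]
    intro h0
    exact hΦ (MvPolynomial.support_eq_empty.1 h0)
  intro h0
  have h1 : (p4_red Φ).coeff (e₀ 0) = MvPolynomial.coeff e₀ Φ := by
    rw [p4_red, Polynomial.finsetSum_coeff, Finset.sum_eq_single e₀]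
    · rw [Polynomial.coeff_C_mul, Polynomial.coeff_X_pow, if_pos rfl, mul_one]
    · intro e he hne
      rw [Polynomial.coeff_C_mul, Polynomial.coeff_X_pow, if_neg, mul_zero]
      intro heq
      apply hne
      ext i
      fin_cases i
      · exact heq.symm
      · show e 1 = e₀ 1
        rw [h e he, h e₀ he₀]
    · intro hn
      exact absurd he₀ hn
  rw [h0, Polynomial.coeff_zero] at h1
  exact MvPolynomial.mem_support_iff.1 he₀ h1.symm

section

variable {E X : Type} [NormedAddCommGroup E] [NormedSpace ℂ E] [FiniteDimensional ℂ E]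
  [MetricSpace X] [CompactSpace X] {A : Cha E X}

theorem min_rel_pr {n : ℕ} {ι : X → Projectivization ℂ (Fin (n + 1) → ℂ)} (hι : Plift A n ι)
    {C : ℝ} {g : ℂ → X} (hg : g ∈ BF A C) (hper : DoublyPeriodic g) (p q r : Fin (n + 1))
    (hp : (ι (g 0)).rep p ≠ 0) (hx : ¬ ∀ᶠ z in 𝓝 (0 : ℂ), cr ι p q (g z) = cr ι p q (g 0)) :
    ∃ (Φ : MvPolynomial (Fin 2) ℂ) (D : ℕ), Φ.totalDegree ≤ D ∧
      (∀ z, MvPolynomial.eval (ι (g z)).rep (hz p q r D Φ) = 0) ∧
      ∀ᶠ z in 𝓝[≠] (0 : ℂ),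
        MvPolynomial.eval ![cr ι p q (g z), cr ι p r (g z)] (MvPolynomial.pderiv 1 Φ) ≠ 0 := by
  classical
  have hgh : ∀ z, A.HolAt g z := hg.1
  obtain ⟨hxan, hpev⟩ := cr_an hι p q (hgh 0) hp
  obtain ⟨hyan, -⟩ := cr_an hι p r (hgh 0) hp
  -- the relations near `0`
  have hex : ∃ N : ℕ, ∃ Φ : MvPolynomial (Fin 2) ℂ, Φ ≠ 0 ∧ Φ.totalDegree = N ∧
      ∀ᶠ z in 𝓝 (0 : ℂ), MvPolynomial.eval ![cr ι p q (g z), cr ι p r (g z)] Φ = 0 := by
    obtain ⟨Φ, D, hΦ, hD, h0⟩ := exists_rel hι hg hper p q r hp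
    refine ⟨_, Φ, hΦ, rfl, ?_⟩
    filter_upwards [hpev] with z hz
    have h1 := h0 z
    rw [hz_eval p q r hD hz] at h1
    exact (mul_eq_zero.1 h1).resolve_left (pow_ne_zero _ hz)
  obtain ⟨Φ, hΦ, hdeg, hrel⟩ := Nat.find_spec hex
  have hmin : ∀ Ψ : MvPolynomial (Fin 2) ℂ, Ψ ≠ 0 →
      (∀ᶠ z in 𝓝 (0 : ℂ), MvPolynomial.eval ![cr ι p q (g z), cr ι p r (g z)] Ψ = 0) →
      Φ.totalDegree ≤ Ψ.totalDegree := by
    intro Ψ hΨ h1
    rw [hdeg]
    exact Nat.find_min' hex ⟨Ψ, hΨ, rfl, h1⟩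
  refine ⟨Φ, Φ.totalDegree, le_rfl, ?_, ?_⟩
  · refine poly_ident hι (hz_hom p q r le_rfl) hgh (z₀ := 0) ?_
    refine Filter.Eventually.frequently ?_
    refine Filter.Eventually.filter_mono nhdsWithin_le_nhds ?_
    filter_upwards [hpev, hrel] with z hz hz'
    rw [hz_eval p q r le_rfl hz]
    have h1 : MvPolynomial.eval ![(ι (g z)).rep q / (ι (g z)).rep p,
        (ι (g z)).rep r / (ι (g z)).rep p] Φ = 0 := hz'
    rw [h1, mul_zero]
  · have han : AnalyticAt ℂ (fun z =>
        MvPolynomial.eval ![cr ι p q (g z), cr ι p r (g z)] (MvPolynomial.pderiv 1 Φ)) 0 := by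
      have h1 : AnalyticAt ℂ (fun z => MvPolynomial.aeval ![cr ι p q (g z), cr ι p r (g z)]
          (MvPolynomial.pderiv 1 Φ)) 0 := by
        refine AnalyticAt.aeval_mvPolynomial ?_ _
        intro i
        fin_cases i
        · exact hxan
        · exact hyan
      refine h1.congr (Filter.Eventually.of_forall fun z => ?_)
      simp only [MvPolynomial.aeval_eq_eval]
    rcases han.eventually_eq_zero_or_eventually_ne_zero with h0 | h0
    swap
    · exact h0
    exfalso
    by_cases hder : MvPolynomial.pderiv 1 Φ = 0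
    · have hs := p4_supp hder
      have hne := p4_ne hΦ hs
      apply hx
      have hroot : ∀ᶠ z in 𝓝 (0 : ℂ), cr ι p q (g z) ∈ (p4_red Φ).roots.toFinset := by
        filter_upwards [hrel] with z hz
        rw [Multiset.mem_toFinset, Polynomial.mem_roots hne, Polynomial.IsRoot.def,
          ← p4_eval hs _ (cr ι p r (g z))]
        exact hz
      have hopen : ∀ᶠ w in 𝓝 (cr ι p q (g 0)),
          w ∉ (((p4_red Φ).roots.toFinset.erase (cr ι p q (g 0)) : Finset ℂ) : Set ℂ) := by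
        refine IsOpen.mem_nhds (Finset.finite_toSet _).isClosed.isOpen_compl ?_
        simp
      have hcont : Tendsto (fun z => cr ι p q (g z)) (𝓝 0) (𝓝 (cr ι p q (g 0))) :=
        hxan.continuousAt
      filter_upwards [hroot, hcont.eventually hopen] with z h1 h2
      by_contra h3
      apply h2
      rw [Finset.mem_coe, Finset.mem_erase]
      exact ⟨h3, h1⟩
    · have h1 := hmin _ hder h0
      have h2 := p4_deg hder
      omega

end



end Pool.Agent.SL

namespace Pool.Agent.SL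

alias min_rel := min_rel_pr

end Pool.Agent.SL
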