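import Pool.Agent.Lib_helper80.SL.Base
import Pool.Agent.Lib_helper80.SL.L.P1

/-! # Block P5: local factorisation -/

set_option autoImplicit false
set_option linter.unusedVariables false
set_option linter.unusedSectionVars false

open Filter Topology Metric Set
open scoped Manifold ContDiff

namespace Pool.Agent.SL

open Pool.Agent.BR Pool.Agent.MBS

/-- the derivative of a polynomial in two variables in the direction of the second variable -/
theorem p5_der (Φ : MvPolynomial (Fin 2) ℂ) (a b : ℂ) :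
    HasDerivAt (fun t : ℂ => MvPolynomial.eval ![a, t] Φ)
      (MvPolynomial.eval ![a, b] (MvPolynomial.pderiv 1 Φ)) b := by
  induction Φ using MvPolynomial.induction_on with
  | C c =>
    simp only [MvPolynomial.eval_C, MvPolynomial.pderiv_C, map_zero]
    exact hasDerivAt_const _ _
  | add P Q hP hQ =>
    simp only [map_add]
    exact hP.add hQ
  | mul_X P i hP =>
    have hX : HasDerivAt (fun t : ℂ => MvPolynomial.eval ![a, t] (MvPolynomial.X i))
        (MvPolynomial.eval ![a, b] (MvPolynomial.pderiv 1 (MvPolynomial.X i))) b := by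
      fin_cases i
      · simp only [Fin.zero_eta, MvPolynomial.eval_X, Matrix.cons_val_zero,
          MvPolynomial.pderiv_X, Pi.single_apply]
        simpa using hasDerivAt_const b a
      · simp only [Fin.mk_one, MvPolynomial.eval_X, Matrix.cons_val_one,
          MvPolynomial.pderiv_X, Pi.single_apply]
        simpa using hasDerivAt_id' b
    have h := hP.mul hX
    simp only [map_mul, MvPolynomial.pderiv_mul, map_add]
    exact h

/-- injectivity in the second variable -/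
theorem p5_inj (Φ : MvPolynomial (Fin 2) ℂ) (a b : ℂ)
    (h : MvPolynomial.eval ![a, b] (MvPolynomial.pderiv 1 Φ) ≠ 0) :
    ∀ᶠ q : (ℂ × ℂ) × ℂ in 𝓝 ((a, b), b),
      MvPolynomial.eval ![q.1.1, q.1.2] Φ = MvPolynomial.eval ![q.1.1, q.2] Φ → q.1.2 = q.2 := by
  -- the function of two variables
  obtain ⟨F, hF⟩ : ∃ F : ℂ × ℂ → ℂ, ∀ u v, F (u, v) = MvPolynomial.eval ![u, v] Φ :=
    ⟨fun v => MvPolynomial.eval ![v.1, v.2] Φ, fun u v => rfl⟩
  have hF' : F = fun v : ℂ × ℂ => MvPolynomial.aeval ![v.1, v.2] Φ := by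
    funext v
    rw [MvPolynomial.aeval_eq_eval, ← hF v.1 v.2]
  have han : AnalyticAt ℂ F (a, b) := by
    rw [hF']
    refine AnalyticAt.aeval_mvPolynomial ?_ _
    intro i
    fin_cases i
    · exact analyticAt_fst
    · exact analyticAt_snd
  clear hF'
  have hs := han.hasStrictFDerivAt
  set L := fderiv ℂ F (a, b) with hL
  have hder := p5_der Φ a b
  simp only [← hF] at hder ⊢
  have hL1 : L (0, 1) = MvPolynomial.eval ![a, b] (MvPolynomial.pderiv 1 Φ) := by
    have h1 : HasDerivAt (fun t : ℂ => ((a, t) : ℂ × ℂ)) (0, 1) b :=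
      (hasDerivAt_const b a).prodMk (hasDerivAt_id b)
    have h2 := HasFDerivAt.comp_hasDerivAt (f := fun t : ℂ => ((a, t) : ℂ × ℂ)) b
      hs.hasFDerivAt h1
    exact h2.unique hder
  have hpos : 0 < ‖L (0, 1)‖ / 2 := by
    rw [hL1]
    exact half_pos (norm_pos_iff.2 h)
  have hb := hs.isLittleO.def hpos
  have hT : Tendsto (fun q : (ℂ × ℂ) × ℂ => (((q.1.1, q.1.2) : ℂ × ℂ), ((q.1.1, q.2) : ℂ × ℂ)))
      (𝓝 ((a, b), b)) (𝓝 ((a, b), (a, b))) := by
    have : Continuous (fun q : (ℂ × ℂ) × ℂ =>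
        (((q.1.1, q.1.2) : ℂ × ℂ), ((q.1.1, q.2) : ℂ × ℂ))) := by fun_prop
    exact this.tendsto ((a, b), b)
  filter_upwards [hT.eventually hb] with q hq heq
  by_contra hne
  rw [heq, sub_self, zero_sub, norm_neg] at hq
  have e1 : ((q.1.1, q.1.2) : ℂ × ℂ) - (q.1.1, q.2) = (q.1.2 - q.2) • ((0, 1) : ℂ × ℂ) := by
    ext <;> simp
  rw [e1, map_smul, norm_smul, norm_smul] at hq
  have e2 : ‖((0, 1) : ℂ × ℂ)‖ = 1 := by
    simp [Prod.norm_def]
  rw [e2, mul_one] at hq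
  have h3 : 0 < ‖q.1.2 - q.2‖ := norm_pos_iff.2 (sub_ne_zero.2 hne)
  nlinarith

section

variable {E X : Type} [NormedAddCommGroup E] [NormedSpace ℂ E] [FiniteDimensional ℂ E]
  [MetricSpace X] [CompactSpace X] {A : Cha E X}

/-- continuity of the quotients of coordinates on `X` -/
theorem p5_cont {n : ℕ} {ι : X → Projectivization ℂ (Fin (n + 1) → ℂ)} (hι : Plift A n ι)
    {p : Fin (n + 1)} {x : X} (hp : (ι x).rep p ≠ 0) :
    (∀ᶠ y in 𝓝 x, (ι y).rep p ≠ 0) ∧ ∀ r, ContinuousAt (cr ι p r) x := by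
  obtain ⟨G, hG⟩ := hι.lift x
  obtain ⟨i, hi⟩ := A.cover x
  have hsrc : x ∈ (A.ch i).source := A.W_sub i (subset_closure hi)
  have hcG : ContinuousAt G x := by
    have h1 := (hG.self_of_nhds).2 i hsrc
    have h2 : ContinuousAt (fun y => G ((A.ch i).symm (A.ch i y))) x :=
      ContinuousAt.comp (f := A.ch i) (g := fun ξ => G ((A.ch i).symm ξ)) h1.continuousAt
        ((A.ch i).continuousAt hsrc)
    refine h2.congr ?_
    filter_upwards [(A.ch i).open_source.mem_nhds hsrc] with y hy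
    rw [(A.ch i).left_inv hy]
  obtain ⟨⟨h0, h1⟩, -⟩ := hG.self_of_nhds
  have hGp : G x p ≠ 0 := fun h => hp ((cr_lift h0 h1 p p).2.2 h)
  have hcj : ∀ j, ContinuousAt (fun y => G y j) x := fun j =>
    (continuous_apply j).continuousAt.comp hcG
  have hne : ∀ᶠ y in 𝓝 x, G y p ≠ 0 := (hcj p).eventually_ne hGp
  constructor
  · filter_upwards [hG, hne] with y hy hy2 hy3
    obtain ⟨⟨h0', h1'⟩, -⟩ := hy
    exact hy2 ((cr_lift h0' h1' p p).2.1 hy3)
  · intro r
    have h2 : ContinuousAt (fun y => G y r / G y p) x := (hcj r).div (hcj p) hGp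
    refine h2.congr ?_
    filter_upwards [hG] with y hy
    obtain ⟨⟨h0', h1'⟩, -⟩ := hy
    exact ((cr_lift h0' h1' p r).1).symm

theorem loc_factor_pr {n : ℕ} {ι : X → Projectivization ℂ (Fin (n + 1) → ℂ)} (hι : Plift A n ι)
    (hinj : Function.Injective ι) {g : ℂ → X} (hg : ∀ z, A.HolAt g z) {w₀ : ℂ}
    {p q : Fin (n + 1)} (hp : (ι (g w₀)).rep p ≠ 0)
    (hx : deriv (fun z => cr ι p q (g z)) w₀ ≠ 0) (Φ : Fin (n + 1) → MvPolynomial (Fin 2) ℂ)
    (d : Fin (n + 1) → ℕ) (hd : ∀ r, (Φ r).totalDegree ≤ d r)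
    (h0 : ∀ r z, MvPolynomial.eval (ι (g z)).rep (hz p q r (d r) (Φ r)) = 0)
    (h1 : ∀ r, MvPolynomial.eval ![cr ι p q (g w₀), cr ι p r (g w₀)]
      (MvPolynomial.pderiv 1 (Φ r)) ≠ 0) :
    ∃ V ∈ 𝓝 (g w₀), ∃ θ : X → ℂ,
      (∀ y ∈ V, (∀ r, MvPolynomial.eval (ι y).rep (hz p q r (d r) (Φ r)) = 0) → y = g (θ y)) ∧
      ∀ (f : ℂ → X) (z : ℂ), A.HolAt f z → f z ∈ V → AnalyticAt ℂ (fun w => θ (f w)) z := by
  classical
  set x₀ : X := g w₀ with hx₀
  obtain ⟨hxan, -⟩ := cr_an hι p q (hg w₀) hp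
  obtain ⟨hpX, hcX⟩ := p5_cont hι (x := x₀) hp
  -- the local inverse of the first coordinate
  set ψ : ℂ → ℂ := hxan.hasStrictDerivAt.localInverse _ _ _ hx with hψ
  have hψan : AnalyticAt ℂ ψ (cr ι p q x₀) := hxan.analyticAt_localInverse hx
  have hψ0 : ψ (cr ι p q x₀) = w₀ := HasStrictFDerivAt.localInverse_apply_image ..
  have hψr : ∀ᶠ c in 𝓝 (cr ι p q x₀), cr ι p q (g (ψ c)) = c :=
    hxan.hasStrictDerivAt.eventually_right_inverse hx
  have hψan' : ∀ᶠ c in 𝓝 (cr ι p q x₀), AnalyticAt ℂ ψ c := hψan.eventually_analyticAt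
  have hcg : ContinuousAt g w₀ := (hg w₀).1
  -- the map `θ`
  have hθc : ContinuousAt (fun y => ψ (cr ι p q y)) x₀ :=
    ContinuousAt.comp (f := cr ι p q) (g := ψ) hψan.continuousAt (hcX q)
  have hgθ : ContinuousAt (fun y => g (ψ (cr ι p q y))) x₀ := by
    refine ContinuousAt.comp (f := fun y => ψ (cr ι p q y)) (g := g) ?_ hθc
    simp only [hψ0]
    exact hcg
  have hgθ0 : g (ψ (cr ι p q x₀)) = x₀ := by rw [hψ0]
  have hpg : ∀ᶠ y in 𝓝 x₀, (ι (g (ψ (cr ι p q y)))).rep p ≠ 0 := by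
    have : Tendsto (fun y => g (ψ (cr ι p q y))) (𝓝 x₀) (𝓝 x₀) := by
      have := hgθ.tendsto
      rwa [hgθ0] at this
    exact this.eventually hpX
  have hcrg : ∀ r, Tendsto (fun y => cr ι p r (g (ψ (cr ι p q y)))) (𝓝 x₀)
      (𝓝 (cr ι p r x₀)) := by
    intro r
    have h2 : Tendsto (fun y => g (ψ (cr ι p q y))) (𝓝 x₀) (𝓝 x₀) := by
      have := hgθ.tendsto
      rwa [hgθ0] at this
    exact (hcX r).tendsto.comp h2
  -- uniqueness of the other coordinates
  have hun : ∀ᶠ y in 𝓝 x₀, ∀ r,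
      MvPolynomial.eval ![cr ι p q y, cr ι p r y] (Φ r) =
        MvPolynomial.eval ![cr ι p q y, cr ι p r (g (ψ (cr ι p q y)))] (Φ r) →
      cr ι p r y = cr ι p r (g (ψ (cr ι p q y))) := by
    rw [eventually_all]
    intro r
    have h3 := p5_inj (Φ r) _ _ (h1 r)
    have hT : Tendsto (fun y : X =>
        (((cr ι p q y, cr ι p r y) : ℂ × ℂ), cr ι p r (g (ψ (cr ι p q y)))))
        (𝓝 x₀) (𝓝 ((cr ι p q x₀, cr ι p r x₀), cr ι p r x₀)) :=
      ((hcX q).tendsto.prodMk_nhds (hcX r).tendsto).prodMk_nhds (hcrg r)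
    exact hT.eventually h3
  have hψr' : ∀ᶠ y in 𝓝 x₀, cr ι p q (g (ψ (cr ι p q y))) = cr ι p q y :=
    (hcX q).tendsto.eventually hψr
  have hψan2 : ∀ᶠ y in 𝓝 x₀, AnalyticAt ℂ ψ (cr ι p q y) :=
    (hcX q).tendsto.eventually hψan'
  refine ⟨{y | (ι y).rep p ≠ 0 ∧ (ι (g (ψ (cr ι p q y)))).rep p ≠ 0 ∧
      (∀ r, MvPolynomial.eval ![cr ι p q y, cr ι p r y] (Φ r) =
        MvPolynomial.eval ![cr ι p q y, cr ι p r (g (ψ (cr ι p q y)))] (Φ r) →
      cr ι p r y = cr ι p r (g (ψ (cr ι p q y)))) ∧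
      cr ι p q (g (ψ (cr ι p q y))) = cr ι p q y ∧ AnalyticAt ℂ ψ (cr ι p q y)}, ?_,
      fun y => ψ (cr ι p q y), ?_, ?_⟩
  · filter_upwards [hpX, hpg, hun, hψr', hψan2] with y a1 a2 a3 a4 a5
    exact ⟨a1, a2, a3, a4, a5⟩
  · rintro y ⟨a1, a2, a3, a4, a5⟩ hy
    apply hinj
    -- all quotients agree
    have hq : ∀ r, cr ι p r y = cr ι p r (g (ψ (cr ι p q y))) := by
      intro r
      apply a3 r
      have e1 : MvPolynomial.eval ![cr ι p q y, cr ι p r y] (Φ r) = 0 := by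
        have h4 := hy r
        rw [hz_eval p q r (hd r) a1] at h4
        exact (mul_eq_zero.1 h4).resolve_left (pow_ne_zero _ a1)
      have e2 : MvPolynomial.eval ![cr ι p q (g (ψ (cr ι p q y))),
          cr ι p r (g (ψ (cr ι p q y)))] (Φ r) = 0 := by
        have h4 := h0 r (ψ (cr ι p q y))
        rw [hz_eval p q r (hd r) a2] at h4
        exact (mul_eq_zero.1 h4).resolve_left (pow_ne_zero _ a2)
      rw [a4] at e2
      rw [e1, e2]
    set y' := g (ψ (cr ι p q y)) with hy'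
    rw [← Projectivization.mk_rep (ι y), ← Projectivization.mk_rep (ι y'),
      Projectivization.mk_eq_mk_iff']
    refine ⟨(ι y).rep p / (ι y').rep p, ?_⟩
    funext r
    have h5 := hq r
    unfold cr at h5
    simp only [Pi.smul_apply, smul_eq_mul]
    field_simp at h5 ⊢
    rw [h5]
  · rintro f z hf ⟨a1, a2, a3, a4, a5⟩
    obtain ⟨h6, -⟩ := cr_an hι p q hf a1
    exact AnalyticAt.fun_comp (f := fun w => cr ι p q (f w)) a5 h6

end



end Pool.Agent.SL

namespace Pool.Agent.SL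

alias loc_factor := loc_factor_pr

end Pool.Agent.SL
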