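import Pool.Agent.Lib_helper80.SL.Base
import Pool.Agent.Lib_helper80.SL.L.B1
import Pool.Agent.Lib_helper80.SL.L.P1
import Pool.Agent.Lib_helper80.SL.L.P4
import Pool.Agent.Lib_helper80.SL.L.P5

/-! # Block P6: algebraic equations of a doubly periodic curve -/

set_option autoImplicit false
set_option linter.unusedVariables false
set_option linter.unusedSectionVars false

open Filter Topology Metric Set
open scoped Manifold ContDiff

namespace Pool.Agent.SL

open Pool.Agent.BR Pool.Agent.MBS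

section

variable {E X : Type} [NormedAddCommGroup E] [NormedSpace ℂ E] [FiniteDimensional ℂ E]
  [MetricSpace X] [CompactSpace X] {A : Cha E X}

theorem p6_const (x : X) (z : ℂ) : A.HolAt (fun _ => x) z :=
  ⟨continuousAt_const, fun _ _ => analyticAt_const⟩

/-- equal quotients of the coordinates give equal points -/
theorem p6_eq {n : ℕ} {ι : X → Projectivization ℂ (Fin (n + 1) → ℂ)} {p : Fin (n + 1)} {x y : X}
    (hx : (ι x).rep p ≠ 0) (hy : (ι y).rep p ≠ 0) (h : ∀ q, cr ι p q x = cr ι p q y) :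
    ι x = ι y := by
  rw [← Projectivization.mk_rep (ι x), ← Projectivization.mk_rep (ι y),
    Projectivization.mk_eq_mk_iff']
  refine ⟨(ι x).rep p / (ι y).rep p, ?_⟩
  funext q
  have hq := h q
  unfold cr at hq
  rw [Pi.smul_apply, smul_eq_mul]
  rw [div_eq_div_iff hx hy] at hq
  field_simp
  linear_combination -hq

theorem exists_alg_pr {n : ℕ} {ι : X → Projectivization ℂ (Fin (n + 1) → ℂ)} (hι : Plift A n ι)
    (hinj : Function.Injective ι) {C : ℝ} {g : ℂ → X} (hg : g ∈ BF A C) (hper : DoublyPeriodic g)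
    (hne : ∃ z z', g z ≠ g z') :
    ∃ (d : Fin (n + 1) → ℕ) (R : Fin (n + 1) → MvPolynomial (Fin (n + 1)) ℂ),
      (∀ j, (R j).IsHomogeneous (d j)) ∧ (∀ j z, MvPolynomial.eval (ι (g z)).rep (R j) = 0) ∧
      ∃ (w₀ : ℂ) (V : Set X) (θ : X → ℂ), V ∈ 𝓝 (g w₀) ∧
        (∀ y ∈ V, (∀ j, MvPolynomial.eval (ι y).rep (R j) = 0) → y = g (θ y)) ∧
        ∀ (f : ℂ → X) (z : ℂ), A.HolAt f z → f z ∈ V → AnalyticAt ℂ (fun w => θ (f w)) z := by
  have hhol : ∀ z, A.HolAt g z := hg.1
  -- a coordinate which does not vanish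
  obtain ⟨p, hp⟩ : ∃ p, (ι (g 0)).rep p ≠ 0 := by
    by_contra hc
    push Not at hc
    exact (ι (g 0)).rep_nonzero (funext hc)
  -- a nonconstant quotient
  obtain ⟨q, hq⟩ : ∃ q, ¬ ∀ᶠ z in 𝓝 (0 : ℂ), cr ι p q (g z) = cr ι p q (g 0) := by
    by_contra hc
    push Not at hc
    have h1 : ∀ᶠ z in 𝓝 (0 : ℂ), ∀ q, cr ι p q (g z) = cr ι p q (g 0) :=
      Filter.eventually_all.2 hc
    have h2 : ∀ᶠ z in 𝓝 (0 : ℂ), (ι (g z)).rep p ≠ 0 := (cr_an hι p p (hhol 0) hp).2
    have h3 : g =ᶠ[𝓝 0] fun _ => g 0 := by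
      filter_upwards [h1, h2] with z hz1 hz2
      exact hinj (p6_eq hz2 hp hz1)
    have h4 : EqOn g (fun _ => g 0) univ :=
      hol_ident (A := A) isPreconnected_univ isOpen_univ (fun z _ => hhol z)
        (fun z _ => p6_const (g 0) z) (mem_univ 0) h3
    obtain ⟨z, z', hzz⟩ := hne
    exact hzz ((h4 (mem_univ z)).trans (h4 (mem_univ z')).symm)
  -- the relations
  have hrel := fun r => min_rel hι hg hper p q r hp hq
  choose Φ d hd h0 h1 using hrel
  -- a good point
  have han : AnalyticAt ℂ (fun z => cr ι p q (g z)) 0 := (cr_an hι p q (hhol 0) hp).1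
  have hder : ∀ᶠ z in 𝓝[≠] (0 : ℂ), deriv (fun z => cr ι p q (g z)) z ≠ 0 := by
    rcases han.deriv.eventually_eq_zero_or_eventually_ne_zero with h2 | h2
    · exfalso
      apply hq
      -- the quotient is constant near `0`
      obtain ⟨ε, hε, hball⟩ := Metric.eventually_nhds_iff_ball.1 (h2.and han.eventually_analyticAt)
      have hconst : ∀ z ∈ ball (0 : ℂ) ε, cr ι p q (g z) = cr ι p q (g 0) := by
        obtain ⟨c, hc⟩ := (isOpen_ball (x := (0 : ℂ)) (ε := ε)).exists_is_const_of_deriv_eq_zero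
          (convex_ball _ _).isPreconnected
          (f := fun z => cr ι p q (g z))
          (fun z hz => (hball z hz).2.differentiableAt.differentiableWithinAt)
          (fun z hz => (hball z hz).1)
        intro z hz
        rw [hc z hz, hc 0 (mem_ball_self hε)]
      exact Filter.eventually_of_mem (ball_mem_nhds 0 hε) hconst
    · exact h2
  have hrepp : ∀ᶠ z in 𝓝[≠] (0 : ℂ), (ι (g z)).rep p ≠ 0 :=
    (cr_an hι p p (hhol 0) hp).2.filter_mono nhdsWithin_le_nhds
  obtain ⟨w₀, hw1, hw2, hw3⟩ :=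
    (hder.and (hrepp.and (Filter.eventually_all.2 h1))).exists
  obtain ⟨V, hV, θ, hθ1, hθ2⟩ := loc_factor hι hinj hhol hw2 hw1 Φ d hd h0 hw3
  exact ⟨d, fun j => hz p q j (d j) (Φ j), fun j => hz_hom p q j (hd j), fun j z => h0 j z,
    w₀, V, θ, hV, hθ1, hθ2⟩



end

end Pool.Agent.SL

namespace Pool.Agent.SL

alias exists_alg := exists_alg_pr

end Pool.Agent.SL
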