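import Pool.Agent.Lib_helper80.SL.Base
import Pool.Agent.Lib_helper82.BR.Top
import Pool.Agent.Lib_helper80.SL.L.B1
import Pool.Agent.Lib_helper80.SL.L.B5
import Pool.Agent.Lib_helper80.SL.L.B8
import Pool.Agent.Lib_helper80.SL.L.C0
import Pool.Agent.Lib_helper80.SL.L.J4
import Pool.Agent.Lib_helper80.SL.L.F1
import Pool.Agent.Lib_helper80.SL.L.P6
import Pool.Agent.Lib_helper80.SL.L.P10

/-! # Block F3: entire curves factor through doubly periodic curves -/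

set_option autoImplicit false
set_option linter.unusedVariables false
set_option linter.unusedSectionVars false

open Filter Topology Metric Set
open scoped Manifold ContDiff

namespace Pool.Agent.SL

open Pool.Agent.BR Pool.Agent.MBS

section

variable {E X : Type} [NormedAddCommGroup E] [NormedSpace ℂ E] [FiniteDimensional ℂ E]
  [MetricSpace X] [CompactSpace X] {A : Cha E X}

/-- a curve with velocity zero is constant -/
theorem f3_const {f : ℂ → X} (hf : ∀ z, A.HolAt f z)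
    (h0 : ∀ z i, f z ∈ A.W i → deriv (A.loc i f) z = 0) (z z' : ℂ) : f z = f z' := by
  by_contra hne
  have hd : 0 < dist (f z) (f z') := dist_pos.2 hne
  obtain ⟨δ, hδ, hl⟩ := lequi A 0 (dist (f z) (f z')) hd
  obtain ⟨r, hr, hrz⟩ : ∃ r : ℝ, 0 < r ∧ ‖z - z'‖ < r * δ := by
    refine ⟨(‖z - z'‖ + 1) / δ, by positivity, ?_⟩
    rw [div_mul_cancel₀ _ hδ.ne']
    linarith
  have hrc : (r : ℂ) ≠ 0 := Complex.ofReal_ne_zero.2 hr.ne'
  have hHB : HB A (fun u => f ((r : ℂ) * u)) univ 0 := by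
    intro u _
    have han : AnalyticAt ℂ (fun u : ℂ => (r : ℂ) * u) u := by fun_prop
    obtain ⟨h1, h2⟩ := hol_comp (A := A) (f := f) han (hf ((r : ℂ) * u))
    refine ⟨h1, fun i hi => ?_⟩
    rw [h2 i (A.W_sub i (subset_closure hi)), h0 _ i hi, smul_zero, norm_zero]
  have h3 := hl _ univ convex_univ isOpen_univ hHB (z / r) (mem_univ _) (z' / r) (mem_univ _) (by
    rw [← sub_div, norm_div, Complex.norm_real, Real.norm_eq_abs, abs_of_pos hr,
      div_lt_iff₀ hr, mul_comm]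
    exact hrz)
  simp only [mul_div_cancel₀ _ hrc] at h3
  exact lt_irrefl _ h3

variable {k m s : ℕ} (D : IJ A k m s)

theorem f3_pp (f : ℂ → X) (z₀ z : ℂ) : D.PP (tr z₀ f) z = D.PP f (z + z₀) := by
  unfold IJ.PP tr
  congr 1
  funext u
  rw [add_assoc]

theorem f3_hol {f : ℂ → X} (hf : ∀ z, A.HolAt f z) (z₀ z : ℂ) :
    A.HolAt (tr z₀ f) z ∧ ∀ i, f (z + z₀) ∈ A.W i →
      deriv (A.loc i (tr z₀ f)) z = deriv (A.loc i f) (z + z₀) := by
  have han : AnalyticAt ℂ (fun u : ℂ => u + z₀) z := by fun_prop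
  obtain ⟨h1, h2⟩ := hol_comp (A := A) (f := f) han (hf (z + z₀))
  refine ⟨h1, fun i hi => ?_⟩
  have h3 := h2 i (A.W_sub i (subset_closure hi))
  have h4 : deriv (fun u : ℂ => u + z₀) z = 1 := by simp
  rw [h4, one_smul] at h3
  exact h3

theorem f3_zal {C₀ : ℝ} {f : ℂ → X} (hf : ∀ z, A.HolAt f z) (hz : D.Zal C₀ f univ) (z₀ : ℂ)
    (U : Set ℂ) : D.Zal C₀ (tr z₀ f) U := by
  intro z ρ B hρ hB _ hb i hi
  have hi' : f (z + z₀) ∈ A.W i := hi
  rw [(f3_hol hf z₀ z).2 i hi']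
  refine hz (z + z₀) ρ B hρ hB (subset_univ _) (fun w hw => ?_) i hi'
  have h1 := hb (w - z₀) (by
    rw [mem_ball, dist_eq_norm] at hw ⊢
    rwa [show w - z₀ - z = w - (z + z₀) by ring])
  rwa [f3_pp, sub_add_cancel] at h1

/-- the jet differentials do not vanish identically -/
theorem f3_ne {C₀ : ℝ} {f : ℂ → X} (hf : ∀ z, A.HolAt f z) (hne : ∃ z z', f z ≠ f z')
    (hz : D.Zal C₀ f univ) : ∃ z, D.PP f z ≠ 0 := by
  by_contra hc
  push Not at hc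
  obtain ⟨z, z', hzz⟩ := hne
  refine hzz (f3_const hf (fun z i hi => ?_) z z')
  have hb : ∀ ρ : ℝ, 0 < ρ → ‖deriv (A.loc i f) z‖ ≤ C₀ * (0 + 1 / ρ) := by
    intro ρ hρ
    refine hz z ρ 0 hρ le_rfl (subset_univ _) (fun w _ => ?_) i hi
    rw [hc w, norm_zero]
    positivity
  have hlim : Tendsto (fun ρ : ℝ => C₀ * (0 + 1 / ρ)) atTop (𝓝 0) := by
    have h1 : Tendsto (fun ρ : ℝ => 1 / ρ) atTop (𝓝 0) := by
      simpa using tendsto_inv_atTop_zero (𝕜 := ℝ)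
    have h2 := (h1.const_add 0).const_mul C₀
    simpa using h2
  have h3 : ‖deriv (A.loc i f) z‖ ≤ 0 :=
    ge_of_tendsto hlim ((eventually_gt_atTop 0).mono hb)
  exact norm_le_zero_iff.1 h3

/-- finite families: something that happens for arbitrarily large numbers for some member -/
theorem f3_pigeon {ι : Type} [Finite ι] {P : ι → ℕ → Prop} (h : ∀ N : ℕ, ∃ i, P i N) :
    ∃ i, ∀ N : ℕ, ∃ M, N ≤ M ∧ P i M := by
  by_contra hc
  push Not at hc
  choose N hN using hc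
  obtain ⟨b, hb⟩ := (Set.finite_range N).bddAbove
  obtain ⟨i, hi⟩ := h b
  exact hN i b (hb ⟨i, rfl⟩) hi

theorem f3_freq {ι : Type} [Finite ι] {P : ι → ℂ → Prop} (h : ∀ z, ∃ i, P i z) :
    ∃ i, ∃ᶠ z in 𝓝[≠] (0 : ℂ), P i z := by
  by_contra hc
  push Not at hc
  have h1 : ∀ i, ∀ᶠ z in 𝓝[≠] (0 : ℂ), ¬ P i z := hc
  have h2 : ∀ᶠ z in 𝓝[≠] (0 : ℂ), ∀ i, ¬ P i z := Filter.eventually_all.2 h1
  obtain ⟨z, hz⟩ := h2.exists
  obtain ⟨i, hi⟩ := h z
  exact hz i hi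

/-- the data of a member of the family -/
theorem f3_data {C : ℝ} (hC : 0 < C) {L k' : ℕ}
    (F : A.Frm L k') (hk' : 0 < k') {n : ℕ} {ι : X → Projectivization ℂ (Fin (n + 1) → ℂ)}
    (hι : Plift A n ι) (hinj : Function.Injective ι) {h : ℂ → X} (hh : h ∈ D.Fam C) :
    ∃ (d : Fin (n + 1) → ℕ) (R : Fin (n + 1) → MvPolynomial (Fin (n + 1)) ℂ),
      (∀ j, (R j).IsHomogeneous (d j)) ∧ (∀ j z, MvPolynomial.eval (ι (h z)).rep (R j) = 0) ∧
      ∃ (w₀ : ℂ) (δ : ℝ) (θ : X → ℂ), 0 < δ ∧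
        (∀ y, dist y (h w₀) < δ → (∀ j, MvPolynomial.eval (ι y).rep (R j) = 0) → y = h (θ y)) ∧
        ∀ (f : ℂ → X) (z : ℂ), A.HolAt f z → dist (f z) (h w₀) < δ →
          AnalyticAt ℂ (fun w => θ (f w)) z := by
  obtain ⟨c, hc, hcK⟩ := fam_kk D C
  have hKK := hcK hh
  have hper : DoublyPeriodic h := kk_periodic F hk' hc hC hKK
  have hne : ∃ z z', h z ≠ h z' := by
    by_contra hcc
    push Not at hcc
    obtain ⟨i, hi⟩ := A.cover (h 0)
    have h1 := (hKK.2 0 i hi).1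
    have h2 : A.loc i h = fun _ => A.ch i (h 0) := by
      funext z
      show A.ch i (h z) = A.ch i (h 0)
      rw [hcc z 0]
    rw [h2, deriv_const, norm_zero] at h1
    linarith
  obtain ⟨d, R, h1, h2, w₀, V, θ, hV, h3, h4⟩ := exists_alg hι hinj hh.1 hper hne
  obtain ⟨δ, hδ, hball⟩ := Metric.mem_nhds_iff.1 hV
  exact ⟨d, R, h1, h2, w₀, δ, θ, hδ, fun y hy => h3 y (hball hy),
    fun f z hf hz => h4 f z hf (hball hz)⟩

theorem entire_factor_pr {lB LB : ℝ} (hB : BLip A lB LB) {C₀ : ℝ} (hC₀ : 0 < C₀) {L k' : ℕ}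
    (F : A.Frm L k') (hk' : 0 < k') {n : ℕ} {ι : X → Projectivization ℂ (Fin (n + 1) → ℂ)}
    (hι : Plift A n ι) (hinj : Function.Injective ι) {f : ℂ → X} (hf : ∀ z, A.HolAt f z)
    (hne : ∃ z z', f z ≠ f z') (hz : D.Zal C₀ f univ) :
    ∃ g ∈ D.Fam (10 * C₀), ∃ P : ℂ → ℂ, Differentiable ℂ P ∧ ∀ z, f z = g (P z) := by
  have hC : 0 < 10 * C₀ := by positivity
  obtain ⟨𝒢, hfin, hsub, heq⟩ := fam_finite D hC F hk'
  obtain ⟨Rr, hRr⟩ := fam_reach D hC F hk'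
  have : Finite 𝒢 := hfin.to_subtype
  have hdata := fun h : 𝒢 => f3_data D hC F hk' hι hinj (hsub h.2)
  choose d R hhom hzero w₀ δ θ hδ hθ1 hθ2 using hdata
  obtain ⟨ρ, Cq, εq, Lp, hCq, hεq, hgood, hρ0⟩ := exists_good hB hι (J := 𝒢 × Fin (n + 1))
    (fun j => d j.1 j.2) (fun j => R j.1 j.2) (fun j => hhom j.1 j.2)
  -- the size `ε`
  obtain ⟨ε, hε, hε1, hε2⟩ : ∃ ε : ℝ, 0 < ε ∧ Rr ≤ 1 / ε ∧ ∀ h : 𝒢, ε < δ h := by
    obtain ⟨ε₁, hε₁, h1⟩ : ∃ ε₁ : ℝ, 0 < ε₁ ∧ ∀ h : 𝒢, ε₁ < δ h := by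
      have h2 : ∀ᶠ x in 𝓝[>] (0 : ℝ), ∀ h : 𝒢, x < δ h := by
        refine Filter.eventually_all.2 fun h => ?_
        exact (eventually_lt_nhds (hδ h)).filter_mono nhdsWithin_le_nhds
      obtain ⟨x, hx, hx0⟩ := (h2.and self_mem_nhdsWithin).exists
      exact ⟨x, hx0, hx⟩
    refine ⟨min ε₁ (1 / (|Rr| + 1)), lt_min hε₁ (by positivity), ?_, fun h =>
      lt_of_le_of_lt (min_le_left _ _) (h1 h)⟩
    calc Rr ≤ |Rr| + 1 := by linarith [le_abs_self Rr]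
      _ = 1 / (1 / (|Rr| + 1)) := by rw [one_div_one_div]
      _ ≤ 1 / min ε₁ (1 / (|Rr| + 1)) :=
          one_div_le_one_div_of_le (lt_min hε₁ (by positivity)) (min_le_right _ _)
  obtain ⟨T, hT, A₀, hwin⟩ := window_thm D hB hC₀ F hk' ρ hCq hεq hgood ε hε
  obtain ⟨zs, hzs⟩ := f3_ne D hf hne hz
  have hmpos : (0 : ℝ) < m := by exact_mod_cast D.pos
  -- every point
  have hpt : ∀ z₀ : ℂ, ∃ h : 𝒢, (∀ j, MvPolynomial.eval (ι (f z₀)).rep (R h j) = 0) ∧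
      ∃ z, dist (f z) ((h : ℂ → X) (w₀ h)) < δ h := by
    intro z₀
    have hstep : ∀ N : ℕ, ∃ h : 𝒢, (∀ j, ρ (h, j) (f z₀) ≤ Real.exp (-(N : ℝ))) ∧
        ∃ z, dist (f z) ((h : ℂ → X) (w₀ h)) < δ h := by
      intro N
      obtain ⟨a₀, ha₀, hNa⟩ : ∃ a₀ : ℝ, A₀ ≤ a₀ ∧ (N : ℝ) ≤ a₀ :=
        ⟨max A₀ N, le_max_left _ _, le_max_right _ _⟩
      -- a large radius
      obtain ⟨t₀, ht1, ht2⟩ : ∃ t₀ : ℝ, ‖zs - z₀‖ ≤ Real.exp t₀ ∧
          Real.exp (m * (a₀ - t₀)) ≤ ‖D.PP f zs‖ := by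
        have h1 : ∀ᶠ t₀ in atTop, ‖zs - z₀‖ ≤ Real.exp t₀ :=
          Real.tendsto_exp_atTop.eventually_ge_atTop _
        have h2 : Tendsto (fun t₀ : ℝ => Real.exp (m * (a₀ - t₀))) atTop (𝓝 0) := by
          apply Real.tendsto_exp_atBot.comp
          apply Tendsto.const_mul_atBot hmpos
          exact tendsto_atBot_add_const_left _ _ tendsto_neg_atTop_atBot
        have h3 : ∀ᶠ t₀ in atTop, Real.exp (m * (a₀ - t₀)) ≤ ‖D.PP f zs‖ :=
          (h2.eventually_lt_const (norm_pos_iff.2 hzs)).mono fun _ h => h.le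
        obtain ⟨t₀, h4, h5⟩ := (h1.and h3).exists
        exact ⟨t₀, h4, h5⟩
      obtain ⟨g, hg, hg1, hg2⟩ := hwin a₀ t₀ (tr z₀ f) ha₀ (fun z _ => (f3_hol hf z₀ z).1)
        (f3_zal D hf hz z₀ _) ⟨zs - z₀, ht1, by rw [f3_pp, sub_add_cancel]; exact ht2⟩
      obtain ⟨h, hh, a, b, ha, hab⟩ := heq g hg
      refine ⟨⟨h, hh⟩, fun j => ?_, ?_⟩
      · have h1 := hg1 (⟨h, hh⟩, j) (fun w => by
          rw [hρ0]
          show MvPolynomial.eval (ι (g w)).rep (R ⟨h, hh⟩ j) = 0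
          rw [hab w]
          exact hzero ⟨h, hh⟩ j (a * w + b))
        have h2 : tr z₀ f 0 = f z₀ := by
          show f (0 + z₀) = f z₀
          rw [zero_add]
        rw [h2] at h1
        refine h1.trans (Real.exp_le_exp.2 ?_)
        linarith
      · have ha0 : a ≠ 0 := by
          rintro rfl
          simp at ha
        obtain ⟨u, hu1, hu2⟩ := hRr g hg ((w₀ ⟨h, hh⟩ - b) / a)
        obtain ⟨z, _, hz1⟩ := hg2 u (hu1.trans hε1)
        refine ⟨z + z₀, ?_⟩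
        have h3 : g u = h (w₀ ⟨h, hh⟩) := by
          rw [hu2, hab, mul_div_cancel₀ _ ha0, sub_add_cancel]
        rw [h3] at hz1
        exact lt_of_le_of_lt hz1 (hε2 ⟨h, hh⟩)
    obtain ⟨h, hh⟩ := f3_pigeon hstep
    refine ⟨h, fun j => ?_, ?_⟩
    · rw [← hρ0 (h, j)]
      have h1 : ρ (h, j) (f z₀) ≤ 0 := by
        refine ge_of_tendsto (x := atTop) (f := fun N : ℕ => Real.exp (-(N : ℝ))) ?_ ?_
        · exact Real.tendsto_exp_neg_atTop_nhds_zero.comp tendsto_natCast_atTop_atTop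
        · refine Filter.Eventually.of_forall fun N => ?_
          obtain ⟨M, hM, hM1, _⟩ := hh N
          refine (hM1 j).trans (Real.exp_le_exp.2 ?_)
          have : (N : ℝ) ≤ M := by exact_mod_cast hM
          linarith
      exact le_antisymm h1 ((hgood (h, j)).nonneg _)
    · obtain ⟨M, _, _, hM2⟩ := hh 0
      exact hM2
  obtain ⟨h, hfreq⟩ := f3_freq hpt
  have hvan : ∀ j z, MvPolynomial.eval (ι (f z)).rep (R h j) = 0 := fun j =>
    poly_ident hι (hhom h j) hf (z₀ := 0) (hfreq.mono fun z hz => hz.1 j)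
  obtain ⟨_, _, z₁, hz₁⟩ := hfreq.exists
  have hnear : ∀ᶠ z in 𝓝 z₁, dist (f z) ((h : ℂ → X) (w₀ h)) < δ h :=
    ((hf z₁).1.dist continuousAt_const).eventually_lt continuousAt_const hz₁
  obtain ⟨P, hP1, hP2⟩ := continuation D (hsub h.2) hf hne (hθ2 h f z₁ (hf z₁) hz₁)
    (hnear.mono fun z hz => hθ1 h (f z) hz fun j => hvan j z)
  exact ⟨h, hsub h.2, P, hP1, hP2⟩



end

end Pool.Agent.SL

namespace Pool.Agent.SL

alias entire_factor := entire_factor_pr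

end Pool.Agent.SL
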