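import Pool.Agent.Lib_helper80.SL.Base
import Pool.Agent.Lib_helper64.SS.B.HOL

/-! # StrongLang, block M1: `exists_plift`, `holAt_ball` -/

set_option autoImplicit false
set_option linter.unusedVariables false
set_option linter.unusedSectionVars false

open Filter Topology Metric Set
open scoped Manifold ContDiff

namespace Pool.Agent.SL

open Pool.Agent.BR Pool.Agent.MBS

section man

variable {E X : Type} [NormedAddCommGroup E] [NormedSpace ℂ E] [FiniteDimensional ℂ E]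
  [MetricSpace X] [CompactSpace X] [ChartedSpace E X] [IsManifold 𝓘(ℂ, E) ω X]

theorem exists_plift_pr (A : Cha E X) (hA : ∀ i, ∃ y, A.ch i = chartAt E y) {n : ℕ}
    {ι : X → Projectivization ℂ (Fin (n + 1) → ℂ)}
    (hl : ∀ x : X, ∃ g : X → Fin (n + 1) → ℂ, SS.IsImmersiveLift E X ι g x) : Plift A n ι := by
  have : IsManifold 𝓘(ℂ, E) 1 X := IsManifold.of_le (n := ω) le_top
  refine ⟨fun x => ?_⟩
  obtain ⟨g, hg, hg', -⟩ := hl x
  refine ⟨g, ?_⟩
  filter_upwards [eventually_eventually_nhds.2 hg, hg'] with x' hx hx'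
  refine ⟨hx', fun i hi => ?_⟩
  obtain ⟨y, hy⟩ := hA i
  have hmem : A.ch i x' ∈ (A.ch i).target := (A.ch i).map_source hi
  have hc : ContinuousAt (A.ch i).symm (A.ch i x') :=
    (A.ch i).continuousAt_symm hmem
  have h1 : ∀ᶠ ξ in 𝓝 (A.ch i x'),
      MDifferentiableAt 𝓘(ℂ, E) 𝓘(ℂ, Fin (n + 1) → ℂ) g ((A.ch i).symm ξ) := by
    have h2 : Tendsto (A.ch i).symm (𝓝 (A.ch i x')) (𝓝 x') := by
      have h3 := hc.tendsto
      rwa [(A.ch i).left_inv hi] at h3
    exact h2.eventually hx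
  have h2 : ∀ᶠ ξ in 𝓝 (A.ch i x'), DifferentiableAt ℂ (fun ξ => g ((A.ch i).symm ξ)) ξ := by
    filter_upwards [h1, (A.ch i).open_target.mem_nhds hmem] with ξ h3 h4
    have h5 : MDifferentiableAt 𝓘(ℂ, E) 𝓘(ℂ, E) (A.ch i).symm ξ := by
      have h6 : ξ ∈ (chartAt E y).target := by rw [← hy]; exact h4
      rw [hy]
      exact mdifferentiableAt_atlas_symm (I := 𝓘(ℂ, E)) (chart_mem_atlas E y) h6
    have h7 : MDifferentiableAt 𝓘(ℂ, E) 𝓘(ℂ, Fin (n + 1) → ℂ) (g ∘ (A.ch i).symm) ξ :=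
      h3.comp ξ h5
    rw [mdifferentiableAt_iff_differentiableAt] at h7
    exact h7
  obtain ⟨U, hU, hUo, hxU⟩ := _root_.eventually_nhds_iff.1 h2
  exact SS.hol_analytic hUo hU hxU

theorem holAt_ball_pr (A : Cha E X) (hA : ∀ i, ∃ y, A.ch i = chartAt E y) {f : ℂ → X} {U : Set ℂ}
    (hU : IsOpen U) (hf : MDifferentiableOn 𝓘(ℂ, ℂ) 𝓘(ℂ, E) f U) : ∀ z ∈ U, A.HolAt f z := by
  have : IsManifold 𝓘(ℂ, E) 1 X := IsManifold.of_le (n := ω) le_top
  have : CompleteSpace E := FiniteDimensional.complete ℂ E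
  have hm : ∀ z ∈ U, MDifferentiableAt 𝓘(ℂ, ℂ) 𝓘(ℂ, E) f z := fun z hz =>
    (hf z hz).mdifferentiableAt (hU.mem_nhds hz)
  intro t ht
  refine ⟨(hm t ht).continuousAt, fun i hi => ?_⟩
  obtain ⟨y, hy⟩ := hA i
  have h5 : ∀ᶠ s in 𝓝 t, f s ∈ (A.ch i).source :=
    (hm t ht).continuousAt.eventually ((A.ch i).open_source.mem_nhds hi)
  have hd : ∀ᶠ s in 𝓝 t, DifferentiableAt ℂ (A.loc i f) s := by
    filter_upwards [hU.mem_nhds ht, h5] with s hs hs5
    have hs' : f s ∈ (chartAt E y).source := by rw [← hy]; exact hs5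
    have h1 : MDifferentiableAt 𝓘(ℂ, E) 𝓘(ℂ, E) (chartAt E y) (f s) :=
      mdifferentiableAt_atlas (I := 𝓘(ℂ, E)) (chart_mem_atlas E y) hs'
    have h2 : MDifferentiableAt 𝓘(ℂ, ℂ) 𝓘(ℂ, E) (chartAt E y ∘ f) s := h1.comp s (hm s hs)
    rw [mdifferentiableAt_iff_differentiableAt] at h2
    have h3 : A.loc i f = chartAt E y ∘ f := by
      funext r
      rw [Cha.loc, hy]
      rfl
    rw [h3]
    exact h2
  exact Complex.analyticAt_iff_eventually_differentiableAt.2 hd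




end man

end Pool.Agent.SL

namespace Pool.Agent.SL

alias exists_plift := exists_plift_pr
alias holAt_ball := holAt_ball_pr

end Pool.Agent.SL
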