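import Pool.Agent.Lib_helper80.SL.Base
import Pool.Agent.Lib_helper82.BR.B.SYM

/-! Block M2 (helper76): velocities in a compact set, nonzero velocity (MP_45e720_ag). -/

set_option autoImplicit false
set_option linter.unusedVariables false
set_option linter.unusedSectionVars false

open Filter Topology Metric Set
open scoped Manifold ContDiff

namespace Pool.Agent.SL

open Pool.Agent.BR Pool.Agent.MBS

section man

variable {E X : Type} [NormedAddCommGroup E] [NormedSpace ℂ E] [FiniteDimensional ℂ E]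
  [MetricSpace X] [CompactSpace X] [ChartedSpace E X] [IsManifold 𝓘(ℂ, E) ω X]

/-- a curve which is holomorphic at `z` in the charts is differentiable at `z` -/
theorem m2_mdiff (A : Cha E X) (hA : ∀ i, ∃ y, A.ch i = chartAt E y) {f : ℂ → X} {t : ℂ}
    (h : A.HolAt f t) : MDifferentiableAt 𝓘(ℂ, ℂ) 𝓘(ℂ, E) f t := by
  have : IsManifold 𝓘(ℂ, E) 1 X := IsManifold.of_le (n := ω) le_top
  obtain ⟨i, hi⟩ := A.cover (f t)
  have hsrc : f t ∈ (A.ch i).source := A.W_sub i (subset_closure hi)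
  obtain ⟨y, hy⟩ := hA i
  have h1 : MDifferentiableAt 𝓘(ℂ, ℂ) 𝓘(ℂ, E) (A.loc i f) t :=
    ((h.2 i hsrc).differentiableAt).mdifferentiableAt
  have h2 : MDifferentiableAt 𝓘(ℂ, E) 𝓘(ℂ, E) (chartAt E y).symm (A.loc i f t) := by
    refine mdifferentiableAt_atlas_symm (I := 𝓘(ℂ, E)) (chart_mem_atlas E y) ?_
    rw [← hy]
    exact (A.ch i).map_source hsrc
  have h3 : MDifferentiableAt 𝓘(ℂ, ℂ) 𝓘(ℂ, E) ((chartAt E y).symm ∘ A.loc i f) t :=
    h2.comp t h1
  refine h3.congr_of_eventuallyEq ?_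
  have h4 : ∀ᶠ s in 𝓝 t, f s ∈ (A.ch i).source :=
    h.1.eventually ((A.ch i).open_source.mem_nhds hsrc)
  filter_upwards [h4] with s hs
  rw [← hy]
  exact ((A.ch i).left_inv hs).symm

/-- the fibre coordinate of the velocity in the trivialization over a chart -/
theorem m2_coord (f : ℂ → X) (y : X) (z : ℂ) (hf : MDifferentiableAt 𝓘(ℂ, ℂ) 𝓘(ℂ, E) f z)
    (hz : f z ∈ (chartAt E y).source) :
    trivializationAt E (TangentSpace 𝓘(ℂ, E)) y (BrodyRigid.velocity (E := E) f z) =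
      (f z, deriv (fun w => chartAt E y (f w)) z) := by
  have : IsManifold 𝓘(ℂ, E) 1 X := IsManifold.of_le (n := ω) le_top
  have hb : f z ∈ (trivializationAt E (TangentSpace 𝓘(ℂ, E)) y).baseSet := hz
  have h1 := TangentBundle.continuousLinearMapAt_trivializationAt (I := 𝓘(ℂ, E)) hz
  have h2 : mfderiv 𝓘(ℂ, ℂ) 𝓘(ℂ, E) (extChartAt 𝓘(ℂ, E) y ∘ f) z =
      (mfderiv 𝓘(ℂ, E) 𝓘(ℂ, E) (extChartAt 𝓘(ℂ, E) y) (f z)).comp
        (mfderiv 𝓘(ℂ, ℂ) 𝓘(ℂ, E) f z) :=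
    mfderiv_comp z (mdifferentiableAt_extChartAt hz) hf
  have h3 : deriv (fun w => chartAt E y (f w)) z =
      mfderiv 𝓘(ℂ, ℂ) 𝓘(ℂ, E) (extChartAt 𝓘(ℂ, E) y ∘ f) z (1 : ℂ) := by
    rw [mfderiv_eq_fderiv]
    rfl
  have h4 := (trivializationAt E (TangentSpace 𝓘(ℂ, E)) y).continuousLinearMapAt_apply_of_mem
    ℂ hb (mfderiv 𝓘(ℂ, ℂ) 𝓘(ℂ, E) f z (1 : ℂ))
  refine Prod.ext ((trivializationAt E (TangentSpace 𝓘(ℂ, E)) y).coe_fst' hb) ?_
  rw [h3, h2]
  rw [h1] at h4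
  exact h4.symm

theorem vel_compact_pr (A : Cha E X) (hA : ∀ i, ∃ y, A.ch i = chartAt E y) (C : ℝ) :
    ∃ K : Set (TangentBundle 𝓘(ℂ, E) X), IsCompact K ∧ ∀ f : ℂ → X, A.HolAt f 0 →
      (∀ i, f 0 ∈ A.W i → ‖deriv (A.loc i f) 0‖ ≤ C) → BrodyRigid.velocity (E := E) f 0 ∈ K := by
  have hF : Finite A.ι := A.fin
  have hA' := hA
  choose y hy using hA'
  let e : A.ι → Bundle.Trivialization E
      (Bundle.TotalSpace.proj : TangentBundle 𝓘(ℂ, E) X → X) := fun i =>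
    trivializationAt E (TangentSpace 𝓘(ℂ, E)) (y i)
  refine ⟨⋃ i, (e i).toOpenPartialHomeomorph.symm '' (closure (A.W i) ×ˢ closedBall 0 C),
    isCompact_iUnion fun i => ?_, fun f hf hC => ?_⟩
  · refine IsCompact.image_of_continuousOn
      (isClosed_closure.isCompact.prod (isCompact_closedBall (0 : E) C)) ?_
    refine (e i).toOpenPartialHomeomorph.continuousOn_symm.mono ?_
    intro p hp
    have h1 : p.1 ∈ (A.ch i).source := A.W_sub i hp.1
    rw [hy i] at h1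
    exact ((e i).mem_target).2 h1
  · obtain ⟨i, hi⟩ := A.cover (f 0)
    refine mem_iUnion.2 ⟨i, (f 0, deriv (A.loc i f) 0),
      ⟨subset_closure hi, mem_closedBall_zero_iff.2 (hC i hi)⟩, ?_⟩
    have h1 : f 0 ∈ (A.ch i).source := A.W_sub i (subset_closure hi)
    have h2 : f 0 ∈ (chartAt E (y i)).source := by
      rw [← hy i]
      exact h1
    have h3 : A.loc i f = fun w => chartAt E (y i) (f w) := by
      funext w
      rw [Cha.loc, hy]
    have h4 := m2_coord f (y i) 0 (m2_mdiff A hA hf) h2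
    rw [h3, ← h4]
    exact (e i).toOpenPartialHomeomorph.left_inv (((e i).mem_source).2 h2)

theorem vel_ne_pr (A : Cha E X) (hA : ∀ i, ∃ y, A.ch i = chartAt E y) {c C : ℝ} (hc : 0 < c)
    {g : ℂ → X} (hg : g ∈ A.KK c C) (z : ℂ) :
    (mfderiv 𝓘(ℂ, ℂ) 𝓘(ℂ, E) g z (1 : ℂ) : E) ≠ 0 := by
  have : IsManifold 𝓘(ℂ, E) 1 X := IsManifold.of_le (n := ω) le_top
  intro h0
  obtain ⟨i, hi⟩ := A.cover (g z)
  have hsrc : g z ∈ (A.ch i).source := A.W_sub i (subset_closure hi)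
  obtain ⟨y, hy⟩ := hA i
  have hz' : g z ∈ (chartAt E y).source := by
    rw [← hy]
    exact hsrc
  have hm := m2_mdiff A hA (hg.1 z)
  have h1 : MDifferentiableAt 𝓘(ℂ, E) 𝓘(ℂ, E) (chartAt E y) (g z) :=
    mdifferentiableAt_atlas (I := 𝓘(ℂ, E)) (chart_mem_atlas E y) hz'
  have h2 := mfderiv_comp z h1 hm
  have h4 : (chartAt E y ∘ g) = A.loc i g := by
    funext w
    rw [Cha.loc, hy]
    rfl
  rw [h4, mfderiv_eq_fderiv] at h2
  have h5 := congrArg (fun L : ℂ →L[ℂ] E => L 1) h2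
  simp only [fderiv_apply_one_eq_deriv] at h5
  have h6 : deriv (A.loc i g) z = 0 := by
    rw [h5]
    show (mfderiv 𝓘(ℂ, E) 𝓘(ℂ, E) (chartAt E y) (g z))
      (mfderiv 𝓘(ℂ, ℂ) 𝓘(ℂ, E) g z (1 : ℂ)) = 0
    rw [h0]
    exact map_zero _
  have h7 := (hg.2 z i hi).1
  rw [h6, norm_zero] at h7
  linarith




end man

end Pool.Agent.SL

namespace Pool.Agent.SL

alias vel_compact := vel_compact_pr
alias vel_ne := vel_ne_pr

end Pool.Agent.SL
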