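import Pool.Agent.Lib_helper80.SL.Base
import Pool.Agent.Lib_helper82.BR.B.VEL

/-! Block M3 (helper28): hyperbolic at all points implies Brody hyperbolic (MP_45e720_ag). -/

set_option autoImplicit false
set_option linter.unusedVariables false
set_option linter.unusedSectionVars false

open Filter Topology Metric Set
open scoped Manifold ContDiff

namespace Pool.Agent.SL

open Pool.Agent.BR Pool.Agent.MBS

section man

variable {E X : Type} [NormedAddCommGroup E] [NormedSpace ℂ E] [FiniteDimensional ℂ E]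
  [MetricSpace X] [CompactSpace X] [ChartedSpace E X] [IsManifold 𝓘(ℂ, E) ω X]

/-- the chart expression of `f` is differentiable where it is defined -/
theorem m3_diff {f : ℂ → X} (hf : MDifferentiable 𝓘(ℂ, ℂ) 𝓘(ℂ, E) f) (y : X) (z : ℂ)
    (hz : f z ∈ (chartAt E y).source) : DifferentiableAt ℂ (fun w => chartAt E y (f w)) z := by
  have : IsManifold 𝓘(ℂ, E) 1 X := IsManifold.of_le (n := ω) le_top
  have h1 : MDifferentiableAt 𝓘(ℂ, E) 𝓘(ℂ, E) (chartAt E y) (f z) :=
    mdifferentiableAt_atlas (I := 𝓘(ℂ, E)) (chart_mem_atlas E y) hz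
  have h2 : MDifferentiableAt 𝓘(ℂ, ℂ) 𝓘(ℂ, E) (chartAt E y ∘ f) z := h1.comp z (hf z)
  rw [mdifferentiableAt_iff_differentiableAt] at h2
  exact h2

/-- the rescaled curve -/
theorem m3_resc {f : ℂ → X} (hf : MDifferentiable 𝓘(ℂ, ℂ) 𝓘(ℂ, E) f) (z R : ℂ) :
    MDifferentiable 𝓘(ℂ, ℂ) 𝓘(ℂ, E) (fun w => f (z + R * w)) := by
  have h1 : MDifferentiable 𝓘(ℂ, ℂ) 𝓘(ℂ, ℂ) (fun w : ℂ => z + R * w) := by
    rw [mdifferentiable_iff_differentiable]
    fun_prop
  exact hf.comp h1

theorem m3_zero (h : ∀ x : X, StrongLang.HyperbolicAt E x) {f : ℂ → X}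
    (hf : MDifferentiable 𝓘(ℂ, ℂ) 𝓘(ℂ, E) f) (y : X) (z : ℂ)
    (hz : f z ∈ (chartAt E y).source) : deriv (fun w => chartAt E y (f w)) z = 0 := by
  obtain ⟨V, hV, K, hK, hb⟩ := h (f z)
  have hc : Continuous (fun p : TangentBundle 𝓘(ℂ, E) X => p.1) :=
    FiberBundle.continuous_proj E (TangentSpace 𝓘(ℂ, E) : X → Type)
  have hK' : IsCompact (K ∩ {p : TangentBundle 𝓘(ℂ, E) X | p.1 ∈ ({f z} : Set X)}) :=
    hK.inter_right (isClosed_singleton.preimage hc)
  have hsub : K ∩ {p : TangentBundle 𝓘(ℂ, E) X | p.1 ∈ ({f z} : Set X)} ⊆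
      {p | p.1 ∈ (chartAt E y).source} := by
    intro p hp
    have h1 : p.1 = f z := hp.2
    show p.1 ∈ (chartAt E y).source
    rw [h1]
    exact hz
  obtain ⟨C, hC⟩ := hK'.exists_bound_of_continuousOn ((vel_cont y).mono hsub)
  set v := deriv (fun w => chartAt E y (f w)) z with hv
  have key : ∀ n : ℕ, (n : ℝ) * ‖v‖ ≤ C := by
    intro n
    set g : ℂ → X := fun w => f (z + (n : ℂ) * w) with hg
    have hgd : MDifferentiable 𝓘(ℂ, ℂ) 𝓘(ℂ, E) g := m3_resc hf z n
    have hg0 : g 0 = f z := by simp [hg]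
    have h1 : velocity (E := E) g 0 ∈ K := by
      refine hb g hgd.mdifferentiableOn ?_
      rw [hg0]
      exact mem_of_mem_nhds hV
    have h2 := hC (velocity (E := E) g 0) ⟨h1, hg0⟩
    rw [norm_norm, ← vel_coord y g 0 (hgd 0) (by rw [hg0]; exact hz)] at h2
    have h3 : deriv (fun w => chartAt E y (g w)) 0 = (n : ℂ) • v := by
      have h4 : HasDerivAt (fun w => chartAt E y (f w)) v (z + (n : ℂ) * 0) := by
        rw [mul_zero, add_zero]
        exact (m3_diff hf y z hz).hasDerivAt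
      have h5 : HasDerivAt (fun w : ℂ => z + (n : ℂ) * w) (n : ℂ) 0 := by
        simpa using ((hasDerivAt_id (0 : ℂ)).const_mul (n : ℂ)).const_add z
      exact (HasDerivAt.scomp (0 : ℂ) h4 h5).deriv
    rw [h3, norm_smul] at h2
    simpa using h2
  by_contra hne
  have hpos : 0 < ‖v‖ := norm_pos_iff.2 hne
  obtain ⟨n, hn⟩ := exists_nat_gt (C / ‖v‖)
  rw [div_lt_iff₀ hpos] at hn
  exact absurd (key n) (not_le.2 hn)

theorem brody_of_hyp_pr (h : ∀ x : X, StrongLang.HyperbolicAt E x) : SS.BrodyHyperbolic E X := by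
  intro f hf
  have hloc : IsLocallyConstant f := by
    rw [IsLocallyConstant.iff_eventually_eq]
    intro z₀
    have hU : IsOpen (f ⁻¹' (chartAt E (f z₀)).source) :=
      (chartAt E (f z₀)).open_source.preimage hf.continuous
    have hz₀ : z₀ ∈ f ⁻¹' (chartAt E (f z₀)).source := mem_chart_source E (f z₀)
    obtain ⟨r, hr, hball⟩ := Metric.isOpen_iff.1 hU z₀ hz₀
    filter_upwards [ball_mem_nhds z₀ hr] with z hz
    have h1 : DifferentiableOn ℂ (fun w => chartAt E (f z₀) (f w)) (ball z₀ r) :=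
      fun w hw => (m3_diff hf (f z₀) w (hball hw)).differentiableWithinAt
    have h2 : EqOn (deriv (fun w => chartAt E (f z₀) (f w))) 0 (ball z₀ r) :=
      fun w hw => m3_zero h hf (f z₀) w (hball hw)
    have h3 := isOpen_ball.is_const_of_deriv_eq_zero (convex_ball z₀ r).isPreconnected h1 h2 hz
      (mem_ball_self hr)
    have h4 := (chartAt E (f z₀)).left_inv (hball hz)
    have h5 := (chartAt E (f z₀)).left_inv hz₀
    calc f z = (chartAt E (f z₀)).symm (chartAt E (f z₀) (f z)) := h4.symm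
      _ = (chartAt E (f z₀)).symm (chartAt E (f z₀) (f z₀)) := congrArg _ h3
      _ = f z₀ := h5
  intro z z'
  exact hloc.apply_eq_of_preconnectedSpace z z'

end man



end Pool.Agent.SL

namespace Pool.Agent.SL

alias brody_of_hyp := brody_of_hyp_pr

end Pool.Agent.SL
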