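import Pool.Agent.Lib_helper80.SL.Base

/-! # Block N2 of SL (MP_45e720_ag), by helper72: one order and one weight for a finite family -/

set_option autoImplicit false
set_option linter.unusedVariables false
set_option linter.unusedSectionVars false

open Filter Topology Metric Set
open scoped Manifold ContDiff

namespace Pool.Agent.SL

open Pool.Agent.BR Pool.Agent.MBS

section man

variable {E X : Type} [NormedAddCommGroup E] [NormedSpace ℂ E] [FiniteDimensional ℂ E]
  [MetricSpace X] [CompactSpace X] [ChartedSpace E X] [IsManifold 𝓘(ℂ, E) ω X]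

/-- the restriction of a jet to a lower order -/
noncomputable def n2res (E : Type) [NormedAddCommGroup E] [NormedSpace ℂ E] {a b : ℕ}
    (h : a + 1 ≤ b + 1) : (Fin (b + 1) → E) →L[ℂ] (Fin (a + 1) → E) :=
  ContinuousLinearMap.pi fun q => ContinuousLinearMap.proj (Fin.castLE h q)

theorem n2res_apply {a b : ℕ} (h : a + 1 ≤ b + 1) (σ : Fin (b + 1) → E) (q : Fin (a + 1)) :
    n2res E h σ q = σ (Fin.castLE h q) := rfl

theorem n2_jt (A : Cha E X) {a b : ℕ} (h : a + 1 ≤ b + 1) (i : A.ι) (c : ℂ → X) :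
    n2res E h (jt A b i c) = jt A a i c := rfl

theorem n2_zero (v : Fin 1 → ℂ) : v = 0 ↔ v 0 = 0 := by
  constructor
  · rintro rfl
    rfl
  · intro h
    funext q
    rw [Subsingleton.elim q 0, h]
    rfl

theorem exists_ij_pr (A : Cha E X) {s : ℕ} (k m : Fin s → ℕ) (D : ∀ j, IJ A (k j) (m j) 1) :
    ∃ (k' m' : ℕ) (D' : IJ A k' m' s), ∀ c, D'.P c = 0 ↔ ∀ j, (D j).P c = 0 := by
  classical
  have hk : ∀ j, k j + 1 ≤ Finset.univ.sup k + 1 := fun j =>
    Nat.succ_le_succ (Finset.le_sup (Finset.mem_univ j))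
  have hm : ∀ j, 0 < m j := fun j => (D j).pos
  have hM : 0 < ∏ j, m j := Finset.prod_pos fun j _ => hm j
  have hd : ∀ j, m j ∣ ∏ j, m j := fun j => Finset.dvd_prod_of_mem m (Finset.mem_univ j)
  have he : ∀ j, m j * ((∏ j, m j) / m j) = ∏ j, m j := fun j => Nat.mul_div_cancel' (hd j)
  have hpos : ∀ j, (∏ j, m j) / m j ≠ 0 := by
    intro j h
    have h1 := he j
    rw [h, mul_zero] at h1
    omega
  refine ⟨Finset.univ.sup k, ∏ j, m j,
    { P := fun c j => (D j).P c 0 ^ ((∏ j, m j) / m j)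
      Q := fun i σ j => (D j).Q i (n2res E (hk j) σ) 0 ^ ((∏ j, m j) / m j)
      pos := hM
      an := ?_
      eq := ?_
      inv := ?_
      sing := ?_ }, ?_⟩
  · intro i σ hσ
    rw [analyticAt_pi_iff]
    intro j
    have h1 : AnalyticAt ℂ ((D j).Q i) (n2res E (hk j) σ) := (D j).an i _ hσ
    have h2 : AnalyticAt ℂ (fun τ : Fin (Finset.univ.sup k + 1) → E => n2res E (hk j) τ) σ :=
      (n2res E (hk j)).analyticAt σ
    have h3 : AnalyticAt ℂ (fun τ : Fin (Finset.univ.sup k + 1) → E =>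
        (D j).Q i (n2res E (hk j) τ)) σ := h1.comp h2
    have h4 := (analyticAt_pi_iff.1 h3) 0
    exact h4.pow _
  · intro i c hc hs
    funext j
    show (D j).P c 0 ^ ((∏ j, m j) / m j) =
      (D j).Q i (n2res E (hk j) (jt A (Finset.univ.sup k) i c)) 0 ^ ((∏ j, m j) / m j)
    rw [n2_jt, (D j).eq i c hc hs]
  · intro c hc ψ hψ h0
    funext j
    show (D j).P (fun z => c (ψ z)) 0 ^ ((∏ j, m j) / m j) =
      (deriv ψ 0) ^ (∏ j, m j) * (D j).P c 0 ^ ((∏ j, m j) / m j)
    rw [(D j).inv c hc ψ hψ h0, Pi.smul_apply, smul_eq_mul, mul_pow, ← pow_mul, he j]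
  · intro i c hc hs hd0
    funext j
    show (D j).P c 0 ^ ((∏ j, m j) / m j) = 0
    rw [(D j).sing i c hc hs hd0, Pi.zero_apply, zero_pow (hpos j)]
  · intro c
    constructor
    · intro h j
      rw [n2_zero]
      have h1 : (D j).P c 0 ^ ((∏ j, m j) / m j) = 0 := congrFun h j
      exact pow_eq_zero_iff (hpos j) |>.1 h1
    · intro h
      funext j
      show (D j).P c 0 ^ ((∏ j, m j) / m j) = 0
      rw [h j, Pi.zero_apply, zero_pow (hpos j)]



end man

end Pool.Agent.SL

namespace Pool.Agent.SL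

alias exists_ij := exists_ij_pr

end Pool.Agent.SL
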