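import Pool.Agent.Lib_helper80.SL.Base

/-! # Hyperbolicity modulo tori (MP_45e720_ag): block N1 (one invariant jet differential) -/

set_option autoImplicit false
set_option linter.unusedVariables false
set_option linter.unusedSectionVars false

open Filter Topology Metric Set
open scoped Manifold ContDiff

namespace Pool.Agent.SL

open Pool.Agent.BR Pool.Agent.MBS

section man

variable {E X : Type} [NormedAddCommGroup E] [NormedSpace ℂ E] [FiniteDimensional ℂ E]
  [MetricSpace X] [CompactSpace X] [ChartedSpace E X] [IsManifold 𝓘(ℂ, E) ω X]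

/-- BLOCK N1. One invariant jet differential in the charts. -/
theorem exists_ij1_pr (A : Cha E X) (hA : ∀ i, ∃ y, A.ch i = chartAt E y) {k m : ℕ}
    {P : (ℂ → X) → ℂ} (hm : 0 < m) (hP : MinBrody.IsInvariantJetDifferential E k m P) :
    ∃ D : IJ A k m 1, ∀ c, D.P c = fun _ => P c := by
  classical
  choose y hy using hA
  choose R hR using hP.hol
  have hger : ∀ c, Ger A c ↔ MinBrody.IsGerm E c := fjdi_ger A (fun i => ⟨y i, hy i⟩)
  refine ⟨⟨fun c _ => P c, fun i σ _ => R (y i) σ, hm, ?_, ?_, ?_, ?_⟩, fun c => rfl⟩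
  · intro i σ hσ
    rw [hy i] at hσ
    rw [analyticAt_pi_iff]
    exact fun _ => (hR (y i)).1 σ hσ
  · intro i c hc hi
    have h1 : c 0 ∈ (chartAt E (y i)).source := by rw [← hy i]; exact hi
    funext j
    rw [(hR (y i)).2 c ((hger c).1 hc) h1]
    congr 1
    funext q
    simp only [jt, MinBrody.chartJet]
    congr 1
    funext z
    rw [Cha.loc, hy i]
  · intro c hc ψ hψ h0
    funext j
    have h := hP.inv c ((hger c).1 hc) ψ hψ h0
    simp only [Pi.smul_apply, smul_eq_mul]
    exact h
  · intro i c hc hi hd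
    have h1 : c 0 ∈ (chartAt E (y i)).source := by rw [← hy i]; exact hi
    funext j
    refine hP.stat c ((hger c).1 hc) (y i) h1 ?_
    have h2 : A.loc i c = fun z => chartAt E (y i) (c z) := by
      funext z
      rw [Cha.loc, hy i]
    rw [← h2]
    exact hd

end man

end Pool.Agent.SL

namespace Pool.Agent.SL

end Pool.Agent.SL

namespace Pool.Agent.SL

alias exists_ij1 := exists_ij1_pr

end Pool.Agent.SL
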