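import Pool.Agent.Lib_helper80.SL.Base
import Pool.Agent.Lib_helper58.MBS.L.BCMP
import Pool.Agent.Lib_helper58.MBS.L.BJET
import Pool.Agent.Lib_helper80.SL.L.B1
import Pool.Agent.Lib_helper80.SL.L.B2
import Pool.Agent.Lib_helper80.SL.L.B3
import Pool.Agent.Lib_helper80.SL.L.N1
import Pool.Agent.Lib_helper80.SL.L.N2

/-! # SL, block N3: finitely many jet differentials suffice -/

set_option autoImplicit false
set_option linter.unusedVariables false
set_option linter.unusedSectionVars false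

open Filter Topology Metric Set
open scoped Manifold ContDiff

namespace Pool.Agent.SL

open Pool.Agent.BR Pool.Agent.MBS

section

variable {E X : Type} [NormedAddCommGroup E] [NormedSpace ℂ E] [FiniteDimensional ℂ E]
  [MetricSpace X] [CompactSpace X] {A : Cha E X}

theorem N3_hol_const (x : X) (z : ℂ) : A.HolAt (fun _ => x) z :=
  ⟨continuousAt_const, fun i _ => by
    unfold Cha.loc
    exact analyticAt_const⟩

/-- a curve with velocity zero is constant -/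
theorem N3_const {h : ℂ → X} (hh : ∀ z, A.HolAt h z)
    (h0 : ∀ z i, h z ∈ A.W i → deriv (A.loc i h) z = 0) : ∀ z z', h z = h z' := by
  have : CompleteSpace E := FiniteDimensional.complete ℂ E
  obtain ⟨i, hi⟩ := A.cover (h 0)
  have hev : ∀ᶠ z in 𝓝 (0 : ℂ), h z ∈ A.W i := (hh 0).1.eventually ((A.W_open i).mem_nhds hi)
  obtain ⟨r, hr, hb⟩ := Metric.eventually_nhds_iff_ball.1 hev
  have hsrc : ∀ z ∈ ball (0 : ℂ) r, h z ∈ (A.ch i).source := fun z hz =>
    A.W_sub i (subset_closure (hb z hz))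
  have hc : ∀ᶠ z in 𝓝 (0 : ℂ), h z = h 0 := by
    filter_upwards [ball_mem_nhds (0 : ℂ) hr] with z hz
    have h1 : A.loc i h z = A.loc i h 0 :=
      isOpen_ball.is_const_of_deriv_eq_zero (convex_ball (0 : ℂ) r).isPreconnected
        (fun u hu => ((hh u).2 i (hsrc u hu)).differentiableAt.differentiableWithinAt)
        (fun u hu => h0 u i (hb u hu)) hz (mem_ball_self hr)
    exact (A.ch i).injOn (hsrc z hz) (hsrc 0 (mem_ball_self hr)) h1
  have hid := hol_ident (A := A) (f := h) (g := fun _ => h 0) isPreconnected_univ isOpen_univ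
    (fun w _ => hh w) (fun w _ => N3_hol_const (h 0) w) (mem_univ 0) hc
  intro z z'
  exact (hid (mem_univ z)).trans (hid (mem_univ z')).symm

theorem N3_an (a b u : ℂ) : AnalyticAt ℂ (fun u : ℂ => a * u + b) u :=
  (analyticAt_const.mul analyticAt_id).add analyticAt_const

theorem N3_der (a b u : ℂ) : deriv (fun u : ℂ => a * u + b) u = a := by
  have : HasDerivAt (fun u : ℂ => a * u + b) (a * 1) u :=
    ((hasDerivAt_id u).const_mul a).add_const b
  rw [this.deriv, mul_one]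

/-- the curves of `𝒞` with velocity at most `1`, and velocity `1` at the origin -/
theorem N3_compact {𝒞 : Set (ℂ → X)}
    (h2 : ∀ h ∈ BF A 1, h ∈ closure (𝒞 ∩ BF A 1) → h ∈ 𝒞) :
    IsCompact (⋃ i, {h : ℂ → X | h ∈ 𝒞 ∩ BF A 1 ∧ h 0 ∈ closure (A.W i) ∧
      ‖deriv (A.loc i h) 0‖ = 1}) := by
  have := A.fin
  refine isCompact_iUnion fun i => IsClosed.isCompact ?_
  rw [isClosed_iff_ultrafilter]
  intro h U hU hB
  have hBF : ∀ᶠ g in (U : Filter (ℂ → X)), g ∈ BF A 1 := by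
    filter_upwards [hB] with g hg using hg.1.2
  have hh : h ∈ BF A 1 := by
    refine isClosed_iff_ultrafilter.1 (bf_closed A 1) h U hU ?_
    exact hBF
  have hcl : h ∈ closure (𝒞 ∩ BF A 1) := by
    rw [mem_closure_iff_ultrafilter]
    refine ⟨U, ?_, hU⟩
    filter_upwards [hB] with g hg using hg.1
  have h0 : h 0 ∈ closure (A.W i) := by
    have ht : Tendsto (fun g : ℂ → X => g 0) (U : Filter (ℂ → X)) (𝓝 (h 0)) :=
      ((continuous_apply (0 : ℂ)).tendsto h).mono_left hU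
    refine isClosed_closure.mem_of_tendsto ht ?_
    filter_upwards [hB] with g hg using hg.2.1
  refine ⟨⟨h2 h hh hcl, hh⟩, h0, ?_⟩
  have hlim : Tendsto (fun g : ℂ → X => g) (U : Filter (ℂ → X)) (𝓝 h) := hU
  have h3 := bf_jet (z := fun _ => (0 : ℂ)) (z₀ := 0) hBF hh hlim tendsto_const_nhds i
    (A.W_sub i h0) 1
  simp only [iteratedDeriv_one] at h3
  refine tendsto_nhds_unique h3.norm ?_
  refine tendsto_const_nhds.congr' ?_
  filter_upwards [hB] with g hg using hg.2.2.symm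

end

section man

variable {E X : Type} [NormedAddCommGroup E] [NormedSpace ℂ E] [FiniteDimensional ℂ E]
  [MetricSpace X] [CompactSpace X] [ChartedSpace E X] [IsManifold 𝓘(ℂ, E) ω X]

/-- a rescaled limit -/
theorem N3_limit {A : Cha E X} {𝒞 : Set (ℂ → X)}
    (h1 : ∀ h ∈ 𝒞, ∀ a b : ℂ, a ≠ 0 → (fun z => h (a * z + b)) ∈ 𝒞)
    (h2 : ∀ h ∈ BF A 1, h ∈ closure (𝒞 ∩ BF A 1) → h ∈ 𝒞) {h : ℂ → X} (hC : h ∈ 𝒞) {C₀ : ℝ}
    (hB : h ∈ BF A C₀) (hne : ¬ ∀ z z', h z = h z') :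
    ∃ (U : Ultrafilter ℕ) (a : ℂ) (b : ℕ → ℂ) (h' : ℂ → X), a ≠ 0 ∧
      (∀ n, (fun z => h (a * z + b n)) ∈ BF A 1) ∧
      Tendsto (fun n => fun z => h (a * z + b n)) U (𝓝 h') ∧
      h' ∈ ⋃ i, {h : ℂ → X | h ∈ 𝒞 ∩ BF A 1 ∧ h 0 ∈ closure (A.W i) ∧
        ‖deriv (A.loc i h) 0‖ = 1} := by
  have := A.fin
  set S : Set ℝ := {t | ∃ (z : ℂ) (i : A.ι), h z ∈ A.W i ∧ t = ‖deriv (A.loc i h) z‖} with hS
  have hSb : BddAbove S := by
    refine ⟨C₀, ?_⟩
    rintro t ⟨z, i, hi, rfl⟩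
    exact hB.2 z i hi
  have hSn : S.Nonempty := by
    obtain ⟨i, hi⟩ := A.cover (h 0)
    exact ⟨_, 0, i, hi, rfl⟩
  set C : ℝ := sSup S with hCd
  have hle : ∀ z i, h z ∈ A.W i → ‖deriv (A.loc i h) z‖ ≤ C := fun z i hi =>
    le_csSup hSb ⟨z, i, hi, rfl⟩
  have hCp : 0 < C := by
    by_contra hcon
    apply hne
    refine N3_const hB.1 fun z i hi => ?_
    have := hle z i hi
    have h0 := norm_nonneg (deriv (A.loc i h) z)
    exact norm_eq_zero.1 (le_antisymm (by linarith [not_lt.1 hcon]) h0)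
  have hC' : (C : ℂ) ≠ 0 := by exact_mod_cast hCp.ne'
  have hex : ∀ n : ℕ, ∃ (z : ℂ) (i : A.ι), h z ∈ A.W i ∧
      C - 1 / ((n : ℝ) + 1) < ‖deriv (A.loc i h) z‖ := by
    intro n
    have hpos : (0 : ℝ) < 1 / ((n : ℝ) + 1) := by positivity
    obtain ⟨t, ⟨z, i, hi, rfl⟩, ht⟩ := exists_lt_of_lt_csSup hSn
      (show C - 1 / ((n : ℝ) + 1) < sSup S by rw [← hCd]; linarith)
    exact ⟨z, i, hi, ht⟩
  choose b ii hii hlt using hex
  set a : ℂ := ((C : ℂ))⁻¹ with ha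
  have ha0 : a ≠ 0 := inv_ne_zero hC'
  have han : ‖a‖ = C⁻¹ := by
    rw [ha, norm_inv, Complex.norm_real, Real.norm_eq_abs, abs_of_pos hCp]
  set g : ℕ → ℂ → X := fun n z => h (a * z + b n) with hg
  have hder : ∀ n z i, h (a * z + b n) ∈ (A.ch i).source →
      deriv (A.loc i (g n)) z = a • deriv (A.loc i h) (a * z + b n) := by
    intro n z i hi
    have h3 := (hol_comp (A := A) (f := h) (N3_an a (b n) z) (hB.1 _)).2 i hi
    rw [N3_der] at h3
    exact h3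
  have hgB : ∀ n, g n ∈ BF A 1 := by
    intro n
    refine ⟨fun z => (hol_comp (A := A) (f := h) (N3_an a (b n) z) (hB.1 _)).1, fun z i hi => ?_⟩
    rw [hder n z i (A.W_sub i (subset_closure hi)), norm_smul, han]
    have := hle (a * z + b n) i hi
    calc C⁻¹ * ‖deriv (A.loc i h) (a * z + b n)‖ ≤ C⁻¹ * C := by gcongr
      _ = 1 := inv_mul_cancel₀ hCp.ne'
  have hgC : ∀ n, g n ∈ 𝒞 := fun n => h1 h hC a (b n) ha0
  set U : Ultrafilter ℕ := hyperfilter ℕ with hU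
  have hUle : (U : Filter ℕ) ≤ atTop := by
    rw [← Nat.cofinite_eq_atTop]
    exact hyperfilter_le_cofinite
  obtain ⟨h', -, hh'⟩ := (isCompact_univ (X := ℂ → X)).ultrafilter_le_nhds (U.map g) (by simp)
  have hlim : Tendsto g U (𝓝 h') := hh'
  obtain ⟨i, hi⟩ := Ultrafilter.eq_pure_of_finite (U.map ii)
  have hie : ∀ᶠ n in (U : Filter ℕ), ii n = i := by
    have : ({i} : Set A.ι) ∈ U.map ii := by
      rw [hi]
      exact Ultrafilter.mem_pure.2 rfl
    exact this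
  have hh'B : h' ∈ BF A 1 := by
    refine (bf_closed A 1).mem_of_tendsto hlim (Eventually.of_forall hgB)
  have hh'c : h' ∈ closure (𝒞 ∩ BF A 1) :=
    mem_closure_of_tendsto hlim (Eventually.of_forall fun n => ⟨hgC n, hgB n⟩)
  have hh'0 : h' 0 ∈ closure (A.W i) := by
    have ht : Tendsto (fun n => g n 0) U (𝓝 (h' 0)) := (tendsto_pi_nhds.1 hlim) 0
    refine isClosed_closure.mem_of_tendsto ht ?_
    filter_upwards [hie] with n hn
    rw [← hn]
    refine subset_closure ?_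
    have := hii n
    simpa [hg] using this
  refine ⟨U, a, b, h', ha0, hgB, hlim, mem_iUnion.2 ⟨i, ⟨h2 h' hh'B hh'c, hh'B⟩, hh'0, ?_⟩⟩
  have h3 := bf_jet (z := fun _ => (0 : ℂ)) (z₀ := 0) (Eventually.of_forall hgB) hh'B hlim
    tendsto_const_nhds i (A.W_sub i hh'0) 1
  simp only [iteratedDeriv_one] at h3
  refine tendsto_nhds_unique h3.norm ?_
  have hl1 : Tendsto (fun n : ℕ => 1 - C⁻¹ * (1 / ((n : ℝ) + 1))) U (𝓝 1) := by
    have h4 : Tendsto (fun n : ℕ => 1 - C⁻¹ * (1 / ((n : ℝ) + 1))) atTop (𝓝 (1 - C⁻¹ * 0)) :=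
      tendsto_const_nhds.sub (tendsto_one_div_add_atTop_nhds_zero_nat.const_mul _)
    rw [mul_zero, sub_zero] at h4
    exact h4.mono_left hUle
  refine tendsto_of_tendsto_of_tendsto_of_le_of_le' hl1 tendsto_const_nhds ?_ ?_
  · filter_upwards [hie] with n hn
    have hn2 := hii n
    have hn3 := hlt n
    rw [hn] at hn2 hn3
    rw [hder n 0 i (by rw [mul_zero, zero_add]; exact A.W_sub i (subset_closure hn2)), norm_smul,
      han, mul_zero, zero_add]
    calc 1 - C⁻¹ * (1 / ((n : ℝ) + 1)) = C⁻¹ * (C - 1 / ((n : ℝ) + 1)) := by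
          rw [mul_sub, inv_mul_cancel₀ hCp.ne']
      _ ≤ C⁻¹ * ‖deriv (A.loc i h) (b n)‖ := by gcongr
  · filter_upwards [hie] with n hn
    refine (hgB n).2 0 i ?_
    have hn2 := hii n
    rw [hn] at hn2
    simpa [hg] using hn2

theorem jet_finite_pr (A : Cha E X) (hA : ∀ i, ∃ y, A.ch i = chartAt E y) (𝒞 : Set (ℂ → X))
    (h1 : ∀ h ∈ 𝒞, ∀ a b : ℂ, a ≠ 0 → (fun z => h (a * z + b)) ∈ 𝒞)
    (h2 : ∀ h ∈ BF A 1, h ∈ closure (𝒞 ∩ BF A 1) → h ∈ 𝒞)
    (hN : ∀ h ∈ 𝒞, (∃ C, h ∈ BF A C) → StrongLang.JetNull E h → ∀ z z', h z = h z') :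
    ∃ (k m s : ℕ) (D : IJ A k m s), ∀ h ∈ 𝒞, (∃ C, h ∈ BF A C) → (∀ z, D.PP h z = 0) →
      ∀ z z', h z = h z' := by
  set B : Set (ℂ → X) := ⋃ i, {h : ℂ → X | h ∈ 𝒞 ∩ BF A 1 ∧ h 0 ∈ closure (A.W i) ∧
      ‖deriv (A.loc i h) 0‖ = 1} with hB
  have hBc : IsCompact B := N3_compact h2
  have hBB : ∀ h ∈ B, h ∈ 𝒞 ∧ h ∈ BF A 1 ∧ ∃ i, h 0 ∈ closure (A.W i) ∧
      ‖deriv (A.loc i h) 0‖ = 1 := by
    intro h hh
    obtain ⟨i, hi⟩ := mem_iUnion.1 hh
    exact ⟨hi.1.1, hi.1.2, i, hi.2⟩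
  -- for every member there is a jet differential
  have hex : ∀ h ∈ B, ∃ (k m : ℕ) (D : IJ A k m 1), D.PP h 0 ≠ 0 := by
    intro h hh
    obtain ⟨hC, hb, i, hi, hn⟩ := hBB h hh
    have hnull : ¬ StrongLang.JetNull E h := by
      intro hnu
      have hc := hN h hC ⟨1, hb⟩ hnu
      have he : A.loc i h = fun _ => A.loc i h 0 := by
        funext z
        show A.ch i (h z) = A.ch i (h 0)
        rw [hc z 0]
      rw [he] at hn
      simp at hn
    unfold StrongLang.JetNull at hnull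
    push Not at hnull
    obtain ⟨k, m, P, hm, hP, z, hz⟩ := hnull
    obtain ⟨D, hD⟩ := exists_ij1 A hA hm hP
    refine ⟨k, m, D, ?_⟩
    rw [pp_const D hb 0 z]
    intro h0
    apply hz
    have h3 : D.PP h z = fun _ => P (fun w => h (w + z)) := hD _
    rw [h3] at h0
    exact congrFun h0 0
  choose k m D hD using hex
  obtain ⟨t, ht⟩ := hBc.elim_nhds_subcover' (fun x hx => {h' | h' ∈ BF A 1 → (D x hx).PP h' 0 ≠ 0})
    (fun x hx => by
      have h3 : ∀ᶠ h' in 𝓝[BF A 1] x, (D x hx).PP h' 0 ≠ 0 :=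
        (pp_cont (D x hx) 1 0 x (hBB x hx).2.1).eventually_ne (hD x hx)
      exact eventually_nhdsWithin_iff.1 h3)
  set e := t.equivFin with he
  set x : Fin t.card → B := fun j => ((e.symm j : t) : B) with hx
  obtain ⟨k', m', D', hD'⟩ := exists_ij A (fun j => k (x j) (x j).2) (fun j => m (x j) (x j).2)
    (fun j => D (x j) (x j).2)
  refine ⟨k', m', t.card, D', ?_⟩
  rintro h hh ⟨C₀, hC₀⟩ hzero
  by_contra hne
  obtain ⟨U, a, b, h', ha, hgB, hlim, hB'⟩ := N3_limit h1 h2 hh hC₀ hne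
  obtain ⟨x₀, hx₀⟩ := mem_iUnion.1 (ht hB')
  obtain ⟨hx₀t, hx₀'⟩ := mem_iUnion.1 hx₀
  have hne' : (D x₀ x₀.2).PP h' 0 ≠ 0 := hx₀' (hBB h' hB').2.1
  apply hne'
  -- the jet differential of the point `x₀` vanishes on `h`
  have hz : ∀ z, (D x₀ x₀.2).PP h z = 0 := by
    intro z
    have h3 := (hD' (tr z h)).1 (hzero z) (e ⟨x₀, hx₀t⟩)
    have hxe : x (e ⟨x₀, hx₀t⟩) = x₀ := by
      simp [hx]
    have h5 : ∀ y : B, y = x₀ → (D y y.2).P (tr z h) = 0 → (D x₀ x₀.2).P (tr z h) = 0 := by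
      rintro _ rfl hy
      exact hy
    exact h5 _ hxe h3
  have hz' : ∀ n, (D x₀ x₀.2).PP (fun z => h (a * z + b n)) 0 = 0 := by
    intro n
    rw [pp_comp (D x₀ x₀.2) (f := h) (N3_an a (b n) 0) (hC₀.1 _), hz, smul_zero]
  have hcont := pp_cont (D x₀ x₀.2) 1 0 h' (hBB h' hB').2.1
  have hlim' : Tendsto (fun n => fun z => h (a * z + b n)) U (𝓝[BF A 1] h') :=
    tendsto_nhdsWithin_iff.2 ⟨hlim, Eventually.of_forall hgB⟩
  have h4 := hcont.tendsto.comp hlim'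
  refine tendsto_nhds_unique h4 ?_
  refine tendsto_const_nhds.congr' (Eventually.of_forall fun n => ?_)
  exact (hz' n).symm



end man

end Pool.Agent.SL

namespace Pool.Agent.SL

alias jet_finite := jet_finite_pr

end Pool.Agent.SL
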