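import Pool.Agent.Lib_helper80.SL.Base
import Pool.Agent.Lib_helper80.SL.L.B4
import Pool.Agent.Lib_helper80.SL.L.N3

/-! # Block N4 of SL: the Zalcman condition for a finite family of jet differentials -/

set_option autoImplicit false
set_option linter.unusedVariables false
set_option linter.unusedSectionVars false

open Filter Topology Metric Set
open scoped Manifold ContDiff

namespace Pool.Agent.SL

open Pool.Agent.BR Pool.Agent.MBS

section

variable {X : Type} [MetricSpace X]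

theorem n4_affine {f : ℕ → ℂ → X} {U : ℕ → Set ℂ} {h : ℂ → X} (hh : RLim f U h) {a : ℂ}
    (ha : a ≠ 0) (b : ℂ) : RLim f U fun z => h (a * z + b) := by
  intro ε hε R N
  obtain ⟨n, hn, a', b', ha', H⟩ := hh ε hε (‖a‖ * R + ‖b‖) N
  refine ⟨n, hn, a' * a, a' * b + b', mul_ne_zero ha' ha, fun z hz => ?_⟩
  have h1 : ‖a * z + b‖ ≤ ‖a‖ * R + ‖b‖ := by
    refine (norm_add_le _ _).trans ?_
    rw [norm_mul]
    linarith [mul_le_mul_of_nonneg_left hz (norm_nonneg a)]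
  have h2 : a' * a * z + (a' * b + b') = a' * (a * z + b) + b' := by ring
  rw [h2]
  exact H _ h1

end

section

variable {E X : Type} [NormedAddCommGroup E] [NormedSpace ℂ E] [FiniteDimensional ℂ E]
  [MetricSpace X] [CompactSpace X] {A : Cha E X}

theorem n4_closure {f : ℕ → ℂ → X} {U : ℕ → Set ℂ} {C : ℝ} {h : ℂ → X} (hB : h ∈ BF A C)
    (hh : h ∈ closure ({g | RLim f U g} ∩ BF A C)) : RLim f U h := by
  intro ε hε R N
  have hne : (𝓝[{g | RLim f U g} ∩ BF A C] h).NeBot := mem_closure_iff_nhdsWithin_neBot.1 hh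
  have h1 : ∀ᶠ g in 𝓝[{g | RLim f U g} ∩ BF A C] h, g ∈ BF A C := by
    filter_upwards [self_mem_nhdsWithin] with g hg using hg.2
  have h2 : ∀ᶠ g in 𝓝[{g | RLim f U g} ∩ BF A C] h, RLim f U g := by
    filter_upwards [self_mem_nhdsWithin] with g hg using hg.1
  have h3 := bf_unif_pr (A := A) (C := C) (F := 𝓝[{g | RLim f U g} ∩ BF A C] h)
    (g := fun g : ℂ → X => g) (f := h) h1 hB (tendsto_id.mono_left nhdsWithin_le_nhds) R (ε / 2)
    (half_pos hε)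
  obtain ⟨g, hg1, hg2⟩ := (h2.and h3).exists
  obtain ⟨n, hn, a, b, ha, H⟩ := hg1 (ε / 2) (half_pos hε) R N
  refine ⟨n, hn, a, b, ha, fun z hz => ⟨(H z hz).1, ?_⟩⟩
  calc dist (f n (a * z + b)) (h z) ≤ dist (f n (a * z + b)) (g z) + dist (g z) (h z) :=
        dist_triangle _ _ _
    _ < ε / 2 + ε / 2 := add_lt_add (H z hz).2 (hg2 z hz)
    _ = ε := add_halves ε

variable {k m s : ℕ} (D : IJ A k m s)

theorem n4_mono {C C' : ℝ} {f : ℂ → X} {U : Set ℂ} (h : D.Zal C f U) (hC : C ≤ C') :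
    D.Zal C' f U := by
  intro z ρ B hρ hB hb hP i hi
  refine (h z ρ B hρ hB hb hP i hi).trans (mul_le_mul_of_nonneg_right hC ?_)
  have := (one_div_pos.2 hρ).le
  linarith

end

section man

variable {E X : Type} [NormedAddCommGroup E] [NormedSpace ℂ E] [FiniteDimensional ℂ E]
  [MetricSpace X] [CompactSpace X] [ChartedSpace E X] [IsManifold 𝓘(ℂ, E) ω X]

theorem exists_zal_pr (A : Cha E X) (hA : ∀ i, ∃ y, A.ch i = chartAt E y) {f : ℂ → X}
    (hf : ∀ z, A.HolAt f z)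
    (hN : ∀ h, RLim (fun _ => f) (fun _ => univ) h → (∃ C, h ∈ BF A C) →
      StrongLang.JetNull E h → ∀ z z', h z = h z') :
    ∃ (k m s : ℕ) (D : IJ A k m s) (C₀ : ℝ), 0 < C₀ ∧ D.Zal C₀ f univ := by
  obtain ⟨k, m, s, D, hD⟩ := jet_finite A hA {h | RLim (fun _ => f) (fun _ => univ) h}
    (fun h hh a b ha => n4_affine hh ha b) (fun h hB hh => n4_closure hB hh)
    (fun h hh hC hJ => hN h hh hC hJ)
  obtain ⟨n, hn⟩ : ∃ n : ℕ, D.Zal n f univ := by
    by_contra hcon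
    push Not at hcon
    obtain ⟨h, hC, hR, hP, z, z', hzz⟩ := zal_fail D (fun _ => f) (fun _ => univ)
      (fun _ z _ => hf z) hcon
    exact hzz (hD h hR hC hP z z')
  exact ⟨k, m, s, D, n + 1, by positivity, n4_mono D hn (by linarith)⟩

theorem exists_zal_all_pr (A : Cha E X) (hA : ∀ i, ∃ y, A.ch i = chartAt E y)
    (hN : ∀ h, (∃ C, h ∈ BF A C) → StrongLang.JetNull E h → ∀ z z', h z = h z') :
    ∃ (k m s : ℕ) (D : IJ A k m s) (C₀ : ℝ), 0 < C₀ ∧
      (∀ f : ℂ → X, (∀ z ∈ ball (0 : ℂ) 1, A.HolAt f z) → D.Zal C₀ f (ball 0 1)) ∧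
      ∀ f : ℂ → X, (∀ z, A.HolAt f z) → D.Zal C₀ f univ := by
  obtain ⟨k, m, s, D, hD⟩ := jet_finite A hA univ (fun h _ a b ha => mem_univ _)
    (fun h _ _ => mem_univ _) (fun h _ hC hJ => hN h hC hJ)
  obtain ⟨n, hn⟩ : ∃ n : ℕ, ∀ f : ℂ → X, (∀ z ∈ ball (0 : ℂ) 1, A.HolAt f z) →
      D.Zal n f (ball 0 1) := by
    by_contra hcon
    push Not at hcon
    choose f hf hz using hcon
    obtain ⟨h, hC, hR, hP, z, z', hzz⟩ := zal_fail D f (fun _ => ball 0 1) hf hz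
    exact hzz (hD h (mem_univ _) hC hP z z')
  obtain ⟨n', hn'⟩ : ∃ n : ℕ, ∀ f : ℂ → X, (∀ z, A.HolAt f z) → D.Zal n f univ := by
    by_contra hcon
    push Not at hcon
    choose f hf hz using hcon
    obtain ⟨h, hC, hR, hP, z, z', hzz⟩ := zal_fail D f (fun _ => univ) (fun n z _ => hf n z) hz
    exact hzz (hD h (mem_univ _) hC hP z z')
  refine ⟨k, m, s, D, n + n' + 1, by positivity, fun f hf => n4_mono D (hn f hf) ?_,
    fun f hf => n4_mono D (hn' f hf) ?_⟩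
  · have : (0 : ℝ) ≤ n' := Nat.cast_nonneg _
    linarith
  · have : (0 : ℝ) ≤ n := Nat.cast_nonneg _
    linarith

theorem rlim_seq_pr {f h : ℂ → X} (hh : Continuous h)
    (hl : RLim (fun _ => f) (fun _ => univ) h) : StrongLang.IsReparamLimit f h := by
  have H : ∀ j : ℕ, ∃ a b : ℂ, a ≠ 0 ∧ ∀ z, ‖z‖ ≤ (j : ℝ) →
      dist (f (a * z + b)) (h z) < 1 / ((j : ℝ) + 1) := by
    intro j
    obtain ⟨_, _, a, b, ha, H⟩ := hl (1 / ((j : ℝ) + 1)) (by positivity) j 0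
    exact ⟨a, b, ha, fun z hz => (H z hz).2⟩
  choose a b ha H using H
  refine ⟨a, b, ha, fun z => Metric.tendsto_nhds.2 fun ε hε => ?_⟩
  have h1 : ∀ᶠ j : ℕ in atTop, ‖z‖ + 1 ≤ (j : ℝ) ∧ 1 / ((j : ℝ) + 1) < ε / 2 :=
    ((tendsto_natCast_atTop_atTop (R := ℝ)).eventually_ge_atTop (‖z‖ + 1)).and
      ((tendsto_one_div_add_atTop_nhds_zero_nat (𝕜 := ℝ)).eventually (gt_mem_nhds (half_pos hε)))
  have h2 : ∀ᶠ w in 𝓝 z, dist w z < 1 ∧ dist (h w) (h z) < ε / 2 :=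
    (eventually_of_mem (ball_mem_nhds z one_pos) fun w hw => mem_ball.1 hw).and
      (Metric.tendsto_nhds.1 (hh.tendsto z) (ε / 2) (half_pos hε))
  filter_upwards [h1.prod_mk h2] with q hq
  obtain ⟨⟨hq1, hq2⟩, hq3, hq4⟩ := hq
  have hw : ‖q.2‖ ≤ (q.1 : ℝ) := by
    have h3 : ‖q.2 - z‖ < 1 := by rwa [← dist_eq_norm]
    have h4 : ‖q.2‖ ≤ ‖q.2 - z‖ + ‖z‖ := by
      calc ‖q.2‖ = ‖(q.2 - z) + z‖ := by rw [sub_add_cancel]
        _ ≤ _ := norm_add_le _ _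
    linarith
  calc dist (f (a q.1 * q.2 + b q.1)) (h z)
      ≤ dist (f (a q.1 * q.2 + b q.1)) (h q.2) + dist (h q.2) (h z) := dist_triangle _ _ _
    _ < ε / 2 + ε / 2 := add_lt_add ((H q.1 q.2 hw).trans hq2) hq4
    _ = ε := add_halves ε

end man

end Pool.Agent.SL

namespace Pool.Agent.SL

alias exists_zal := exists_zal_pr
alias exists_zal_all := exists_zal_all_pr
alias rlim_seq := rlim_seq_pr

end Pool.Agent.SL
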