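import Pool.Agent.Lib_helper80.SL.Base
import Pool.Agent.Lib_helper80.SL.Defs2

/-! # Hyperbolicity modulo tori (MP_45e720_ag), block X1: `inj_rad` (helper59) -/

set_option autoImplicit false
set_option linter.unusedVariables false
set_option linter.unusedSectionVars false

open Filter Topology Metric Set
open scoped Manifold ContDiff

namespace Pool.Agent.SL

open Pool.Agent.BR Pool.Agent.MBS

section

variable {E X : Type} [NormedAddCommGroup E] [NormedSpace ℂ E] [FiniteDimensional ℂ E]
  [MetricSpace X] [CompactSpace X] {A : Cha E X}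

theorem inj_rad_pr {c C : ℝ} (hc : 0 < c) (hC : 0 < C) {g : ℂ → X} (hg : g ∈ A.KK c C) :
    ∃ r > 0, ∀ w w', g w = g w' → ‖w - w'‖ < r → w = w' := by
  obtain ⟨R, hR, hD⟩ := kk_dyn A c C hc hC
  have D := hD R hR le_rfl
  refine ⟨R, hR, fun w w' hw hr => ?_⟩
  by_contra hne
  have h0 : 0 < ‖w - w'‖ := norm_pos_iff.2 (sub_ne_zero.2 hne)
  obtain ⟨ε, hε, h⟩ := D.inj ‖w - w'‖ h0
  have h1 := h g hg w w' hr.le (by rw [hw, dist_self]; exact hε)
  exact lt_irrefl _ h1

end

end Pool.Agent.SL

namespace Pool.Agent.SL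

alias inj_rad := inj_rad_pr

end Pool.Agent.SL
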