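import Pool.Agent.Lib_helper80.SL.Base
import Pool.Agent.Lib_helper80.SL.Defs2
import Pool.Agent.Lib_helper80.SL.L.X1

/-! # Hyperbolicity modulo tori (MP_45e720_ag): block X2, the fibres of a doubly periodic curve -/

set_option autoImplicit false
set_option linter.unusedVariables false
set_option linter.unusedSectionVars false

open Filter Topology Metric Set
open scoped Manifold ContDiff

namespace Pool.Agent.SL

open Pool.Agent.BR Pool.Agent.MBS

/-- covering radius of a lattice -/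
theorem x2_cover (Λ : Submodule ℤ ℂ) [DiscreteTopology Λ] [IsZLattice ℝ Λ] :
    ∃ R : ℝ, ∀ z : ℂ, ∃ l ∈ Λ, ‖z + l‖ ≤ R := by
  classical
  let b := Module.Free.chooseBasis ℤ Λ
  let b' := b.ofZLatticeBasis ℝ Λ
  obtain ⟨R, hR⟩ := (ZSpan.fundamentalDomain_isBounded b').exists_norm_le
  have hR' : ∀ z : ℂ, ‖ZSpan.fract b' z‖ ≤ R :=
    fun z => hR (ZSpan.fract b' z) (ZSpan.fract_mem_fundamentalDomain b' z)
  refine ⟨R, fun z => ⟨-(ZSpan.floor b' z : ℂ), ?_, ?_⟩⟩
  · have h := (ZSpan.floor b' z).2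
    have e : Submodule.span ℤ (range b') = Λ := b.ofZLatticeBasis_span ℝ
    exact neg_mem (e.le h)
  · have h := hR' z
    rwa [ZSpan.fract_apply, sub_eq_add_neg] at h

/-- a compact set with separated points is finite -/
theorem x2_finite {K : Set ℂ} (hK : IsCompact K) {r : ℝ} (hr : 0 < r)
    (h : ∀ w ∈ K, ∀ w' ∈ K, ‖w - w'‖ < r → w = w') : K.Finite := by
  obtain ⟨t, htK, htf, hcov⟩ := hK.finite_cover_balls hr
  refine htf.subset fun z hz => ?_
  obtain ⟨x, hx, hzx⟩ := mem_iUnion₂.1 (hcov hz)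
  rw [mem_ball, dist_eq_norm] at hzx
  rw [h z hz x (htK hx) hzx]
  exact hx

section per

variable {X : Type}

theorem x2_zero (g : ℂ → X) : (0 : ℂ) ∈ Per g := fun z => by rw [add_zero]

theorem x2_neg {g : ℂ → X} {l : ℂ} (h : l ∈ Per g) : -l ∈ Per g := fun z => by
  have := h (z + -l)
  rw [neg_add_cancel_right] at this
  exact this.symm

theorem x2_add {g : ℂ → X} {l l' : ℂ} (h : l ∈ Per g) (h' : l' ∈ Per g) : l + l' ∈ Per g :=
  fun z => by rw [← add_assoc, h', h]

/-- congruence modulo the periods -/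
def x2_setoid (g : ℂ → X) : Setoid ℂ where
  r z z' := z' - z ∈ Per g
  iseqv :=
    { refl := fun z => by
        show z - z ∈ Per g
        rw [sub_self]
        exact x2_zero g
      symm := fun {z z'} h => by
        show z - z' ∈ Per g
        have h1 := x2_neg (show z' - z ∈ Per g from h)
        rwa [neg_sub] at h1
      trans := fun {a b c} h h' => by
        show c - a ∈ Per g
        have h1 := x2_add (show b - a ∈ Per g from h) (show c - b ∈ Per g from h')
        have e : b - a + (c - b) = c - a := by ring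
        rwa [e] at h1 }

/-- representatives modulo the periods -/
noncomputable def x2_rep (g : ℂ → X) (z : ℂ) : ℂ :=
  Quotient.out (Quotient.mk (x2_setoid g) z)

theorem x2_rep_mem (g : ℂ → X) (z : ℂ) : z - x2_rep g z ∈ Per g := by
  have h : (x2_setoid g).r (x2_rep g z) z :=
    Quotient.exact (Quotient.out_eq (Quotient.mk (x2_setoid g) z))
  exact h

theorem x2_rep_eq {g : ℂ → X} {a b : ℂ} (h : b - a ∈ Per g) : x2_rep g a = x2_rep g b := by
  unfold x2_rep
  rw [Quotient.sound (s := x2_setoid g) (a := a) (b := b) h]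

end per

section

variable {E X : Type} [NormedAddCommGroup E] [NormedSpace ℂ E] [FiniteDimensional ℂ E]
  [MetricSpace X] [CompactSpace X] {A : Cha E X}

theorem fibre_pr {c C : ℝ} (hc : 0 < c) (hC : 0 < C) {g : ℂ → X} (hg : g ∈ A.KK c C)
    (hper : DoublyPeriodic g) (x₀ : X) : ∃ S : Finset ℂ, (∀ w ∈ S, g w = x₀) ∧
      (∀ w ∈ S, ∀ w' ∈ S, ∀ l ∈ Per g, w' = w + l → w' = w) ∧
      ∀ δ > 0, ∃ U ∈ 𝓝 x₀, ∀ w, g w ∈ U → ∃ w' ∈ S, ∃ l ∈ Per g, ‖w - w' - l‖ < δ := by
  classical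
  have hcont : Continuous g := continuous_iff_continuousAt.2 fun z => (hg.1 z).1
  obtain ⟨Λ, hΛ1, hΛ2, hΛ⟩ := hper
  obtain ⟨R, hR⟩ := x2_cover Λ
  obtain ⟨r, hr, hinj⟩ := inj_rad hc hC hg
  have hK : IsCompact (closedBall (0 : ℂ) R ∩ g ⁻¹' {x₀}) :=
    (isCompact_closedBall 0 R).inter_right (isClosed_singleton.preimage hcont)
  have hfin : (closedBall (0 : ℂ) R ∩ g ⁻¹' {x₀}).Finite := by
    refine x2_finite hK hr fun w hw w' hw' h => hinj w w' ?_ h
    have h1 : g w = x₀ := hw.2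
    have h2 : g w' = x₀ := hw'.2
    rw [h1, h2]
  have hrep : ∀ z, g (x2_rep g z) = g z := fun z => by
    have h1 := x2_rep_mem g z (x2_rep g z)
    rw [add_sub_cancel] at h1
    exact h1.symm
  refine ⟨hfin.toFinset.image (x2_rep g), ?_, ?_, ?_⟩
  · intro w hw
    obtain ⟨z, hz, rfl⟩ := Finset.mem_image.1 hw
    rw [hfin.mem_toFinset] at hz
    rw [hrep]
    exact hz.2
  · intro w hw w' hw' l hl e
    obtain ⟨a, ha, rfl⟩ := Finset.mem_image.1 hw
    obtain ⟨b, hb, rfl⟩ := Finset.mem_image.1 hw'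
    apply x2_rep_eq
    have h1 := x2_rep_mem g a
    have h2 := x2_neg (x2_rep_mem g b)
    have h3 := x2_add (x2_add h1 (x2_neg hl)) h2
    have e2 : a - x2_rep g a + -l + -(b - x2_rep g b) = a - b := by
      rw [e]
      ring
    rwa [e2] at h3
  · intro δ hδ
    have hK' : IsCompact (closedBall (0 : ℂ) R \
        ⋃ z ∈ closedBall (0 : ℂ) R ∩ g ⁻¹' {x₀}, ball z δ) :=
      (isCompact_closedBall 0 R).diff (isOpen_biUnion fun z _ => isOpen_ball)
    refine ⟨(g '' (closedBall (0 : ℂ) R \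
      ⋃ z ∈ closedBall (0 : ℂ) R ∩ g ⁻¹' {x₀}, ball z δ))ᶜ, ?_, ?_⟩
    · apply (hK'.image hcont).isClosed.isOpen_compl.mem_nhds
      rintro ⟨z, hz, hgz⟩
      apply hz.2
      exact mem_iUnion₂.2 ⟨z, ⟨hz.1, hgz⟩, mem_ball_self hδ⟩
    · intro w hw
      obtain ⟨l, hl, hwl⟩ := hR w
      have h1 : w + l ∉ closedBall (0 : ℂ) R \
          ⋃ z ∈ closedBall (0 : ℂ) R ∩ g ⁻¹' {x₀}, ball z δ := by
        intro h2
        apply hw
        exact ⟨w + l, h2, hΛ l hl w⟩
      have h3 : w + l ∈ ⋃ z ∈ closedBall (0 : ℂ) R ∩ g ⁻¹' {x₀}, ball z δ := by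
        by_contra h4
        exact h1 ⟨by simpa using hwl, h4⟩
      obtain ⟨z, hz, hzw⟩ := mem_iUnion₂.1 h3
      rw [mem_ball, dist_eq_norm] at hzw
      refine ⟨x2_rep g z, Finset.mem_image.2 ⟨z, hfin.mem_toFinset.2 hz, rfl⟩,
        z - x2_rep g z + -l, x2_add (x2_rep_mem g z) (x2_neg (hΛ l hl)), ?_⟩
      have e : w - x2_rep g z - (z - x2_rep g z + -l) = w + l - z := by ring
      rw [e]
      exact hzw



end

end Pool.Agent.SL

namespace Pool.Agent.SL

alias fibre := fibre_pr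

end Pool.Agent.SL
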