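import Pool.Agent.Lib_helper80.SL.Base
import Pool.Agent.Lib_helper80.SL.Defs2

/-! # Hyperbolicity modulo tori (MP_45e720_ag): block X3, defining functions of a branch -/

set_option autoImplicit false
set_option linter.unusedVariables false
set_option linter.unusedSectionVars false

open Filter Topology Metric Set
open scoped Manifold ContDiff

namespace Pool.Agent.SL

open Pool.Agent.BR Pool.Agent.MBS

/-- local inversion of a curve in a vector space by a linear form -/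
theorem x3_pure {E : Type} [NormedAddCommGroup E] [NormedSpace ℂ E] [CompleteSpace E] {G : ℂ → E} {w : ℂ}
    (hG : AnalyticAt ℂ G w) (hG' : deriv G w ≠ 0) :
    ∃ (l : E →L[ℂ] ℂ) (ρ M C₁ : ℝ) (τ : ℂ → ℂ), ‖l‖ ≤ 1 ∧ 0 < ρ ∧ 0 ≤ M ∧ 0 ≤ C₁ ∧
      (∀ z ∈ ball w ρ, AnalyticAt ℂ G z) ∧
      (∀ z ∈ ball w ρ, ∀ z' ∈ ball w ρ, ‖G z - G z'‖ ≤ M * ‖z - z'‖) ∧
      (∀ z ∈ ball w ρ, ∀ z' ∈ ball w ρ, ‖z - z'‖ ≤ C₁ * ‖l (G z) - l (G z')‖) ∧
      AnalyticAt ℂ τ (l (G w)) ∧ τ (l (G w)) = w ∧ ∀ᶠ u in 𝓝 (l (G w)), l (G (τ u)) = u := by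
  obtain ⟨l, hl1, hl2⟩ := exists_dual_vector ℂ (deriv G w) (norm_ne_zero_iff.2 hG')
  have hh : AnalyticAt ℂ (fun z => l (G z)) w := (l.analyticAt (G w)).comp hG
  have hd : deriv (fun z => l (G z)) w ≠ 0 := by
    have e : HasDerivAt (fun z => l (G z)) (l (deriv G w)) w :=
      l.hasFDerivAt.comp_hasDerivAt w hG.differentiableAt.hasDerivAt
    rw [e.deriv, hl2]
    exact Complex.ofReal_ne_zero.2 (norm_ne_zero_iff.2 hG')
  obtain ⟨K, s, hs, hKs⟩ := hG.hasStrictFDerivAt.exists_lipschitzOnWith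
  have hτ : AnalyticAt ℂ (hh.hasStrictDerivAt.localInverse _ _ _ hd) (l (G w)) :=
    hh.analyticAt_localInverse hd
  obtain ⟨K', s', hs', hKs'⟩ := hτ.hasStrictFDerivAt.exists_lipschitzOnWith
  have hleft : ∀ᶠ z in 𝓝 w, hh.hasStrictDerivAt.localInverse _ _ _ hd (l (G z)) = z :=
    hh.hasStrictDerivAt.eventually_left_inverse hd
  have hright : ∀ᶠ u in 𝓝 (l (G w)), l (G (hh.hasStrictDerivAt.localInverse _ _ _ hd u)) = u :=
    hh.hasStrictDerivAt.eventually_right_inverse hd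
  have h0 : hh.hasStrictDerivAt.localInverse _ _ _ hd (l (G w)) = w :=
    HasStrictFDerivAt.localInverse_apply_image ..
  have hmem : ∀ᶠ z in 𝓝 w, l (G z) ∈ s' := hh.continuousAt.tendsto.eventually_mem hs'
  have hs1 : ∀ᶠ z in 𝓝 w, z ∈ s := hs
  obtain ⟨ρ, hρ, hall⟩ := Metric.eventually_nhds_iff_ball.1
    ((hG.eventually_analyticAt.and hs1).and (hleft.and hmem))
  refine ⟨l, ρ, K, K', hh.hasStrictDerivAt.localInverse _ _ _ hd, hl1.le, hρ, K.2, K'.2, ?_, ?_,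
    ?_, hτ, h0, hright⟩
  · intro z hz
    exact (hall z hz).1.1
  · intro z hz z' hz'
    have h1 := hKs.dist_le_mul z (hall z hz).1.2 z' (hall z' hz').1.2
    rwa [dist_eq_norm, dist_eq_norm] at h1
  · intro z hz z' hz'
    have h1 := hKs'.dist_le_mul _ (hall z hz).2.2 _ (hall z' hz').2.2
    rw [(hall z hz).2.1, (hall z' hz').2.1] at h1
    rwa [dist_eq_norm, dist_eq_norm] at h1

section

variable {E X : Type} [NormedAddCommGroup E] [NormedSpace ℂ E] [FiniteDimensional ℂ E]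
  [MetricSpace X] [CompactSpace X] {A : Cha E X}

theorem exists_br_pr {lB LB : ℝ} (hB : BLip A lB LB) {c C : ℝ} (hc : 0 < c) {g : ℂ → X}
    (hg : g ∈ A.KK c C) (w : ℂ) : ∃ δ₀ > 0, ∀ δ > 0, δ ≤ δ₀ →
      ∃ (V : Set X) (F : X → E) (T : X → ℂ) (C' : ℝ), IsOpen V ∧ g w ∈ V ∧ 0 < C' ∧
        Br A g w δ V F T C' := by
  have hcs : CompleteSpace E := FiniteDimensional.complete ℂ E
  obtain ⟨i, hi⟩ := hB.leb (g w)
  have hwi : g w ∈ A.W i := hi (mem_ball_self hB.lam_pos)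
  have hwc : g w ∈ closure (A.W i) := subset_closure hwi
  have hsrc : ball (g w) lB ⊆ (A.ch i).source := hB.src i _ hwc
  have hG : AnalyticAt ℂ (A.loc i g) w := (hg.1 w).2 i (hsrc (mem_ball_self hB.lam_pos))
  have hG' : deriv (A.loc i g) w ≠ 0 := by
    intro h0
    have h1 := (hg.2 w i hwi).1
    rw [h0, norm_zero] at h1
    linarith
  obtain ⟨l, ρ, M, C₁, τ, hl, hρ, hM, hC₁, hGan, hlip, hanti, hτ, hτ0, hτr⟩ := x3_pure hG hG'
  have hgc : ∀ᶠ z in 𝓝 w, g z ∈ ball (g w) lB :=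
    (hg.1 w).1.tendsto.eventually_mem (ball_mem_nhds _ hB.lam_pos)
  obtain ⟨ρ', hρ', hball⟩ := Metric.eventually_nhds_iff_ball.1 hgc
  refine ⟨min ρ ρ' / 2, by positivity, fun δ hδ hδ₀ => ?_⟩
  have h2δ : ∀ z, ‖z - w‖ < 2 * δ → z ∈ ball w ρ ∧ g z ∈ ball (g w) lB := by
    intro z hz
    have h1 : ‖z - w‖ < min ρ ρ' := by linarith
    refine ⟨?_, hball z ?_⟩
    · rw [mem_ball, dist_eq_norm]
      exact h1.trans_le (min_le_left _ _)
    · rw [mem_ball, dist_eq_norm]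
      exact h1.trans_le (min_le_right _ _)
  have hgood : ∀ᶠ u in 𝓝 (l (A.loc i g w)), (AnalyticAt ℂ τ u ∧ l (A.loc i g (τ u)) = u) ∧
      τ u ∈ ball w δ := by
    refine (hτ.eventually_analyticAt.and hτr).and (hτ.continuousAt.tendsto.eventually_mem ?_)
    rw [hτ0]
    exact ball_mem_nhds _ hδ
  obtain ⟨N, hN, hNo, hNw⟩ := _root_.eventually_nhds_iff.1 hgood
  have hVo : IsOpen ((A.ch i).source ∩ A.ch i ⁻¹' (l ⁻¹' N)) :=
    (A.ch i).isOpen_inter_preimage (hNo.preimage l.continuous)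
  have hTm : ∀ y ∈ ball (g w) lB ∩ ((A.ch i).source ∩ A.ch i ⁻¹' (l ⁻¹' N)),
      ‖τ (l (A.ch i y)) - w‖ < δ := fun y hy => by
    have h1 := (hN _ hy.2.2).2
    rwa [mem_ball, dist_eq_norm] at h1
  have hTan : ∀ y ∈ ball (g w) lB ∩ ((A.ch i).source ∩ A.ch i ⁻¹' (l ⁻¹' N)), ∀ j,
      y ∈ (A.ch j).source →
      AnalyticAt ℂ (fun ξ => τ (l (A.ch i ((A.ch j).symm ξ)))) (A.ch j y) := by
    intro y hy j hj
    have h1 := A.trans j i y hj hy.2.1
    have h2 : AnalyticAt ℂ (fun ξ => l (A.ch i ((A.ch j).symm ξ))) (A.ch j y) :=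
      (l.analyticAt _).comp h1
    have h3 : AnalyticAt ℂ τ (l (A.ch i ((A.ch j).symm (A.ch j y)))) := by
      rw [(A.ch j).left_inv hj]
      exact (hN _ hy.2.2).1.1
    exact AnalyticAt.comp (g := τ) (f := fun ξ => l (A.ch i ((A.ch j).symm ξ))) h3 h2
  have hLB : (0 : ℝ) < LB := lt_of_lt_of_le one_pos hB.L_one
  refine ⟨ball (g w) lB ∩ ((A.ch i).source ∩ A.ch i ⁻¹' (l ⁻¹' N)),
    fun y => A.ch i y - A.loc i g (τ (l (A.ch i y))), fun y => τ (l (A.ch i y)),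
    LB * (1 + M * C₁), isOpen_ball.inter hVo, ⟨mem_ball_self hB.lam_pos,
      hsrc (mem_ball_self hB.lam_pos), hNw⟩, by positivity, ?_, hTan, hTm, ?_, ?_⟩
  · intro y hy j hj
    have h1 := A.trans j i y hj hy.2.1
    have h2 := hTan y hy j hj
    have h3 : AnalyticAt ℂ (A.loc i g) (τ (l (A.ch i ((A.ch j).symm (A.ch j y))))) := by
      rw [(A.ch j).left_inv hj]
      apply hGan
      exact (h2δ _ (by linarith [hTm y hy])).1
    exact h1.sub (AnalyticAt.comp (g := A.loc i g)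
      (f := fun ξ => τ (l (A.ch i ((A.ch j).symm ξ)))) h3 h2)
  · intro y hy
    have h1 := hB.le_ch i _ hwc y hy.1 (g (τ (l (A.ch i y))))
      (h2δ _ (by linarith [hTm y hy])).2
    refine h1.trans ?_
    show LB * ‖A.ch i y - A.loc i g (τ (l (A.ch i y)))‖ ≤
      LB * (1 + M * C₁) * ‖A.ch i y - A.loc i g (τ (l (A.ch i y)))‖
    apply mul_le_mul_of_nonneg_right _ (norm_nonneg _)
    have h2 : 0 ≤ M * C₁ := mul_nonneg hM hC₁
    nlinarith
  · intro y hy w' hw'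
    have h1 := h2δ w' hw'
    have h2 := h2δ _ (show ‖τ (l (A.ch i y)) - w‖ < 2 * δ by linarith [hTm y hy])
    have h3 : ‖A.ch i y - A.loc i g w'‖ ≤ LB * dist y (g w') :=
      hB.ch_le i _ hwc y hy.1 (g w') h1.2
    have h4 : ‖A.loc i g w' - A.loc i g (τ (l (A.ch i y)))‖ ≤
        M * (C₁ * ‖A.ch i y - A.loc i g w'‖) := by
      refine (hlip _ h1.1 _ h2.1).trans (mul_le_mul_of_nonneg_left ?_ hM)
      refine (hanti _ h1.1 _ h2.1).trans (mul_le_mul_of_nonneg_left ?_ hC₁)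
      rw [(hN _ hy.2.2).1.2, ← map_sub, ← norm_neg, ← map_neg, neg_sub]
      have h5 := l.le_opNorm (A.ch i y - A.loc i g w')
      have h6 : ‖l‖ * ‖A.ch i y - A.loc i g w'‖ ≤ 1 * ‖A.ch i y - A.loc i g w'‖ :=
        mul_le_mul_of_nonneg_right hl (norm_nonneg _)
      rw [one_mul] at h6
      exact h5.trans h6
    show ‖A.ch i y - A.loc i g (τ (l (A.ch i y)))‖ ≤ LB * (1 + M * C₁) * dist y (g w')
    calc ‖A.ch i y - A.loc i g (τ (l (A.ch i y)))‖
        ≤ ‖A.ch i y - A.loc i g w'‖ + ‖A.loc i g w' - A.loc i g (τ (l (A.ch i y)))‖ :=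
          norm_sub_le_norm_sub_add_norm_sub _ _ _
      _ ≤ ‖A.ch i y - A.loc i g w'‖ + M * (C₁ * ‖A.ch i y - A.loc i g w'‖) := by gcongr
      _ = (1 + M * C₁) * ‖A.ch i y - A.loc i g w'‖ := by ring
      _ ≤ (1 + M * C₁) * (LB * dist y (g w')) := by
          apply mul_le_mul_of_nonneg_left h3
          positivity
      _ = LB * (1 + M * C₁) * dist y (g w') := by ring



end

end Pool.Agent.SL

namespace Pool.Agent.SL

alias exists_br := exists_br_pr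

end Pool.Agent.SL
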