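import Pool.Agent.Lib_helper80.SL.Base
import Pool.Agent.Lib_helper80.SL.Defs2
import Pool.Agent.Lib_helper80.SL.L.X1
import Pool.Agent.Lib_helper80.SL.L.X2
import Pool.Agent.Lib_helper80.SL.L.X3

set_option autoImplicit false
set_option linter.unusedVariables false
set_option linter.unusedSectionVars false

open Filter Topology Metric Set
open scoped Manifold ContDiff

namespace Pool.Agent.SL

open Pool.Agent.BR Pool.Agent.MBS

section

variable {E X : Type} [NormedAddCommGroup E] [NormedSpace ℂ E] [FiniteDimensional ℂ E]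
  [MetricSpace X] [CompactSpace X] {A : Cha E X}

theorem x4_mono {g : ℂ → X} {w : ℂ} {δ : ℝ} {V V' : Set X} {F : X → E} {T : X → ℂ} {C C' : ℝ}
    (h : Br A g w δ V F T C) (hV : V' ⊆ V) (hC : C ≤ C') : Br A g w δ V' F T C' where
  F_an := fun y hy i hi => h.F_an y (hV hy) i hi
  T_an := fun y hy i hi => h.T_an y (hV hy) i hi
  T_mem := fun y hy => h.T_mem y (hV hy)
  low := fun y hy => (h.low y (hV hy)).trans
    (mul_le_mul_of_nonneg_right hC (norm_nonneg _))
  up := fun y hy w' hw' => (h.up y (hV hy) w' hw').trans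
    (mul_le_mul_of_nonneg_right hC dist_nonneg)

theorem x4_sub {g : ℂ → X} {l : ℂ} (hl : l ∈ Per g) (z : ℂ) : g (z - l) = g z := by
  have h := hl (z - l)
  rw [sub_add_cancel] at h
  exact h.symm

theorem exists_ld_pr {lB LB : ℝ} (hB : BLip A lB LB) {c C : ℝ} (hc : 0 < c) (hC : 0 < C)
    {g : ℂ → X} (hg : g ∈ A.KK c C) (hper : DoublyPeriodic g) (x₀ : X) :
    ∃ (V : Set X) (S : Finset ℂ) (δ : ℝ) (F : ℂ → X → E) (T : ℂ → X → ℂ) (C' : ℝ), x₀ ∈ V ∧
      LD A g V S δ F T C' := by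
  classical
  obtain ⟨r, hr, hinj⟩ := inj_rad hc hC hg
  obtain ⟨S, hS, hSp, hcov⟩ := fibre hc hC hg hper x₀
  have hbr := fun w => exists_br hB hc hg w
  choose d hd hbr using hbr
  obtain ⟨δ, hδ, hδr, hδS⟩ : ∃ δ > 0, 4 * δ ≤ r ∧ ∀ w ∈ S, δ ≤ d w := by
    by_cases hne : S.Nonempty
    · obtain ⟨w₀, hw₀, hmin⟩ := Finset.exists_min_image S d hne
      refine ⟨min (r / 4) (d w₀), lt_min (by linarith) (hd w₀), ?_, fun w hw => ?_⟩
      · have := min_le_left (r / 4) (d w₀)
        linarith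
      · exact (min_le_right _ _).trans (hmin w hw)
    · refine ⟨r / 4, by linarith, by linarith, fun w hw => ?_⟩
      exact absurd ⟨w, hw⟩ hne
  have hex : ∀ w, ∃ (V : Set X) (F : X → E) (T : X → ℂ) (C' : ℝ), w ∈ S → (IsOpen V ∧ g w ∈ V ∧
      0 < C' ∧ Br A g w δ V F T C') := by
    intro w
    by_cases hw : w ∈ S
    · obtain ⟨V, F, T, C', h1, h2, h3, h4⟩ := hbr w δ hδ (hδS w hw)
      exact ⟨V, F, T, C', fun _ => ⟨h1, h2, h3, h4⟩⟩
    · exact ⟨∅, fun _ => 0, fun _ => 0, 0, fun h => absurd h hw⟩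
  choose V F T K hVF using hex
  obtain ⟨U, hU, hUcov⟩ := hcov δ hδ
  have hKpos : ∀ w ∈ S, 0 < K w := fun w hw => (hVF w hw).2.2.1
  have hKle : ∀ w ∈ S, K w ≤ 1 + ∑ w ∈ S, K w := by
    intro w hw
    have := Finset.single_le_sum (f := K) (fun i hi => (hKpos i hi).le) hw
    linarith
  refine ⟨interior U ∩ ⋂ w ∈ S, V w, S, δ, F, T, 1 + ∑ w ∈ S, K w, ?_, ?_⟩
  · refine ⟨mem_interior_iff_mem_nhds.mpr hU, ?_⟩
    simp only [mem_iInter]
    intro w hw
    have := (hVF w hw).2.1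
    rwa [hS w hw] at this
  · refine ⟨?_, hδ, ?_, ?_, ?_, ?_, ?_⟩
    · exact isOpen_interior.inter (isOpen_biInter_finset fun w hw => (hVF w hw).1)
    · have := Finset.sum_nonneg (fun i hi => (hKpos i hi).le)
      linarith
    · intro w hw
      refine x4_mono (hVF w hw).2.2.2 ?_ (hKle w hw)
      intro y hy
      have := hy.2
      simp only [mem_iInter] at this
      exact this w hw
    · intro w hw w' hw' l hl hlt
      have h1 : g (w' - l) = g w := by rw [x4_sub hl, hS w hw, hS w' hw']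
      have h2 : w' - l = w := by
        apply hinj _ _ h1
        have : w' - l - w = w' - w - l := by ring
        rw [this]
        linarith
      exact hSp w hw w' hw' l hl (by rw [← h2]; ring)
    · intro w hw
      exact hUcov w (interior_subset hw.1)
    · intro w w' h hlt
      exact hinj w w' h (by linarith)

theorem ld_zero_pr {g : ℂ → X} {V : Set X} {S : Finset ℂ} {δ : ℝ} {F : ℂ → X → E}
    {T : ℂ → X → ℂ} {C' : ℝ} (h : LD A g V S δ F T C') : ∀ y ∈ V, (prd S F y = 0 ↔ y ∈ range g) := by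
  intro y hy
  constructor
  · intro h0
    obtain ⟨w, hw, hw0⟩ := Finset.prod_eq_zero_iff.mp h0
    have h1 := (h.br w hw).low y hy
    rw [hw0, mul_zero] at h1
    exact ⟨T w y, (dist_le_zero.mp h1).symm⟩
  · rintro ⟨w₀, rfl⟩
    obtain ⟨w', hw', l, hl, hlt⟩ := h.cov w₀ hy
    apply Finset.prod_eq_zero hw'
    have h1 := (h.br w' hw').up (g w₀) hy (w₀ - l) (by
      have h2 : w₀ - l - w' = w₀ - w' - l := by ring
      rw [h2]
      have := h.δ_pos
      linarith)
    rw [x4_sub hl, dist_self, mul_zero] at h1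
    exact le_antisymm h1 (norm_nonneg _)

theorem ld_an_pr {g : ℂ → X} {V : Set X} {S : Finset ℂ} {δ : ℝ} {F : ℂ → X → E}
    {T : ℂ → X → ℂ} {C' : ℝ} (h : LD A g V S δ F T C') : AnOn A V S F :=
  fun w hw y hy i hi => (h.br w hw).F_an y hy i hi





end

end Pool.Agent.SL

namespace Pool.Agent.SL

alias exists_ld := exists_ld_pr
alias ld_zero := ld_zero_pr
alias ld_an := ld_an_pr

end Pool.Agent.SL
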