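import Pool.Agent.Lib_helper80.SL.Base
import Pool.Agent.Lib_helper80.SL.Defs2

set_option autoImplicit false
set_option linter.unusedVariables false
set_option linter.unusedSectionVars false

open Filter Topology Metric Set
open scoped Manifold ContDiff

namespace Pool.Agent.SL

open Pool.Agent.BR Pool.Agent.MBS

section

variable {E X : Type} [NormedAddCommGroup E] [NormedSpace ℂ E] [FiniteDimensional ℂ E]
  [MetricSpace X] [CompactSpace X] {A : Cha E X}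

theorem x5_sub {g : ℂ → X} {l : ℂ} (hl : l ∈ Per g) (z : ℂ) : g (z - l) = g z := by
  have h := hl (z - l)
  rw [sub_add_cancel] at h
  exact h.symm

theorem x5_per_sub {g : ℂ → X} {l l' : ℂ} (hl : l ∈ Per g) (hl' : l' ∈ Per g) :
    l - l' ∈ Per g := by
  intro z
  have h1 : z + (l - l') = (z + l) - l' := by ring
  rw [h1, x5_sub hl', hl z]

/-- a function whose expression in a chart is continuous is continuous -/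
theorem x5_cont {Y : Type} [TopologicalSpace Y] (i : A.ι) {y₀ : X} (hy : y₀ ∈ (A.ch i).source)
    {Φ : X → Y} (h : ContinuousAt (fun ξ => Φ ((A.ch i).symm ξ)) (A.ch i y₀)) :
    ContinuousAt Φ y₀ := by
  have h1 : ContinuousAt (fun y => Φ ((A.ch i).symm (A.ch i y))) y₀ :=
    ContinuousAt.comp (f := fun y => A.ch i y) (g := fun ξ => Φ ((A.ch i).symm ξ)) h
      ((A.ch i).continuousAt hy)
  refine h1.congr ?_
  filter_upwards [(A.ch i).open_source.mem_nhds hy] with y hy'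
  rw [(A.ch i).left_inv hy']

/-- the comparison of one factor -/
theorem x5_fac {g : ℂ → X} {V₁ V₂ : Set X} {δ₁ δ₂ : ℝ} {w w₂ l : ℂ}
    {F₁ F₂ : X → E} {T₁ T₂ : X → ℂ} {C₁ C₂ : ℝ} (hC₂ : 0 ≤ C₂) (h₁ : Br A g w δ₁ V₁ F₁ T₁ C₁)
    (h₂ : Br A g w₂ δ₂ V₂ F₂ T₂ C₂) (hl : l ∈ Per g) {y : X} (hy₁ : y ∈ V₁) (hy₂ : y ∈ V₂)
    (hT : ‖T₁ y - l - w₂‖ < 2 * δ₂) : ‖F₂ y‖ ≤ C₂ * C₁ * ‖F₁ y‖ := by
  have h3 := h₂.up y hy₂ (T₁ y - l) hT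
  rw [x5_sub hl] at h3
  have h4 := h₁.low y hy₁
  calc ‖F₂ y‖ ≤ C₂ * dist y (g (T₁ y)) := h3
    _ ≤ C₂ * (C₁ * ‖F₁ y‖) := mul_le_mul_of_nonneg_left h4 hC₂
    _ = C₂ * C₁ * ‖F₁ y‖ := by ring

theorem ld_compare_pr {g : ℂ → X} {V₁ V₂ : Set X} {S₁ S₂ : Finset ℂ} {δ₁ δ₂ : ℝ}
    {F₁ F₂ : ℂ → X → E} {T₁ T₂ : ℂ → X → ℂ} {C₁ C₂ : ℝ} (h₁ : LD A g V₁ S₁ δ₁ F₁ T₁ C₁)
    (h₂ : LD A g V₂ S₂ δ₂ F₂ T₂ C₂) {y₀ : X} (hy₁ : y₀ ∈ V₁) (hy₂ : y₀ ∈ V₂) :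
    ∃ C, ∃ N ∈ 𝓝 y₀, ∀ y ∈ N, prd S₂ F₂ y ≤ C * prd S₁ F₁ y := by
  classical
  obtain ⟨i, hi⟩ := A.cover y₀
  have his : y₀ ∈ (A.ch i).source := A.W_sub i (subset_closure hi)
  have hδ₁ := h₁.δ_pos
  have hδ₂ := h₂.δ_pos
  have hC₁ := h₁.C_pos
  have hC₂ := h₂.C_pos
  have hTc : ∀ w ∈ S₁, ContinuousAt (T₁ w) y₀ := fun w hw =>
    x5_cont i his ((h₁.br w hw).T_an y₀ hy₁ i his).continuousAt
  have hF1c : ∀ w ∈ S₁, ContinuousAt (F₁ w) y₀ := fun w hw =>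
    x5_cont i his ((h₁.br w hw).F_an y₀ hy₁ i his).continuousAt
  have hF2c : ∀ w ∈ S₂, ContinuousAt (F₂ w) y₀ := fun w hw =>
    x5_cont i his ((h₂.br w hw).F_an y₀ hy₂ i his).continuousAt
  -- the branches through `y₀`
  have hgu : ∀ w ∈ S₁, F₁ w y₀ = 0 → g (T₁ w y₀) = y₀ := by
    intro w hw h0
    have h3 := (h₁.br w hw).low y₀ hy₁
    rw [h0, norm_zero, mul_zero] at h3
    exact (dist_le_zero.mp h3).symm
  have hex : ∀ w, ∃ s l : ℂ, w ∈ S₁ → F₁ w y₀ = 0 →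
      (s ∈ S₂ ∧ l ∈ Per g ∧ ‖T₁ w y₀ - s - l‖ < δ₂) := by
    intro w
    by_cases hw : w ∈ S₁ ∧ F₁ w y₀ = 0
    · obtain ⟨s, hs, l, hl, hlt⟩ := h₂.cov (T₁ w y₀) (by rw [hgu w hw.1 hw.2]; exact hy₂)
      exact ⟨s, l, fun _ _ => ⟨hs, hl, hlt⟩⟩
    · exact ⟨0, 0, fun h3 h4 => absurd ⟨h3, h4⟩ hw⟩
  choose σ l hσ using hex
  set Z : Finset ℂ := S₁.filter (fun w => F₁ w y₀ = 0) with hZ
  have hZm : ∀ w, w ∈ Z ↔ w ∈ S₁ ∧ F₁ w y₀ = 0 := fun w => by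
    rw [hZ, Finset.mem_filter]
  have hZS : Z ⊆ S₁ := fun w hw => ((hZm w).mp hw).1
  have hinj : Set.InjOn σ (Z : Set ℂ) := by
    intro w hw w' hw' he
    rw [Finset.mem_coe, hZm] at hw hw'
    obtain ⟨hs, hl, hlt⟩ := hσ w hw.1 hw.2
    obtain ⟨hs', hl', hlt'⟩ := hσ w' hw'.1 hw'.2
    have e1 : g (T₁ w y₀ - l w) = g (T₁ w' y₀ - l w') := by
      rw [x5_sub hl, x5_sub hl', hgu w hw.1 hw.2, hgu w' hw'.1 hw'.2]
    have e2 : T₁ w y₀ - l w = T₁ w' y₀ - l w' := by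
      apply h₂.inj _ _ e1
      have e3 : T₁ w y₀ - l w - (T₁ w' y₀ - l w') =
          (T₁ w y₀ - σ w - l w) - (T₁ w' y₀ - σ w' - l w') := by
        rw [he]; ring
      rw [e3]
      have := norm_sub_le (T₁ w y₀ - σ w - l w) (T₁ w' y₀ - σ w' - l w')
      linarith
    have e4 : T₁ w' y₀ - T₁ w y₀ ∈ Per g := by
      have : T₁ w' y₀ - T₁ w y₀ = l w' - l w := by
        linear_combination -e2
      rw [this]
      exact x5_per_sub hl' hl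
    have e5 : ‖w' - w - (T₁ w' y₀ - T₁ w y₀)‖ < 2 * δ₁ := by
      have a1 := (h₁.br w hw.1).T_mem y₀ hy₁
      have a2 := (h₁.br w' hw'.1).T_mem y₀ hy₁
      have a3 : w' - w - (T₁ w' y₀ - T₁ w y₀) = (T₁ w y₀ - w) - (T₁ w' y₀ - w') := by ring
      rw [a3]
      have := norm_sub_le (T₁ w y₀ - w) (T₁ w' y₀ - w')
      linarith
    exact (h₁.sep w hw.1 w' hw'.1 _ e4 e5).symm
  have hσS : Z.image σ ⊆ S₂ := by
    intro s hs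
    obtain ⟨w, hw, rfl⟩ := Finset.mem_image.mp hs
    rw [hZm] at hw
    exact (hσ w hw.1 hw.2).1
  -- the neighbourhood
  have hN1 : ∀ᶠ y in 𝓝 y₀, ∀ w ∈ Z, ‖T₁ w y - l w - σ w‖ < 2 * δ₂ := by
    rw [Filter.eventually_all_finset]
    intro w hw
    rw [hZm] at hw
    obtain ⟨hs, hl, hlt⟩ := hσ w hw.1 hw.2
    have hc : ContinuousAt (fun y => ‖T₁ w y - l w - σ w‖) y₀ :=
      (((hTc w hw.1).sub continuousAt_const).sub continuousAt_const).norm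
    refine hc.eventually_lt continuousAt_const ?_
    have : T₁ w y₀ - l w - σ w = T₁ w y₀ - σ w - l w := by ring
    rw [this]
    linarith
  have hN2 : ∀ᶠ y in 𝓝 y₀, ∀ w ∈ S₁ \ Z, ‖F₁ w y₀‖ / 2 ≤ ‖F₁ w y‖ := by
    rw [Filter.eventually_all_finset]
    intro w hw
    rw [Finset.mem_sdiff, hZm] at hw
    have h0 : F₁ w y₀ ≠ 0 := fun h => hw.2 ⟨hw.1, h⟩
    have hpos : 0 < ‖F₁ w y₀‖ := norm_pos_iff.mpr h0
    have hc : ContinuousAt (fun y => ‖F₁ w y‖) y₀ := (hF1c w hw.1).norm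
    have := continuousAt_const.eventually_lt hc (f := fun _ => ‖F₁ w y₀‖ / 2) (by
      show ‖F₁ w y₀‖ / 2 < ‖F₁ w y₀‖
      linarith)
    exact this.mono fun y hy => hy.le
  have hN3 : ∀ᶠ y in 𝓝 y₀, ∀ w ∈ S₂, ‖F₂ w y‖ ≤ ‖F₂ w y₀‖ + 1 := by
    rw [Filter.eventually_all_finset]
    intro w hw
    have hc : ContinuousAt (fun y => ‖F₂ w y‖) y₀ := (hF2c w hw).norm
    have := hc.eventually_lt continuousAt_const (g := fun _ => ‖F₂ w y₀‖ + 1) (by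
      show ‖F₂ w y₀‖ < ‖F₂ w y₀‖ + 1
      linarith)
    exact this.mono fun y hy => hy.le
  set M : ℝ := ∏ w ∈ S₂ \ Z.image σ, (‖F₂ w y₀‖ + 1) with hM
  set m : ℝ := ∏ w ∈ S₁ \ Z, (‖F₁ w y₀‖ / 2) with hm
  have hM0 : 0 ≤ M := Finset.prod_nonneg fun w _ => by positivity
  have hm0 : 0 < m := Finset.prod_pos fun w hw => by
    rw [Finset.mem_sdiff, hZm] at hw
    have h0 : F₁ w y₀ ≠ 0 := fun h => hw.2 ⟨hw.1, h⟩
    have := norm_pos_iff.mpr h0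
    linarith
  refine ⟨(C₂ * C₁) ^ Z.card * M / m, {y | y ∈ V₁ ∧ y ∈ V₂ ∧
    (∀ w ∈ Z, ‖T₁ w y - l w - σ w‖ < 2 * δ₂) ∧ (∀ w ∈ S₁ \ Z, ‖F₁ w y₀‖ / 2 ≤ ‖F₁ w y‖) ∧
    (∀ w ∈ S₂, ‖F₂ w y‖ ≤ ‖F₂ w y₀‖ + 1)}, ?_, ?_⟩
  · filter_upwards [h₁.opn.mem_nhds hy₁, h₂.opn.mem_nhds hy₂, hN1, hN2, hN3] with y a b c d e
    exact ⟨a, b, c, d, e⟩
  · rintro y ⟨a, b, c, d, e⟩
    have hP : 0 ≤ ∏ w ∈ Z, ‖F₁ w y‖ := Finset.prod_nonneg fun w _ => norm_nonneg _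
    have hs1 : prd S₁ F₁ y = (∏ w ∈ S₁ \ Z, ‖F₁ w y‖) * ∏ w ∈ Z, ‖F₁ w y‖ :=
      (Finset.prod_sdiff hZS).symm
    have hs2 : prd S₂ F₂ y = (∏ w ∈ S₂ \ Z.image σ, ‖F₂ w y‖) * ∏ w ∈ Z.image σ, ‖F₂ w y‖ :=
      (Finset.prod_sdiff hσS).symm
    have hs3 : ∏ w ∈ Z.image σ, ‖F₂ w y‖ = ∏ w ∈ Z, ‖F₂ (σ w) y‖ :=
      Finset.prod_image hinj
    have hs4 : ∏ w ∈ Z, ‖F₂ (σ w) y‖ ≤ (C₂ * C₁) ^ Z.card * ∏ w ∈ Z, ‖F₁ w y‖ := by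
      rw [← Finset.prod_const, ← Finset.prod_mul_distrib]
      refine Finset.prod_le_prod (fun w _ => norm_nonneg _) fun w hw => ?_
      have hw' := (hZm w).mp hw
      obtain ⟨hs, hl, hlt⟩ := hσ w hw'.1 hw'.2
      exact x5_fac hC₂.le (h₁.br w hw'.1) (h₂.br (σ w) hs) hl a b (c w hw)
    have hs5 : ∏ w ∈ S₂ \ Z.image σ, ‖F₂ w y‖ ≤ M :=
      Finset.prod_le_prod (fun w _ => norm_nonneg _) fun w hw =>
        e w (Finset.mem_sdiff.mp hw).1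
    have hs6 : m ≤ ∏ w ∈ S₁ \ Z, ‖F₁ w y‖ :=
      Finset.prod_le_prod (fun w _ => by positivity) fun w hw => d w hw
    have hK : 0 ≤ (C₂ * C₁) ^ Z.card := by positivity
    rw [hs1, hs2, hs3]
    calc (∏ w ∈ S₂ \ Z.image σ, ‖F₂ w y‖) * ∏ w ∈ Z, ‖F₂ (σ w) y‖
        ≤ M * ((C₂ * C₁) ^ Z.card * ∏ w ∈ Z, ‖F₁ w y‖) :=
          mul_le_mul hs5 hs4 (Finset.prod_nonneg fun w _ => norm_nonneg _) hM0
      _ = (C₂ * C₁) ^ Z.card * M / m * (m * ∏ w ∈ Z, ‖F₁ w y‖) := by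
          field_simp
      _ ≤ (C₂ * C₁) ^ Z.card * M / m * ((∏ w ∈ S₁ \ Z, ‖F₁ w y‖) * ∏ w ∈ Z, ‖F₁ w y‖) := by
          refine mul_le_mul_of_nonneg_left (mul_le_mul_of_nonneg_right hs6 hP) ?_
          positivity



end

end Pool.Agent.SL

namespace Pool.Agent.SL

alias ld_compare := ld_compare_pr

end Pool.Agent.SL
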