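import Pool.Agent.Lib_helper80.SL.Base
import Pool.Agent.Lib_helper80.SL.Defs2
import Pool.Agent.Lib_helper64.SS.B.LMB

-- block X7 (helper37)

set_option autoImplicit false
set_option linter.unusedVariables false
set_option linter.unusedSectionVars false

open Filter Topology Metric Set
open scoped Manifold ContDiff

namespace Pool.Agent.SL

open Pool.Agent.BR Pool.Agent.MBS

section

variable {E X : Type} [NormedAddCommGroup E] [NormedSpace ℂ E] [FiniteDimensional ℂ E]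
  [MetricSpace X] [CompactSpace X] {A : Cha E X}

theorem x7_norm_sq {N : ℕ} (a h : EuclideanSpace ℂ (Fin N)) :
    ‖a + h‖ ^ 2 = ‖a‖ ^ 2 + 2 * (inner ℂ a h).re + ‖h‖ ^ 2 := by
  have := @norm_add_sq ℂ _ _ _ _ a h
  simpa using this

theorem x7_val {N : ℕ} {e : E ≃L[ℂ] EuclideanSpace ℂ (Fin N)} {i : A.ι} {x₀ : X} {R K : ℝ}
    {S : Finset ℂ} {F : ℂ → X → E} {y : X} (h1 : y ∈ (A.ch i).source)
    (h2 : phi A e i x₀ R y ≤ 3 / 4) :
    val A e i x₀ R K S F y = prd S F y * Real.exp (-(K * phi A e i x₀ R y)) := by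
  unfold val
  rw [if_pos ⟨h1, by linarith⟩, min_eq_left (by linarith), max_eq_right zero_le_one, mul_one]

/-- the curve stays in the chart -/
theorem x7_stay {i : A.ι} {f : ℂ → X} {z₀ : ℂ} {r v η : ℝ} (hr : 0 < r) (hv : 0 ≤ v)
    (hvη : v * r < η) (hf : HB A f (closedBall z₀ r) v) (h0 : f z₀ ∈ (A.ch i).source)
    (hη : ∀ ξ ∈ closedBall (A.ch i (f z₀)) η, ξ ∈ (A.ch i).target ∧ (A.ch i).symm ξ ∈ A.W i) :
    ∀ z ∈ closedBall z₀ r, f z ∈ (A.ch i).source ∧ ‖A.ch i (f z) - A.ch i (f z₀)‖ ≤ v * r := by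
  have hseg : ∀ z ∈ closedBall z₀ r, ∀ τ ∈ Icc (0 : ℝ) 1,
      z₀ + (τ : ℂ) * (z - z₀) ∈ closedBall z₀ r := by
    intro z hz τ hτ
    rw [mem_closedBall, dist_eq_norm] at hz ⊢
    have : z₀ + (τ : ℂ) * (z - z₀) - z₀ = (τ : ℂ) * (z - z₀) := by ring
    rw [this, norm_mul, Complex.norm_real, Real.norm_eq_abs, abs_of_nonneg hτ.1]
    calc τ * ‖z - z₀‖ ≤ 1 * r := mul_le_mul hτ.2 hz (norm_nonneg _) zero_le_one
      _ = r := one_mul r
  intro z' hz'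
  have haff : ∀ τ : ℝ, HasDerivAt (fun σ : ℝ => z₀ + (σ : ℂ) * (z' - z₀)) (z' - z₀) τ := by
    intro τ
    have h4 : HasDerivAt (fun σ : ℝ => (σ : ℂ)) 1 τ := Complex.ofRealCLM.hasDerivAt
    have h5 := (h4.mul_const (z' - z₀)).const_add z₀
    rwa [one_mul] at h5
  have hzr : ‖z' - z₀‖ ≤ r := by rwa [mem_closedBall, dist_eq_norm] at hz'
  have hcurve := SS.lmb_curve (A.ch i) (fun τ : ℝ => f (z₀ + (τ : ℂ) * (z' - z₀)))
    (ξ₀ := A.ch i (f z₀)) (ρ := η) (L := v * r)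
    (fun τ hτ => by
      have h4 : ContinuousAt f ((fun σ : ℝ => z₀ + (σ : ℂ) * (z' - z₀)) τ) :=
        (hf _ (hseg z' hz' τ hτ)).1.1
      exact h4.comp (f := fun σ : ℝ => z₀ + (σ : ℂ) * (z' - z₀)) (haff τ).continuousAt)
    (by positivity) (fun ξ hξ => (hη ξ hξ).1)
    (by simpa using h0)
    (by
      have h4 : (z₀ + ((0 : ℝ) : ℂ) * (z' - z₀)) = z₀ := by simp
      rw [h4, sub_self, norm_zero, zero_add]
      exact hvη)
    (fun τ hτ hs1 hs2 => by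
      have hmem : A.ch i (f (z₀ + (τ : ℂ) * (z' - z₀))) ∈ closedBall (A.ch i (f z₀)) η := by
        rw [mem_closedBall_iff_norm]; exact hs2
      have hW : f (z₀ + (τ : ℂ) * (z' - z₀)) ∈ A.W i := by
        have h6 := (hη _ hmem).2
        rwa [(A.ch i).left_inv hs1] at h6
      have hz'' := hf _ (hseg z' hz' τ hτ)
      refine ⟨(z' - z₀) • deriv (A.loc i f) (z₀ + (τ : ℂ) * (z' - z₀)), ?_, ?_⟩
      · have h4 : HasDerivAt (A.loc i f) (deriv (A.loc i f) (z₀ + (τ : ℂ) * (z' - z₀)))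
            (z₀ + (τ : ℂ) * (z' - z₀)) := (hz''.1.2 i hs1).differentiableAt.hasDerivAt
        exact h4.scomp τ (haff τ)
      · rw [norm_smul, mul_comm]
        exact mul_le_mul (hz''.2 i hW) hzr (norm_nonneg _) hv)
    1 ⟨zero_le_one, le_rfl⟩
  have e1 : z₀ + ((1 : ℝ) : ℂ) * (z' - z₀) = z' := by push_cast; ring
  have e0 : z₀ + ((0 : ℝ) : ℂ) * (z' - z₀) = z₀ := by simp
  simp only [e1, e0, mul_one] at hcurve
  exact hcurve

theorem qsm_val_pr {N : ℕ} {e : E ≃L[ℂ] EuclideanSpace ℂ (Fin N)} {i : A.ι} {x₀ : X} {V : Set X}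
    (hVo : IsOpen V) {R : ℝ} (hR : Rad A e i x₀ V R) {S : Finset ℂ} {F : ℂ → X → E}
    (hF : AnOn A V S F) {K : ℝ} (hK : 0 ≤ K) :
    ∃ C > 0, ∃ ε₀ > 0, ∀ (f : ℂ → X) (z₀ : ℂ) (r v : ℝ) (H : ℂ → ℂ), 0 < r → 0 ≤ v →
      v * r ≤ ε₀ → HB A f (closedBall z₀ r) v → (∀ z ∈ closedBall z₀ r, AnalyticAt ℂ H z) →
      f z₀ ∈ (A.ch i).source → phi A e i x₀ R (f z₀) < 1 / 2 →
      (∀ z, ‖z - z₀‖ = r → val A e i x₀ R K S F (f z) ≤ Real.exp (H z).re) →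
      val A e i x₀ R K S F (f z₀) ≤ Real.exp ((H z₀).re + C * (v * r) ^ 2) := by
  have hRp := hR.pos
  obtain ⟨M, hM1, hMb⟩ : ∃ M : ℝ, 1 ≤ M ∧ ∀ u : E, ‖e u‖ ≤ M * ‖u‖ := by
    have h0 : 0 ≤ ‖(e : E →L[ℂ] EuclideanSpace ℂ (Fin N))‖ := norm_nonneg _
    refine ⟨‖(e : E →L[ℂ] EuclideanSpace ℂ (Fin N))‖ + 1, by linarith, fun u => ?_⟩
    have h1 := (e : E →L[ℂ] EuclideanSpace ℂ (Fin N)).le_opNorm u
    refine h1.trans ?_
    exact mul_le_mul_of_nonneg_right (by linarith) (norm_nonneg _)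
  have hMp : 0 < M := lt_of_lt_of_le one_pos hM1
  obtain ⟨η, hη⟩ : ∃ η, η = R / (10 * M) := ⟨_, rfl⟩
  have hηp : 0 < η := by rw [hη]; positivity
  have hMη : M * η = R / 10 := by rw [hη]; field_simp
  refine ⟨K * M ^ 2 / R ^ 2 + 1, by positivity, η / 2, by positivity, ?_⟩
  intro f z₀ r v H hr hv hvr hf hH h0 hφ hc
  obtain ⟨c, hcdef⟩ : ∃ c, c = A.ch i x₀ := ⟨_, rfl⟩
  obtain ⟨ξ₁, hξ₁⟩ : ∃ ξ₁, ξ₁ = A.ch i (f z₀) := ⟨_, rfl⟩
  have hvη : v * r < η := by linarith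
  have hvr0 : 0 ≤ v * r := by positivity
  have ha1 : ‖e (ξ₁ - c)‖ ≤ 71 / 100 * R := by
    unfold phi at hφ
    rw [← hξ₁, ← hcdef] at hφ
    have h1 : (‖e (ξ₁ - c)‖ / R) ^ 2 ≤ (71 / 100) ^ 2 := by
      refine hφ.le.trans (by norm_num)
    have h2 : ‖e (ξ₁ - c)‖ / R ≤ 71 / 100 := by
      exact (sq_le_sq₀ (by positivity) (by norm_num)).1 h1
    rwa [div_le_iff₀ hRp] at h2
  have hball : ∀ ξ ∈ closedBall ξ₁ η, ‖e (ξ - c)‖ ≤ 81 / 100 * R := by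
    intro ξ hξ
    rw [mem_closedBall_iff_norm] at hξ
    have h1 : ξ - c = (ξ₁ - c) + (ξ - ξ₁) := by abel
    rw [h1, map_add]
    calc ‖e (ξ₁ - c) + e (ξ - ξ₁)‖ ≤ ‖e (ξ₁ - c)‖ + ‖e (ξ - ξ₁)‖ := norm_add_le _ _
      _ ≤ 71 / 100 * R + M * η := by
          refine add_le_add ha1 ((hMb _).trans ?_)
          exact mul_le_mul_of_nonneg_left hξ hMp.le
      _ = 81 / 100 * R := by rw [hMη]; ring
  have hball2 : ∀ ξ ∈ closedBall ξ₁ η, ‖e (ξ - c)‖ ≤ R := fun ξ hξ =>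
    (hball ξ hξ).trans (by linarith)
  have hin : ∀ ξ ∈ closedBall ξ₁ η, ξ ∈ (A.ch i).target ∧ (A.ch i).symm ξ ∈ V ∩ A.W i := by
    intro ξ hξ
    have h1 := hball2 ξ hξ
    rw [hcdef] at h1
    exact ⟨hR.tgt ξ h1, hR.sub ξ h1⟩
  have hst := x7_stay (i := i) (η := η) hr hv hvη hf h0
    (fun ξ hξ => by
      rw [← hξ₁] at hξ
      exact ⟨(hin ξ hξ).1, (hin ξ hξ).2.2⟩)
  rw [← hξ₁] at hst
  have hmem : ∀ z ∈ closedBall z₀ r, A.ch i (f z) ∈ closedBall ξ₁ η := by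
    intro z hz
    rw [mem_closedBall_iff_norm]
    exact (hst z hz).2.trans hvη.le
  have hsy : ∀ z ∈ closedBall z₀ r, (A.ch i).symm (A.loc i f z) = f z := fun z hz =>
    (A.ch i).left_inv (hst z hz).1
  have hfV : ∀ z ∈ closedBall z₀ r, f z ∈ V := by
    intro z hz
    have h1 := (hin _ (hmem z hz)).2.1
    rwa [(A.ch i).left_inv (hst z hz).1] at h1
  have hlocan : ∀ z ∈ closedBall z₀ r, AnalyticAt ℂ (A.loc i f) z := fun z hz =>
    (hf z hz).1.2 i (hst z hz).1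
  have hφ34 : ∀ z ∈ closedBall z₀ r, phi A e i x₀ R (f z) ≤ 3 / 4 := by
    intro z hz
    unfold phi
    rw [← hcdef]
    have h1 := hball _ (hmem z hz)
    have h2 : ‖e (A.ch i (f z) - c)‖ / R ≤ 81 / 100 := by
      rw [div_le_iff₀ hRp]; exact h1
    calc (‖e (A.ch i (f z) - c)‖ / R) ^ 2 ≤ (81 / 100) ^ 2 := by gcongr
      _ ≤ 3 / 4 := by norm_num
  have hval : ∀ z ∈ closedBall z₀ r, val A e i x₀ R K S F (f z) =
      prd S F (f z) * Real.exp (-(K * phi A e i x₀ R (f z))) := fun z hz =>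
    x7_val (hst z hz).1 (hφ34 z hz)
  have hz0 : z₀ ∈ closedBall z₀ r := mem_closedBall_self hr.le
  -- the vectors
  obtain ⟨a, ha⟩ : ∃ a, a = e (ξ₁ - c) := ⟨_, rfl⟩
  obtain ⟨h, hh⟩ : ∃ h : ℂ → EuclideanSpace ℂ (Fin N), h = fun z => e (A.loc i f z - ξ₁) :=
    ⟨_, rfl⟩
  have hhb : ∀ z ∈ closedBall z₀ r, ‖h z‖ ≤ M * (v * r) := by
    intro z hz
    rw [hh]
    exact (hMb _).trans (mul_le_mul_of_nonneg_left (hst z hz).2 hMp.le)
  have hh0 : h z₀ = 0 := by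
    rw [hh]
    simp only [Cha.loc]
    rw [← hξ₁, sub_self, map_zero]
  have hphi : ∀ z, phi A e i x₀ R (f z) =
      (‖a‖ ^ 2 + 2 * (inner ℂ a (h z)).re + ‖h z‖ ^ 2) / R ^ 2 := by
    intro z
    unfold phi
    rw [← hcdef, ← x7_norm_sq, div_pow]
    congr 3
    rw [ha, hh]
    simp only [Cha.loc]
    rw [← map_add]
    congr 1
    abel
  -- linear forms
  have hdual : ∀ w : ℂ, ∃ l : E →L[ℂ] ℂ, ‖l‖ ≤ 1 ∧ l (F w (f z₀)) = ‖F w (f z₀)‖ := fun w =>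
    exists_dual_vector'' ℂ (F w (f z₀))
  choose l hl1 hl2 using hdual
  -- the holomorphic function
  obtain ⟨Q, hQ⟩ : ∃ Q : ℂ → ℂ, Q = fun z => (∏ w ∈ S, l w (F w ((A.ch i).symm (A.loc i f z)))) *
      Complex.exp (-H z - (2 * K / R ^ 2 : ℝ) * innerSL ℂ a (e (A.loc i f z - ξ₁))) := ⟨_, rfl⟩
  have hQan : ∀ z ∈ closedBall z₀ r, AnalyticAt ℂ Q z := by
    intro z hz
    rw [hQ]
    have h1 : AnalyticAt ℂ (fun z => ∏ w ∈ S, l w (F w ((A.ch i).symm (A.loc i f z)))) z := by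
      refine Finset.analyticAt_fun_prod S fun w hw => ?_
      have h2 := hF w hw (f z) (hfV z hz) i (hst z hz).1
      have h3 : AnalyticAt ℂ (fun z => F w ((A.ch i).symm (A.loc i f z))) z :=
        AnalyticAt.comp (g := fun ξ => F w ((A.ch i).symm ξ)) h2 (hlocan z hz)
      exact ((l w).analyticAt _).comp h3
    have h4 : AnalyticAt ℂ (fun z => innerSL ℂ a (e (A.loc i f z - ξ₁))) z := by
      have h5 : AnalyticAt ℂ (fun z => A.loc i f z - ξ₁) z := (hlocan z hz).sub analyticAt_const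
      have h6 : AnalyticAt ℂ (fun z => (e : E →L[ℂ] EuclideanSpace ℂ (Fin N))
          (A.loc i f z - ξ₁)) z :=
        ((e : E →L[ℂ] EuclideanSpace ℂ (Fin N)).analyticAt _).comp h5
      exact ((innerSL ℂ a).analyticAt _).comp h6
    exact h1.mul (((hH z hz).neg.sub (analyticAt_const.mul h4)).cexp)
  have hQnorm : ∀ z, ‖Q z‖ = (∏ w ∈ S, ‖l w (F w ((A.ch i).symm (A.loc i f z)))‖) *
      Real.exp (-(H z).re - 2 * K / R ^ 2 * (inner ℂ a (h z)).re) := by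
    intro z
    rw [hQ]
    simp only [norm_mul, Complex.norm_exp, norm_prod]
    congr 2
    rw [hh]
    simp only [Complex.sub_re, Complex.neg_re, innerSL_apply_apply]
    rw [Complex.re_ofReal_mul]
  have hQb : ∀ z, ‖z - z₀‖ = r → ‖Q z‖ ≤ Real.exp (K * ‖a‖ ^ 2 / R ^ 2 +
      K * M ^ 2 / R ^ 2 * (v * r) ^ 2) := by
    intro z hz
    have hzm : z ∈ closedBall z₀ r := by rw [mem_closedBall, dist_eq_norm]; exact hz.le
    rw [hQnorm]
    have h1 : ∏ w ∈ S, ‖l w (F w ((A.ch i).symm (A.loc i f z)))‖ ≤ prd S F (f z) := by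
      unfold prd
      refine Finset.prod_le_prod (fun w _ => norm_nonneg _) fun w _ => ?_
      rw [hsy z hzm]
      refine ((l w).le_opNorm _).trans ?_
      calc ‖l w‖ * ‖F w (f z)‖ ≤ 1 * ‖F w (f z)‖ :=
            mul_le_mul_of_nonneg_right (hl1 w) (norm_nonneg _)
        _ = ‖F w (f z)‖ := one_mul _
    have h2 := hc z hz
    rw [hval z hzm, hphi z] at h2
    have h3 : prd S F (f z) ≤ Real.exp ((H z).re +
        K * ((‖a‖ ^ 2 + 2 * (inner ℂ a (h z)).re + ‖h z‖ ^ 2) / R ^ 2)) := by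
      have h4 : prd S F (f z) = prd S F (f z) *
          Real.exp (-(K * ((‖a‖ ^ 2 + 2 * (inner ℂ a (h z)).re + ‖h z‖ ^ 2) / R ^ 2))) *
          Real.exp (K * ((‖a‖ ^ 2 + 2 * (inner ℂ a (h z)).re + ‖h z‖ ^ 2) / R ^ 2)) := by
        rw [mul_assoc, ← Real.exp_add, neg_add_cancel, Real.exp_zero, mul_one]
      rw [h4, Real.exp_add]
      exact mul_le_mul_of_nonneg_right h2 (Real.exp_nonneg _)
    have h5 : ‖h z‖ ^ 2 ≤ M ^ 2 * (v * r) ^ 2 := by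
      rw [← mul_pow]
      exact pow_le_pow_left₀ (norm_nonneg _) (hhb z hzm) 2
    calc (∏ w ∈ S, ‖l w (F w ((A.ch i).symm (A.loc i f z)))‖) *
        Real.exp (-(H z).re - 2 * K / R ^ 2 * (inner ℂ a (h z)).re)
        ≤ Real.exp ((H z).re +
          K * ((‖a‖ ^ 2 + 2 * (inner ℂ a (h z)).re + ‖h z‖ ^ 2) / R ^ 2)) *
          Real.exp (-(H z).re - 2 * K / R ^ 2 * (inner ℂ a (h z)).re) :=
          mul_le_mul_of_nonneg_right (h1.trans h3) (Real.exp_nonneg _)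
      _ = Real.exp (K * ‖a‖ ^ 2 / R ^ 2 + K / R ^ 2 * ‖h z‖ ^ 2) := by
          rw [← Real.exp_add]
          congr 1
          field_simp
          ring
      _ ≤ Real.exp (K * ‖a‖ ^ 2 / R ^ 2 + K * M ^ 2 / R ^ 2 * (v * r) ^ 2) := by
          apply Real.exp_le_exp.2
          have h6 : K / R ^ 2 * ‖h z‖ ^ 2 ≤ K / R ^ 2 * (M ^ 2 * (v * r) ^ 2) :=
            mul_le_mul_of_nonneg_left h5 (by positivity)
          have h7 : K / R ^ 2 * (M ^ 2 * (v * r) ^ 2) = K * M ^ 2 / R ^ 2 * (v * r) ^ 2 := by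
            ring
          linarith
  have hmax : ‖Q z₀‖ ≤ Real.exp (K * ‖a‖ ^ 2 / R ^ 2 + K * M ^ 2 / R ^ 2 * (v * r) ^ 2) := by
    have hdc : DiffContOnCl ℂ Q (ball z₀ r) := by
      have h1 : DifferentiableOn ℂ Q (closedBall z₀ r) := fun z hz =>
        (hQan z hz).differentiableAt.differentiableWithinAt
      refine ⟨h1.mono ball_subset_closedBall, ?_⟩
      rw [closure_ball z₀ hr.ne']
      exact h1.continuousOn
    refine Complex.norm_le_of_forall_mem_frontier_norm_le isBounded_ball hdc ?_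
      (subset_closure (mem_ball_self hr))
    intro z hz
    rw [frontier_ball z₀ hr.ne', mem_sphere_iff_norm] at hz
    exact hQb z hz
  have hQ0 : ‖Q z₀‖ = prd S F (f z₀) * Real.exp (-(H z₀).re) := by
    rw [hQnorm, hh0, inner_zero_right, Complex.zero_re, mul_zero, sub_zero]
    congr 1
    unfold prd
    refine Finset.prod_congr rfl fun w _ => ?_
    rw [hsy z₀ hz0, hl2 w]
    simp
  rw [hQ0] at hmax
  rw [hval z₀ hz0, hphi z₀, hh0, inner_zero_right, Complex.zero_re, mul_zero, add_zero, norm_zero]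
  have h8 : prd S F (f z₀) = prd S F (f z₀) * Real.exp (-(H z₀).re) * Real.exp (H z₀).re := by
    rw [mul_assoc, ← Real.exp_add, neg_add_cancel, Real.exp_zero, mul_one]
  rw [h8]
  calc prd S F (f z₀) * Real.exp (-(H z₀).re) * Real.exp (H z₀).re *
        Real.exp (-(K * ((‖a‖ ^ 2 + 0 ^ 2) / R ^ 2)))
      ≤ Real.exp (K * ‖a‖ ^ 2 / R ^ 2 + K * M ^ 2 / R ^ 2 * (v * r) ^ 2) * Real.exp (H z₀).re *
        Real.exp (-(K * ((‖a‖ ^ 2 + 0 ^ 2) / R ^ 2))) := by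
        gcongr
    _ = Real.exp ((H z₀).re + K * M ^ 2 / R ^ 2 * (v * r) ^ 2) := by
        rw [← Real.exp_add, ← Real.exp_add]
        congr 1
        ring
    _ ≤ Real.exp ((H z₀).re + (K * M ^ 2 / R ^ 2 + 1) * (v * r) ^ 2) := by
        apply Real.exp_le_exp.2
        nlinarith [sq_nonneg (v * r)]

end



end Pool.Agent.SL

namespace Pool.Agent.SL

alias qsm_val := qsm_val_pr

end Pool.Agent.SL
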