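import Pool.Agent.Lib_helper80.SL.Base
import Pool.Agent.Lib_helper80.SL.Defs2

/-! # Block X6 of SL: radii; the local function `val` is Lipschitz -/

set_option autoImplicit false
set_option linter.unusedVariables false
set_option linter.unusedSectionVars false

open Filter Topology Metric Set
open scoped Manifold ContDiff

namespace Pool.Agent.SL

open Pool.Agent.BR Pool.Agent.MBS

section x6gen

/-- `f` is Lipschitz near `ξ` -/
def x6_LL {Z : Type} [PseudoMetricSpace Z] (f : Z → ℝ) (ξ : Z) : Prop :=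
  ∃ L : ℝ, 0 ≤ L ∧ ∃ s ∈ 𝓝 ξ, ∀ a ∈ s, ∀ b ∈ s, |f a - f b| ≤ L * dist a b

variable {Z : Type} [PseudoMetricSpace Z] {f g : Z → ℝ} {ξ : Z}

theorem x6_bd (hf : x6_LL f ξ) : ∃ B : ℝ, 0 ≤ B ∧ ∃ s ∈ 𝓝 ξ, ∀ a ∈ s, |f a| ≤ B := by
  obtain ⟨L, hL, s, hs, h⟩ := hf
  refine ⟨|f ξ| + L, by positivity, s ∩ ball ξ 1, inter_mem hs (ball_mem_nhds ξ one_pos), ?_⟩
  rintro a ⟨ha, ha'⟩
  have h1 := h a ha ξ (mem_of_mem_nhds hs)
  have h2 : dist a ξ < 1 := ha'
  have h3 : |f a| ≤ |f ξ| + |f a - f ξ| := by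
    have := abs_add_le (f ξ) (f a - f ξ)
    rwa [add_sub_cancel] at this
  have h4 : L * dist a ξ ≤ L * 1 := mul_le_mul_of_nonneg_left h2.le hL
  linarith

theorem x6_cont (hf : x6_LL f ξ) : ContinuousAt f ξ := by
  obtain ⟨L, hL, s, hs, h⟩ := hf
  rw [Metric.continuousAt_iff]
  intro ε hε
  obtain ⟨r, hr, hrs⟩ := Metric.mem_nhds_iff.1 hs
  refine ⟨min r (ε / (L + 1)), lt_min hr (by positivity), fun {a} ha => ?_⟩
  have h1 := h a (hrs (ha.trans_le (min_le_left _ _))) ξ (mem_of_mem_nhds hs)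
  rw [Real.dist_eq]
  have h2 : dist a ξ < ε / (L + 1) := ha.trans_le (min_le_right _ _)
  have h3 : dist a ξ * (L + 1) < ε := (lt_div_iff₀ (by positivity)).1 h2
  have h4 : (0 : ℝ) ≤ dist a ξ := dist_nonneg
  nlinarith

theorem x6_mul (hf : x6_LL f ξ) (hg : x6_LL g ξ) : x6_LL (fun a => f a * g a) ξ := by
  obtain ⟨Bf, hBf, sf, hsf, hbf⟩ := x6_bd hf
  obtain ⟨Bg, hBg, sg, hsg, hbg⟩ := x6_bd hg
  obtain ⟨L, hL, s, hs, h⟩ := hf
  obtain ⟨M, hM, t, ht, h'⟩ := hg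
  refine ⟨L * Bg + Bf * M, by positivity, (s ∩ t) ∩ (sf ∩ sg),
    inter_mem (inter_mem hs ht) (inter_mem hsf hsg), ?_⟩
  rintro a ⟨⟨a1, a2⟩, a3, a4⟩ b ⟨⟨b1, b2⟩, b3, b4⟩
  have e1 : f a * g a - f b * g b = (f a - f b) * g a + f b * (g a - g b) := by ring
  rw [e1]
  refine (abs_add_le _ _).trans ?_
  rw [abs_mul, abs_mul]
  have e2 : |f a - f b| * |g a| ≤ (L * dist a b) * Bg :=
    mul_le_mul (h a a1 b b1) (hbg a a4) (abs_nonneg _) (by positivity)
  have e3 : |f b| * |g a - g b| ≤ Bf * (M * dist a b) :=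
    mul_le_mul (hbf b b3) (h' a a2 b b2) (abs_nonneg _) hBf
  calc _ ≤ (L * dist a b) * Bg + Bf * (M * dist a b) := add_le_add e2 e3
    _ = (L * Bg + Bf * M) * dist a b := by ring

theorem x6_const (c : ℝ) : x6_LL (fun _ : Z => c) ξ :=
  ⟨0, le_rfl, univ, univ_mem, fun a _ b _ => by simp⟩

theorem x6_prod {κ : Type} (S : Finset κ) (F : κ → Z → ℝ) (h : ∀ w ∈ S, x6_LL (F w) ξ) :
    x6_LL (fun a => ∏ w ∈ S, F w a) ξ := by
  classical
  induction S using Finset.induction_on with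
  | empty => simpa using x6_const (Z := Z) (ξ := ξ) 1
  | insert w S hw ih =>
    simp only [Finset.prod_insert hw]
    exact x6_mul (h w (Finset.mem_insert_self _ _))
      (ih fun w' hw' => h w' (Finset.mem_insert_of_mem hw'))

theorem x6_real {φ : ℝ → ℝ} (hφ : x6_LL φ (f ξ)) (hf : x6_LL f ξ) :
    x6_LL (fun a => φ (f a)) ξ := by
  have hc := x6_cont hf
  obtain ⟨L, hL, s, hs, h⟩ := hf
  obtain ⟨M, hM, t, ht, h'⟩ := hφ
  refine ⟨M * L, by positivity, s ∩ f ⁻¹' t, inter_mem hs (hc ht), ?_⟩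
  rintro a ⟨a1, a2⟩ b ⟨b1, b2⟩
  calc |φ (f a) - φ (f b)| ≤ M * dist (f a) (f b) := h' _ a2 _ b2
    _ ≤ M * (L * dist a b) := mul_le_mul_of_nonneg_left (by rw [Real.dist_eq]; exact h a a1 b b1) hM
    _ = M * L * dist a b := by ring

theorem x6_lip {K : NNReal} (hf : LipschitzWith K f) : x6_LL f ξ :=
  ⟨K, K.2, univ, univ_mem, fun a _ b _ => by
    rw [← Real.dist_eq]
    exact hf.dist_le_mul a b⟩

theorem x6_exp (t : ℝ) : x6_LL Real.exp t := by
  obtain ⟨K, s, hs, h⟩ := (Real.contDiff_exp (n := 1)).contDiffAt.exists_lipschitzOnWith (x := t)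
  refine ⟨K, K.2, s, hs, fun a ha b hb => ?_⟩
  rw [← Real.dist_eq]
  exact h.dist_le_mul a ha b hb

theorem x6_congr (hf : x6_LL f ξ) (h : g =ᶠ[𝓝 ξ] f) : x6_LL g ξ := by
  obtain ⟨L, hL, s, hs, hh⟩ := hf
  refine ⟨L, hL, _, inter_mem hs h, ?_⟩
  rintro a ⟨a1, a2⟩ b ⟨b1, b2⟩
  have e1 : g a = f a := a2
  have e2 : g b = f b := b2
  rw [e1, e2]
  exact hh a a1 b b1

/-- a locally Lipschitz function on a compact space is Lipschitz -/
theorem x6_compact [CompactSpace Z] (h : ∀ ξ, x6_LL f ξ) :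
    ∃ Lp : ℝ, 0 ≤ Lp ∧ ∀ x y, |f x - f y| ≤ Lp * dist x y := by
  have hh := isCompact_univ.induction_on (s := (univ : Set Z))
    (p := fun s => ∃ L : ℝ, 0 ≤ L ∧ ∃ B : ℝ, 0 ≤ B ∧ ∃ δ > 0, ∀ x ∈ s, |f x| ≤ B ∧
      ∀ y, dist x y < δ → |f x - f y| ≤ L * dist x y)
    ⟨0, le_rfl, 0, le_rfl, 1, one_pos, fun x hx => absurd hx (notMem_empty _)⟩
    (fun s t hst ⟨L, hL, B, hB, δ, hδ, h⟩ => ⟨L, hL, B, hB, δ, hδ, fun x hx => h x (hst hx)⟩)
    (fun s t ⟨L, hL, B, hB, δ, hδ, h⟩ ⟨L', hL', B', hB', δ', hδ', h'⟩ =>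
      ⟨max L L', le_max_of_le_left hL, max B B', le_max_of_le_left hB, min δ δ', lt_min hδ hδ',
      fun x hx => by
        rcases hx with hx | hx
        · exact ⟨(h x hx).1.trans (le_max_left _ _), fun y hy =>
            ((h x hx).2 y (hy.trans_le (min_le_left _ _))).trans
            (mul_le_mul_of_nonneg_right (le_max_left _ _) dist_nonneg)⟩
        · exact ⟨(h' x hx).1.trans (le_max_right _ _), fun y hy =>
            ((h' x hx).2 y (hy.trans_le (min_le_right _ _))).trans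
            (mul_le_mul_of_nonneg_right (le_max_right _ _) dist_nonneg)⟩⟩)
    (fun x₀ _ => by
      obtain ⟨B, hB, W, hW, hBW⟩ := x6_bd (h x₀)
      obtain ⟨L, hL0, V, hV, hL⟩ := h x₀
      obtain ⟨r, hr, hrV⟩ := Metric.mem_nhds_iff.1 (inter_mem hV hW)
      refine ⟨ball x₀ (r / 2), mem_nhdsWithin_of_mem_nhds (ball_mem_nhds _ (half_pos hr)), L, hL0,
        B, hB, r / 2, half_pos hr, fun x hx => ?_⟩
      have hx' : dist x x₀ < r / 2 := hx
      have hxr : x ∈ ball x₀ r := by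
        rw [mem_ball]
        linarith
      refine ⟨hBW x (hrV hxr).2, fun y hy => hL x (hrV hxr).1 y (hrV ?_).1⟩
      rw [mem_ball]
      have h1 := dist_triangle y x x₀
      rw [dist_comm y x] at h1
      linarith)
  obtain ⟨L, hL, B, hB, δ, hδ, hh⟩ := hh
  refine ⟨L + 2 * B / δ, by positivity, fun x y => ?_⟩
  have hd : (0 : ℝ) ≤ dist x y := dist_nonneg
  rcases lt_or_ge (dist x y) δ with hlt | hge
  · refine ((hh x (mem_univ x)).2 y hlt).trans (mul_le_mul_of_nonneg_right ?_ hd)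
    have h1 : 0 ≤ 2 * B / δ := by positivity
    linarith
  · have h1 : |f x - f y| ≤ 2 * B := by
      have h2 := (hh x (mem_univ x)).1
      have h3 := (hh y (mem_univ y)).1
      have h4 := abs_sub (f x) (f y)
      linarith
    have h2 : 2 * B ≤ 2 * B / δ * dist x y := by
      rw [div_mul_eq_mul_div, le_div_iff₀ hδ]
      exact mul_le_mul_of_nonneg_left hge (by positivity)
    have h3 : 0 ≤ L * dist x y := mul_nonneg hL hd
    rw [add_mul]
    linarith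

end x6gen

section

variable {E X : Type} [NormedAddCommGroup E] [NormedSpace ℂ E] [FiniteDimensional ℂ E]
  [MetricSpace X] [CompactSpace X] {A : Cha E X}

theorem exists_rad_pr {N : ℕ} (e : E ≃L[ℂ] EuclideanSpace ℂ (Fin N)) {i : A.ι} {x₀ : X}
    (hx₀ : x₀ ∈ A.W i) {V : Set X} (hV : V ∈ 𝓝 x₀) : ∃ R, Rad A e i x₀ V R := by
  have hsrc : x₀ ∈ (A.ch i).source := A.W_sub i (subset_closure hx₀)
  have hsy : (A.ch i).symm (A.ch i x₀) = x₀ := (A.ch i).left_inv hsrc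
  have htgt : A.ch i x₀ ∈ (A.ch i).target := (A.ch i).map_source hsrc
  have h1 : (A.ch i).target ∈ 𝓝 (A.ch i x₀) := (A.ch i).open_target.mem_nhds htgt
  have h2 : (A.ch i).symm ⁻¹' (V ∩ A.W i) ∈ 𝓝 (A.ch i x₀) := by
    refine (A.ch i).continuousAt_symm htgt ?_
    rw [hsy]
    exact inter_mem hV ((A.W_open i).mem_nhds hx₀)
  have h3 : (fun η : EuclideanSpace ℂ (Fin N) => A.ch i x₀ + e.symm η) ⁻¹'
      ((A.ch i).target ∩ (A.ch i).symm ⁻¹' (V ∩ A.W i)) ∈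
        𝓝 (0 : EuclideanSpace ℂ (Fin N)) := by
    have hc : ContinuousAt (fun η : EuclideanSpace ℂ (Fin N) => A.ch i x₀ + e.symm η) 0 :=
      (continuous_const.add e.symm.continuous).continuousAt
    refine hc ?_
    show _ ∈ 𝓝 (A.ch i x₀ + e.symm 0)
    rw [map_zero, add_zero]
    exact inter_mem h1 h2
  obtain ⟨R, hR, hRs⟩ := Metric.nhds_basis_closedBall.mem_iff.1 h3
  have h4 : ∀ ξ, ‖e (ξ - A.ch i x₀)‖ ≤ R →
      ξ ∈ (A.ch i).target ∩ (A.ch i).symm ⁻¹' (V ∩ A.W i) := by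
    intro ξ hξ
    have h5 : e (ξ - A.ch i x₀) ∈ closedBall (0 : EuclideanSpace ℂ (Fin N)) R := by
      rw [mem_closedBall, dist_zero_right]
      exact hξ
    have h6 := hRs h5
    have h7 : A.ch i x₀ + e.symm (e (ξ - A.ch i x₀)) = ξ := by
      rw [e.symm_apply_apply]
      abel
    rw [mem_preimage, h7] at h6
    exact h6
  exact ⟨R, hR, hx₀, fun ξ hξ => (h4 ξ hξ).1, fun ξ hξ => (h4 ξ hξ).2⟩

/-- the norm of an analytic function is locally Lipschitz -/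
theorem x6_norm {h : E → E} {ξ : E} (hh : AnalyticAt ℂ h ξ) : x6_LL (fun a => ‖h a‖) ξ := by
  have hcs : CompleteSpace E := FiniteDimensional.complete ℂ E
  have hac : ContDiffAt ℂ 1 h ξ := hh.contDiffAt
  obtain ⟨K, s, hs, hL⟩ := hac.exists_lipschitzOnWith
  refine ⟨K, K.2, s, hs, fun a ha b hb => ?_⟩
  refine (abs_norm_sub_norm_le _ _).trans ?_
  rw [← dist_eq_norm]
  exact hL.dist_le_mul a ha b hb

/-- composition with a chart -/
theorem x6_chart {lB LB : ℝ} (hB : BLip A lB LB) {i : A.ι} {y₀ : X} (hy : y₀ ∈ A.W i)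
    {G : E → ℝ} (hG : x6_LL G (A.ch i y₀)) : x6_LL (fun y => G (A.ch i y)) y₀ := by
  have hsrc : y₀ ∈ (A.ch i).source := A.W_sub i (subset_closure hy)
  obtain ⟨L, hL, s, hs, h⟩ := hG
  have hs' : (A.ch i) ⁻¹' s ∈ 𝓝 y₀ := (A.ch i).continuousAt hsrc hs
  have hLB : 0 ≤ LB := zero_le_one.trans hB.L_one
  refine ⟨L * LB, by positivity, _, inter_mem hs' (ball_mem_nhds y₀ hB.lam_pos), ?_⟩
  rintro a ⟨a1, a2⟩ b ⟨b1, b2⟩
  have h6 := hB.ch_le i y₀ (subset_closure hy) a a2 b b2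
  calc |G (A.ch i a) - G (A.ch i b)| ≤ L * dist (A.ch i a) (A.ch i b) := h _ a1 _ b1
    _ ≤ L * (LB * dist a b) := mul_le_mul_of_nonneg_left (by rw [dist_eq_norm]; exact h6) hL
    _ = L * LB * dist a b := by ring

/-- the function `phi` in the chart -/
theorem x6_phi {N : ℕ} (e : E ≃L[ℂ] EuclideanSpace ℂ (Fin N)) (ξ₀ : E) (R : ℝ) (ξ : E) :
    x6_LL (fun a : E => (‖e (a - ξ₀)‖ / R) ^ 2) ξ := by
  have h1 : x6_LL (fun a : E => ‖e (a - ξ₀)‖) ξ := by
    refine ⟨‖(e : E →L[ℂ] EuclideanSpace ℂ (Fin N))‖, norm_nonneg _, univ, univ_mem,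
      fun a _ b _ => ?_⟩
    refine (abs_norm_sub_norm_le _ _).trans ?_
    have h2 : e (a - ξ₀) - e (b - ξ₀) = (e : E →L[ℂ] EuclideanSpace ℂ (Fin N)) (a - b) := by
      rw [← map_sub]
      simp
    rw [h2, dist_eq_norm]
    exact ContinuousLinearMap.le_opNorm _ _
  have h2 := x6_mul h1 (x6_const (Z := E) (ξ := ξ) R⁻¹)
  have h3 := x6_mul h2 h2
  refine x6_congr h3 (Eventually.of_forall fun a => ?_)
  show (‖e (a - ξ₀)‖ / R) ^ 2 = ‖e (a - ξ₀)‖ * R⁻¹ * (‖e (a - ξ₀)‖ * R⁻¹)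
  rw [div_eq_mul_inv]
  ring

theorem x6_local {lB LB : ℝ} (hB : BLip A lB LB) {N : ℕ} {e : E ≃L[ℂ] EuclideanSpace ℂ (Fin N)}
    {i : A.ι} {x₀ : X} {V : Set X} (hVo : IsOpen V) {R : ℝ} (hR : Rad A e i x₀ V R)
    {S : Finset ℂ} {F : ℂ → X → E} (hF : AnOn A V S F) (K : ℝ) (y₀ : X) :
    x6_LL (val A e i x₀ R K S F) y₀ := by
  set Kc : Set X := (A.ch i).symm '' {ξ | ‖e (ξ - A.ch i x₀)‖ ≤ R} with hKc
  have hcomp : IsCompact {ξ : E | ‖e (ξ - A.ch i x₀)‖ ≤ R} := by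
    have h1 : {ξ : E | ‖e (ξ - A.ch i x₀)‖ ≤ R} =
        (fun η : EuclideanSpace ℂ (Fin N) => A.ch i x₀ + e.symm η) '' closedBall 0 R := by
      ext ξ
      constructor
      · intro hξ
        refine ⟨e (ξ - A.ch i x₀), ?_, ?_⟩
        · rw [mem_closedBall, dist_zero_right]
          exact hξ
        · show A.ch i x₀ + e.symm (e (ξ - A.ch i x₀)) = ξ
          rw [e.symm_apply_apply]
          abel
      · rintro ⟨η, hη, rfl⟩
        rw [mem_closedBall, dist_zero_right] at hη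
        show ‖e (A.ch i x₀ + e.symm η - A.ch i x₀)‖ ≤ R
        rw [add_sub_cancel_left, e.apply_symm_apply]
        exact hη
    rw [h1]
    exact (isCompact_closedBall _ _).image (continuous_const.add e.symm.continuous)
  have hKcc : IsCompact Kc := hcomp.image_of_continuousOn
    ((A.ch i).continuousOn_symm.mono fun ξ hξ => hR.tgt ξ hξ)
  have hmem : ∀ y, y ∈ (A.ch i).source → phi A e i x₀ R y ≤ 1 → y ∈ Kc ∧ y ∈ V ∩ A.W i := by
    intro y hy hφ
    have h1 : ‖e (A.ch i y - A.ch i x₀)‖ ≤ R := by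
      unfold phi at hφ
      have h2 : ‖e (A.ch i y - A.ch i x₀)‖ / R ≤ 1 := by
        have h3 : 0 ≤ ‖e (A.ch i y - A.ch i x₀)‖ / R := div_nonneg (norm_nonneg _) hR.pos.le
        nlinarith
      rwa [div_le_one hR.pos] at h2
    have h2 : (A.ch i).symm (A.ch i y) = y := (A.ch i).left_inv hy
    refine ⟨⟨A.ch i y, h1, h2⟩, ?_⟩
    have := hR.sub _ h1
    rwa [h2] at this
  by_cases hy₀ : y₀ ∈ Kc
  · -- near the support
    obtain ⟨ξ, hξ, hξy⟩ := hy₀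
    have hVW : y₀ ∈ V ∩ A.W i := by
      rw [← hξy]
      exact hR.sub ξ hξ
    have hsrc : y₀ ∈ (A.ch i).source := A.W_sub i (subset_closure hVW.2)
    set G : E → ℝ := fun ξ => (∏ w ∈ S, ‖F w ((A.ch i).symm ξ)‖) *
      Real.exp (-(K * (‖e (ξ - A.ch i x₀)‖ / R) ^ 2)) *
      max 0 (min 1 (4 - 4 * (‖e (ξ - A.ch i x₀)‖ / R) ^ 2)) with hG
    have hφ := x6_phi e (A.ch i x₀) R (A.ch i y₀)
    have h1 : x6_LL (fun ξ => ∏ w ∈ S, ‖F w ((A.ch i).symm ξ)‖) (A.ch i y₀) :=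
      x6_prod S _ fun w hw => x6_norm (hF w hw y₀ hVW.1 i hsrc)
    have h2 : x6_LL (fun ξ => Real.exp (-(K * (‖e (ξ - A.ch i x₀)‖ / R) ^ 2))) (A.ch i y₀) := by
      refine x6_real (φ := Real.exp) (x6_exp _) ?_
      refine x6_congr (x6_mul (x6_const (-K)) hφ) (Eventually.of_forall fun a => ?_)
      show -(K * (‖e (a - A.ch i x₀)‖ / R) ^ 2) = -K * (‖e (a - A.ch i x₀)‖ / R) ^ 2
      ring
    have h3 : x6_LL (fun ξ => max 0 (min 1 (4 - 4 * (‖e (ξ - A.ch i x₀)‖ / R) ^ 2)))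
        (A.ch i y₀) := by
      refine x6_real (φ := fun t => max 0 (min 1 (4 - 4 * t))) ?_ hφ
      refine x6_real (φ := fun t => max 0 (min 1 t))
        (x6_lip ((LipschitzWith.id.const_min 1).const_max 0)) ?_
      refine ⟨4, by norm_num, univ, univ_mem, fun a _ b _ => ?_⟩
      rw [Real.dist_eq]
      have h4 : 4 - 4 * a - (4 - 4 * b) = -4 * (a - b) := by ring
      rw [h4, abs_mul]
      norm_num
    have hGL : x6_LL G (A.ch i y₀) := x6_mul (x6_mul h1 h2) h3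
    refine x6_congr (x6_chart hB hVW.2 hGL) ?_
    filter_upwards [(hVo.inter (A.W_open i)).mem_nhds hVW] with y hy
    have hys : y ∈ (A.ch i).source := A.W_sub i (subset_closure hy.2)
    have hyi : (A.ch i).symm (A.ch i y) = y := (A.ch i).left_inv hys
    show val A e i x₀ R K S F y = G (A.ch i y)
    simp only [hG, hyi]
    unfold val
    by_cases hlt : phi A e i x₀ R y < 1
    · rw [if_pos ⟨hys, hlt⟩]
      rfl
    · rw [if_neg (fun h => hlt h.2)]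
      have h5 : (1 : ℝ) ≤ (‖e (A.ch i y - A.ch i x₀)‖ / R) ^ 2 := not_lt.1 hlt
      have h6 : max 0 (min 1 (4 - 4 * (‖e (A.ch i y - A.ch i x₀)‖ / R) ^ 2)) = 0 := by
        rw [max_eq_left]
        exact (min_le_right _ _).trans (by linarith)
      rw [h6, mul_zero]
  · -- outside
    refine x6_congr (x6_const 0) ?_
    filter_upwards [hKcc.isClosed.isOpen_compl.mem_nhds hy₀] with y hy
    unfold val
    rw [if_neg]
    rintro ⟨h1, h2⟩
    exact hy (hmem y h1 h2.le).1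

theorem val_lip_pr {lB LB : ℝ} (hB : BLip A lB LB) {N : ℕ} {e : E ≃L[ℂ] EuclideanSpace ℂ (Fin N)}
    {i : A.ι} {x₀ : X} {V : Set X} (hVo : IsOpen V) {R : ℝ} (hR : Rad A e i x₀ V R)
    {S : Finset ℂ} {F : ℂ → X → E} (hF : AnOn A V S F) (K : ℝ) :
    ∃ Lp : ℝ, 0 ≤ Lp ∧ ∀ x y, |val A e i x₀ R K S F x - val A e i x₀ R K S F y| ≤ Lp * dist x y :=
  x6_compact fun ξ => x6_local hB hVo hR hF K ξ




end

end Pool.Agent.SL

namespace Pool.Agent.SL

alias exists_rad := exists_rad_pr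
alias val_lip := val_lip_pr

end Pool.Agent.SL
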