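import Pool.Agent.Lib_helper80.SL.Base
import Pool.Agent.Lib_helper80.SL.Defs2
import Pool.Agent.Lib_helper80.SL.L.X6
import Pool.Agent.Lib_helper80.SL.L.X7

/-! # Block X8 of SL: gluing by maxima -/

set_option autoImplicit false
set_option linter.unusedVariables false
set_option linter.unusedSectionVars false

open Filter Topology Metric Set
open scoped Manifold ContDiff

namespace Pool.Agent.SL

open Pool.Agent.BR Pool.Agent.MBS

section

variable {E X : Type} [NormedAddCommGroup E] [NormedSpace ℂ E] [FiniteDimensional ℂ E]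
  [MetricSpace X] [CompactSpace X] {A : Cha E X}

theorem x8_prd_nonneg (S : Finset ℂ) (F : ℂ → X → E) (y : X) : 0 ≤ prd S F y :=
  Finset.prod_nonneg fun _ _ => norm_nonneg _

theorem x8_phi_nonneg {N : ℕ} (e : E ≃L[ℂ] EuclideanSpace ℂ (Fin N)) (i : A.ι) (x₀ : X) (R : ℝ)
    (y : X) : 0 ≤ phi A e i x₀ R y := by
  unfold phi
  positivity

theorem x8_val_nonneg {N : ℕ} (e : E ≃L[ℂ] EuclideanSpace ℂ (Fin N)) (i : A.ι) (x₀ : X) (R K : ℝ)
    (S : Finset ℂ) (F : ℂ → X → E) (y : X) : 0 ≤ val A e i x₀ R K S F y := by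
  unfold val
  split_ifs
  · exact mul_nonneg (mul_nonneg (x8_prd_nonneg S F y) (Real.exp_pos _).le) (le_max_left _ _)
  · exact le_rfl

theorem x8_val_pos {N : ℕ} {e : E ≃L[ℂ] EuclideanSpace ℂ (Fin N)} {i : A.ι} {x₀ : X} {R K : ℝ}
    {S : Finset ℂ} {F : ℂ → X → E} {y : X} (h : 0 < val A e i x₀ R K S F y) :
    y ∈ (A.ch i).source ∧ phi A e i x₀ R y < 1 ∧
      val A e i x₀ R K S F y ≤ prd S F y * Real.exp (-(K * phi A e i x₀ R y)) := by
  unfold val at h ⊢
  split_ifs at h ⊢ with h1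
  · refine ⟨h1.1, h1.2, ?_⟩
    have h2 : max 0 (min 1 (4 - 4 * phi A e i x₀ R y)) ≤ 1 := max_le zero_le_one (min_le_left _ _)
    have h3 : 0 ≤ prd S F y * Real.exp (-(K * phi A e i x₀ R y)) :=
      mul_nonneg (x8_prd_nonneg S F y) (Real.exp_pos _).le
    exact mul_le_of_le_one_right h3 h2
  · exact absurd h (lt_irrefl _)

theorem x8_val_eq {N : ℕ} {e : E ≃L[ℂ] EuclideanSpace ℂ (Fin N)} {i : A.ι} {x₀ : X} {R K : ℝ}
    {S : Finset ℂ} {F : ℂ → X → E} {y : X} (h1 : y ∈ (A.ch i).source)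
    (h2 : phi A e i x₀ R y ≤ 3 / 4) :
    val A e i x₀ R K S F y = prd S F y * Real.exp (-(K * phi A e i x₀ R y)) := by
  unfold val
  rw [if_pos ⟨h1, by linarith⟩, min_eq_left (by linarith), max_eq_right zero_le_one, mul_one]

theorem x8_cpt {N : ℕ} {e : E ≃L[ℂ] EuclideanSpace ℂ (Fin N)} {i : A.ι} {x₀ : X} {V : Set X}
    {R : ℝ} (hR : Rad A e i x₀ V R) :
    IsCompact {y | y ∈ (A.ch i).source ∧ phi A e i x₀ R y ≤ 1} := by
  have hRp := hR.pos
  have h1 : IsCompact {ξ : E | ‖e (ξ - A.ch i x₀)‖ ≤ R} := by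
    have h2 : {ξ : E | ‖e (ξ - A.ch i x₀)‖ ≤ R} =
        (fun u => e.symm u + A.ch i x₀) '' closedBall (0 : EuclideanSpace ℂ (Fin N)) R := by
      ext ξ
      simp only [Set.mem_ofPred_eq, mem_image, mem_closedBall, dist_zero_right]
      constructor
      · intro h
        exact ⟨e (ξ - A.ch i x₀), h, by simp⟩
      · rintro ⟨u, hu, rfl⟩
        simpa using hu
    rw [h2]
    exact (isCompact_closedBall _ _).image (by fun_prop)
  have h3 : {y | y ∈ (A.ch i).source ∧ phi A e i x₀ R y ≤ 1} =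
      (A.ch i).symm '' {ξ : E | ‖e (ξ - A.ch i x₀)‖ ≤ R} := by
    ext y
    simp only [Set.mem_ofPred_eq, mem_image]
    constructor
    · rintro ⟨hy, hφ⟩
      refine ⟨A.ch i y, ?_, (A.ch i).left_inv hy⟩
      unfold phi at hφ
      have h4 : ‖e (A.ch i y - A.ch i x₀)‖ / R ≤ 1 := (sq_le_one_iff₀ (by positivity)).1 hφ
      rwa [div_le_one hRp] at h4
    · rintro ⟨ξ, hξ, rfl⟩
      have h5 := hR.tgt ξ hξ
      refine ⟨(A.ch i).map_target h5, ?_⟩
      unfold phi
      rw [(A.ch i).right_inv h5]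
      have : ‖e (ξ - A.ch i x₀)‖ / R ≤ 1 := (div_le_one hRp).2 hξ
      exact pow_le_one₀ (by positivity) this
  rw [h3]
  refine h1.image_of_continuousOn ?_
  exact (A.ch i).continuousOn_symm.mono fun ξ hξ => hR.tgt ξ hξ

theorem x8_mem {N : ℕ} {e : E ≃L[ℂ] EuclideanSpace ℂ (Fin N)} {i : A.ι} {x₀ : X} {V : Set X}
    {R : ℝ} (hR : Rad A e i x₀ V R) {y : X} (hy : y ∈ (A.ch i).source)
    (hφ : phi A e i x₀ R y ≤ 1) : y ∈ V := by
  have hRp := hR.pos
  unfold phi at hφ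
  have h4 : ‖e (A.ch i y - A.ch i x₀)‖ / R ≤ 1 := (sq_le_one_iff₀ (by positivity)).1 hφ
  rw [div_le_one hRp] at h4
  have h5 := (hR.sub _ h4).1
  rwa [(A.ch i).left_inv hy] at h5

theorem x8_open {N : ℕ} (e : E ≃L[ℂ] EuclideanSpace ℂ (Fin N)) (i : A.ι) (x₀ : X) (R θ : ℝ) :
    IsOpen {y | y ∈ (A.ch i).source ∧ phi A e i x₀ R y < θ} := by
  have h1 : ContinuousOn (phi A e i x₀ R) (A.ch i).source := by
    unfold phi
    have h2 := (A.ch i).continuousOn
    have h3 : ContinuousOn (fun y => e (A.ch i y - A.ch i x₀)) (A.ch i).source :=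
      e.continuous.comp_continuousOn (h2.sub continuousOn_const)
    exact (h3.norm.div_const _).pow 2
  exact h1.isOpen_inter_preimage (A.ch i).open_source (isOpen_Iio (a := θ))

/-- comparison on compact sets -/
theorem x8_cmp {K : Set X} (hK : IsCompact K) (f g : X → ℝ) (hg : ∀ y, 0 ≤ g y)
    (h : ∀ y₀ ∈ K, ∃ C, ∃ N ∈ 𝓝 y₀, ∀ y ∈ N, f y ≤ C * g y) : ∃ C, ∀ y ∈ K, f y ≤ C * g y := by
  refine hK.induction_on (p := fun s => ∃ C, ∀ y ∈ s, f y ≤ C * g y) ⟨0, fun y hy => ?_⟩ ?_ ?_ ?_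
  · exact absurd hy (Set.notMem_empty y)
  · rintro s t hst ⟨C, hC⟩
    exact ⟨C, fun y hy => hC y (hst hy)⟩
  · rintro s t ⟨C, hC⟩ ⟨C', hC'⟩
    refine ⟨max C C', ?_⟩
    rintro y (hy | hy)
    · exact (hC y hy).trans (mul_le_mul_of_nonneg_right (le_max_left _ _) (hg y))
    · exact (hC' y hy).trans (mul_le_mul_of_nonneg_right (le_max_right _ _) (hg y))
  · intro y₀ hy₀
    obtain ⟨C, N, hN, hC⟩ := h y₀ hy₀
    exact ⟨N, mem_nhdsWithin_of_mem_nhds hN, C, hC⟩

theorem glue_pr {lB LB : ℝ} (hB : BLip A lB LB) (Y : Set X) (V : X → Set X) (S : X → Finset ℂ)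
    (F : X → ℂ → X → E) (hV : ∀ x, IsOpen (V x) ∧ x ∈ V x) (hF : ∀ x, AnOn A (V x) (S x) (F x))
    (hz : ∀ x, ∀ y ∈ V x, (prd (S x) (F x) y = 0 ↔ y ∈ Y))
    (hcmp : ∀ x x' y₀, y₀ ∈ V x → y₀ ∈ V x' →
      ∃ C, ∃ N ∈ 𝓝 y₀, ∀ y ∈ N, prd (S x) (F x) y ≤ C * prd (S x') (F x') y) :
    ∃ (ρ : X → ℝ) (Cq εq Lp : ℝ), 0 < Cq ∧ 0 < εq ∧ Good A ρ Cq εq Lp ∧
      ∀ x, ρ x = 0 ↔ x ∈ Y := by
  rcases isEmpty_or_nonempty X with hX | hX
  · refine ⟨fun _ => 0, 1, 1, 0, one_pos, one_pos, ⟨?_, ?_, ?_, ?_, ?_⟩, ?_⟩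
    · exact continuous_const
    · exact fun x => le_rfl
    · exact fun x => zero_le_one
    · exact fun f => (IsEmpty.false (f 0)).elim
    · exact fun x => (IsEmpty.false x).elim
    · exact fun x => (IsEmpty.false x).elim
  obtain ⟨e⟩ : Nonempty (E ≃L[ℂ] EuclideanSpace ℂ (Fin (Module.finrank ℂ E))) :=
    ⟨ContinuousLinearEquiv.ofFinrankEq (by rw [finrank_euclideanSpace_fin])⟩
  choose i hi using A.cover
  have hr := fun x => exists_rad e (hi x) ((hV x).1.mem_nhds (hV x).2)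
  choose R hR using hr
  -- the finite cover
  obtain ⟨t, ht⟩ : ∃ t : Finset X, ∀ y, ∃ x ∈ t, y ∈ (A.ch (i x)).source ∧
      phi A e (i x) x (R x) y < 1 / 4 := by
    obtain ⟨t, ht⟩ := isCompact_univ.elim_finite_subcover
      (fun x => {y | y ∈ (A.ch (i x)).source ∧ phi A e (i x) x (R x) y < 1 / 4})
      (fun x => x8_open e (i x) x (R x) (1 / 4)) (fun x _ => by
        refine mem_iUnion.2 ⟨x, A.W_sub _ (subset_closure (hi x)), ?_⟩
        unfold phi
        simp)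
    refine ⟨t, fun y => ?_⟩
    have := ht (mem_univ y)
    simp only [mem_iUnion] at this
    obtain ⟨x, hx, h⟩ := this
    exact ⟨x, hx, h⟩
  have htne : t.Nonempty := by
    obtain ⟨x⟩ := hX
    obtain ⟨x', hx', -⟩ := ht x
    exact ⟨x', hx'⟩
  -- the comparison constant
  have hcp : ∀ a b : X, ∃ C, ∀ y, y ∈ (A.ch (i a)).source → phi A e (i a) a (R a) y ≤ 1 →
      y ∈ (A.ch (i b)).source → phi A e (i b) b (R b) y ≤ 1 →
      prd (S a) (F a) y ≤ C * prd (S b) (F b) y := by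
    intro a b
    obtain ⟨C, hC⟩ := x8_cmp ((x8_cpt (hR a)).inter (x8_cpt (hR b))) (prd (S a) (F a))
      (prd (S b) (F b)) (x8_prd_nonneg _ _) (fun y₀ hy₀ =>
        hcmp a b y₀ (x8_mem (hR a) hy₀.1.1 hy₀.1.2) (x8_mem (hR b) hy₀.2.1 hy₀.2.2))
    exact ⟨C, fun y h1 h2 h3 h4 => hC y ⟨⟨h1, h2⟩, h3, h4⟩⟩
  choose Cm hCm using hcp
  obtain ⟨C₀, hC₀1, hC₀⟩ : ∃ C₀ : ℝ, 1 ≤ C₀ ∧ ∀ a ∈ t, ∀ b ∈ t, Cm a b ≤ C₀ := by
    refine ⟨∑ a ∈ t, ∑ b ∈ t, |Cm a b| + 1, ?_, ?_⟩
    · have : 0 ≤ ∑ a ∈ t, ∑ b ∈ t, |Cm a b| :=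
        Finset.sum_nonneg fun a _ => Finset.sum_nonneg fun b _ => abs_nonneg _
      linarith
    · intro a ha b hb
      have h1 : |Cm a b| ≤ ∑ b ∈ t, |Cm a b| :=
        Finset.single_le_sum (f := fun b => |Cm a b|) (fun _ _ => abs_nonneg _) hb
      have h2 : ∑ b ∈ t, |Cm a b| ≤ ∑ a ∈ t, ∑ b ∈ t, |Cm a b| :=
        Finset.single_le_sum (f := fun a => ∑ b ∈ t, |Cm a b|)
          (fun _ _ => Finset.sum_nonneg fun _ _ => abs_nonneg _) ha
      have h3 := le_abs_self (Cm a b)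
      linarith
  obtain ⟨K, hKdef⟩ : ∃ K : ℝ, K = 4 * C₀ := ⟨_, rfl⟩
  have hK0 : 0 ≤ K := by rw [hKdef]; positivity
  have hKexp : C₀ * Real.exp (-(K / 4)) < 1 := by
    have h1 : K / 4 = C₀ := by rw [hKdef]; ring
    rw [h1, Real.exp_neg, mul_inv_lt_iff₀ (Real.exp_pos _), one_mul]
    have := Real.add_one_le_exp C₀
    linarith
  -- the local functions
  obtain ⟨w, hw⟩ : ∃ w : X → X → ℝ, w = fun a y => val A e (i a) a (R a) K (S a) (F a) y :=
    ⟨_, rfl⟩
  have hw0 : ∀ a y, 0 ≤ w a y := fun a y => by rw [hw]; exact x8_val_nonneg _ _ _ _ _ _ _ _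
  have hwl : ∀ a, ∃ Lp : ℝ, 0 ≤ Lp ∧ ∀ x y, |w a x - w a y| ≤ Lp * dist x y := by
    intro a
    rw [hw]
    exact val_lip hB (hV a).1 (hR a) (hF a) K
  choose L hL0 hL using hwl
  have hwb : ∀ a, ∃ M : ℝ, ∀ y, w a y ≤ M := by
    intro a
    have hc : Continuous (w a) := by
      have : LipschitzWith ⟨L a, hL0 a⟩ (w a) :=
        LipschitzWith.of_dist_le_mul fun x y => by rw [Real.dist_eq]; exact hL a x y
      exact this.continuous
    obtain ⟨M, hM⟩ := isCompact_univ.bddAbove_image hc.continuousOn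
    exact ⟨M, fun y => hM ⟨y, mem_univ y, rfl⟩⟩
  choose M' hM' using hwb
  obtain ⟨M, hM1, hM⟩ : ∃ M : ℝ, 1 ≤ M ∧ ∀ a ∈ t, ∀ y, w a y ≤ M := by
    refine ⟨∑ a ∈ t, |M' a| + 1, ?_, fun a ha y => ?_⟩
    · have : 0 ≤ ∑ a ∈ t, |M' a| := Finset.sum_nonneg fun a _ => abs_nonneg _
      linarith
    · have h1 : |M' a| ≤ ∑ a ∈ t, |M' a| :=
        Finset.single_le_sum (f := fun a => |M' a|) (fun _ _ => abs_nonneg _) ha
      have h2 := hM' a y
      have h3 := le_abs_self (M' a)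
      linarith
  have hMp : 0 < M := by linarith
  obtain ⟨LL, hLL0, hLL⟩ : ∃ LL : ℝ, 0 ≤ LL ∧ ∀ a ∈ t, L a ≤ LL :=
    ⟨∑ a ∈ t, L a, Finset.sum_nonneg fun a _ => hL0 a, fun a ha =>
      Finset.single_le_sum (f := fun a => L a) (fun a _ => hL0 a) ha⟩
  have hqs : ∀ a, ∃ C > 0, ∃ ε₀ > 0, ∀ (f : ℂ → X) (z₀ : ℂ) (r v : ℝ) (H : ℂ → ℂ), 0 < r → 0 ≤ v →
      v * r ≤ ε₀ → HB A f (closedBall z₀ r) v → (∀ z ∈ closedBall z₀ r, AnalyticAt ℂ H z) →
      f z₀ ∈ (A.ch (i a)).source → phi A e (i a) a (R a) (f z₀) < 1 / 2 →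
      (∀ z, ‖z - z₀‖ = r → w a (f z) ≤ Real.exp (H z).re) →
      w a (f z₀) ≤ Real.exp ((H z₀).re + C * (v * r) ^ 2) := by
    intro a
    rw [hw]
    exact qsm_val (hV a).1 (hR a) (hF a) hK0
  choose Cq hCq0 εq hεq0 hqs using hqs
  -- the maximum
  obtain ⟨m, hm⟩ : ∃ m : X → ℝ, m = fun y => t.sup' htne (fun a => w a y) := ⟨_, rfl⟩
  have hle : ∀ a ∈ t, ∀ y, w a y ≤ m y := by
    intro a ha y
    rw [hm]
    exact Finset.le_sup' (fun a => w a y) ha
  have hm0 : ∀ y, 0 ≤ m y := by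
    intro y
    obtain ⟨a, ha⟩ := htne
    exact (hw0 a y).trans (hle a ha y)
  have hma : ∀ y, ∃ a ∈ t, m y = w a y := by
    intro y
    obtain ⟨a, ha, h⟩ := Finset.exists_mem_eq_sup' htne (fun a => w a y)
    exact ⟨a, ha, by rw [hm]; exact h⟩
  have hmL : ∀ x y, m x ≤ m y + LL * dist x y := by
    intro x y
    obtain ⟨a, ha, h⟩ := hma x
    rw [h]
    have h1 := hL a x y
    have h2 := hle a ha y
    have h3 := le_abs_self (w a x - w a y)
    have h4 : L a * dist x y ≤ LL * dist x y := mul_le_mul_of_nonneg_right (hLL a ha) dist_nonneg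
    linarith
  have hlip : ∀ x y, |m x / M - m y / M| ≤ LL * dist x y := by
    intro x y
    rw [← sub_div, abs_div, abs_of_pos hMp]
    have h1 := hmL x y
    have h2 := hmL y x
    rw [dist_comm y x] at h2
    have h3 : |m x - m y| ≤ LL * dist x y := by
      rw [abs_le]
      constructor <;> linarith
    exact (div_le_self (abs_nonneg _) hM1).trans h3
  refine ⟨fun y => m y / M, t.sup' htne Cq, t.inf' htne εq, LL, ?_, ?_, ⟨?_, ?_, ?_, ?_, hlip⟩, ?_⟩
  · obtain ⟨a, ha⟩ := htne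
    exact (hCq0 a).trans_le (Finset.le_sup' Cq ha)
  · rw [Finset.lt_inf'_iff]
    exact fun a _ => hεq0 a
  · have : LipschitzWith ⟨LL, hLL0⟩ (fun y => m y / M) :=
      LipschitzWith.of_dist_le_mul fun x y => by rw [Real.dist_eq]; exact hlip x y
    exact this.continuous
  · exact fun y => div_nonneg (hm0 y) hMp.le
  · intro y
    obtain ⟨a, ha, h⟩ := hma y
    simp only [h]
    rw [div_le_one hMp]
    exact hM a ha y
  · -- QSM
    intro f z₀ r v H hr hv hvr hf hH hb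
    obtain ⟨a, ha, hmax⟩ := hma (f z₀)
    rcases (hw0 a (f z₀)).eq_or_lt with h0 | h0
    · simp only [hmax, ← h0, zero_div]
      exact (Real.exp_pos _).le
    have h0' := h0
    rw [hw] at h0'
    obtain ⟨hs, hφ1, hval⟩ := x8_val_pos h0'
    have hφ : phi A e (i a) a (R a) (f z₀) < 1 / 2 := by
      by_contra hcon
      push Not at hcon
      obtain ⟨b, hb, hsb, hφb⟩ := ht (f z₀)
      have h1 := hCm a b (f z₀) hs hφ1.le hsb (by linarith)
      have h2 : prd (S a) (F a) (f z₀) ≤ C₀ * prd (S b) (F b) (f z₀) :=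
        h1.trans (mul_le_mul_of_nonneg_right (hC₀ a ha b hb) (x8_prd_nonneg _ _ _))
      have h3 : w b (f z₀) = prd (S b) (F b) (f z₀) *
          Real.exp (-(K * phi A e (i b) b (R b) (f z₀))) := by
        rw [hw]
        exact x8_val_eq hsb (by linarith)
      have h4 : Real.exp (-(K / 4)) ≤ Real.exp (-(K * phi A e (i b) b (R b) (f z₀))) := by
        apply Real.exp_le_exp.2
        nlinarith
      have h5 : Real.exp (-(K * phi A e (i a) a (R a) (f z₀))) ≤ Real.exp (-(K / 2)) := by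
        apply Real.exp_le_exp.2
        nlinarith
      have h6 : Real.exp (-(K / 2)) = Real.exp (-(K / 4)) * Real.exp (-(K / 4)) := by
        rw [← Real.exp_add]
        congr 1
        ring
      have hpa := x8_prd_nonneg (S a) (F a) (f z₀)
      have hpb := x8_prd_nonneg (S b) (F b) (f z₀)
      have hpb' : 0 < prd (S b) (F b) (f z₀) := by
        rcases hpb.eq_or_lt with h7 | h7
        · exfalso
          rw [← h7, mul_zero] at h2
          have h8 : prd (S a) (F a) (f z₀) = 0 := le_antisymm h2 hpa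
          rw [h8, zero_mul] at hval
          exact absurd (h0'.trans_le hval) (lt_irrefl _)
        · exact h7
      have h7 : w a (f z₀) < w b (f z₀) := by
        calc w a (f z₀) ≤ prd (S a) (F a) (f z₀) *
              Real.exp (-(K * phi A e (i a) a (R a) (f z₀))) := by rw [hw]; exact hval
          _ ≤ prd (S a) (F a) (f z₀) * Real.exp (-(K / 2)) := mul_le_mul_of_nonneg_left h5 hpa
          _ ≤ C₀ * prd (S b) (F b) (f z₀) * Real.exp (-(K / 2)) :=
              mul_le_mul_of_nonneg_right h2 (Real.exp_pos _).le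
          _ = (C₀ * Real.exp (-(K / 4))) * (prd (S b) (F b) (f z₀) * Real.exp (-(K / 4))) := by
              rw [h6]; ring
          _ < 1 * (prd (S b) (F b) (f z₀) * Real.exp (-(K / 4))) :=
              mul_lt_mul_of_pos_right hKexp (mul_pos hpb' (Real.exp_pos _))
          _ = prd (S b) (F b) (f z₀) * Real.exp (-(K / 4)) := one_mul _
          _ ≤ w b (f z₀) := by
              rw [h3]
              exact mul_le_mul_of_nonneg_left h4 hpb
      have h8 := hle b hb (f z₀)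
      rw [hmax] at h8
      exact absurd (h7.trans_le h8) (lt_irrefl _)
    have hεa : v * r ≤ εq a := hvr.trans (Finset.inf'_le εq ha)
    have hres := hqs a f z₀ r v (fun z => H z + ((Real.log M : ℝ) : ℂ)) hr hv hεa hf
      (fun z hz => (hH z hz).add analyticAt_const) hs hφ (fun z hz => by
        have h1 := hb z hz
        rw [div_le_iff₀ hMp] at h1
        rw [Complex.add_re, Complex.ofReal_re, Real.exp_add, Real.exp_log hMp]
        exact (hle a ha (f z)).trans h1)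
    simp only [hmax]
    rw [div_le_iff₀ hMp]
    refine hres.trans ?_
    rw [Complex.add_re, Complex.ofReal_re]
    have h9 : Cq a * (v * r) ^ 2 ≤ t.sup' htne Cq * (v * r) ^ 2 :=
      mul_le_mul_of_nonneg_right (Finset.le_sup' Cq ha) (sq_nonneg _)
    calc Real.exp ((H z₀).re + Real.log M + Cq a * (v * r) ^ 2) ≤
        Real.exp ((H z₀).re + t.sup' htne Cq * (v * r) ^ 2 + Real.log M) :=
          Real.exp_le_exp.2 (by linarith)
      _ = Real.exp ((H z₀).re + t.sup' htne Cq * (v * r) ^ 2) * M := by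
          rw [Real.exp_add _ (Real.log M), Real.exp_log hMp]
  · -- zeros
    intro x
    constructor
    · intro h
      have h1 : m x = 0 := by
        rcases div_eq_zero_iff.1 h with h2 | h2
        · exact h2
        · exact absurd h2 hMp.ne'
      obtain ⟨b, hb, hsb, hφb⟩ := ht x
      have h3 : w b x = 0 := le_antisymm ((hle b hb x).trans h1.le) (hw0 b x)
      have h4 : w b x = prd (S b) (F b) x * Real.exp (-(K * phi A e (i b) b (R b) x)) := by
        rw [hw]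
        exact x8_val_eq hsb (by linarith)
      rw [h4] at h3
      have h5 : prd (S b) (F b) x = 0 := by
        rcases mul_eq_zero.1 h3 with h6 | h6
        · exact h6
        · exact absurd h6 (Real.exp_pos _).ne'
      exact (hz b x (x8_mem (hR b) hsb (by linarith))).1 h5
    · intro hx
      have h1 : m x = 0 := by
        obtain ⟨a, ha, h⟩ := hma x
        rw [h]
        rcases (hw0 a x).eq_or_lt with h0 | h0
        · exact h0.symm
        · exfalso
          rw [hw] at h0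
          obtain ⟨hs, hφ1, hval⟩ := x8_val_pos h0
          rw [(hz a x (x8_mem (hR a) hs hφ1.le)).2 hx, zero_mul] at hval
          exact absurd (h0.trans_le hval) (lt_irrefl _)
      simp only [h1, zero_div]

end

end Pool.Agent.SL

namespace Pool.Agent.SL

alias glue := glue_pr

end Pool.Agent.SL
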