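import Pool.Agent.Lib_helper80.SL.Base
import Pool.Agent.Lib_helper80.SL.Defs2
import Pool.Agent.Lib_helper80.SL.L.X4
import Pool.Agent.Lib_helper80.SL.L.X5
import Pool.Agent.Lib_helper80.SL.L.X8

-- block X9 (helper37)

set_option autoImplicit false
set_option linter.unusedVariables false
set_option linter.unusedSectionVars false

open Filter Topology Metric Set
open scoped Manifold ContDiff

namespace Pool.Agent.SL

open Pool.Agent.BR Pool.Agent.MBS

section

variable {E X : Type} [NormedAddCommGroup E] [NormedSpace ℂ E] [FiniteDimensional ℂ E]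
  [MetricSpace X] [CompactSpace X] {A : Cha E X}

theorem exists_exact_pr {lB LB : ℝ} (hB : BLip A lB LB) {c C : ℝ} (hc : 0 < c) (hC : 0 < C)
    {g : ℂ → X} (hg : g ∈ A.KK c C) (hper : DoublyPeriodic g) :
    ∃ (ρ : X → ℝ) (Cq εq Lp : ℝ), 0 < Cq ∧ 0 < εq ∧ Good A ρ Cq εq Lp ∧
      ∀ x, ρ x = 0 ↔ x ∈ range g := by
  have h := fun x : X => exists_ld hB hc hC hg hper x
  choose V S δ F T C' hxV hLD using h
  exact glue hB (range g) V S F (fun x => ⟨(hLD x).opn, hxV x⟩) (fun x => ld_an (hLD x))
    (fun x => ld_zero (hLD x)) (fun x x' y₀ h1 h2 => ld_compare (hLD x') (hLD x) h2 h1)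

end



end Pool.Agent.SL

namespace Pool.Agent.SL

alias exists_exact := exists_exact_pr

end Pool.Agent.SL
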