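import Pool.Agent.Lib_helper80.SL.Base
import Pool.Agent.Lib_helper80.SL.Defs2
import Pool.Agent.Lib_helper80.SL.L.X4

/-! Block Y1 (helper34): a curve whose image is in the image of `g` near a point factors through `g`
near this point (MP_45e720_ag). -/

set_option autoImplicit false
set_option linter.unusedVariables false
set_option linter.unusedSectionVars false

open Filter Topology Metric Set
open scoped Manifold ContDiff

namespace Pool.Agent.SL

open Pool.Agent.BR Pool.Agent.MBS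

section

variable {E X : Type} [NormedAddCommGroup E] [NormedSpace ℂ E] [FiniteDimensional ℂ E]
  [MetricSpace X] [CompactSpace X] {A : Cha E X}

theorem branch_factor_pr {lB LB : ℝ} (hB : BLip A lB LB) {c C : ℝ} (hc : 0 < c) (hC : 0 < C)
    {g : ℂ → X} (hg : g ∈ A.KK c C) (hper : DoublyPeriodic g) {f : ℂ → X} {z₁ : ℂ}
    (hf : A.HolAt f z₁) (h : ∀ᶠ z in 𝓝 z₁, f z ∈ range g) :
    ∃ P : ℂ → ℂ, AnalyticAt ℂ P z₁ ∧ ∀ᶠ z in 𝓝 z₁, f z = g (P z) := by
  obtain ⟨V, S, δ, F, T, C', hV, hLD⟩ := exists_ld hB hc hC hg hper (f z₁)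
  obtain ⟨i, hi⟩ := A.cover (f z₁)
  have hsrc : f z₁ ∈ (A.ch i).source := A.W_sub i (subset_closure hi)
  have hfV : ∀ᶠ z in 𝓝 z₁, f z ∈ V := hf.1.eventually (hLD.opn.mem_nhds hV)
  have hfs : ∀ᶠ z in 𝓝 z₁, f z ∈ (A.ch i).source :=
    hf.1.eventually ((A.ch i).open_source.mem_nhds hsrc)
  have hloc : AnalyticAt ℂ (A.loc i f) z₁ := hf.2 i hsrc
  have hinv : ∀ᶠ z in 𝓝 z₁, (A.ch i).symm (A.loc i f z) = f z := by
    filter_upwards [hfs] with z hz
    exact (A.ch i).left_inv hz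
  -- one of the branches is hit frequently
  have h1 : ∀ᶠ z in 𝓝 z₁, ∃ w ∈ S, F w (f z) = 0 := by
    filter_upwards [h, hfV] with z hz hzV
    have h2 := (ld_zero hLD (f z) hzV).2 hz
    unfold prd at h2
    rw [Finset.prod_eq_zero_iff] at h2
    obtain ⟨w, hw, h3⟩ := h2
    exact ⟨w, hw, norm_eq_zero.1 h3⟩
  obtain ⟨w, hwS, hw⟩ : ∃ w ∈ S, ∃ᶠ z in 𝓝[≠] z₁, F w (f z) = 0 := by
    by_contra hcon
    push Not at hcon
    have h2 : ∀ᶠ z in 𝓝[≠] z₁, ∀ w ∈ S, F w (f z) ≠ 0 := by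
      rw [Filter.eventually_all_finset]
      intro w hw
      exact hcon w hw
    have h3 : ∀ᶠ z in 𝓝[≠] z₁, ∃ w ∈ S, F w (f z) = 0 := h1.filter_mono nhdsWithin_le_nhds
    obtain ⟨z, hz1, hz2⟩ := (h2.and h3).exists
    obtain ⟨w, hw, h4⟩ := hz2
    exact hz1 w hw h4
  have hbr := hLD.br w hwS
  have hΦ : AnalyticAt ℂ (fun z => F w ((A.ch i).symm (A.loc i f z))) z₁ := by
    have h2 := hbr.F_an (f z₁) hV i hsrc
    exact AnalyticAt.fun_comp (g := fun ξ => F w ((A.ch i).symm ξ)) h2 hloc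
  have hP : AnalyticAt ℂ (fun z => T w ((A.ch i).symm (A.loc i f z))) z₁ := by
    have h2 := hbr.T_an (f z₁) hV i hsrc
    exact AnalyticAt.fun_comp (g := fun ξ => T w ((A.ch i).symm ξ)) h2 hloc
  have hzero : ∀ᶠ z in 𝓝 z₁, F w ((A.ch i).symm (A.loc i f z)) = 0 := by
    rcases hΦ.eventually_eq_zero_or_eventually_ne_zero with h2 | h2
    · exact h2
    · exfalso
      obtain ⟨z, hz1, hz2, hz3⟩ :=
        (hw.and_eventually (h2.and (hinv.filter_mono nhdsWithin_le_nhds))).exists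
      rw [hz3] at hz2
      exact hz2 hz1
  refine ⟨_, hP, ?_⟩
  filter_upwards [hzero, hinv, hfV] with z h2 h3 h4
  rw [h3] at h2 ⊢
  have h5 := hbr.low (f z) h4
  rw [h2, norm_zero, mul_zero] at h5
  exact dist_le_zero.1 h5

end



end Pool.Agent.SL

namespace Pool.Agent.SL

alias branch_factor := branch_factor_pr

end Pool.Agent.SL
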