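import Pool.Agent.Lib_helper80.SL.Base
import Pool.Agent.Lib_helper80.SL.L.B8
import Pool.Agent.Lib_helper80.SL.L.F1

/-! # Block F2 of SL: the local bound -/

set_option autoImplicit false
set_option linter.unusedVariables false
set_option linter.unusedSectionVars false

open Filter Topology Metric Set
open scoped Manifold ContDiff

namespace Pool.Agent.SL

open Pool.Agent.BR Pool.Agent.MBS

section

variable {E X : Type} [NormedAddCommGroup E] [NormedSpace ℂ E] [FiniteDimensional ℂ E]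
  [MetricSpace X] [CompactSpace X] {A : Cha E X}

theorem f2_qsm_mono {ρ : X → ℝ} {C ε C' ε' : ℝ} (h : QSM A ρ C ε) (hC : C ≤ C') (hε : ε' ≤ ε) :
    QSM A ρ C' ε' := by
  intro f z₀ r v H hr hv hvr hf hH hb
  refine (h f z₀ r v H hr hv (hvr.trans hε) hf hH hb).trans ?_
  apply Real.exp_le_exp.2
  have := mul_le_mul_of_nonneg_right hC (sq_nonneg (v * r))
  linarith

theorem f2_good_mono {ρ : X → ℝ} {C ε Lp C' ε' Lp' : ℝ} (h : Good A ρ C ε Lp) (hC : C ≤ C')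
    (hε : ε' ≤ ε) (hL : Lp ≤ Lp') : Good A ρ C' ε' Lp' where
  cont := h.cont
  nonneg := h.nonneg
  le_one := h.le_one
  qsm := f2_qsm_mono h.qsm hC hε
  lip x y := (h.lip x y).trans (mul_le_mul_of_nonneg_right hL dist_nonneg)

/-- finitely many numbers have an upper bound -/
theorem f2_upper {J : Type} [Finite J] (a : J → ℝ) : ∃ M > 0, ∀ j, a j ≤ M := by
  have := Fintype.ofFinite J
  refine ⟨1 + ∑ j, |a j|, by positivity, fun j => ?_⟩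
  have h1 : |a j| ≤ ∑ j, |a j| :=
    Finset.single_le_sum (f := fun j => |a j|) (fun i _ => abs_nonneg _) (Finset.mem_univ j)
  linarith [le_abs_self (a j)]

/-- finitely many positive numbers have a positive lower bound -/
theorem f2_lower {J : Type} [Finite J] (a : J → ℝ) (ha : ∀ j, 0 < a j) : ∃ m > 0, ∀ j, m ≤ a j := by
  obtain ⟨M, hM, h⟩ := f2_upper fun j => (a j)⁻¹
  refine ⟨M⁻¹, inv_pos.2 hM, fun j => ?_⟩
  rw [inv_le_comm₀ hM (ha j)]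
  exact h j

theorem f2_good {J : Type} [Finite J] (ρ : J → X → ℝ) (Cq εq Lp : J → ℝ) (h1 : ∀ j, 0 < εq j)
    (h : ∀ j, Good A (ρ j) (Cq j) (εq j) (Lp j)) :
    ∃ C ε L : ℝ, 0 < C ∧ 0 < ε ∧ ∀ j, Good A (ρ j) C ε L := by
  obtain ⟨C, hC, hC'⟩ := f2_upper Cq
  obtain ⟨L, _, hL'⟩ := f2_upper Lp
  obtain ⟨ε, hε, hε'⟩ := f2_lower εq h1
  exact ⟨C, ε, L, hC, hε, fun j => f2_good_mono (h j) (hC' j) (hε' j) (hL' j)⟩

variable {k m s : ℕ} (D : IJ A k m s)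

theorem f2_zal_mono {C₀ : ℝ} {f : ℂ → X} {U U' : Set ℂ} (h : D.Zal C₀ f U) (hU : U' ⊆ U) :
    D.Zal C₀ f U' :=
  fun z ρ B hρ hB hb hP i hi => h z ρ B hρ hB (hb.trans hU) hP i hi

theorem localbound_pr {lB LB : ℝ} (hB : BLip A lB LB) {C₀ : ℝ} (hC₀ : 0 < C₀) {L k' : ℕ}
    (F : A.Frm L k') (hk' : 0 < k') (x : X)
    (hx : ∀ g ∈ D.Fam (10 * C₀), ∃ (ρ : X → ℝ) (Cq εq Lp : ℝ), 0 < Cq ∧ 0 < εq ∧
      Good A ρ Cq εq Lp ∧ (∀ w, ρ (g w) = 0) ∧ 0 < ρ x) :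
    ∃ V ∈ 𝓝 x, ∃ C : ℝ, ∀ f : ℂ → X, (∀ z ∈ ball (0 : ℂ) 1, A.HolAt f z) →
      D.Zal C₀ f (ball 0 1) → f 0 ∈ V → ∀ i, f 0 ∈ A.W i → ‖deriv (A.loc i f) 0‖ ≤ C := by
  obtain ⟨𝒢, h𝒢, hsub, hall⟩ := fam_finite D (C := 10 * C₀) (by positivity) F hk'
  have : Finite 𝒢 := h𝒢.to_subtype
  choose ρ Cq εq Lp hCq hεq hgood hzero hpos using fun g : 𝒢 => hx g.1 (hsub g.2)
  obtain ⟨C, ε, L', hC, hε, hG⟩ := f2_good ρ Cq εq Lp hεq hgood
  obtain ⟨T, hT, A₀, hW⟩ := window_thm D hB hC₀ F hk' ρ hC hε hG 1 one_pos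
  obtain ⟨δ, hδ, hδ'⟩ := f2_lower (fun g : 𝒢 => ρ g x / 2) (fun g => half_pos (hpos g))
  obtain ⟨a₀, ha₀⟩ : ∃ a₀, a₀ = max A₀ (1 - Real.log δ) := ⟨_, rfl⟩
  have hexp : Real.exp (-a₀) < δ := by
    have h1 : -a₀ < Real.log δ := by
      have := le_max_right A₀ (1 - Real.log δ)
      rw [ha₀]; linarith
    calc Real.exp (-a₀) < Real.exp (Real.log δ) := Real.exp_lt_exp.2 h1
      _ = δ := Real.exp_log hδ
  obtain ⟨t₀, ht₀⟩ : ∃ t₀ : ℝ, t₀ = -1 - T := ⟨_, rfl⟩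
  have hr : Real.exp (t₀ + T) ≤ 1 := by
    rw [ht₀]
    exact Real.exp_le_one_iff.2 (by linarith)
  have hr' : Real.exp t₀ ≤ 1 := Real.exp_le_one_iff.2 (by rw [ht₀]; linarith)
  refine ⟨{y | ∀ g : 𝒢, ρ g x / 2 < ρ g y}, ?_,
    C₀ * (Real.exp (a₀ - t₀) + 1 / Real.exp t₀), ?_⟩
  · have h1 : ∀ g : 𝒢, ∀ᶠ y in 𝓝 x, ρ g x / 2 < ρ g y := fun g =>
      ((hgood g).cont.continuousAt).eventually (lt_mem_nhds (half_lt_self (hpos g)))
    exact Filter.eventually_all.2 h1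
  · intro f hf hZ hfV i hi
    by_cases hcase : ∀ w ∈ ball (0 : ℂ) (Real.exp t₀), ‖D.PP f w‖ ≤ Real.exp (a₀ - t₀) ^ m
    · exact hZ 0 (Real.exp t₀) (Real.exp (a₀ - t₀)) (Real.exp_pos _) (Real.exp_pos _).le
        (ball_subset_ball hr') hcase i hi
    · push Not at hcase
      obtain ⟨w, hw, hw'⟩ := hcase
      exfalso
      obtain ⟨g, hg, hg1, _⟩ := hW a₀ t₀ f (by rw [ha₀]; exact le_max_left _ _)
        (fun z hz => hf z (ball_subset_ball hr hz)) (f2_zal_mono D hZ (ball_subset_ball hr))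
        ⟨w, by
          rw [mem_ball_zero_iff] at hw
          exact hw.le, by
          rw [← Real.exp_nat_mul] at hw'
          exact hw'.le⟩
      obtain ⟨h, hh, a, b, _, hgh⟩ := hall g hg
      have h2 := hg1 ⟨h, hh⟩ (fun w => by
        rw [hgh]
        exact hzero ⟨h, hh⟩ _)
      have h3 := hfV ⟨h, hh⟩
      have h4 := hδ' ⟨h, hh⟩
      linarith

end

end Pool.Agent.SL

namespace Pool.Agent.SL

alias localbound := localbound_pr

end Pool.Agent.SL
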