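import Pool.Agent.Lib_helper80.SL.Base
import Pool.Agent.Lib_helper80.SL.Defs2
import Pool.Agent.Lib_helper82.BR.Top
import Pool.Agent.Lib_helper80.SL.L.B1
import Pool.Agent.Lib_helper80.SL.L.B2
import Pool.Agent.Lib_helper80.SL.L.B5
import Pool.Agent.Lib_helper80.SL.L.B8
import Pool.Agent.Lib_helper80.SL.L.C0
import Pool.Agent.Lib_helper80.SL.L.F2
import Pool.Agent.Lib_helper80.SL.L.P10
import Pool.Agent.Lib_helper80.SL.L.X9
import Pool.Agent.Lib_helper80.SL.L.Y1

/-! # Block Y2 of SL: local bound with exact image, factorisation without projectivity (helper12) -/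

set_option autoImplicit false
set_option linter.unusedVariables false
set_option linter.unusedSectionVars false

open Filter Topology Metric Set
open scoped Manifold ContDiff

namespace Pool.Agent.SL

open Pool.Agent.BR Pool.Agent.MBS

section

variable {E X : Type} [NormedAddCommGroup E] [NormedSpace ℂ E] [FiniteDimensional ℂ E]
  [MetricSpace X] [CompactSpace X] {A : Cha E X}

/-- a curve with velocity zero is constant -/
theorem y2_const {f : ℂ → X} (hf : ∀ z, A.HolAt f z)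
    (h0 : ∀ z i, f z ∈ A.W i → deriv (A.loc i f) z = 0) (z z' : ℂ) : f z = f z' := by
  by_contra hne
  have hd : 0 < dist (f z) (f z') := dist_pos.2 hne
  obtain ⟨δ, hδ, hl⟩ := lequi A 0 (dist (f z) (f z')) hd
  obtain ⟨r, hr, hrz⟩ : ∃ r : ℝ, 0 < r ∧ ‖z - z'‖ < r * δ := by
    refine ⟨(‖z - z'‖ + 1) / δ, by positivity, ?_⟩
    rw [div_mul_cancel₀ _ hδ.ne']
    linarith
  have hrc : (r : ℂ) ≠ 0 := Complex.ofReal_ne_zero.2 hr.ne'
  have hHB : HB A (fun u => f ((r : ℂ) * u)) univ 0 := by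
    intro u _
    have han : AnalyticAt ℂ (fun u : ℂ => (r : ℂ) * u) u := by fun_prop
    obtain ⟨h1, h2⟩ := hol_comp (A := A) (f := f) han (hf ((r : ℂ) * u))
    refine ⟨h1, fun i hi => ?_⟩
    rw [h2 i (A.W_sub i (subset_closure hi)), h0 _ i hi, smul_zero, norm_zero]
  have h3 := hl _ univ convex_univ isOpen_univ hHB (z / r) (mem_univ _) (z' / r) (mem_univ _) (by
    rw [← sub_div, norm_div, Complex.norm_real, Real.norm_eq_abs, abs_of_pos hr,
      div_lt_iff₀ hr, mul_comm]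
    exact hrz)
  simp only [mul_div_cancel₀ _ hrc] at h3
  exact lt_irrefl _ h3

variable {k m s : ℕ} (D : IJ A k m s)

/-- the jet differentials do not vanish identically -/
theorem y2_ne {C₀ : ℝ} {f : ℂ → X} (hf : ∀ z, A.HolAt f z) (hne : ∃ z z', f z ≠ f z')
    (hz : D.Zal C₀ f univ) : ∃ z, D.PP f z ≠ 0 := by
  by_contra hc
  push Not at hc
  obtain ⟨z, z', hzz⟩ := hne
  refine hzz (y2_const hf (fun z i hi => ?_) z z')
  have hb : ∀ ρ : ℝ, 0 < ρ → ‖deriv (A.loc i f) z‖ ≤ C₀ * (0 + 1 / ρ) := by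
    intro ρ hρ
    refine hz z ρ 0 hρ le_rfl (subset_univ _) (fun w _ => ?_) i hi
    rw [hc w, norm_zero]
    positivity
  have hlim : Tendsto (fun ρ : ℝ => C₀ * (0 + 1 / ρ)) atTop (𝓝 0) := by
    have h1 : Tendsto (fun ρ : ℝ => 1 / ρ) atTop (𝓝 0) := by
      simpa using tendsto_inv_atTop_zero (𝕜 := ℝ)
    have h2 := (h1.const_add 0).const_mul C₀
    simpa using h2
  have h3 : ‖deriv (A.loc i f) z‖ ≤ 0 :=
    ge_of_tendsto hlim ((eventually_gt_atTop 0).mono hb)
  exact norm_le_zero_iff.1 h3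

/-- the affine reparametrisation `u ↦ f (z + R u)` -/
theorem y2_resc {f : ℂ → X} (hf : ∀ z, A.HolAt f z) (z : ℂ) (R : ℝ) (w : ℂ) :
    A.HolAt (fun u => f (z + R * u)) w ∧
      (∀ i, f (z + R * w) ∈ A.W i →
        deriv (A.loc i fun u => f (z + R * u)) w = (R : ℂ) • deriv (A.loc i f) (z + R * w)) ∧
      D.PP (fun u => f (z + R * u)) w = (R : ℂ) ^ m • D.PP f (z + R * w) := by
  have han : AnalyticAt ℂ (fun u : ℂ => z + (R : ℂ) * u) w := by fun_prop
  have hd : deriv (fun u : ℂ => z + (R : ℂ) * u) w = R := by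
    have h1 : HasDerivAt (fun u : ℂ => z + (R : ℂ) * u) ((R : ℂ) * 1) w :=
      ((hasDerivAt_id w).const_mul (R : ℂ)).const_add z
    rw [h1.deriv, mul_one]
  obtain ⟨h1, h2⟩ := hol_comp (A := A) (f := f) han (hf (z + R * w))
  refine ⟨h1, fun i hi => ?_, ?_⟩
  · rw [h2 i (A.W_sub i (subset_closure hi)), hd]
  · rw [pp_comp D (φ := fun u : ℂ => z + (R : ℂ) * u) han (hf _), hd]

theorem y2_zal {C₀ : ℝ} {f : ℂ → X} (hf : ∀ z, A.HolAt f z) (hz : D.Zal C₀ f univ) (z : ℂ)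
    {R : ℝ} (hR : 0 < R) (U : Set ℂ) : D.Zal C₀ (fun u => f (z + R * u)) U := by
  intro w ρ B hρ hB _ hb i hi
  obtain ⟨_, h2, _⟩ := y2_resc D hf z R w
  have hRc : (R : ℂ) ≠ 0 := Complex.ofReal_ne_zero.2 hR.ne'
  have hm : 0 < R ^ m := by positivity
  have h4 := hz (z + R * w) (R * ρ) (B / R) (by positivity) (by positivity) (subset_univ _)
    (fun v hv => by
      have h5 : z + R * ((v - z) / R) = v := by
        rw [mul_div_cancel₀ _ hRc]; ring
      have h6 := hb ((v - z) / R) (by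
        rw [mem_ball, dist_eq_norm] at hv ⊢
        have h7 : (v - z) / R - w = (v - (z + R * w)) / R := by
          field_simp
          ring
        rw [h7, norm_div, Complex.norm_real, Real.norm_eq_abs, abs_of_pos hR, div_lt_iff₀ hR,
          mul_comm ρ R]
        exact hv)
      obtain ⟨_, _, h8⟩ := y2_resc D hf z R ((v - z) / R)
      rw [h8, h5, norm_smul, norm_pow, Complex.norm_real, Real.norm_eq_abs, abs_of_pos hR] at h6
      rw [div_pow, le_div_iff₀ hm, mul_comm]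
      exact h6) i hi
  have h9 : ‖deriv (A.loc i fun u => f (z + R * u)) w‖ =
      R * ‖deriv (A.loc i f) (z + R * w)‖ := by
    rw [h2 i hi, norm_smul, Complex.norm_real, Real.norm_eq_abs, abs_of_pos hR]
  rw [h9]
  calc R * ‖deriv (A.loc i f) (z + R * w)‖ ≤ R * (C₀ * (B / R + 1 / (R * ρ))) :=
        mul_le_mul_of_nonneg_left h4 hR.le
    _ = C₀ * (B + 1 / ρ) := by
        field_simp

theorem localbound2_pr {lB LB : ℝ} (hB : BLip A lB LB) {C₀ : ℝ} (hC₀ : 0 < C₀) {L k' : ℕ}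
    (F : A.Frm L k') (hk' : 0 < k') (x : X) (hx : ∀ g ∈ D.Fam (10 * C₀), x ∉ range g) :
    ∃ V ∈ 𝓝 x, ∃ C : ℝ, ∀ f : ℂ → X, (∀ z ∈ ball (0 : ℂ) 1, A.HolAt f z) →
      D.Zal C₀ f (ball 0 1) → f 0 ∈ V → ∀ i, f 0 ∈ A.W i → ‖deriv (A.loc i f) 0‖ ≤ C := by
  refine localbound D hB hC₀ F hk' x fun g hg => ?_
  have hC : 0 < 10 * C₀ := by positivity
  obtain ⟨c, hc, hcK⟩ := fam_kk D (10 * C₀)
  have hKK := hcK hg
  have hper : DoublyPeriodic g := kk_periodic F hk' hc hC hKK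
  obtain ⟨ρ, Cq, εq, Lp, hCq, hεq, hgood, hzero⟩ := exists_exact hB hc hC hKK hper
  refine ⟨ρ, Cq, εq, Lp, hCq, hεq, hgood, fun w => (hzero _).2 ⟨w, rfl⟩, ?_⟩
  refine lt_of_le_of_ne (hgood.nonneg x) fun h => ?_
  exact hx g hg ((hzero x).1 h.symm)

theorem entire_factor2_pr {lB LB : ℝ} (hB : BLip A lB LB) {C₀ : ℝ} (hC₀ : 0 < C₀) {L k' : ℕ}
    (F : A.Frm L k') (hk' : 0 < k') {f : ℂ → X} (hf : ∀ z, A.HolAt f z)
    (hne : ∃ z z', f z ≠ f z') (hz : D.Zal C₀ f univ) :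
    ∃ g ∈ D.Fam (10 * C₀), ∃ P : ℂ → ℂ, Differentiable ℂ P ∧ ∀ z, f z = g (P z) := by
  have hC : 0 < 10 * C₀ := by positivity
  obtain ⟨𝒢, hfin, hsub, heq⟩ := fam_finite D hC F hk'
  have : Finite 𝒢 := hfin.to_subtype
  obtain ⟨c, hc, hcK⟩ := fam_kk D (10 * C₀)
  have hcont : Continuous f := continuous_iff_continuousAt.2 fun z => (hf z).1
  -- the points of `f` are on the curves of the family
  have hpt : ∀ z₀ : ℂ, ∃ h : 𝒢, f z₀ ∈ range (h : ℂ → X) := by
    intro z₀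
    by_contra hcon
    push Not at hcon
    have hx : ∀ g ∈ D.Fam (10 * C₀), f z₀ ∉ range g := by
      rintro g hg ⟨w, hw⟩
      obtain ⟨h, hh, a, b, _, hab⟩ := heq g hg
      refine hcon ⟨h, hh⟩ ⟨a * w + b, ?_⟩
      rw [← hw, hab]
    obtain ⟨V, hV, C, hVC⟩ := localbound2_pr D hB hC₀ F hk' (f z₀) hx
    have hnear : ∀ᶠ z in 𝓝 z₀, f z ∈ V := hcont.continuousAt hV
    have hPP : ∀ᶠ z in 𝓝 z₀, D.PP f z = 0 := by
      refine hnear.mono fun z hzV => ?_
      obtain ⟨i, hi⟩ := A.cover (f z)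
      refine pp_zero D (hf z) (A.W_sub i (subset_closure hi)) ?_
      have hb : ∀ R : ℝ, 0 < R → ‖deriv (A.loc i f) z‖ ≤ C / R := by
        intro R hR
        have h1 := hVC (fun u => f (z + R * u)) (fun u _ => (y2_resc D hf z R u).1)
          (y2_zal D hf hz z hR _) (by simpa using hzV) i (by simpa using hi)
        rw [(y2_resc D hf z R 0).2.1 i (by simpa using hi), norm_smul, Complex.norm_real,
          Real.norm_eq_abs, abs_of_pos hR, mul_zero, add_zero] at h1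
        rw [le_div_iff₀ hR, mul_comm]
        exact h1
      have hlim : Tendsto (fun R : ℝ => C / R) atTop (𝓝 0) := tendsto_const_nhds.div_atTop tendsto_id
      have h3 : ‖deriv (A.loc i f) z‖ ≤ 0 :=
        ge_of_tendsto hlim ((eventually_gt_atTop 0).mono hb)
      exact norm_le_zero_iff.1 h3
    have han : AnalyticOnNhd ℂ (D.PP f) univ := fun z _ => pp_an D (hf z)
    have hall : D.PP f = fun _ => 0 := by
      refine AnalyticOnNhd.eq_of_eventuallyEq han (fun z _ => analyticAt_const) (z₀ := z₀) ?_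
      exact hPP
    obtain ⟨z, hz'⟩ := y2_ne D hf hne hz
    exact hz' (by rw [hall])
  -- one of the closed sets has an interior point
  have hclosed : ∀ h : 𝒢, IsClosed {z | f z ∈ range (h : ℂ → X)} := by
    intro h
    have hKK := hcK (hsub h.2)
    have hper : DoublyPeriodic (h : ℂ → X) := kk_periodic F hk' hc hC hKK
    obtain ⟨ρ, Cq, εq, Lp, hCq, hεq, hgood, hzero⟩ := exists_exact hB hc hC hKK hper
    have h1 : {z | f z ∈ range (h : ℂ → X)} = {z | ρ (f z) = 0} := by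
      ext z
      exact (hzero (f z)).symm
    rw [h1]
    exact isClosed_eq (hgood.cont.comp hcont) continuous_const
  have hU : ⋃ h : 𝒢, {z | f z ∈ range (h : ℂ → X)} = univ := by
    refine eq_univ_of_forall fun z => ?_
    rw [mem_iUnion]
    exact hpt z
  obtain ⟨h, z₁, hz₁⟩ := nonempty_interior_of_iUnion_of_closed hclosed hU
  have hev : ∀ᶠ z in 𝓝 z₁, f z ∈ range (h : ℂ → X) := mem_interior_iff_mem_nhds.1 hz₁
  have hKK := hcK (hsub h.2)
  have hper : DoublyPeriodic (h : ℂ → X) := kk_periodic F hk' hc hC hKK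
  obtain ⟨P₀, hP₀, hP₁⟩ := branch_factor hB hc hC hKK hper (hf z₁) hev
  obtain ⟨P, hP1, hP2⟩ := continuation D (hsub h.2) hf hne hP₀ hP₁
  exact ⟨h, hsub h.2, P, hP1, hP2⟩




end

end Pool.Agent.SL

namespace Pool.Agent.SL

alias localbound2 := localbound2_pr
alias entire_factor2 := entire_factor2_pr

end Pool.Agent.SL
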