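import Pool.Agent.Lib_helper80.SL.Base
import Pool.Agent.Lib_helper80.SL.Defs2
import Pool.Agent.Lib_helper82.BR.B.VEL

/-! Block Y3 (helper34): hyperbolic at a point implies that the entire curves and the images of tori
through it are constant (MP_45e720_ag). -/

set_option autoImplicit false
set_option linter.unusedVariables false
set_option linter.unusedSectionVars false

open Filter Topology Metric Set
open scoped Manifold ContDiff

namespace Pool.Agent.SL

open Pool.Agent.BR Pool.Agent.MBS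

section man

variable {E X : Type} [NormedAddCommGroup E] [NormedSpace ℂ E] [FiniteDimensional ℂ E]
  [MetricSpace X] [CompactSpace X] [ChartedSpace E X] [IsManifold 𝓘(ℂ, E) ω X]

/-- the chart expression of `f` is differentiable where it is defined -/
theorem y3_diff {f : ℂ → X} (hf : MDifferentiable 𝓘(ℂ, ℂ) 𝓘(ℂ, E) f) (y : X) (z : ℂ)
    (hz : f z ∈ (chartAt E y).source) : DifferentiableAt ℂ (fun w => chartAt E y (f w)) z := by
  have : IsManifold 𝓘(ℂ, E) 1 X := IsManifold.of_le (n := ω) le_top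
  have h1 : MDifferentiableAt 𝓘(ℂ, E) 𝓘(ℂ, E) (chartAt E y) (f z) :=
    mdifferentiableAt_atlas (I := 𝓘(ℂ, E)) (chart_mem_atlas E y) hz
  have h2 : MDifferentiableAt 𝓘(ℂ, ℂ) 𝓘(ℂ, E) (chartAt E y ∘ f) z := h1.comp z (hf z)
  rw [mdifferentiableAt_iff_differentiableAt] at h2
  exact h2

/-- the chart expression of `f` is analytic where it is defined -/
theorem y3_an {f : ℂ → X} (hf : MDifferentiable 𝓘(ℂ, ℂ) 𝓘(ℂ, E) f) (y : X) (z : ℂ)
    (hz : f z ∈ (chartAt E y).source) : AnalyticAt ℂ (fun w => chartAt E y (f w)) z := by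
  have hU : IsOpen (f ⁻¹' (chartAt E y).source) :=
    (chartAt E y).open_source.preimage hf.continuous
  have h1 : DifferentiableOn ℂ (fun w => chartAt E y (f w)) (f ⁻¹' (chartAt E y).source) :=
    fun w hw => (y3_diff hf y w hw).differentiableWithinAt
  exact h1.analyticAt (hU.mem_nhds hz)

/-- the rescaled curve -/
theorem y3_resc {f : ℂ → X} (hf : MDifferentiable 𝓘(ℂ, ℂ) 𝓘(ℂ, E) f) (z R : ℂ) :
    MDifferentiable 𝓘(ℂ, ℂ) 𝓘(ℂ, E) (fun w => f (z + R * w)) := by
  have h1 : MDifferentiable 𝓘(ℂ, ℂ) 𝓘(ℂ, ℂ) (fun w : ℂ => z + R * w) := by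
    rw [mdifferentiable_iff_differentiable]
    fun_prop
  exact hf.comp h1

/-- a curve which is constant near a point is constant -/
theorem y3_const {f : ℂ → X} (hf : MDifferentiable 𝓘(ℂ, ℂ) 𝓘(ℂ, E) f) {z₁ : ℂ} {x : X}
    (h : ∀ᶠ z in 𝓝 z₁, f z = x) : ∀ z, f z = x := by
  set S : Set ℂ := {z | ∀ᶠ w in 𝓝 z, f w = x} with hS
  have hSo : IsOpen S := isOpen_setOfPred_eventually_nhds
  have hSc : IsClosed S := by
    rw [← isOpen_compl_iff, isOpen_iff_mem_nhds]
    intro z hz
    by_contra hcon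
    have hfr : ∃ᶠ w in 𝓝 z, w ∈ S := by
      intro h2
      exact hcon h2
    have hfz : f z = x := by
      have hcl : IsClosed {w : ℂ | f w = x} := isClosed_eq hf.continuous continuous_const
      have h3 : ∃ᶠ w in 𝓝 z, w ∈ {w : ℂ | f w = x} := hfr.mono fun w hw => hw.self_of_nhds
      exact hcl.mem_of_frequently_of_tendsto h3 tendsto_id
    have hsrc : f z ∈ (chartAt E x).source := by rw [hfz]; exact mem_chart_source E x
    have han := y3_an hf x z hsrc
    rcases han.eventually_eq_or_eventually_ne (analyticAt_const (v := chartAt E x x)) with h4 | h4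
    · apply hz
      have h5 : ∀ᶠ w in 𝓝 z, f w ∈ (chartAt E x).source :=
        hf.continuous.continuousAt.eventually ((chartAt E x).open_source.mem_nhds hsrc)
      show ∀ᶠ w in 𝓝 z, f w = x
      filter_upwards [h4, h5] with w h6 h7
      rw [← (chartAt E x).left_inv h7, h6]
      exact (chartAt E x).left_inv (mem_chart_source E x)
    · rw [eventually_nhdsWithin_iff] at h4
      obtain ⟨w, hw, hw2⟩ := (hfr.and_eventually h4).exists
      have hwz : w ≠ z := by
        rintro rfl
        exact hz hw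
      exact hw2 hwz (by rw [hw.self_of_nhds])
  have hun : S = univ := IsClopen.eq_univ ⟨hSc, hSo⟩ ⟨z₁, h⟩
  intro z
  have : z ∈ S := by rw [hun]; trivial
  exact this.self_of_nhds

/-- the velocity of an entire curve vanishes at the points which it maps to `V` -/
theorem y3_zero {V : Set X} {K : Set (TangentBundle 𝓘(ℂ, E) X)} (hK : IsCompact K)
    (hb : ∀ f : ℂ → X, MDifferentiableOn 𝓘(ℂ, ℂ) 𝓘(ℂ, E) f (ball 0 1) → f 0 ∈ V →
      BrodyRigid.velocity (E := E) f 0 ∈ K) {f : ℂ → X}
    (hf : MDifferentiable 𝓘(ℂ, ℂ) 𝓘(ℂ, E) f) (y : X) (z : ℂ) (hV : f z ∈ V)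
    (hz : f z ∈ (chartAt E y).source) : deriv (fun w => chartAt E y (f w)) z = 0 := by
  have hc : Continuous (fun p : TangentBundle 𝓘(ℂ, E) X => p.1) :=
    FiberBundle.continuous_proj E (TangentSpace 𝓘(ℂ, E) : X → Type)
  have hK' : IsCompact (K ∩ {p : TangentBundle 𝓘(ℂ, E) X | p.1 ∈ ({f z} : Set X)}) :=
    hK.inter_right (isClosed_singleton.preimage hc)
  have hsub : K ∩ {p : TangentBundle 𝓘(ℂ, E) X | p.1 ∈ ({f z} : Set X)} ⊆
      {p | p.1 ∈ (chartAt E y).source} := by
    intro p hp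
    have h1 : p.1 = f z := hp.2
    show p.1 ∈ (chartAt E y).source
    rw [h1]
    exact hz
  obtain ⟨C, hC⟩ := hK'.exists_bound_of_continuousOn ((vel_cont y).mono hsub)
  set v := deriv (fun w => chartAt E y (f w)) z with hv
  have key : ∀ n : ℕ, (n : ℝ) * ‖v‖ ≤ C := by
    intro n
    set g : ℂ → X := fun w => f (z + (n : ℂ) * w) with hg
    have hgd : MDifferentiable 𝓘(ℂ, ℂ) 𝓘(ℂ, E) g := y3_resc hf z n
    have hg0 : g 0 = f z := by simp [hg]
    have h1 : velocity (E := E) g 0 ∈ K := by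
      refine hb g hgd.mdifferentiableOn ?_
      rw [hg0]
      exact hV
    have h2 := hC (velocity (E := E) g 0) ⟨h1, hg0⟩
    rw [norm_norm, ← vel_coord y g 0 (hgd 0) (by rw [hg0]; exact hz)] at h2
    have h3 : deriv (fun w => chartAt E y (g w)) 0 = (n : ℂ) • v := by
      have h4 : HasDerivAt (fun w => chartAt E y (f w)) v (z + (n : ℂ) * 0) := by
        rw [mul_zero, add_zero]
        exact (y3_diff hf y z hz).hasDerivAt
      have h5 : HasDerivAt (fun w : ℂ => z + (n : ℂ) * w) (n : ℂ) 0 := by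
        simpa using ((hasDerivAt_id (0 : ℂ)).const_mul (n : ℂ)).const_add z
      exact (HasDerivAt.scomp (0 : ℂ) h4 h5).deriv
    rw [h3, norm_smul] at h2
    simpa using h2
  by_contra hne
  have hpos : 0 < ‖v‖ := norm_pos_iff.2 hne
  obtain ⟨n, hn⟩ := exists_nat_gt (C / ‖v‖)
  rw [div_lt_iff₀ hpos] at hn
  exact absurd (key n) (not_le.2 hn)

theorem hyp_entire_pr {x : X} (h : StrongLang.HyperbolicAt E x) :
    StrongLang.EntireConstantAt E x := by
  intro f hf hx
  obtain ⟨z₁, hz₁⟩ := hx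
  obtain ⟨V, hV, K, hK, hb⟩ := h
  obtain ⟨V', hV'V, hV'o, hxV'⟩ := _root_.mem_nhds_iff.1 hV
  have hloc : ∀ᶠ z in 𝓝 z₁, f z = x := by
    have hU : IsOpen (f ⁻¹' ((chartAt E x).source ∩ V')) :=
      ((chartAt E x).open_source.inter hV'o).preimage hf.continuous
    have hz₀ : z₁ ∈ f ⁻¹' ((chartAt E x).source ∩ V') := by
      show f z₁ ∈ (chartAt E x).source ∩ V'
      rw [hz₁]
      exact ⟨mem_chart_source E x, hxV'⟩
    obtain ⟨r, hr, hball⟩ := Metric.isOpen_iff.1 hU z₁ hz₀
    filter_upwards [ball_mem_nhds z₁ hr] with z hz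
    have h1 : DifferentiableOn ℂ (fun w => chartAt E x (f w)) (ball z₁ r) :=
      fun w hw => (y3_diff hf x w (hball hw).1).differentiableWithinAt
    have h2 : EqOn (deriv (fun w => chartAt E x (f w))) 0 (ball z₁ r) :=
      fun w hw => y3_zero hK hb hf x w (hV'V (hball hw).2) (hball hw).1
    have h3 := isOpen_ball.is_const_of_deriv_eq_zero (convex_ball z₁ r).isPreconnected h1 h2 hz
      (mem_ball_self hr)
    have h4 := (chartAt E x).left_inv (hball hz).1
    have h5 := (chartAt E x).left_inv hz₀.1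
    calc f z = (chartAt E x).symm (chartAt E x (f z)) := h4.symm
      _ = (chartAt E x).symm (chartAt E x (f z₁)) := congrArg _ h3
      _ = f z₁ := h5
      _ = x := hz₁
  intro z z'
  rw [y3_const hf hloc z, y3_const hf hloc z']

theorem torus_entire_pr {x : X} (h : StrongLang.EntireConstantAt E x) :
    StrongLang.TorusConstantAt E x := by
  intro V _ _ _ Λ _ _ f hf _ hx
  obtain ⟨v₁, hv₁⟩ := hx
  have key : ∀ z : V, f z = f v₁ := by
    intro z
    have h1 : MDifferentiable 𝓘(ℂ, ℂ) 𝓘(ℂ, E) fun s : ℂ => f (v₁ + s • (z - v₁)) := by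
      refine hf.comp ?_
      rw [mdifferentiable_iff_differentiable]
      fun_prop
    have h2 := h _ h1 ⟨0, by simpa using hv₁⟩ 1 0
    simpa using h2
  intro z z'
  rw [key z, key z']

end man





end Pool.Agent.SL

namespace Pool.Agent.SL

alias hyp_entire := hyp_entire_pr
alias torus_entire := torus_entire_pr

end Pool.Agent.SL
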